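import Pool.Agent.Helper60.SV.H4

/-!
# SV-H5: almost every centre

PROOF. `ae_range` for `ε = 1/(j+1)`, all `j` (`ae_all_iff`), on the unit square; `erc H c R` is `ℤ²`-periodic in `c` (private `cntc_add64` in SC.T3, copy it), so the exceptional set of all of the plane is contained in the union of the integer translates of a null set (as at the end of
`ae_block`, SC.T3). `ae_bd`: for `R ≥ 2^N₀` by `ae_range` (`2^N ≤ R`), for `R ≤ 2^N₀` by `cntc_bdd`. `ae_mom`: sum over `N₀ ≤ N`, `2^N ≤ X` (as at the end of `ae_twelfth`, SC.T4), the part up to `2^N₀` is a constant (`erc_meas`).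
-/

open MeasureTheory Real Set Filter Topology

set_option autoImplicit false

namespace Pool.Agent.Helper60.SV

open Pool.Agent.Helper22.AE
open Pool.Agent.Helper22.AC
open Pool.Agent.Helper22.SC (erc Mom)

private lemma cntc_add_h5 (H : ℝ → ℝ) (c : ℝ × ℝ) (m : ℤ × ℤ) (R : ℝ) :
    cntc H (c + ((m.1 : ℝ), (m.2 : ℝ))) R = cntc H c R := by
  unfold cntc
  congr 1
  refine Nat.card_congr ((Equiv.subRight m).subtypeEquiv fun k => ?_)
  have h1 : (((Equiv.subRight m) k).1 : ℝ) - c.1 = (k.1 : ℝ) - (c + ((m.1 : ℝ), (m.2 : ℝ))).1 := by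
    simp only [Equiv.subRight_apply, Prod.fst_sub, Prod.fst_add]
    push_cast
    ring
  have h2 : (((Equiv.subRight m) k).2 : ℝ) - c.2 = (k.2 : ℝ) - (c + ((m.1 : ℝ), (m.2 : ℝ))).2 := by
    simp only [Equiv.subRight_apply, Prod.snd_sub, Prod.snd_add]
    push_cast
    ring
  rw [h1, h2]

private lemma erc_fract_h5 (H : ℝ → ℝ) (c : ℝ × ℝ) (R : ℝ) :
    erc H (c - ((⌊c.1⌋ : ℝ), (⌊c.2⌋ : ℝ))) R = erc H c R := by
  unfold erc
  have h1 := cntc_add_h5 H (c - ((⌊c.1⌋ : ℝ), (⌊c.2⌋ : ℝ))) (⌊c.1⌋, ⌊c.2⌋) R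
  simp only [sub_add_cancel] at h1
  rw [← h1]

/-- The ae statement on a set of representatives. -/
private lemma ae_periodic_h5 {P : ℝ × ℝ → Prop} (hP : ∀ c : ℝ × ℝ, P (c - ((⌊c.1⌋ : ℝ), (⌊c.2⌋ : ℝ))) → P c)
    (h : ∀ᵐ c : ℝ × ℝ, c ∈ Icc (0 : ℝ) 1 ×ˢ Icc (0 : ℝ) 1 → P c) : ∀ᵐ c : ℝ × ℝ, P c := by
  have h1 : ∀ m : ℤ × ℤ, ∀ᵐ c : ℝ × ℝ, c - ((m.1 : ℝ), (m.2 : ℝ)) ∈ Icc (0 : ℝ) 1 ×ˢ Icc (0 : ℝ) 1 →
      P (c - ((m.1 : ℝ), (m.2 : ℝ))) := by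
    intro m
    exact (measurePreserving_sub_right (volume : Measure (ℝ × ℝ)) ((m.1 : ℝ), (m.2 : ℝ))).quasiMeasurePreserving.ae h
  have h2 := ae_all_iff.mpr h1
  filter_upwards [h2] with c hc
  apply hP
  refine hc (⌊c.1⌋, ⌊c.2⌋) ?_
  refine ⟨⟨?_, ?_⟩, ⟨?_, ?_⟩⟩
  · simp only [Prod.fst_sub]
    linarith [Int.floor_le c.1]
  · simp only [Prod.fst_sub]
    linarith [Int.lt_floor_add_one c.1]
  · simp only [Prod.snd_sub]
    linarith [Int.floor_le c.2]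
  · simp only [Prod.snd_sub]
    linarith [Int.lt_floor_add_one c.2]

private theorem moment_h5 {f : ℝ → ℝ} (hf : ∀ r, 0 ≤ f r) {s K : ℝ} (hs : 1 ≤ s) (hK : 0 ≤ K) {N₁ : ℕ}
    (hint : ∀ a b : ℝ, 1 ≤ a → IntegrableOn f (Icc a b))
    (hbl : ∀ N : ℕ, N₁ ≤ N → ∫ r in Icc ((2 : ℝ) ^ N) (2 * 2 ^ N), f r ≤ K * ((2 : ℝ) ^ N) ^ s) :
    ∃ C : ℝ, ∀ X : ℝ, 1 ≤ X → ∫ r in (1 : ℝ)..X, f r ≤ C * X ^ s := by
  have hpow : ∀ N : ℕ, (1 : ℝ) ≤ 2 ^ N := fun N => one_le_pow₀ (by norm_num)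
  have hii : ∀ a b : ℝ, 1 ≤ a → a ≤ b → IntervalIntegrable f volume a b := by
    intro a b ha hab
    rw [intervalIntegrable_iff_integrableOn_Icc_of_le hab]
    exact hint a b ha
  have hmono : ∀ a b : ℝ, 1 ≤ a → a ≤ b → ∫ r in (1 : ℝ)..a, f r ≤ ∫ r in (1 : ℝ)..b, f r := by
    intro a b ha hab
    rw [← intervalIntegral.integral_add_adjacent_intervals (hii 1 a le_rfl ha) (hii a b ha hab)]
    have := intervalIntegral.integral_nonneg (μ := volume) hab (fun r _ => hf r)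
    linarith
  let K' : ℝ := K + ∫ r in (1 : ℝ)..(2 ^ N₁), f r
  have hI0 : 0 ≤ ∫ r in (1 : ℝ)..(2 ^ N₁), f r :=
    intervalIntegral.integral_nonneg (hpow N₁) (fun r _ => hf r)
  have hK' : 0 ≤ K' := add_nonneg hK hI0
  have hL : ∀ L : ℕ, ∫ r in (1 : ℝ)..(2 ^ L), f r ≤ K' * ((2 : ℝ) ^ L) ^ s := by
    intro L
    induction L with
    | zero =>
      rw [pow_zero, intervalIntegral.integral_same]
      positivity
    | succ L ih =>
      by_cases hLN : N₁ ≤ L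
      · have h2 : ∫ r in (1 : ℝ)..(2 ^ (L + 1)), f r =
            (∫ r in (1 : ℝ)..(2 ^ L), f r) + ∫ r in Icc ((2 : ℝ) ^ L) (2 * 2 ^ L), f r := by
          rw [← intervalIntegral.integral_add_adjacent_intervals
            (hii 1 (2 ^ L) le_rfl (hpow L)) (hii (2 ^ L) (2 ^ (L + 1)) (hpow L) (by
              rw [pow_succ]; linarith [hpow L]))]
          congr 1
          rw [intervalIntegral.integral_of_le (by rw [pow_succ]; linarith [hpow L]),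
            integral_Icc_eq_integral_Ioc, pow_succ, mul_comm ((2 : ℝ) ^ L) 2]
        rw [h2]
        have h3 := hbl L hLN
        have h4 : ((2 : ℝ) ^ (L + 1)) ^ s = 2 ^ s * ((2 : ℝ) ^ L) ^ s := by
          rw [pow_succ, mul_comm ((2 : ℝ) ^ L) 2, Real.mul_rpow (by norm_num) (by positivity)]
        have h5 : (2 : ℝ) ≤ 2 ^ s := by
          calc (2 : ℝ) = 2 ^ (1 : ℝ) := (Real.rpow_one 2).symm
            _ ≤ 2 ^ s := Real.rpow_le_rpow_of_exponent_le (by norm_num) hs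
        have h6 : 0 ≤ ((2 : ℝ) ^ L) ^ s := by positivity
        have h7 : K ≤ K' := le_add_of_nonneg_right hI0
        calc (∫ r in (1 : ℝ)..(2 ^ L), f r) + ∫ r in Icc ((2 : ℝ) ^ L) (2 * 2 ^ L), f r
            ≤ K' * ((2 : ℝ) ^ L) ^ s + K' * ((2 : ℝ) ^ L) ^ s :=
              add_le_add ih (h3.trans (mul_le_mul_of_nonneg_right h7 h6))
          _ = K' * (2 * ((2 : ℝ) ^ L) ^ s) := by ring
          _ ≤ K' * (2 ^ s * ((2 : ℝ) ^ L) ^ s) := by gcongr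
          _ = _ := by rw [h4]
      · have h2 : ∫ r in (1 : ℝ)..(2 ^ (L + 1)), f r ≤ ∫ r in (1 : ℝ)..(2 ^ N₁), f r :=
          hmono _ _ (hpow _) (pow_le_pow_right₀ (by norm_num) (by omega))
        have h3 : (1 : ℝ) ≤ ((2 : ℝ) ^ (L + 1)) ^ s :=
          Real.one_le_rpow (hpow _) (by linarith)
        calc ∫ r in (1 : ℝ)..(2 ^ (L + 1)), f r ≤ K' := h2.trans (le_add_of_nonneg_left hK)
          _ ≤ _ := le_mul_of_one_le_right hK' h3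
  refine ⟨K' * 2 ^ s, fun X hX => ?_⟩
  obtain ⟨L, hL1, hL2⟩ : ∃ L : ℕ, X ≤ 2 ^ L ∧ (2 : ℝ) ^ L ≤ 2 * X := by
    obtain ⟨n, hn1, hn2⟩ := exists_nat_pow_near hX (by norm_num : (1 : ℝ) < 2)
    refine ⟨n + 1, hn2.le, ?_⟩
    rw [pow_succ]
    linarith
  calc ∫ r in (1 : ℝ)..X, f r ≤ ∫ r in (1 : ℝ)..(2 ^ L), f r := hmono _ _ hX hL1
    _ ≤ K' * ((2 : ℝ) ^ L) ^ s := hL L
    _ ≤ K' * (2 * X) ^ s := by
        apply mul_le_mul_of_nonneg_left _ hK'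
        exact Real.rpow_le_rpow (by positivity) hL2 (by linarith)
    _ = K' * 2 ^ s * X ^ s := by
        rw [Real.mul_rpow (by norm_num) (by linarith)]
        ring

private theorem mom_mono_h5 {H : ℝ → ℝ} {c : ℝ × ℝ} {p s s' : ℝ} (h : Mom H c p s) (hs : s ≤ s') :
    Mom H c p s' := by
  obtain ⟨C, hC⟩ := h
  refine ⟨|C|, fun X hX => (hC X hX).trans ?_⟩
  calc C * X ^ s ≤ |C| * X ^ s :=
        mul_le_mul_of_nonneg_right (le_abs_self C) (by positivity)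
    _ ≤ |C| * X ^ s' := mul_le_mul_of_nonneg_left
        (Real.rpow_le_rpow_of_exponent_le hX hs) (abs_nonneg C)


private def good_h5 (H : ℝ → ℝ) (ε : ℝ) (c : ℝ × ℝ) : Prop :=
  ∃ N₀ : ℕ, ∀ N : ℕ, N₀ ≤ N →
      (∀ R ∈ Icc ((2 : ℝ) ^ N) (2 * 2 ^ N), |erc H c R| ≤ ((2 : ℝ) ^ N) ^ (7 / 12 + ε)) ∧
        ∫ R in Icc ((2 : ℝ) ^ N) (2 * 2 ^ N), |erc H c R| ^ (14 : ℝ) ≤ ((2 : ℝ) ^ N) ^ (8 + ε)

private theorem ae_good_h5 {H : ℝ → ℝ} (hH : IsSupp H) (h5 : ContDiff ℝ 5 H) :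
    ∀ᵐ c : ℝ × ℝ, ∀ j : ℕ, good_h5 H (1 / ((j : ℝ) + 1)) c := by
  rw [ae_all_iff]
  intro j
  refine ae_periodic_h5 ?_ ?_
  · rintro c ⟨N₁, hN₁⟩
    refine ⟨N₁, fun N hN => ?_⟩
    have h3 := hN₁ N hN
    simp only [erc_fract_h5] at h3
    exact h3
  · have h1 := ae_range hH h5 (ε := 1 / ((j : ℝ) + 1)) (by positivity)
    exact (ae_restrict_iff' (measurableSet_Icc.prod measurableSet_Icc)).1 h1

theorem ae_bd {H : ℝ → ℝ} (hH : IsSupp H) (h5 : ContDiff ℝ 5 H) : ∀ᵐ c : ℝ × ℝ, ∀ ε : ℝ, 0 < ε → Bd H c (7 / 12 + ε) := by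
  filter_upwards [ae_good_h5 hH h5] with c hc ε hε
  obtain ⟨j, hj⟩ := exists_nat_one_div_lt hε
  obtain ⟨N₀, hN₀⟩ := hc j
  obtain ⟨C, hC⟩ := cntc_bdd hH c ((2 : ℝ) ^ N₀)
  refine ⟨|C| + 1, fun R hR => ?_⟩
  have hR0 : 0 < R := by linarith
  have h1 : (1 : ℝ) ≤ R ^ (7 / 12 + ε) := Real.one_le_rpow hR (by linarith)
  rcases le_or_gt R ((2 : ℝ) ^ N₀) with h2 | h2
  · refine (hC R hR h2).trans ?_
    have h3 := le_abs_self C
    have h4 := abs_nonneg C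
    nlinarith
  · obtain ⟨n, hn1, hn2⟩ := exists_nat_pow_near hR (by norm_num : (1 : ℝ) < 2)
    have hn : N₀ ≤ n := by
      by_contra h3
      have h4 : (2 : ℝ) ^ (n + 1) ≤ 2 ^ N₀ := pow_le_pow_right₀ (by norm_num) (by omega)
      linarith
    have h3 := (hN₀ n hn).1 R ⟨hn1, by rw [pow_succ] at hn2; linarith⟩
    have h4 : ((2 : ℝ) ^ n) ^ (7 / 12 + 1 / ((j : ℝ) + 1)) ≤ R ^ (7 / 12 + 1 / ((j : ℝ) + 1)) :=
      Real.rpow_le_rpow (by positivity) hn1 (by positivity)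
    have h5 : R ^ (7 / 12 + 1 / ((j : ℝ) + 1)) ≤ R ^ (7 / 12 + ε) :=
      Real.rpow_le_rpow_of_exponent_le hR (by linarith)
    have h6 := abs_nonneg C
    have h7 : |cntc H c R - area H * R ^ 2| ≤ R ^ (7 / 12 + ε) := (h3.trans h4).trans h5
    nlinarith

theorem ae_mom {H : ℝ → ℝ} (hH : IsSupp H) (h5 : ContDiff ℝ 5 H) : ∀ᵐ c : ℝ × ℝ, ∀ ε : ℝ, 0 < ε → Mom H c 14 (8 + ε) := by
  filter_upwards [ae_good_h5 hH h5] with c hc ε hε
  obtain ⟨j, hj⟩ := exists_nat_one_div_lt hε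
  obtain ⟨N₀, hN₀⟩ := hc j
  have hj0 : 0 < 1 / ((j : ℝ) + 1) := by positivity
  have h1 : Mom H c 14 (8 + 1 / ((j : ℝ) + 1)) := by
    refine moment_h5 (f := fun r => |erc H c r| ^ (14 : ℝ)) (K := 1)
      (fun r => Real.rpow_nonneg (abs_nonneg _) _) (by linarith) zero_le_one
      (fun a b ha => Helper22.SC.erc_meas hH c (by norm_num) ha) (N₁ := N₀) fun N hN => ?_
    rw [one_mul]
    exact (hN₀ N hN).2
  exact mom_mono_h5 h1 (by linarith)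

end Pool.Agent.Helper60.SV
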