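import Pool.Agent.Helper60.SV.Defs
import Pool.Agent.Helper60.LT.A1

/-!
# SV-A1: the twelfth moment as a sum over pairs of six-tuples

PROOF. `m12_tup`: `‖z‖^12 = z^6 conj(z)^6`, `(∑_{k ∈ S} f k)^6 = ∑_{p ∈ piFinset (fun _ : Fin 6 => S)} ∏_i f (p i)` (`Finset.sum_pow'` or `Finset.prod_univ_sum`), `∏_i ee (dt (p i) c) = ee (dt (∑ i, p i) c)`,
and `∫_Tq ee (dt l c) dc = 1` if `l = 0`, else `0` (`ee_int` or `parseval` in GC.R0/DT.R0; see also LT.A1).
`m12_cos`: `∏ ee (f (p i)) = ee (∑ f (p i))`, take real parts (`re (ee x) = cos (2 π x)`). `eqs_card`: `card (eqs S) = m12 S 1 ≤ card^11` (`m12_le_card`, LT.A1).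
-/

open MeasureTheory Real Set Filter Topology

set_option autoImplicit false

namespace Pool.Agent.Helper60.SV

open Pool.Agent.Helper22.AE
open Pool.Agent.Helper92.GC (dt tp Tq uu tt ph reg arc gs dd Good IsNd oct sec)
open Pool.Agent.Helper92.DT (m12)
open Pool.Agent.Helper76.OV (sl f2 Cn lq b0 bq kap)

private theorem prod_ee_h12 {ι : Type} (s : Finset ι) (x : ι → ℝ) :
    ∏ i ∈ s, ee (x i) = ee (∑ i ∈ s, x i) := by
  classical
  induction s using Finset.induction_on with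
  | empty => rw [Finset.prod_empty, Finset.sum_empty, ee_zero]
  | insert i s hi ih => rw [Finset.prod_insert hi, Finset.sum_insert hi, ih, ee_add]

private theorem dt_sum_h12 {ι : Type} (s : Finset ι) (p : ι → ℤ × ℤ) (c : ℝ × ℝ) :
    dt (∑ i ∈ s, p i) c = ∑ i ∈ s, dt (p i) c := by
  classical
  induction s using Finset.induction_on with
  | empty => simp [dt]
  | insert i s hi ih => rw [Finset.sum_insert hi, Finset.sum_insert hi,
      Pool.Agent.Helper92.GC.dt_add, ih]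

private theorem fin_h12 : IsFiniteMeasure ((volume : Measure (ℝ × ℝ)).restrict Tq) := by
  constructor
  unfold Tq
  rw [Measure.restrict_apply_univ, Measure.volume_eq_prod, Measure.prod_prod, Real.volume_Icc,
    sub_zero, ENNReal.ofReal_one, mul_one]
  exact ENNReal.one_lt_top

private theorem int_h12 {E : Type} [NormedAddCommGroup E] {f : ℝ × ℝ → E} (hf : Continuous f) :
    Integrable f (volume.restrict Tq) := by
  have h1 : IsCompact Tq := isCompact_Icc.prod isCompact_Icc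
  exact hf.continuousOn.integrableOn_compact h1

private theorem dtc_h12 (k : ℤ × ℤ) : Continuous (fun c : ℝ × ℝ => ee (dt k c)) := by
  refine ee_cont.comp ?_
  unfold dt
  fun_prop

theorem m12_tup (S : Finset (ℤ × ℤ)) (a : ℤ × ℤ → ℂ) :
    ((m12 S a : ℝ) : ℂ) = ∑ t ∈ eqs S, (∏ i, a (t.1 i)) * (starRingEnd ℂ) (∏ i, a (t.2 i)) := by
  classical
  have := fin_h12
  set T : Finset (Fin 6 → ℤ × ℤ) := Fintype.piFinset fun _ : Fin 6 => S with hT
  have hneg : ∀ (k : ℤ × ℤ) (c : ℝ × ℝ), dt (-k) c = -dt k c := by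
    intro k c
    unfold dt
    rw [Prod.fst_neg, Prod.snd_neg]
    push_cast
    ring
  have e6 : ∀ c, (tp S a c) ^ 6 = ∑ p ∈ T, (∏ i, a (p i)) * ee (dt (∑ i, p i) c) := by
    intro c
    unfold tp
    rw [Finset.sum_pow']
    refine Finset.sum_congr rfl fun p _ => ?_
    rw [Finset.prod_mul_distrib, prod_ee_h12, dt_sum_h12]
  have e1 : ∀ c, (((‖tp S a c‖ ^ 12 : ℝ)) : ℂ) =
      ∑ t ∈ T ×ˢ T, ((∏ i, a (t.1 i)) * (starRingEnd ℂ) (∏ i, a (t.2 i))) *
        ee (dt (∑ i, t.1 i - ∑ i, t.2 i) c) := by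
    intro c
    have h1 : ‖tp S a c‖ ^ 12 = (Complex.normSq (tp S a c)) ^ 6 := by
      rw [Complex.normSq_eq_norm_sq]
      ring
    rw [h1, Complex.ofReal_pow, ← Complex.mul_conj, mul_pow, ← map_pow, e6, map_sum,
      Finset.sum_mul_sum, Finset.sum_product]
    refine Finset.sum_congr rfl fun p _ => Finset.sum_congr rfl fun p' _ => ?_
    rw [map_mul, sub_eq_add_neg, Pool.Agent.Helper92.GC.dt_add, hneg, ee_add, ee_neg]
    ring
  have hE : ∀ (z : ℂ) (k : ℤ × ℤ), Integrable (fun c => z * ee (dt k c)) (volume.restrict Tq) :=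
    fun z k => int_h12 (continuous_const.mul (dtc_h12 k))
  have e0 : ((m12 S a : ℝ) : ℂ) = ∫ c in Tq, ((‖tp S a c‖ ^ 12 : ℝ) : ℂ) :=
    integral_complex_ofReal.symm
  rw [e0, integral_congr_ae (Filter.Eventually.of_forall fun q => e1 q), integral_finsetSum]
  · unfold eqs
    rw [Finset.sum_filter]
    refine Finset.sum_congr rfl fun t _ => ?_
    rw [integral_const_mul, Pool.Agent.Helper92.GC.ee_int]
    by_cases h : ∑ i, t.1 i = ∑ i, t.2 i
    · rw [if_pos (sub_eq_zero.2 h), if_pos h, mul_one]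
    · rw [if_neg (sub_ne_zero.2 h), if_neg h, mul_zero]
  · intro t _
    exact hE _ _

theorem m12_cos (S : Finset (ℤ × ℤ)) (f : ℤ × ℤ → ℝ) : m12 S (fun k => ee (f k)) = ∑ t ∈ eqs S, cos (2 * π * df f t) := by
  have h := m12_tup S (fun k => ee (f k))
  have h1 : ((m12 S (fun k => ee (f k)) : ℝ) : ℂ) = ∑ t ∈ eqs S, ee (df f t) := by
    rw [h]
    refine Finset.sum_congr rfl fun t _ => ?_
    rw [prod_ee_h12, prod_ee_h12, ← ee_neg, ← ee_add]
    rfl
  have h2 := congrArg Complex.re h1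
  rw [Complex.ofReal_re, Complex.re_sum] at h2
  rw [h2]
  refine Finset.sum_congr rfl fun t _ => ?_
  unfold ee
  rw [Complex.exp_ofReal_mul_I_re]

theorem eqs_card (S : Finset (ℤ × ℤ)) : ((eqs S).card : ℝ) ≤ (S.card : ℝ) ^ 11 := by
  have h := m12_tup S (fun _ => 1)
  have h1 : ((m12 S (fun _ => 1) : ℝ) : ℂ) = (((eqs S).card : ℝ) : ℂ) := by
    rw [h]
    simp
  have h2 : m12 S (fun _ => 1) = ((eqs S).card : ℝ) := by exact_mod_cast h1
  rw [← h2]
  exact Pool.Agent.Helper60.LT.m12_le_card S (fun k _ => by simp)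

theorem ct_card (S : Finset (ℤ × ℤ)) (f : ℤ × ℤ → ℝ) (δ : ℝ) : (ct S f δ : ℝ) ≤ (S.card : ℝ) ^ 11 := by
  classical
  refine le_trans ?_ (eqs_card S)
  unfold ct
  exact_mod_cast Finset.card_filter_le _ _

theorem ct_mono {S S' : Finset (ℤ × ℤ)} (hS : S ⊆ S') (f : ℤ × ℤ → ℝ) {δ δ' : ℝ} (hδ : δ ≤ δ') : ct S f δ ≤ ct S' f δ' := by
  classical
  unfold ct
  refine Finset.card_le_card fun t ht => ?_
  rw [Finset.mem_filter] at ht ⊢
  refine ⟨?_, ht.2.trans hδ⟩
  have h1 := ht.1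
  unfold eqs at h1 ⊢
  rw [Finset.mem_filter, Finset.mem_product, Fintype.mem_piFinset, Fintype.mem_piFinset] at h1 ⊢
  exact ⟨⟨fun i => hS (h1.1.1 i), fun i => hS (h1.1.2 i)⟩, h1.2⟩

end Pool.Agent.Helper60.SV
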