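import Pool.Agent.Helper60.SV.Defs
import Pool.Agent.Helper78.CG.Main

/-!
# SV-A2: the twelfth moment with two weights is at most the number of solutions

PROOF. `‖hs‖^12 = hs^6 conj(hs)^6 = ∑_{t ∈ S^6 × S^6} (∏ a (t.1 i)) conj(∏ a (t.2 i)) ee (dt (∑ t.1 - ∑ t.2) c + R · df f t + Z · df g t)` (expansion as in SV-A1). Integrate: the integral over `Tq` is `1` if the sums
are equal and `0` otherwise, the integral over `R` is `0` if `|df f t| ≥ 1/X₁` (`IsWt.four`, also for `-ξ`), and in every case all factors have absolute value at most one (`IsWt.int_one`, `nonneg`).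
So the integral is at most the number of `t ∈ eqs S` with `|df f t| < 1/X₁`. Integrability: `hs` is bounded and continuous, `mu2 v w` is a probability measure (see CE/CG for `mu2`).
-/

open MeasureTheory Real Set Filter Topology

set_option autoImplicit false

namespace Pool.Agent.Helper60.SV

open Pool.Agent.Helper22.AE
open Pool.Agent.Helper92.GC (dt tp Tq uu tt ph reg arc gs dd Good IsNd oct sec)
open Pool.Agent.Helper92.DT (m12)
open Pool.Agent.Helper76.OV (sl f2 Cn lq b0 bq kap)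

open Pool.Agent.Helper78.CE (hs mu2)
open Pool.Agent.Helper22.AC (IsWt mu)

private theorem a2_ee_prod {ι : Type} (s : Finset ι) (h : ι → ℝ) : ∏ i ∈ s, ee (h i) = ee (∑ i ∈ s, h i) := by
  classical
  induction s using Finset.induction_on with
  | empty => rw [Finset.prod_empty, Finset.sum_empty, ee_zero]
  | insert i s hi ih => rw [Finset.prod_insert hi, Finset.sum_insert hi, ih, ← ee_add]

private theorem a2_dt_sum {ι : Type} (s : Finset ι) (x : ι → ℤ × ℤ) (c : ℝ × ℝ) :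
    dt (∑ i ∈ s, x i) c = ∑ i ∈ s, dt (x i) c := by
  unfold Pool.Agent.Helper92.GC.dt
  rw [Prod.fst_sum, Prod.snd_sum, Int.cast_sum, Int.cast_sum, Finset.sum_mul, Finset.sum_mul, ← Finset.sum_add_distrib]

private theorem a2_pow (S : Finset (ℤ × ℤ)) (a : ℤ × ℤ → ℂ) (f g : ℤ × ℤ → ℝ) (q : (ℝ × ℝ) × (ℝ × ℝ)) :
    hs S a f g q ^ 6 = ∑ x ∈ Fintype.piFinset (fun _ : Fin 6 => S), (∏ i, a (x i)) *
      ee (dt (∑ i, x i) q.1 + q.2.1 * ∑ i, f (x i) + q.2.2 * ∑ i, g (x i)) := by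
  have h1 : hs S a f g q ^ 6 = ∏ _i : Fin 6, hs S a f g q := by
    rw [Finset.prod_const, Finset.card_univ, Fintype.card_fin]
  rw [h1]
  unfold Pool.Agent.Helper78.CE.hs
  rw [Finset.prod_univ_sum]
  refine Finset.sum_congr rfl fun x _ => ?_
  rw [Finset.prod_mul_distrib, a2_ee_prod, a2_dt_sum, Finset.mul_sum, Finset.mul_sum, ← Finset.sum_add_distrib,
    ← Finset.sum_add_distrib]

private theorem a2_hE_cont (k : ℤ × ℤ) (ξ ζ : ℝ) : Continuous (Pool.Agent.Helper78.CE.hE k ξ ζ) := by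
  unfold Pool.Agent.Helper78.CE.hE Pool.Agent.Helper92.GC.dt
  exact ee_cont.comp (by fun_prop)

private theorem a2_int {X₁ X₂ : ℝ} {v w : ℝ → ℝ} (hv : IsWt X₁ v) (hw : IsWt X₂ w) (k : ℤ × ℤ) (ξ ζ : ℝ) :
    Integrable (Pool.Agent.Helper78.CE.hE k ξ ζ) (mu2 v w) := by
  have := Pool.Agent.Helper78.CE.mu2_prob hv hw
  exact Integrable.of_bound (a2_hE_cont k ξ ζ).aestronglyMeasurable 1 (Eventually.of_forall fun q => (ee_norm _).le)

private theorem a2_le {X₁ X₂ : ℝ} {v w : ℝ → ℝ} (hv : IsWt X₁ v) (hw : IsWt X₂ w) (k : ℤ × ℤ) (ξ ζ : ℝ) :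
    ‖∫ q, Pool.Agent.Helper78.CE.hE k ξ ζ q ∂(mu2 v w)‖ ≤ 1 := by
  have := Pool.Agent.Helper78.CE.mu2_prob hv hw
  refine (norm_integral_le_of_norm_le_const (C := 1) (Eventually.of_forall fun q => (ee_norm _).le)).trans ?_
  simp

private theorem a2_exp (S : Finset (ℤ × ℤ)) (a : ℤ × ℤ → ℂ) (f g : ℤ × ℤ → ℝ) (q : (ℝ × ℝ) × (ℝ × ℝ)) :
    ((‖hs S a f g q‖ ^ 12 : ℝ) : ℂ) =
      ∑ t ∈ (Fintype.piFinset fun _ : Fin 6 => S) ×ˢ (Fintype.piFinset fun _ : Fin 6 => S),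
        ((∏ i, a (t.1 i)) * (starRingEnd ℂ) (∏ i, a (t.2 i))) *
          Pool.Agent.Helper78.CE.hE (∑ i, t.1 i - ∑ i, t.2 i) (df f t) (df g t) q := by
  have h1 : ((‖hs S a f g q‖ ^ 12 : ℝ) : ℂ) = hs S a f g q ^ 6 * (starRingEnd ℂ) (hs S a f g q ^ 6) := by
    rw [Complex.mul_conj, Complex.normSq_eq_norm_sq, norm_pow, ← pow_mul]
  rw [h1, a2_pow, map_sum, Finset.sum_mul_sum, ← Finset.sum_product']
  refine Finset.sum_congr rfl fun t _ => ?_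
  rw [map_mul, ← ee_neg]
  unfold Pool.Agent.Helper78.CE.hE df
  have h2 : dt (∑ i, t.1 i - ∑ i, t.2 i) q.1 = dt (∑ i, t.1 i) q.1 - dt (∑ i, t.2 i) q.1 := by
    unfold Pool.Agent.Helper92.GC.dt
    rw [Prod.fst_sub, Prod.snd_sub]
    push_cast
    ring
  rw [h2]
  have h3 : dt (∑ i, t.1 i) q.1 - dt (∑ i, t.2 i) q.1 + q.2.1 * (∑ i, f (t.1 i) - ∑ i, f (t.2 i)) +
      q.2.2 * (∑ i, g (t.1 i) - ∑ i, g (t.2 i)) =
      (dt (∑ i, t.1 i) q.1 + q.2.1 * ∑ i, f (t.1 i) + q.2.2 * ∑ i, g (t.1 i)) +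
      -(dt (∑ i, t.2 i) q.1 + q.2.1 * ∑ i, f (t.2 i) + q.2.2 * ∑ i, g (t.2 i)) := by ring
  rw [h3, ee_add (dt (∑ i, t.1 i) q.1 + q.2.1 * ∑ i, f (t.1 i) + q.2.2 * ∑ i, g (t.1 i))]
  ring

theorem hs_ct {X₁ X₂ : ℝ} {v w : ℝ → ℝ} (hv : IsWt X₁ v) (hw : IsWt X₂ w) (hX : 0 < X₁) (S : Finset (ℤ × ℤ)) {a : ℤ × ℤ → ℂ}
    (ha : ∀ k, ‖a k‖ ≤ 1) (f g : ℤ × ℤ → ℝ) : ∫ q, ‖hs S a f g q‖ ^ 12 ∂(mu2 v w) ≤ (ct S f (1 / X₁) : ℝ) := by
  classical
  have h0 : ((∫ q, ‖hs S a f g q‖ ^ 12 ∂(mu2 v w) : ℝ) : ℂ) =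
      ∑ t ∈ (Fintype.piFinset fun _ : Fin 6 => S) ×ˢ (Fintype.piFinset fun _ : Fin 6 => S),
        ((∏ i, a (t.1 i)) * (starRingEnd ℂ) (∏ i, a (t.2 i))) *
          ∫ q, Pool.Agent.Helper78.CE.hE (∑ i, t.1 i - ∑ i, t.2 i) (df f t) (df g t) q ∂(mu2 v w) := by
    rw [← integral_complex_ofReal]
    rw [integral_congr_ae (Eventually.of_forall fun q => a2_exp S a f g q)]
    rw [integral_finsetSum]
    · refine Finset.sum_congr rfl fun t _ => ?_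
      rw [integral_const_mul]
    · intro t _
      exact (a2_int hv hw _ _ _).const_mul _
  have h1 : 0 ≤ ∫ q, ‖hs S a f g q‖ ^ 12 ∂(mu2 v w) := integral_nonneg fun _ => by positivity
  have h2 : ∫ q, ‖hs S a f g q‖ ^ 12 ∂(mu2 v w) = ‖((∫ q, ‖hs S a f g q‖ ^ 12 ∂(mu2 v w) : ℝ) : ℂ)‖ := by
    rw [Complex.norm_real, Real.norm_of_nonneg h1]
  rw [h2, h0]
  refine (norm_sum_le _ _).trans ?_
  have hprod : ∀ x : Fin 6 → ℤ × ℤ, ‖∏ i, a (x i)‖ ≤ 1 := by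
    intro x
    rw [norm_prod]
    exact Finset.prod_le_one (fun i _ => norm_nonneg _) (fun i _ => ha _)
  have h3 : ∀ t : T12, ‖((∏ i, a (t.1 i)) * (starRingEnd ℂ) (∏ i, a (t.2 i))) *
      ∫ q, Pool.Agent.Helper78.CE.hE (∑ i, t.1 i - ∑ i, t.2 i) (df f t) (df g t) q ∂(mu2 v w)‖ ≤
      if (∑ i, t.1 i = ∑ i, t.2 i ∧ |df f t| ≤ 1 / X₁) then (1 : ℝ) else 0 := by
    intro t
    split_ifs with h
    · rw [norm_mul, norm_mul, RCLike.norm_conj]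
      have h4 : ‖∏ i, a (t.1 i)‖ * ‖∏ i, a (t.2 i)‖ ≤ 1 :=
        mul_le_one₀ (hprod _) (norm_nonneg _) (hprod _)
      exact mul_le_one₀ h4 (norm_nonneg _) (a2_le hv hw _ _ _)
    · rw [Pool.Agent.Helper78.CE.hE_int hv hw, mul_zero, norm_zero]
      by_cases h5 : ∑ i, t.1 i - ∑ i, t.2 i = 0
      · right
        left
        by_contra h6
        exact h ⟨sub_eq_zero.mp h5, (not_le.mp h6).le⟩
      · exact Or.inl h5
  refine (Finset.sum_le_sum fun t _ => h3 t).trans ?_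
  rw [← Finset.sum_filter, Finset.sum_const, nsmul_eq_mul, mul_one]
  refine le_of_eq ?_
  congr 1
  unfold ct eqs
  rw [Finset.filter_filter]

end Pool.Agent.Helper60.SV
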