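import Pool.Agent.Helper60.SV.A1

/-!
# SV-A3: counting by the twelfth moment

PROOF. `T = 1/(2 lam)`. For real `g`, `ω = 2 π g`: `∫_0^T (1 - r/T) cos (ω r) dr = (1 - cos (ω T))/(ω² T)` (`= T/2` for `ω = 0`) is nonnegative, and for `|g| ≤ lam`, that is `|ω T| ≤ π`, it is at least `2 T/π²`
(`1 - cos x ≥ 2 x²/π²` for `|x| ≤ π`: `1 - cos x = 2 sin²(x/2)`, `Real.mul_le_sin`/`Real.mul_abs_le_abs_sin`). So `1_{|g| ≤ lam} ≤ (π²/(2T)) ∫_0^T (1 - r/T) cos (2 π r g) dr`. Sum over `t ∈ eqs S`, `g = df f t`, with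
`m12_cos` for `fun k => r * f k` (`df (r f) t = r df f t`): `ct ≤ (π²/(2T)) ∫_0^T (1 - r/T) m12 ≤ (π²/(2T)) ∫_0^T m12 = π² lam ∫_0^T m12`, `π² ≤ 10`.
-/

open MeasureTheory Real Set Filter Topology

set_option autoImplicit false

namespace Pool.Agent.Helper60.SV

open Pool.Agent.Helper22.AE
open Pool.Agent.Helper92.GC (dt tp Tq uu tt ph reg arc gs dd Good IsNd oct sec)
open Pool.Agent.Helper92.DT (m12)
open Pool.Agent.Helper76.OV (sl f2 Cn lq b0 bq kap)

private theorem tent_int33 {T ω : ℝ} (hT : 0 < T) (hω : ω ≠ 0) :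
    ∫ r in (0 : ℝ)..T, (1 - r / T) * cos (ω * r) = (1 - cos (ω * T)) / (ω ^ 2 * T) := by
  have h1 : ∀ r ∈ uIcc 0 T, HasDerivAt (fun r => sin (ω * r) / ω * (1 - r / T) - cos (ω * r) / (ω ^ 2 * T))
      ((1 - r / T) * cos (ω * r)) r := by
    intro r _
    have h2 : HasDerivAt (fun r : ℝ => ω * r) ω r := by simpa using (hasDerivAt_id r).const_mul ω
    have h3 : HasDerivAt (fun r : ℝ => sin (ω * r) / ω) (cos (ω * r) * ω / ω) r := (h2.sin).div_const ω
    have h4 : HasDerivAt (fun r : ℝ => 1 - r / T) (-(1 / T)) r := by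
      simpa using ((hasDerivAt_id r).div_const T).const_sub 1
    have h5 : HasDerivAt (fun r : ℝ => cos (ω * r) / (ω ^ 2 * T)) (-sin (ω * r) * ω / (ω ^ 2 * T)) r :=
      (h2.cos).div_const _
    refine HasDerivAt.congr_deriv ((h3.mul h4).sub h5) ?_
    field_simp
    ring
  rw [intervalIntegral.integral_eq_sub_of_hasDerivAt h1]
  · simp only [mul_zero, sin_zero, zero_div, cos_zero, div_self hT.ne', sub_self, sub_zero, zero_sub, mul_one]
    rw [neg_sub_neg, ← sub_div]
  · exact (Continuous.intervalIntegrable (by fun_prop) _ _)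

private theorem tent_zero33 {T : ℝ} (hT : 0 < T) :
    ∫ r in (0 : ℝ)..T, (1 - r / T) = T / 2 := by
  have h1 : ∀ r ∈ uIcc 0 T, HasDerivAt (fun r => r - r ^ 2 / (2 * T)) (1 - r / T) r := by
    intro r _
    have h2 : HasDerivAt (fun r : ℝ => r ^ 2 / (2 * T)) ((2 : ℕ) * r ^ (2 - 1) / (2 * T)) r := (hasDerivAt_pow 2 r).div_const _
    refine HasDerivAt.congr_deriv ((hasDerivAt_id r).sub h2) ?_
    push_cast
    simp only [pow_one]
    field_simp
  rw [intervalIntegral.integral_eq_sub_of_hasDerivAt h1]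
  · field_simp
    ring
  · exact (Continuous.intervalIntegrable (by fun_prop) _ _)

private theorem tent_nonneg33 {T : ℝ} (hT : 0 < T) (g : ℝ) :
    0 ≤ ∫ r in (0 : ℝ)..T, (1 - r / T) * cos (2 * π * (r * g)) := by
  have h0 : ∀ r, (1 - r / T) * cos (2 * π * (r * g)) = (1 - r / T) * cos ((2 * π * g) * r) := by
    intro r
    congr 2
    ring
  simp only [h0]
  by_cases hω : 2 * π * g = 0
  · simp only [hω, zero_mul, cos_zero, mul_one]
    rw [tent_zero33 hT]
    positivity
  · rw [tent_int33 hT hω]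
    have h1 := cos_le_one (2 * π * g * T)
    have h2 : 0 < (2 * π * g) ^ 2 := by positivity
    exact div_nonneg (by linarith) (by positivity)

private theorem tent_large33 {T : ℝ} (hT : 0 < T) {g : ℝ} (hg : |g| * (2 * T) ≤ 1) :
    2 * T / π ^ 2 ≤ ∫ r in (0 : ℝ)..T, (1 - r / T) * cos (2 * π * (r * g)) := by
  have h0 : ∀ r, (1 - r / T) * cos (2 * π * (r * g)) = (1 - r / T) * cos ((2 * π * g) * r) := by
    intro r
    congr 2
    ring
  have hpi : 3 < π := pi_gt_three
  simp only [h0]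
  by_cases hω : 2 * π * g = 0
  · simp only [hω, zero_mul, cos_zero, mul_one]
    rw [tent_zero33 hT, div_le_div_iff₀ (by positivity) (by norm_num)]
    have h9 : 4 ≤ π ^ 2 := by nlinarith
    have h10 := mul_le_mul_of_nonneg_left h9 hT.le
    linarith
  · rw [tent_int33 hT hω]
    have h1 : |2 * π * g * T| ≤ π := by
      rw [abs_mul, abs_mul, abs_mul, abs_of_pos hT, abs_of_pos pi_pos, abs_of_pos (by norm_num : (0 : ℝ) < 2)]
      nlinarith
    have h2 := cos_le_one_sub_mul_cos_sq h1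
    have h3 : 0 < (2 * π * g) ^ 2 := by positivity
    rw [le_div_iff₀ (by positivity)]
    have h4 : 2 * T / π ^ 2 * ((2 * π * g) ^ 2 * T) = 2 / π ^ 2 * (2 * π * g * T) ^ 2 := by
      ring
    rw [h4]
    linarith

private theorem df_mul33 (f : ℤ × ℤ → ℝ) (r : ℝ) (t : T12) : df (fun k => r * f k) t = r * df f t := by
  unfold df
  rw [← Finset.mul_sum, ← Finset.mul_sum]
  ring

theorem tent (S : Finset (ℤ × ℤ)) (f : ℤ × ℤ → ℝ) {lam : ℝ} (hl : 0 < lam) :
    (ct S f lam : ℝ) ≤ 10 * lam * ∫ r in Icc (0 : ℝ) (1 / (2 * lam)), m12 S (fun k => ee (r * f k)) := by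
  classical
  set T : ℝ := 1 / (2 * lam) with hTdef
  have hT : 0 < T := by positivity
  have hTl : 2 * T * lam = 1 := by
    rw [hTdef]
    field_simp
  have hm : ∀ r : ℝ, m12 S (fun k => ee (r * f k)) = ∑ t ∈ eqs S, cos (2 * π * (r * df f t)) := by
    intro r
    rw [m12_cos S fun k => r * f k]
    exact Finset.sum_congr rfl fun t _ => by rw [df_mul33]
  have hnn : ∀ r : ℝ, 0 ≤ m12 S (fun k => ee (r * f k)) := fun r => by
    unfold m12
    exact integral_nonneg fun _ => by positivity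
  have hcont : Continuous fun r : ℝ => m12 S (fun k => ee (r * f k)) := by
    simp only [hm]
    fun_prop
  have h1 : (ct S f lam : ℝ) ≤ ∑ t ∈ eqs S, π ^ 2 / (2 * T) * ∫ r in (0 : ℝ)..T, (1 - r / T) * cos (2 * π * (r * df f t)) := by
    unfold ct
    rw [Finset.card_filter]
    push_cast
    refine Finset.sum_le_sum fun t _ => ?_
    split_ifs with h
    · have h2 := tent_large33 hT (g := df f t) (by
        calc |df f t| * (2 * T) ≤ lam * (2 * T) := mul_le_mul_of_nonneg_right h (by positivity)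
          _ = 1 := by linarith)
      calc (1 : ℝ) = π ^ 2 / (2 * T) * (2 * T / π ^ 2) := by
            have := pi_pos
            field_simp
        _ ≤ _ := mul_le_mul_of_nonneg_left h2 (by positivity)
    · exact mul_nonneg (by positivity) (tent_nonneg33 hT _)
  have h2 : ∑ t ∈ eqs S, π ^ 2 / (2 * T) * ∫ r in (0 : ℝ)..T, (1 - r / T) * cos (2 * π * (r * df f t)) =
      π ^ 2 / (2 * T) * ∫ r in (0 : ℝ)..T, (1 - r / T) * m12 S (fun k => ee (r * f k)) := by
    rw [← Finset.mul_sum, ← intervalIntegral.integral_finsetSum]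
    · congr 1
      refine intervalIntegral.integral_congr fun r _ => ?_
      simp only [hm]
      rw [Finset.mul_sum]
    · intro t _
      exact (Continuous.intervalIntegrable (by fun_prop) _ _)
  have h3 : ∫ r in (0 : ℝ)..T, (1 - r / T) * m12 S (fun k => ee (r * f k)) ≤
      ∫ r in (0 : ℝ)..T, m12 S (fun k => ee (r * f k)) := by
    refine intervalIntegral.integral_mono_on hT.le ?_ (hcont.intervalIntegrable _ _) ?_
    · exact (Continuous.mul (by fun_prop) hcont).intervalIntegrable _ _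
    · intro r hr
      have h4 : 1 - r / T ≤ 1 := by
        have := div_nonneg hr.1 hT.le
        linarith
      exact mul_le_of_le_one_left (hnn r) h4
  have h4 : ∫ r in (0 : ℝ)..T, m12 S (fun k => ee (r * f k)) = ∫ r in Icc (0 : ℝ) T, m12 S (fun k => ee (r * f k)) := by
    rw [intervalIntegral.integral_of_le hT.le, integral_Icc_eq_integral_Ioc]
  have h5 : 0 ≤ ∫ r in (0 : ℝ)..T, m12 S (fun k => ee (r * f k)) :=
    intervalIntegral.integral_nonneg hT.le fun r _ => hnn r
  have h6 : π ^ 2 / (2 * T) ≤ 10 * lam := by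
    rw [div_le_iff₀ (by positivity)]
    have h7 : π ^ 2 ≤ 10 := by
      have h8 := pi_lt_d2
      have h9 := pi_pos
      nlinarith
    calc π ^ 2 ≤ 10 := h7
      _ = 10 * lam * (2 * T) := by linarith
  rw [← h4]
  calc (ct S f lam : ℝ) ≤ _ := h1
    _ = _ := h2
    _ ≤ π ^ 2 / (2 * T) * ∫ r in (0 : ℝ)..T, m12 S (fun k => ee (r * f k)) :=
        mul_le_mul_of_nonneg_left h3 (by positivity)
    _ ≤ 10 * lam * ∫ r in (0 : ℝ)..T, m12 S (fun k => ee (r * f k)) := mul_le_mul_of_nonneg_right h6 h5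

end Pool.Agent.Helper60.SV
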