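import Pool.Agent.Helper60.SV.Defs
import Pool.Agent.Helper76.OV.S4

/-!
# SV-B1: the points `bq φ n` are spaced by `1/P²`

PROOF (compare OV.S4 of Helper76). Fix `n ∈ W`; for `m ∈ W` let `n' = cq φ n`, `m' = cq φ m` (`cq_spec`) and `U = (a, b, c, d)` the matrix of OV.S4: `a = m.1 n'.2 - m'.1 n.2`, `b = -m.1 n'.1 + m'.1 n.1`,
`c = m.2 n'.2 - m'.2 n.2`, `d = -m.2 n'.1 + m'.2 n.1`, `a d - b c = 1`, `m = U n`, `d m.1 - b m.2 = n.1`. `b = n.1 m.1 (b0 φ m - b0 φ n)`, `b0 = bq + kap`, `|bq φ m - bq φ n| ≤ 1/P²`, `n.1 m.1 ≤ P²`,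
`|kap φ m| n.1 m.1 ≤ B/(3c₁) n.1/m.1 ≤ 2B/(3c₁)` (`kap_le`), so `|b| ≤ 1 + 2B/c₁ =: F₀`, `|a|, |d| ≤ 2 + |b|`, `|c| ≤ 4 + |b|`. By `sl_count` (GC.S2) there are at most `C (2 (4 + F₀))²` such matrices, and `m` is determined by `U`.
-/

open MeasureTheory Real Set Filter Topology

set_option autoImplicit false

namespace Pool.Agent.Helper60.SV

open Pool.Agent.Helper22.AE
open Pool.Agent.Helper92.GC (dt tp Tq uu tt ph reg arc gs dd Good IsNd oct sec)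
open Pool.Agent.Helper92.DT (m12)
open Pool.Agent.Helper76.OV (sl f2 Cn lq b0 bq kap)

open Pool.Agent.Helper76.OV (cq cq_spec kap_le)
open Pool.Agent.Helper92.GC (sl_count)

private lemma bndB1 {c₁ B : ℝ} (hc : 0 < c₁) (hB : 1 ≤ B) {φ : ℝ → ℝ} (hφ : Cn c₁ B φ) {P : ℝ} (hP : 1 ≤ P)
    {n m : ℤ × ℤ} (hn : Good P n) (hm : Good P m) (h : |bq φ n - bq φ m| ≤ 1 / P ^ 2) :
    (n.1 : ℝ) * m.1 * |b0 φ m - b0 φ n| ≤ 1 + 2 * B / c₁ := by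
  have hn0 : (0 : ℝ) < n.1 := by linarith [hn.lo]
  have hm0 : (0 : ℝ) < m.1 := by linarith [hm.lo]
  have hn1 : 1 ≤ n.1 := by
    have : 0 < n.1 := by exact_mod_cast hn0
    omega
  have hm1 : 1 ≤ m.1 := by
    have : 0 < m.1 := by exact_mod_cast hm0
    omega
  have k1 := kap_le hc hφ hn1 hn.nonneg hn.le
  have k2 := kap_le hc hφ hm1 hm.nonneg hm.le
  have e : b0 φ m - b0 φ n = -(bq φ n - bq φ m) + (kap φ m + -kap φ n) := by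
    unfold bq
    ring
  have h1 : |b0 φ m - b0 φ n| ≤ 1 / P ^ 2 + (B / (3 * c₁ * (m.1 : ℝ) ^ 2) + B / (3 * c₁ * (n.1 : ℝ) ^ 2)) := by
    rw [e]
    refine (abs_add_le _ _).trans (add_le_add ?_ ((abs_add_le _ _).trans (add_le_add k2 ?_)))
    · rwa [abs_neg]
    · rwa [abs_neg]
  have hP0 : 0 < P := by linarith
  have h2 : (n.1 : ℝ) * m.1 * (1 / P ^ 2) ≤ 1 := by
    have h3 : (n.1 : ℝ) * m.1 ≤ P * P := mul_le_mul hn.hi hm.hi hm0.le (by linarith)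
    rw [mul_one_div, div_le_iff₀ (by positivity)]
    linarith
  have h4 : ∀ x y : ℝ, 0 < x → 0 < y → y ≤ 2 * x → x * y * (B / (3 * c₁ * x ^ 2)) ≤ B / c₁ := by
    intro x y hx hy hxy
    have e1 : x * y * (B / (3 * c₁ * x ^ 2)) = (y / (3 * x)) * (B / c₁) := by
      field_simp
    rw [e1]
    have h5 : y / (3 * x) ≤ 1 := by
      rw [div_le_one (by positivity)]
      linarith
    exact mul_le_of_le_one_left (by positivity) h5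
  have h6 : (n.1 : ℝ) * m.1 * (B / (3 * c₁ * (n.1 : ℝ) ^ 2)) ≤ B / c₁ :=
    h4 _ _ hn0 hm0 (by linarith [hn.lo, hm.hi])
  have h7 : (n.1 : ℝ) * m.1 * (B / (3 * c₁ * (m.1 : ℝ) ^ 2)) ≤ B / c₁ := by
    have := h4 _ _ hm0 hn0 (by linarith [hm.lo, hn.hi])
    rwa [mul_comm (m.1 : ℝ) (n.1 : ℝ)] at this
  calc (n.1 : ℝ) * m.1 * |b0 φ m - b0 φ n|
      ≤ (n.1 : ℝ) * m.1 * (1 / P ^ 2 + (B / (3 * c₁ * (m.1 : ℝ) ^ 2) + B / (3 * c₁ * (n.1 : ℝ) ^ 2))) :=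
        mul_le_mul_of_nonneg_left h1 (by positivity)
    _ = (n.1 : ℝ) * m.1 * (1 / P ^ 2) + ((n.1 : ℝ) * m.1 * (B / (3 * c₁ * (m.1 : ℝ) ^ 2)) +
        (n.1 : ℝ) * m.1 * (B / (3 * c₁ * (n.1 : ℝ) ^ 2))) := by ring
    _ ≤ 1 + (B / c₁ + B / c₁) := by linarith
    _ = 1 + 2 * B / c₁ := by ring

private lemma sqB1 {b x : ℝ} (h : |x| ≤ 4 + |b|) : x ^ 2 ≤ (4 + |b|) ^ 2 := by
  rw [← sq_abs]
  exact pow_le_pow_left₀ (abs_nonneg _) h 2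

private lemma matB1 {c₁ B : ℝ} (hc : 0 < c₁) (hB : 1 ≤ B) {φ : ℝ → ℝ} (hφ : Cn c₁ B φ) {P : ℝ} (hP : 1 ≤ P)
    {n m : ℤ × ℤ} (hn : Good P n) (hm : Good P m) (h : |bq φ n - bq φ m| ≤ 1 / P ^ 2) :
    ∃ u : ℤ × ℤ × ℤ × ℤ, u.1 * u.2.2.2 - u.2.1 * u.2.2.1 = 1 ∧ u.1 * n.1 + u.2.1 * n.2 = m.1 ∧
      u.2.2.1 * n.1 + u.2.2.2 * n.2 = m.2 ∧ |(u.2.1 : ℝ)| ≤ 1 + 2 * B / c₁ ∧
      ((u.1 ^ 2 + u.2.1 ^ 2 + u.2.2.1 ^ 2 + u.2.2.2 ^ 2 : ℤ) : ℝ) ≤ (2 * (4 + |(u.2.1 : ℝ)|)) ^ 2 := by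
  have hn0 : (0 : ℝ) < n.1 := by linarith [hn.lo]
  have hm0 : (0 : ℝ) < m.1 := by linarith [hm.lo]
  have hn1 : 1 ≤ n.1 := by
    have : 0 < n.1 := by exact_mod_cast hn0
    omega
  have hm1 : 1 ≤ m.1 := by
    have : 0 < m.1 := by exact_mod_cast hm0
    omega
  have s1 := cq_spec φ hn.cop hn1
  have s2 := cq_spec φ hm.cop hm1
  have hbd := bndB1 hc hB hφ hP hn hm h
  unfold dd at s1 s2
  obtain ⟨p, hp⟩ : ∃ p, p = cq φ n := ⟨_, rfl⟩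
  obtain ⟨q, hq⟩ : ∃ q, q = cq φ m := ⟨_, rfl⟩
  rw [← hp] at s1
  rw [← hq] at s2
  have hbb : ((-(m.1 * p.1) + q.1 * n.1 : ℤ) : ℝ) = (n.1 : ℝ) * m.1 * (b0 φ m - b0 φ n) := by
    unfold b0
    rw [← hp, ← hq]
    push_cast
    field_simp
    ring
  obtain ⟨a, ha⟩ : ∃ a : ℤ, a = m.1 * p.2 - q.1 * n.2 := ⟨_, rfl⟩
  obtain ⟨b, hb⟩ : ∃ b : ℤ, b = -(m.1 * p.1) + q.1 * n.1 := ⟨_, rfl⟩
  obtain ⟨c, hcc⟩ : ∃ c : ℤ, c = m.2 * p.2 - q.2 * n.2 := ⟨_, rfl⟩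
  obtain ⟨d, hd⟩ : ∃ d : ℤ, d = -(m.2 * p.1) + q.2 * n.1 := ⟨_, rfl⟩
  have e1 : a * d - b * c = 1 := by
    have : a * d - b * c = (n.1 * p.2 - n.2 * p.1) * (m.1 * q.2 - m.2 * q.1) := by
      rw [ha, hb, hcc, hd]
      ring
    rw [this, s1, s2]
    norm_num
  have e2 : a * n.1 + b * n.2 = m.1 := by
    have : a * n.1 + b * n.2 = m.1 * (n.1 * p.2 - n.2 * p.1) := by
      rw [ha, hb]
      ring
    rw [this, s1, mul_one]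
  have e3 : c * n.1 + d * n.2 = m.2 := by
    have : c * n.1 + d * n.2 = m.2 * (n.1 * p.2 - n.2 * p.1) := by
      rw [hcc, hd]
      ring
    rw [this, s1, mul_one]
  have e4 : d * m.1 - b * m.2 = n.1 := by
    have : d * m.1 - b * m.2 = n.1 * (m.1 * q.2 - m.2 * q.1) := by
      rw [hb, hd]
      ring
    rw [this, s2, mul_one]
  have r2 : (a : ℝ) * n.1 + b * n.2 = m.1 := by exact_mod_cast e2
  have r3 : (c : ℝ) * n.1 + d * n.2 = m.2 := by exact_mod_cast e3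
  have r4 : (d : ℝ) * m.1 - b * m.2 = n.1 := by exact_mod_cast e4
  have n2 : (0 : ℝ) ≤ n.2 := by exact_mod_cast hn.nonneg
  have n3 : (n.2 : ℝ) ≤ n.1 := by exact_mod_cast hn.le
  have m2 : (0 : ℝ) ≤ m.2 := by exact_mod_cast hm.nonneg
  have m3 : (m.2 : ℝ) ≤ m.1 := by exact_mod_cast hm.le
  have x1 : (m.1 : ℝ) ≤ 2 * n.1 := by linarith [hn.lo, hm.hi]
  have x2 : (n.1 : ℝ) ≤ 2 * m.1 := by linarith [hm.lo, hn.hi]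
  have hb0 : 0 ≤ |(b : ℝ)| := abs_nonneg _
  have ba : |(a : ℝ)| ≤ 2 + |(b : ℝ)| := by
    have f1 : |(a : ℝ)| * n.1 ≤ (2 + |(b : ℝ)|) * n.1 := by
      calc |(a : ℝ)| * n.1 = |(a : ℝ) * n.1| := by rw [abs_mul, abs_of_pos hn0]
        _ = |(m.1 : ℝ) + -(b * n.2)| := by
          congr 1
          linarith
        _ ≤ |(m.1 : ℝ)| + |-((b : ℝ) * n.2)| := abs_add_le _ _
        _ = (m.1 : ℝ) + |(b : ℝ)| * n.2 := by rw [abs_neg, abs_mul, abs_of_pos hm0, abs_of_nonneg n2]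
        _ ≤ 2 * n.1 + |(b : ℝ)| * n.1 := add_le_add x1 (mul_le_mul_of_nonneg_left n3 hb0)
        _ = (2 + |(b : ℝ)|) * n.1 := by ring
    exact le_of_mul_le_mul_right f1 hn0
  have bd : |(d : ℝ)| ≤ 2 + |(b : ℝ)| := by
    have f1 : |(d : ℝ)| * m.1 ≤ (2 + |(b : ℝ)|) * m.1 := by
      calc |(d : ℝ)| * m.1 = |(d : ℝ) * m.1| := by rw [abs_mul, abs_of_pos hm0]
        _ = |(n.1 : ℝ) + b * m.2| := by
          congr 1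
          linarith
        _ ≤ |(n.1 : ℝ)| + |(b : ℝ) * m.2| := abs_add_le _ _
        _ = (n.1 : ℝ) + |(b : ℝ)| * m.2 := by rw [abs_mul, abs_of_pos hn0, abs_of_nonneg m2]
        _ ≤ 2 * m.1 + |(b : ℝ)| * m.1 := add_le_add x2 (mul_le_mul_of_nonneg_left m3 hb0)
        _ = (2 + |(b : ℝ)|) * m.1 := by ring
    exact le_of_mul_le_mul_right f1 hm0
  have bc : |(c : ℝ)| ≤ 4 + |(b : ℝ)| := by
    have f1 : |(c : ℝ)| * n.1 ≤ (4 + |(b : ℝ)|) * n.1 := by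
      calc |(c : ℝ)| * n.1 = |(c : ℝ) * n.1| := by rw [abs_mul, abs_of_pos hn0]
        _ = |(m.2 : ℝ) + -(d * n.2)| := by
          congr 1
          linarith
        _ ≤ |(m.2 : ℝ)| + |-((d : ℝ) * n.2)| := abs_add_le _ _
        _ = (m.2 : ℝ) + |(d : ℝ)| * n.2 := by rw [abs_neg, abs_mul, abs_of_nonneg m2, abs_of_nonneg n2]
        _ ≤ 2 * n.1 + (2 + |(b : ℝ)|) * n.1 :=
          add_le_add (m3.trans x1) (mul_le_mul bd n3 n2 (by positivity))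
        _ = (4 + |(b : ℝ)|) * n.1 := by ring
    exact le_of_mul_le_mul_right f1 hn0
  refine ⟨(a, b, c, d), e1, e2, e3, ?_, ?_⟩
  · show |(b : ℝ)| ≤ 1 + 2 * B / c₁
    rw [← hb] at hbb
    rw [hbb, abs_mul, abs_of_pos (mul_pos hn0 hm0)]
    exact hbd
  · show ((a ^ 2 + b ^ 2 + c ^ 2 + d ^ 2 : ℤ) : ℝ) ≤ (2 * (4 + |(b : ℝ)|)) ^ 2
    push_cast
    have g1 := sqB1 (b := (b : ℝ)) (x := (a : ℝ)) (by linarith)
    have g2 := sqB1 (b := (b : ℝ)) (x := (b : ℝ)) (by linarith)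
    have g3 := sqB1 (b := (b : ℝ)) (x := (c : ℝ)) bc
    have g4 := sqB1 (b := (b : ℝ)) (x := (d : ℝ)) (by linarith)
    have g5 : (2 * (4 + |(b : ℝ)|)) ^ 2 = 4 * (4 + |(b : ℝ)|) ^ 2 := by ring
    rw [g5]
    linarith

theorem occ {c₁ B : ℝ} (hc : 0 < c₁) (hB : 1 ≤ B) : ∃ C : ℝ, 1 ≤ C ∧ ∀ φ : ℝ → ℝ, Cn c₁ B φ → ∀ P : ℝ, 1 ≤ P →
    ∀ W : Finset (ℤ × ℤ), (∀ n ∈ W, Good P n) → (∀ n ∈ W, ∀ m ∈ W, |bq φ n - bq φ m| ≤ 1 / P ^ 2) → (W.card : ℝ) ≤ C := by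
  obtain ⟨Cs, hCs, hsl⟩ := sl_count
  obtain ⟨F, hF⟩ : ∃ F : ℝ, F = 2 * (4 + (1 + 2 * B / c₁)) := ⟨_, rfl⟩
  have hB0 : 0 ≤ 2 * B / c₁ := by positivity
  have hF1 : 1 ≤ F := by linarith
  refine ⟨max 1 (Cs * F ^ 2), le_max_left _ _, fun φ hφ P hP W hW hd => ?_⟩
  rcases W.eq_empty_or_nonempty with rfl | ⟨n, hn⟩
  · simp
  refine le_trans ?_ (le_max_right _ _)
  have hex : ∀ m ∈ W, ∃ u : ℤ × ℤ × ℤ × ℤ, u.1 * u.2.2.2 - u.2.1 * u.2.2.1 = 1 ∧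
      u.1 * n.1 + u.2.1 * n.2 = m.1 ∧ u.2.2.1 * n.1 + u.2.2.2 * n.2 = m.2 ∧
        |(u.2.1 : ℝ)| ≤ 1 + 2 * B / c₁ ∧
        ((u.1 ^ 2 + u.2.1 ^ 2 + u.2.2.1 ^ 2 + u.2.2.2 ^ 2 : ℤ) : ℝ) ≤ (2 * (4 + |(u.2.1 : ℝ)|)) ^ 2 :=
    fun m hm => matB1 hc hB hφ hP (hW n hn) (hW m hm) (hd n hn m hm)
  choose! U hU using hex
  have hinj : Set.InjOn U (W : Set (ℤ × ℤ)) := by
    intro x hx y hy hxy
    obtain ⟨-, h1, h2, -, -⟩ := hU x hx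
    obtain ⟨-, h3, h4, -, -⟩ := hU y hy
    rw [hxy] at h1 h2
    exact Prod.ext (h1.symm.trans h3) (h2.symm.trans h4)
  rw [← Finset.card_image_of_injOn hinj]
  refine hsl F hF1 _ (fun u hu => ?_)
  obtain ⟨m, hm, rfl⟩ := Finset.mem_image.1 hu
  obtain ⟨h1, -, -, h4, h5⟩ := hU m hm
  refine ⟨h1, h5.trans ?_⟩
  rw [hF]
  have h6 : 0 ≤ |((U m).2.1 : ℝ)| := abs_nonneg _
  exact pow_le_pow_left₀ (by positivity) (by linarith) 2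

end Pool.Agent.Helper60.SV
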