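import Pool.Agent.Helper60.SV.Defs

/-!
# SV-B2: the small values of `b ↦ ∑ ± j²/(h + b j)`

PROOF. `g b = df (ph b) t` is continuous on `I = [β₁, β₂]` (the denominators `uu b (t.1 i)`, `uu b (t.2 i)` are positive there). Let `D b` be the product of the twelve denominators (polynomial of degree `≤ 12`) and
`g = G/D` on `I` with a polynomial `G` of degree `≤ 11`. If `|g| ≤ lam` on all of `I` the measure is `β₂ - β₁` and the bound is `N`. Otherwise `F = G² - lam² D²` is a nonzero polynomial of degree `≤ 24`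
(it is positive where `|g| > lam`), so `g b = ± lam` has at most 24 solutions in `I`, each in at most two cells. A cell of the set which contains no such solution is contained in `{|g| ≤ lam}` (intermediate value theorem),
and the cells have measure `(β₂ - β₁)/N` and disjoint interiors: their number times `(β₂ - β₁)/N` is at most the measure. Total `≤ 48 + N/(β₂ - β₁) · volume`.
(`Polynomial.card_roots'`; `D = ∏ (C h + C j * X)`, `G = ∑ ± C (j²) * ∏_{others}`. The bound 100 leaves room, for instance for a cruder degree.)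
-/

open MeasureTheory Real Set Filter Topology

set_option autoImplicit false

namespace Pool.Agent.Helper60.SV

open Pool.Agent.Helper22.AE
open Pool.Agent.Helper92.GC (dt tp Tq uu tt ph reg arc gs dd Good IsNd oct sec)
open Pool.Agent.Helper92.DT (m12)
open Pool.Agent.Helper76.OV (sl f2 Cn lq b0 bq kap)

/-- the twelve vectors -/
private def kk38 (t : T12) : Fin 6 ⊕ Fin 6 → ℤ × ℤ := Sum.elim t.1 t.2

/-- the twelve signs -/
private def sg38 : Fin 6 ⊕ Fin 6 → ℝ := Sum.elim (fun _ => 1) (fun _ => -1)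

private lemma df_eq38 (t : T12) (f : ℤ × ℤ → ℝ) : df f t = ∑ i, sg38 i * f (kk38 t i) := by
  rw [Fintype.sum_sum_type]
  simp [df, sg38, kk38, sub_eq_add_neg]

/-- the denominators -/
private noncomputable def den38 (k : ℤ × ℤ) : Polynomial ℝ :=
  Polynomial.C (k.1 : ℝ) + Polynomial.C (k.2 : ℝ) * Polynomial.X

private lemma den_eval38 (k : ℤ × ℤ) (b : ℝ) : (den38 k).eval b = uu b k := by
  simp [den38, uu, mul_comm]

private lemma den_deg38 (k : ℤ × ℤ) : (den38 k).natDegree ≤ 1 := by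
  unfold den38
  refine (Polynomial.natDegree_add_le _ _).trans (max_le (by simp) ?_)
  exact (Polynomial.natDegree_C_mul_le _ _).trans Polynomial.natDegree_X_le

private noncomputable def DD38 (t : T12) : Polynomial ℝ := ∏ i, den38 (kk38 t i)

private noncomputable def GG38 (t : T12) : Polynomial ℝ :=
  ∑ i, Polynomial.C (sg38 i * ((kk38 t i).2 : ℝ) ^ 2) * ∏ i' ∈ Finset.univ.erase i, den38 (kk38 t i')

private lemma DD_deg38 (t : T12) : (DD38 t).natDegree ≤ 12 := by
  unfold DD38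
  refine (Polynomial.natDegree_prod_le _ _).trans ?_
  refine (Finset.sum_le_sum fun i _ => den_deg38 (kk38 t i)).trans ?_
  simp

private lemma GG_deg38 (t : T12) : (GG38 t).natDegree ≤ 12 := by
  unfold GG38
  refine Polynomial.natDegree_sum_le_of_forall_le _ _ (fun i _ => ?_)
  refine (Polynomial.natDegree_C_mul_le _ _).trans ?_
  refine (Polynomial.natDegree_prod_le _ _).trans ?_
  refine (Finset.sum_le_sum fun i' _ => den_deg38 (kk38 t i')).trans ?_
  rw [Finset.sum_const, smul_eq_mul, mul_one]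
  refine (Finset.card_le_univ _).trans ?_
  simp

private lemma GG_eval38 (t : T12) (b : ℝ) (h : ∀ i, uu b (kk38 t i) ≠ 0) :
    (GG38 t).eval b = df (ph b) t * (DD38 t).eval b := by
  unfold GG38 DD38
  rw [df_eq38, Polynomial.eval_finsetSum, Finset.sum_mul]
  apply Finset.sum_congr rfl
  intro i _
  rw [Polynomial.eval_mul, Polynomial.eval_C, ← Finset.mul_prod_erase Finset.univ _ (Finset.mem_univ i),
    Polynomial.eval_mul, den_eval38]
  unfold ph
  field_simp [h i]

private lemma DD_eval38 (t : T12) (b : ℝ) : (DD38 t).eval b = ∏ i, uu b (kk38 t i) := by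
  unfold DD38
  rw [Polynomial.eval_prod]
  exact Finset.prod_congr rfl (fun i _ => den_eval38 _ _)

private noncomputable def FF38 (t : T12) (lam : ℝ) : Polynomial ℝ :=
  GG38 t ^ 2 - Polynomial.C (lam ^ 2) * DD38 t ^ 2

private lemma FF_deg38 (t : T12) (lam : ℝ) : (FF38 t lam).natDegree ≤ 24 := by
  unfold FF38
  refine (Polynomial.natDegree_sub_le _ _).trans (max_le ?_ ?_)
  · refine (Polynomial.natDegree_pow_le).trans ?_
    have := GG_deg38 t
    omega
  · refine (Polynomial.natDegree_C_mul_le _ _).trans ((Polynomial.natDegree_pow_le).trans ?_)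
    have := DD_deg38 t
    omega

private lemma FF_eval38 (t : T12) (lam b : ℝ) (h : ∀ i, uu b (kk38 t i) ≠ 0) :
    (FF38 t lam).eval b = (df (ph b) t ^ 2 - lam ^ 2) * (DD38 t).eval b ^ 2 := by
  unfold FF38
  rw [Polynomial.eval_sub, Polynomial.eval_mul, Polynomial.eval_pow, Polynomial.eval_pow,
    Polynomial.eval_C, GG_eval38 t b h]
  ring

private lemma cont38 (t : T12) {β₁ β₂ : ℝ} (h : ∀ b ∈ Icc β₁ β₂, ∀ i, uu b (kk38 t i) ≠ 0) :
    ContinuousOn (fun b => df (ph b) t) (Icc β₁ β₂) := by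
  simp only [df_eq38]
  refine continuousOn_finsetSum _ (fun i _ => ContinuousOn.mul continuousOn_const ?_)
  unfold ph
  refine ContinuousOn.div continuousOn_const ?_ (fun b hb => h b hb i)
  unfold uu
  fun_prop

open Classical in
theorem cells (t : T12) (β₁ β₂ lam : ℝ) (N : ℕ) (hβ : β₁ < β₂) (hl : 0 < lam) (hN : 1 ≤ N)
    (hpos : ∀ i, ∀ b ∈ Icc β₁ β₂, 0 < uu b (t.1 i) ∧ 0 < uu b (t.2 i)) :
    (((Finset.range N).filter fun j : ℕ => ∃ b ∈ Icc (β₁ + j * ((β₂ - β₁) / N)) (β₁ + (j + 1) * ((β₂ - β₁) / N)),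
      |df (ph b) t| ≤ lam).card : ℝ) ≤ 100 + N / (β₂ - β₁) * (volume {b : ℝ | b ∈ Icc β₁ β₂ ∧ |df (ph b) t| ≤ lam}).toReal := by
  have hne : ∀ b ∈ Icc β₁ β₂, ∀ i, 0 < uu b (kk38 t i) := by
    intro b hb i
    rcases i with i | i
    · exact (hpos i b hb).1
    · exact (hpos i b hb).2
  have hN0 : (0 : ℝ) < N := by exact_mod_cast hN
  set δ : ℝ := (β₂ - β₁) / N with hδ
  have hδ0 : 0 < δ := div_pos (by linarith) hN0
  have hδN : δ * N = β₂ - β₁ := by rw [hδ]; field_simp
  set Sm : Set ℝ := {b : ℝ | b ∈ Icc β₁ β₂ ∧ |df (ph b) t| ≤ lam} with hSm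
  have hfin : volume Sm ≠ ⊤ := by
    have h1 : volume Sm ≤ volume (Icc β₁ β₂) := measure_mono (fun b hb => hb.1)
    rw [Real.volume_Icc] at h1
    exact ne_top_of_le_ne_top ENNReal.ofReal_ne_top h1
  set A : Finset ℕ := (Finset.range N).filter fun j : ℕ =>
    ∃ b ∈ Icc (β₁ + j * δ) (β₁ + (j + 1) * δ), |df (ph b) t| ≤ lam with hA
  have hcell : ∀ j < N, Icc (β₁ + (j : ℝ) * δ) (β₁ + ((j : ℝ) + 1) * δ) ⊆ Icc β₁ β₂ := by
    intro j hj b hb
    have h1 : ((j : ℝ) + 1) ≤ N := by exact_mod_cast hj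
    have h2 : ((j : ℝ) + 1) * δ ≤ N * δ := mul_le_mul_of_nonneg_right h1 hδ0.le
    have h3 : 0 ≤ (j : ℝ) * δ := by positivity
    constructor
    · linarith [hb.1]
    · have := hb.2
      nlinarith [hδN]
  by_cases hall : ∀ b ∈ Icc β₁ β₂, |df (ph b) t| ≤ lam
  · have h1 : Sm = Icc β₁ β₂ := by
      ext b
      exact ⟨fun h => h.1, fun h => ⟨h, hall b h⟩⟩
    rw [h1, Real.volume_Icc, ENNReal.toReal_ofReal (by linarith)]
    have h2 : (A.card : ℝ) ≤ N := by
      have : A.card ≤ (Finset.range N).card := Finset.card_filter_le _ _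
      rw [Finset.card_range] at this
      exact_mod_cast this
    have h3 : (N : ℝ) / (β₂ - β₁) * (β₂ - β₁) = N := div_mul_cancel₀ _ (by linarith)
    rw [h3]
    linarith
  push Not at hall
  obtain ⟨b0, hb0, hb0'⟩ := hall
  have hF0 : FF38 t lam ≠ 0 := by
    intro h0
    have h1 := FF_eval38 t lam b0 (fun i => (hne b0 hb0 i).ne')
    rw [h0, Polynomial.eval_zero] at h1
    have h2 : 0 < (DD38 t).eval b0 ^ 2 := by
      have : (DD38 t).eval b0 ≠ 0 := by
        rw [DD_eval38]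
        exact Finset.prod_ne_zero_iff.2 (fun i _ => (hne b0 hb0 i).ne')
      positivity
    have h3 : 0 < df (ph b0) t ^ 2 - lam ^ 2 := by
      have : lam ^ 2 < |df (ph b0) t| ^ 2 := pow_lt_pow_left₀ hb0' hl.le (by norm_num)
      rw [sq_abs] at this
      linarith
    have := mul_pos h3 h2
    linarith
  set Z : Finset ℝ := (FF38 t lam).roots.toFinset with hZ
  have hZc : Z.card ≤ 24 :=
    (Multiset.toFinset_card_le _).trans ((Polynomial.card_roots' _).trans (FF_deg38 t lam))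
  have hZm : ∀ b ∈ Icc β₁ β₂, |df (ph b) t| = lam → b ∈ Z := by
    intro b hb h
    rw [hZ, Multiset.mem_toFinset, Polynomial.mem_roots hF0, Polynomial.IsRoot.def,
      FF_eval38 t lam b (fun i => (hne b hb i).ne'), ← sq_abs, h]
    ring
  -- the bad cells
  set Bd : Finset ℕ := A.filter fun j : ℕ => ∃ z ∈ Z, z ∈ Icc (β₁ + (j : ℝ) * δ) (β₁ + ((j : ℝ) + 1) * δ)
    with hBd
  have hBdc : Bd.card ≤ 48 := by
    have hsub : Bd ⊆ Z.biUnion fun z => {⌊(z - β₁) / δ⌋₊, ⌊(z - β₁) / δ⌋₊ - 1} := by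
      intro j hj
      obtain ⟨_, z, hz, hzj⟩ := Finset.mem_filter.1 hj
      rw [Finset.mem_biUnion]
      refine ⟨z, hz, ?_⟩
      have h1 : (j : ℝ) ≤ (z - β₁) / δ := by
        rw [le_div_iff₀ hδ0]
        linarith [hzj.1]
      have h2 : (z - β₁) / δ ≤ (j : ℝ) + 1 := by
        rw [div_le_iff₀ hδ0]
        linarith [hzj.2]
      have h3 : j ≤ ⌊(z - β₁) / δ⌋₊ := Nat.le_floor h1
      have h4 : ⌊(z - β₁) / δ⌋₊ ≤ j + 1 := by
        have : ⌊(z - β₁) / δ⌋₊ ≤ ⌊(((j + 1 : ℕ)) : ℝ)⌋₊ := Nat.floor_le_floor (by push_cast; exact h2)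
        rwa [Nat.floor_natCast] at this
      rw [Finset.mem_insert, Finset.mem_singleton]
      omega
    refine (Finset.card_le_card hsub).trans ?_
    refine (Finset.card_biUnion_le_card_mul _ _ 2 (fun z _ => Finset.card_le_two)).trans ?_
    omega
  -- the good cells
  set Gd : Finset ℕ := A.filter fun j : ℕ => ¬ ∃ z ∈ Z, z ∈ Icc (β₁ + (j : ℝ) * δ) (β₁ + ((j : ℝ) + 1) * δ)
    with hGd
  have hcard : A.card = Bd.card + Gd.card := by
    rw [hBd, hGd]
    exact (Finset.card_filter_add_card_filter_not _).symm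
  have hgood : ∀ j ∈ Gd, Icc (β₁ + (j : ℝ) * δ) (β₁ + ((j : ℝ) + 1) * δ) ⊆ Sm := by
    intro j hj b2 hb2
    obtain ⟨hjA, hjZ⟩ := Finset.mem_filter.1 hj
    obtain ⟨hjN, b1, hb1, hb1'⟩ := Finset.mem_filter.1 hjA
    have hsubI := hcell j (Finset.mem_range.1 hjN)
    refine ⟨hsubI hb2, ?_⟩
    by_contra hgt
    push Not at hgt
    have hsub2 : uIcc b1 b2 ⊆ Icc (β₁ + (j : ℝ) * δ) (β₁ + ((j : ℝ) + 1) * δ) :=
      Set.OrdConnected.uIcc_subset Set.ordConnected_Icc hb1 hb2
    have hcont : ContinuousOn (fun b => |df (ph b) t|) (uIcc b1 b2) :=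
      ((cont38 t (fun b hb i => (hne b hb i).ne')).mono (hsub2.trans hsubI)).abs
    have h1 := intermediate_value_uIcc hcont
    have h2 : lam ∈ uIcc |df (ph b1) t| |df (ph b2) t| := by
      rw [uIcc_of_le (hb1'.trans hgt.le)]
      exact ⟨hb1', hgt.le⟩
    obtain ⟨z, hz, hz'⟩ := h1 h2
    exact hjZ ⟨z, hZm z (hsubI (hsub2 hz)) hz', hsub2 hz⟩
  have hmeas : (Gd.card : ℝ) * δ ≤ (volume Sm).toReal := by
    have hdisj : (Gd : Set ℕ).PairwiseDisjoint fun j : ℕ =>
        Ico (β₁ + (j : ℝ) * δ) (β₁ + ((j : ℝ) + 1) * δ) := by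
      intro i _ j _ hij
      show Disjoint (Ico _ _) (Ico _ _)
      rw [Set.disjoint_left]
      intro b hb hb'
      rcases Nat.lt_or_gt_of_ne hij with h | h
      · have h1 : ((i : ℝ) + 1) ≤ j := by exact_mod_cast h
        have h2 : ((i : ℝ) + 1) * δ ≤ j * δ := mul_le_mul_of_nonneg_right h1 hδ0.le
        linarith [hb.2, hb'.1]
      · have h1 : ((j : ℝ) + 1) ≤ i := by exact_mod_cast h
        have h2 : ((j : ℝ) + 1) * δ ≤ i * δ := mul_le_mul_of_nonneg_right h1 hδ0.le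
        linarith [hb'.2, hb.1]
    have h1 : volume (⋃ j ∈ Gd, Ico (β₁ + (j : ℝ) * δ) (β₁ + ((j : ℝ) + 1) * δ)) =
        ∑ j ∈ Gd, volume (Ico (β₁ + (j : ℝ) * δ) (β₁ + ((j : ℝ) + 1) * δ)) :=
      measure_biUnion_finset hdisj (fun j _ => measurableSet_Ico)
    have h2 : ∀ j ∈ Gd, volume (Ico (β₁ + (j : ℝ) * δ) (β₁ + ((j : ℝ) + 1) * δ)) = ENNReal.ofReal δ := by
      intro j _
      rw [Real.volume_Ico]
      congr 1
      ring
    rw [Finset.sum_congr rfl h2, Finset.sum_const] at h1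
    have h3 : volume (⋃ j ∈ Gd, Ico (β₁ + (j : ℝ) * δ) (β₁ + ((j : ℝ) + 1) * δ)) ≤ volume Sm := by
      apply measure_mono
      apply Set.iUnion₂_subset
      intro j hj b hb
      exact hgood j hj ⟨hb.1, hb.2.le⟩
    rw [h1] at h3
    have h4 := ENNReal.toReal_mono hfin h3
    rw [nsmul_eq_mul, ENNReal.toReal_mul, ENNReal.toReal_natCast, ENNReal.toReal_ofReal hδ0.le] at h4
    exact h4
  have hGc : (Gd.card : ℝ) ≤ N / (β₂ - β₁) * (volume Sm).toReal := by
    have h1 : (N : ℝ) / (β₂ - β₁) = 1 / δ := by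
      rw [hδ]
      field_simp
    rw [h1, one_div, inv_mul_eq_div, le_div_iff₀ hδ0]
    exact hmeas
  have h5 : (A.card : ℝ) = Bd.card + Gd.card := by exact_mod_cast hcard
  have h6 : (Bd.card : ℝ) ≤ 48 := by exact_mod_cast hBdc
  rw [h5]
  linarith

end Pool.Agent.Helper60.SV
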