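import Pool.Agent.Helper60.SV.B1
import Pool.Agent.Helper60.SV.B2

/-!
# SV-B3: the number of vectors `n` with a small value at `bq φ n`

PROOF. `N = ⌈P²⌉₊ ≤ 2 P²`, `I = [b₁ - 1/60, b₁ + 1/60]`, cells of length `(1/30)/N ≤ 1/P²`. Every `n ∈ W` lies in a cell (`bq φ n ∈ I`; `j = min ⌊(bq φ n - (b₁ - 1/60)) · 30 N⌋₊ (N - 1)`) of the set of `cells`, and every cell contains at most
`C` of the points (`occ`). So `card W ≤ C (100 + 30 N vol) ≤ C (100 + 60 P² vol)`.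
-/

open MeasureTheory Real Set Filter Topology

set_option autoImplicit false

namespace Pool.Agent.Helper60.SV

open Pool.Agent.Helper22.AE
open Pool.Agent.Helper92.GC (dt tp Tq uu tt ph reg arc gs dd Good IsNd oct sec)
open Pool.Agent.Helper92.DT (m12)
open Pool.Agent.Helper76.OV (sl f2 Cn lq b0 bq kap)

theorem cnt {c₁ B : ℝ} (hc : 0 < c₁) (hB : 1 ≤ B) : ∃ C : ℝ, 1 ≤ C ∧ ∀ φ : ℝ → ℝ, Cn c₁ B φ → ∀ P b₁ lam : ℝ, 1 ≤ P → 0 < lam → ∀ t : T12,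
    (∀ i, ∀ b ∈ Icc (b₁ - 1 / 60) (b₁ + 1 / 60), 0 < uu b (t.1 i) ∧ 0 < uu b (t.2 i)) →
      ∀ W : Finset (ℤ × ℤ), (∀ n ∈ W, Good P n ∧ |bq φ n - b₁| ≤ 1 / 60 ∧ |df (ph (bq φ n)) t| ≤ lam) →
        (W.card : ℝ) ≤ C * (1 + P ^ 2 * (volume {b : ℝ | b ∈ Icc (b₁ - 1 / 60) (b₁ + 1 / 60) ∧ |df (ph b) t| ≤ lam}).toReal) := by
  obtain ⟨C₀, hC₀, hocc⟩ := occ hc hB
  refine ⟨C₀ * 100, by linarith, fun φ hφ P b₁ lam hP hl t hpos W hW => ?_⟩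
  classical
  obtain ⟨N, hNd⟩ : ∃ N : ℕ, N = ⌈P ^ 2⌉₊ := ⟨_, rfl⟩
  have hP2 : 1 ≤ P ^ 2 := one_le_pow₀ hP
  have hN1 : P ^ 2 ≤ (N : ℝ) := by rw [hNd]; exact Nat.le_ceil _
  have hN2 : (N : ℝ) ≤ 2 * P ^ 2 := by
    have := Nat.ceil_lt_add_one (show (0:ℝ) ≤ P ^ 2 by positivity)
    rw [hNd]
    linarith
  have hN0 : (0:ℝ) < N := by linarith
  have hN3 : 1 ≤ N := by exact_mod_cast hN0
  obtain ⟨β₁, hβ₁⟩ : ∃ β₁ : ℝ, β₁ = b₁ - 1 / 60 := ⟨_, rfl⟩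
  obtain ⟨β₂, hβ₂⟩ : ∃ β₂ : ℝ, β₂ = b₁ + 1 / 60 := ⟨_, rfl⟩
  rw [← hβ₁, ← hβ₂] at hpos ⊢
  have hlen : β₂ - β₁ = 1 / 30 := by rw [hβ₁, hβ₂]; ring
  have hcells := cells t β₁ β₂ lam N (by linarith) hl hN3 hpos
  obtain ⟨ℓ, hℓd⟩ : ∃ ℓ : ℝ, ℓ = (β₂ - β₁) / N := ⟨_, rfl⟩
  rw [← hℓd] at hcells
  have hℓ : 0 < ℓ := by rw [hℓd, hlen]; positivity
  have hℓN : ℓ * N = 1 / 30 := by
    rw [hℓd, hlen]
    field_simp
  have hℓP : ℓ ≤ 1 / P ^ 2 := by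
    rw [le_div_iff₀ (by positivity)]
    calc ℓ * P ^ 2 ≤ ℓ * N := mul_le_mul_of_nonneg_left hN1 hℓ.le
      _ = 1 / 30 := hℓN
      _ ≤ 1 := by norm_num
  obtain ⟨J, hJ⟩ : ∃ J : Finset ℕ, J = (Finset.range N).filter fun j : ℕ =>
      ∃ b ∈ Icc (β₁ + j * ℓ) (β₁ + (j + 1) * ℓ), |df (ph b) t| ≤ lam := ⟨_, rfl⟩
  obtain ⟨jj, hjj⟩ : ∃ jj : ℤ × ℤ → ℕ, ∀ n, jj n = min ⌊(bq φ n - β₁) / ℓ⌋₊ (N - 1) := ⟨fun n => _, fun n => rfl⟩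
  have hin : ∀ n ∈ W, jj n < N ∧ bq φ n ∈ Icc (β₁ + jj n * ℓ) (β₁ + (jj n + 1) * ℓ) := by
    intro n hn
    obtain ⟨-, h1, -⟩ := hW n hn
    rw [abs_le] at h1
    have h2 : 0 ≤ bq φ n - β₁ := by rw [hβ₁]; linarith
    have h3 : bq φ n - β₁ ≤ ℓ * N := by rw [hℓN, hβ₁]; linarith
    have h4 : ((⌊(bq φ n - β₁) / ℓ⌋₊ : ℕ) : ℝ) ≤ (bq φ n - β₁) / ℓ := Nat.floor_le (by positivity)
    have h5 : (bq φ n - β₁) / ℓ < (⌊(bq φ n - β₁) / ℓ⌋₊ : ℕ) + 1 := Nat.lt_floor_add_one _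
    rw [le_div_iff₀ hℓ] at h4
    rw [div_lt_iff₀ hℓ] at h5
    refine ⟨by rw [hjj]; omega, ?_⟩
    rcases le_total ⌊(bq φ n - β₁) / ℓ⌋₊ (N - 1) with h | h
    · rw [hjj, min_eq_left h]
      exact ⟨by linarith, by linarith⟩
    · rw [hjj, min_eq_right h]
      have h6 : ((N - 1 : ℕ) : ℝ) = N - 1 := by
        push_cast [hN3]
        ring
      have h7 : ((N - 1 : ℕ) : ℝ) ≤ (⌊(bq φ n - β₁) / ℓ⌋₊ : ℕ) := by exact_mod_cast h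
      have h8 := mul_le_mul_of_nonneg_right h7 hℓ.le
      constructor
      · linarith
      · rw [h6]
        linarith
  have hmaps : ∀ n ∈ W, jj n ∈ J := by
    intro n hn
    obtain ⟨h1, h2⟩ := hin n hn
    rw [hJ, Finset.mem_filter, Finset.mem_range]
    exact ⟨h1, bq φ n, h2, (hW n hn).2.2⟩
  have hfib : ∀ j ∈ J, (W.filter fun n => jj n = j).card ≤ ⌊C₀⌋₊ := by
    intro j _
    refine Nat.le_floor (hocc φ hφ P hP _ (fun n hn => (hW n (Finset.mem_filter.1 hn).1).1) fun n hn m hm => ?_)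
    rw [Finset.mem_filter] at hn hm
    have h1 := (hin n hn.1).2
    have h2 := (hin m hm.1).2
    rw [hn.2] at h1
    rw [hm.2] at h2
    refine le_trans (abs_le.2 ⟨?_, ?_⟩) hℓP
    · linarith [h1.1, h2.2]
    · linarith [h1.2, h2.1]
  have hcard := Finset.card_le_mul_card_image_of_maps_to hmaps ⌊C₀⌋₊ hfib
  have h1 : (W.card : ℝ) ≤ C₀ * (J.card : ℝ) := by
    have h2 : (W.card : ℝ) ≤ (⌊C₀⌋₊ : ℝ) * (J.card : ℝ) := by exact_mod_cast hcard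
    have h3 : ((⌊C₀⌋₊ : ℕ) : ℝ) ≤ C₀ := Nat.floor_le (by linarith)
    exact h2.trans (mul_le_mul_of_nonneg_right h3 (Nat.cast_nonneg _))
  obtain ⟨V, hV⟩ : ∃ V : ℝ, V = (volume {b : ℝ | b ∈ Icc β₁ β₂ ∧ |df (ph b) t| ≤ lam}).toReal := ⟨_, rfl⟩
  rw [← hV] at hcells ⊢
  have hV0 : 0 ≤ V := by rw [hV]; exact ENNReal.toReal_nonneg
  have h2 : (J.card : ℝ) ≤ 100 + N / (β₂ - β₁) * V := by
    rw [hJ]
    convert hcells using 4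
  have h3 : (N : ℝ) / (β₂ - β₁) * V ≤ 60 * P ^ 2 * V := by
    rw [hlen]
    have h4 : (N : ℝ) / (1 / 30) = 30 * N := by ring
    rw [h4]
    exact mul_le_mul_of_nonneg_right (by linarith) hV0
  have h5 : 0 ≤ P ^ 2 * V := by positivity
  calc (W.card : ℝ) ≤ C₀ * (J.card : ℝ) := h1
    _ ≤ C₀ * (100 + 60 * P ^ 2 * V) := mul_le_mul_of_nonneg_left (by linarith) (by linarith)
    _ ≤ C₀ * (100 * (1 + P ^ 2 * V)) := mul_le_mul_of_nonneg_left (by linarith) (by linarith)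
    _ = C₀ * 100 * (1 + P ^ 2 * V) := by ring

end Pool.Agent.Helper60.SV
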