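import Pool.Agent.Helper60.SV.Defs
import Pool.Agent.Helper76.OV.T1
import Pool.Agent.Helper76.OV.C1

/-!
# SV-C1: the phase in a sector; sizes

PROOF of `phase` (compare OV.G2 of Helper76). `q = n.1`, `s = sl n ∈ [0, 1]`, `β = b0 φ n`, `κ = kap φ n`, `u = uu β p > 0`, `t = tt β p`, `p.2 = t u`, `k = lq φ n p`: `k.1 = q u` (`lq_fst`), `sl k = s + t/q²` (`lq_sl`),
`fp φ k = q u (φ s + φ' s t/q² + f2 t²/(2q⁴) + f3 t³/(6q⁶) + rem φ s (t/q²))` (`rem` of T1), `q u φ s = q φ s (p.1 + β p.2)`, `q u φ' s t/q² = φ' s p.2/q`: linear in `p`. `uu (bq φ n) p = u (1 - κ t)` (`bq = b0 - kap`),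
`ph (bq φ n) p = u t²/(1 - κ t) = u (t² + κ t³ + κ² t⁴/(1 - κ t))` and `f3/(6 q⁵) = κ f2/(2q³)`. So the error is `q u rem φ s (t/q²) - (f2/(2q³)) u κ² t⁴/(1 - κ t)`, at most
`q u B (|t|/q²)⁴ + (B/(2q³)) u κ² t⁴ (4/3)` (`rem_lip` with `X = |t|/q² ≤ 1`, `y = 0`, `rem_zero`), `|κ| ≤ B/(3 c₁ q²)` (`kap_le`).
PROOF of `rg_mem`: `|(b₁ - b0) t| ≤ (|b₁ - bq| + |κ|) |t| ≤ 1/60 + 1/9`: `|κ| |t| ≤ (B/(3 c₁ q²))/A`, `q > Q/(2A)`, so it is at most `4 B A/(3 c₁ Q²) ≤ 4B/(3 c₁ Q) ≤ 1/9`; `uu b₁ p = u (1 + (b₁ - b0) t)`. `sec_coord'` (OV.G1).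
`|p.1| ≤ uu b₁ p + |b₁| |p.2|` for the box (`|b₁| ≤ 1/2`).
PROOF of `rg_sub`: `uu b p = uu b₁ p (1 + (b - b₁) tt b₁ p)`, `|tt b₁ p| ≤ 2`. `rg_card`: `|p.2| ≤ 2H`: at most `5H` values (`H ≥ 1`), `p.1` for given `p.2` in an interval of length `4.5 H'`.
-/

open MeasureTheory Real Set Filter Topology

set_option autoImplicit false

namespace Pool.Agent.Helper60.SV

open Pool.Agent.Helper22.AE
open Pool.Agent.Helper92.GC (dt tp Tq uu tt ph reg arc gs dd Good IsNd oct sec)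
open Pool.Agent.Helper92.DT (m12)
open Pool.Agent.Helper76.OV (sl f2 Cn lq b0 bq kap)

open Pool.Agent.Helper76.OV (rem rem_zero rem_lip lq_fst lq_sl sl_range kap_le sec_coord' f3)

/-- an interval of integers has at most its length plus one elements -/
private lemma icc41 (a b : ℝ) (h : a ≤ b) : ((Finset.Icc ⌈a⌉ ⌊b⌋).card : ℝ) ≤ b - a + 1 := by
  rw [Int.card_Icc]
  have h1 : ((⌊b⌋ + 1 - ⌈a⌉).toNat : ℤ) = max (⌊b⌋ + 1 - ⌈a⌉) 0 := Int.toNat_eq_max _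
  have h2 : ((⌊b⌋ + 1 - ⌈a⌉).toNat : ℝ) = ((max (⌊b⌋ + 1 - ⌈a⌉) 0 : ℤ) : ℝ) := by
    rw [← h1]
    push_cast
    rfl
  rw [h2]
  push_cast
  refine max_le ?_ (by linarith)
  have h3 := Int.floor_le b
  have h4 := Int.le_ceil a
  linarith

theorem phase {c₁ B : ℝ} (hc : 0 < c₁) (hB : 1 ≤ B) : ∃ C : ℝ, 1 ≤ C ∧ ∀ φ : ℝ → ℝ, Cn c₁ B φ → ∀ n : ℤ × ℤ, IsCoprime n.1 n.2 → 1 ≤ n.1 →
    0 ≤ n.2 → n.2 ≤ n.1 → ∃ x y : ℝ, ∀ p : ℤ × ℤ, 0 < uu (b0 φ n) p → |tt (b0 φ n) p| ≤ 1 → |kap φ n * tt (b0 φ n) p| ≤ 1 / 4 →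
      |fp φ (lq φ n p) - (x * p.1 + y * p.2) - f2 φ (sl n) / (2 * (n.1 : ℝ) ^ 3) * ph (bq φ n) p| ≤
        C * (uu (b0 φ n) p * |tt (b0 φ n) p| ^ 4 / (n.1 : ℝ) ^ 7) := by
  have hB0 : 0 < B := by linarith
  refine ⟨B + B ^ 3 / c₁ ^ 2, ?_, ?_⟩
  · have : 0 ≤ B ^ 3 / c₁ ^ 2 := by positivity
    linarith
  intro φ hφ n hcop hq1 hn0 hn1
  obtain ⟨q, hq⟩ : ∃ q : ℝ, q = (n.1 : ℝ) := ⟨_, rfl⟩
  have hq1' : 1 ≤ q := by
    rw [hq]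
    exact_mod_cast hq1
  have hq0 : 0 < q := by linarith
  obtain ⟨s, hs⟩ : ∃ s : ℝ, s = sl n := ⟨_, rfl⟩
  obtain ⟨β, hβ⟩ : ∃ β : ℝ, β = b0 φ n := ⟨_, rfl⟩
  obtain ⟨κ, hκ⟩ : ∃ κ : ℝ, κ = kap φ n := ⟨_, rfl⟩
  have hs01 : 0 ≤ s ∧ s ≤ 1 := by
    rw [hs]
    exact sl_range hn0 hn1
  have hs2 : |s| ≤ 2 := by
    rw [abs_le]
    constructor <;> linarith [hs01.1, hs01.2]
  obtain ⟨F2, hF2⟩ : ∃ F2 : ℝ, F2 = f2 φ s := ⟨_, rfl⟩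
  obtain ⟨F3, hF3⟩ : ∃ F3 : ℝ, F3 = f3 φ s := ⟨_, rfl⟩
  have hF2c : c₁ ≤ F2 := by
    rw [hF2]
    exact hφ.lo s hs2
  have hF2B : F2 ≤ B := by
    rw [hF2]
    exact (le_abs_self _).trans (hφ.h2 s hs2)
  have hF20 : 0 < F2 := by linarith
  have hκv : κ = F3 / (3 * F2 * q ^ 2) := by
    rw [hκ, hF2, hF3, hs, hq]
    rfl
  have hκ1 : |κ| ≤ B / (3 * c₁ * q ^ 2) := by
    rw [hκ, hq]
    exact kap_le hc hφ hq1 hn0 hn1
  refine ⟨q * φ s, q * φ s * β + deriv φ s / q, ?_⟩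
  intro p hu ht hkt
  have hk1 : ((lq φ n p).1 : ℝ) = q * uu β p := by
    rw [hq, hβ]
    exact lq_fst φ hq1 p
  have hk2 : sl (lq φ n p) = s + tt β p / q ^ 2 := by
    rw [hs, hq, hβ]
    exact lq_sl φ hcop hq1 hu
  unfold fp
  rw [hk1, hk2]
  rw [← hβ] at hu ht hkt ⊢
  rw [← hκ] at hkt
  rw [← hs, ← hF2, ← hq]
  obtain ⟨u, hu'⟩ : ∃ u : ℝ, u = uu β p := ⟨_, rfl⟩
  obtain ⟨t, ht'⟩ : ∃ t : ℝ, t = tt β p := ⟨_, rfl⟩
  have hj : (p.2 : ℝ) = t * u := by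
    rw [ht', hu']
    unfold tt
    rw [div_mul_cancel₀ _ hu.ne']
  have hp1 : (p.1 : ℝ) = u - β * (t * u) := by
    rw [← hj, hu']
    unfold uu
    ring
  rw [← hu', ← ht']
  rw [← hu'] at hu
  rw [← ht'] at ht hkt
  have hg1 : 0 < 1 - κ * t := by linarith [(abs_le.1 hkt).2]
  have hg2 : 3 / 4 ≤ 1 - κ * t := by linarith [(abs_le.1 hkt).2]
  have hub : uu (bq φ n) p = u * (1 - κ * t) := by
    have e1 : uu (bq φ n) p = u - κ * (p.2 : ℝ) := by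
      unfold bq
      rw [← hβ, ← hκ, hu']
      unfold uu
      ring
    rw [e1, hj]
    ring
  have e2 : ph (bq φ n) p = u * t ^ 2 / (1 - κ * t) := by
    unfold ph
    rw [hub, hj]
    field_simp
  have hDD : t ^ 2 / (1 - κ * t) = t ^ 2 + κ * t ^ 3 + κ ^ 2 * (t ^ 4 / (1 - κ * t)) := by
    have h3 : 1 - κ * t ≠ 0 := hg1.ne'
    have h4 : (1 - κ * t) * (1 - κ * t)⁻¹ = 1 := mul_inv_cancel₀ h3
    rw [div_eq_mul_inv, div_eq_mul_inv]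
    linear_combination (t ^ 2 * (1 + κ * t)) * h4
  have e3 : φ (s + t / q ^ 2) = φ s + deriv φ s * (t / q ^ 2) + F2 * (t / q ^ 2) ^ 2 / 2 + F3 * (t / q ^ 2) ^ 3 / 6 +
      rem φ s (t / q ^ 2) := by
    unfold rem
    rw [hF2, hF3]
    ring
  -- the remainder
  have hX : |t / q ^ 2| = |t| / q ^ 2 := by
    rw [abs_div, abs_of_pos (by positivity : 0 < q ^ 2)]
  have hX1 : |t| / q ^ 2 ≤ 1 := by
    rw [div_le_one (by positivity)]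
    have : 1 ≤ q ^ 2 := one_le_pow₀ hq1'
    linarith
  have hr := rem_lip hφ (s := s) (X := |t| / q ^ 2) (x := t / q ^ 2) (y := 0) hs01.1 hs01.2 hX1 hX.le
    (by rw [abs_zero]; positivity)
  rw [rem_zero, sub_zero, sub_zero, hX] at hr
  have e4 : F3 = 3 * F2 * q ^ 2 * κ := by
    rw [hκv]
    field_simp
  have e5 : q * u * φ (s + t / q ^ 2) - (q * φ s * p.1 + (q * φ s * β + deriv φ s / q) * p.2) -
      F2 / (2 * q ^ 3) * ph (bq φ n) p =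
      q * u * rem φ s (t / q ^ 2) - F2 / (2 * q ^ 3) * (u * (κ ^ 2 * (t ^ 4 / (1 - κ * t)))) := by
    rw [e2, mul_div_assoc u, hDD, e3, hj, hp1, e4]
    generalize rem φ s (t / q ^ 2) = z
    generalize t ^ 4 / (1 - κ * t) = w
    field_simp
    ring
  rw [e5]
  have m1 : |q * u * rem φ s (t / q ^ 2)| ≤ B * (u * |t| ^ 4 / q ^ 7) := by
    rw [abs_mul, abs_of_pos (by positivity : 0 < q * u)]
    calc q * u * |rem φ s (t / q ^ 2)| ≤ q * u * (B * (|t| / q ^ 2) ^ 3 * (|t| / q ^ 2)) :=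
          mul_le_mul_of_nonneg_left hr (by positivity)
      _ = B * (u * |t| ^ 4 / q ^ 7) := by
          field_simp
  have m2 : |F2 / (2 * q ^ 3) * (u * (κ ^ 2 * (t ^ 4 / (1 - κ * t))))| ≤ B ^ 3 / c₁ ^ 2 * (u * |t| ^ 4 / q ^ 7) := by
    have ht4 : t ^ 4 = |t| ^ 4 := by
      rw [← abs_pow, abs_of_nonneg (by positivity)]
    have h1 : t ^ 4 / (1 - κ * t) ≤ 4 / 3 * |t| ^ 4 := by
      rw [div_le_iff₀ hg1, ht4]
      have : 0 ≤ |t| ^ 4 := by positivity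
      nlinarith
    have h0 : 0 ≤ t ^ 4 / (1 - κ * t) := by positivity
    have h2 : κ ^ 2 ≤ (B / (3 * c₁ * q ^ 2)) ^ 2 := by
      rw [← sq_abs κ]
      exact pow_le_pow_left₀ (abs_nonneg _) hκ1 2
    rw [abs_of_nonneg (by positivity)]
    calc F2 / (2 * q ^ 3) * (u * (κ ^ 2 * (t ^ 4 / (1 - κ * t)))) ≤
          B / (2 * q ^ 3) * (u * ((B / (3 * c₁ * q ^ 2)) ^ 2 * (4 / 3 * |t| ^ 4))) := by
          refine mul_le_mul (div_le_div_of_nonneg_right hF2B (by positivity)) ?_ (by positivity) (by positivity)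
          exact mul_le_mul_of_nonneg_left (mul_le_mul h2 h1 h0 (by positivity)) hu.le
      _ = 2 / 27 * (B ^ 3 / c₁ ^ 2 * (u * |t| ^ 4 / q ^ 7)) := by
          field_simp
          ring
      _ ≤ 1 * (B ^ 3 / c₁ ^ 2 * (u * |t| ^ 4 / q ^ 7)) :=
          mul_le_mul_of_nonneg_right (by norm_num) (by positivity)
      _ = _ := one_mul _
  have h6 := abs_sub (q * u * rem φ s (t / q ^ 2)) (F2 / (2 * q ^ 3) * (u * (κ ^ 2 * (t ^ 4 / (1 - κ * t)))))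
  rw [add_mul]
  linarith

/-- membership in the box from bounds of the coordinates -/
private lemma box41 {p : ℤ × ℤ} {X : ℝ} (h1 : |(p.1 : ℝ)| ≤ X) (h2 : |(p.2 : ℝ)| ≤ X) : p ∈ box ⌈X⌉₊ := by
  have h3 : X ≤ ((⌈X⌉₊ : ℕ) : ℝ) := Nat.le_ceil X
  have a1 := abs_le.1 (h1.trans h3)
  have a2 := abs_le.1 (h2.trans h3)
  unfold box
  rw [Finset.mem_product, Finset.mem_Icc, Finset.mem_Icc]
  refine ⟨⟨?_, ?_⟩, ⟨?_, ?_⟩⟩
  · have := a1.1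
    exact_mod_cast this
  · have := a1.2
    exact_mod_cast this
  · have := a2.1
    exact_mod_cast this
  · have := a2.2
    exact_mod_cast this

theorem rg_mem {c₁ B : ℝ} (hc : 0 < c₁) (hB : 1 ≤ B) {φ : ℝ → ℝ} (hφ : Cn c₁ B φ) {K Q : ℕ} {A b₁ : ℝ} {n p : ℤ × ℤ} (hK : 1 ≤ K)
    (hQ : 3 ≤ Q) (hA : 1 ≤ A) (hAQ : A ≤ Q) (hBQ : 12 * B ≤ c₁ * Q) (hn : Good (Q / A) n) (hb : |bq φ n - b₁| ≤ 1 / 60) (hb₁ : |b₁| ≤ 1 / 2)
    (hp : lq φ n p ∈ sec K Q n) : p ∈ rg b₁ (K * A / Q) (K / Q) ∧ 0 < uu (b0 φ n) p ∧ uu (b0 φ n) p ≤ 4 * (K * A / Q) ∧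
      |tt (b0 φ n) p| ≤ 1 / A ∧ |kap φ n * tt (b0 φ n) p| ≤ 1 / 4 := by
  classical
  have hB0 : 0 < B := by linarith
  have hK0 : (1 : ℝ) ≤ K := by exact_mod_cast hK
  have hQ3 : (3 : ℝ) ≤ Q := by exact_mod_cast hQ
  have hQ0 : (0 : ℝ) < Q := by linarith
  have hA0 : 0 < A := by linarith
  have hp' : (K : ℤ) ≤ (lq φ n p).1 ∧ (lq φ n p).1 < 2 * K ∧ 0 ≤ (lq φ n p).2 ∧ (lq φ n p).2 ≤ (lq φ n p).1 ∧
      IsNd Q (lq φ n p) n := by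
    unfold sec oct at hp
    simp only [Finset.mem_filter] at hp
    exact ⟨hp.1.2.1, hp.1.2.2.1, hp.1.2.2.2.1, hp.1.2.2.2.2, hp.2⟩
  obtain ⟨s1, s2, -, -, s5⟩ := hp'
  have hq1 : 1 ≤ n.1 := s5.1
  obtain ⟨c1, c2, c3, c4⟩ := sec_coord' φ hA hQ hn s1 s2 hK s5
  obtain ⟨H, hH⟩ : ∃ H : ℝ, H = K * A / Q := ⟨_, rfl⟩
  obtain ⟨u, hu⟩ : ∃ u : ℝ, u = uu (b0 φ n) p := ⟨_, rfl⟩
  obtain ⟨t, ht⟩ : ∃ t : ℝ, t = tt (b0 φ n) p := ⟨_, rfl⟩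
  obtain ⟨κ, hκ⟩ : ∃ κ : ℝ, κ = kap φ n := ⟨_, rfl⟩
  obtain ⟨q, hq⟩ : ∃ q : ℝ, q = (n.1 : ℝ) := ⟨_, rfl⟩
  have hH0 : 0 < H := by
    rw [hH]
    positivity
  rw [← hH, ← hu] at c1 c2
  rw [← ht] at c3
  have hu0 : 0 < u := by linarith
  have hj : (p.2 : ℝ) = t * u := by
    rw [ht, hu]
    unfold tt
    rw [div_mul_cancel₀ _ (by rw [← hu]; exact hu0.ne')]
  have hT1 : 1 / A ≤ 1 := by
    rw [div_le_one hA0]
    exact hA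
  have ht1 : |t| ≤ 1 := c3.trans hT1
  have hqP : (Q : ℝ) / A / 2 ≤ q := by
    rw [hq]
    exact hn.lo.le
  have hκ1 : |κ| ≤ B / (3 * c₁ * q ^ 2) := by
    rw [hκ, hq]
    exact kap_le hc hφ hq1 hn.nonneg hn.le
  have hκ2 : |κ| ≤ 4 / 3 * (B / c₁) * (A ^ 2 / (Q : ℝ) ^ 2) := by
    refine hκ1.trans ?_
    have h3 : ((Q : ℝ) / A / 2) ^ 2 ≤ q ^ 2 := pow_le_pow_left₀ (by positivity) hqP 2
    calc B / (3 * c₁ * q ^ 2) ≤ B / (3 * c₁ * ((Q : ℝ) / A / 2) ^ 2) :=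
          div_le_div_of_nonneg_left hB0.le (by positivity) (mul_le_mul_of_nonneg_left h3 (by positivity))
      _ = 4 / 3 * (B / c₁) * (A ^ 2 / (Q : ℝ) ^ 2) := by
          field_simp
          ring
  have hκT : |κ| * (1 / A) ≤ 1 / 9 := by
    calc |κ| * (1 / A) ≤ 4 / 3 * (B / c₁) * (A ^ 2 / (Q : ℝ) ^ 2) * (1 / A) :=
          mul_le_mul_of_nonneg_right hκ2 (by positivity)
      _ = 4 / 3 * (B / (c₁ * Q)) * (A / Q) := by
          field_simp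
      _ ≤ 4 / 3 * (1 / 12) * 1 := by
          refine mul_le_mul (mul_le_mul_of_nonneg_left ?_ (by norm_num)) ?_ (by positivity) (by norm_num)
          · rw [div_le_div_iff₀ (by positivity) (by norm_num)]
            linarith
          · rw [div_le_one hQ0]
            exact hAQ
      _ = 1 / 9 := by norm_num
  have hκt : |κ * t| ≤ 1 / 9 := by
    rw [abs_mul]
    exact (mul_le_mul_of_nonneg_left c3 (abs_nonneg _)).trans hκT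
  have hbt : |(bq φ n - b₁) * t| ≤ 1 / 60 := by
    rw [abs_mul]
    calc |bq φ n - b₁| * |t| ≤ 1 / 60 * 1 := mul_le_mul hb ht1 (abs_nonneg _) (by norm_num)
      _ = 1 / 60 := mul_one _
  have hub : uu b₁ p = u * (1 - (bq φ n - b₁) * t - κ * t) := by
    have e1 : uu b₁ p = u - (bq φ n - b₁) * (p.2 : ℝ) - κ * (p.2 : ℝ) := by
      rw [hκ, hu]
      unfold bq uu
      ring
    rw [e1, hj]
    ring
  have g1 : 6 / 7 * u ≤ uu b₁ p := by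
    rw [hub]
    have h1 := (abs_le.1 hbt).2
    have h2 := (abs_le.1 hκt).2
    nlinarith
  have g2 : uu b₁ p ≤ 8 / 7 * u := by
    rw [hub]
    have h1 := (abs_le.1 hbt).1
    have h2 := (abs_le.1 hκt).1
    nlinarith
  have g3 : |(p.2 : ℝ)| ≤ u := by
    rw [hj, abs_mul, abs_of_pos hu0]
    nlinarith
  have g4 : |(p.1 : ℝ)| ≤ 40 * H := by
    have h1 : (p.1 : ℝ) = uu b₁ p - b₁ * (p.2 : ℝ) := by
      unfold uu
      ring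
    have h2 : |b₁ * (p.2 : ℝ)| ≤ 1 / 2 * u := by
      rw [abs_mul]
      exact mul_le_mul hb₁ g3 (abs_nonneg _) (by norm_num)
    rw [abs_le] at h2 ⊢
    rw [h1]
    constructor
    · linarith [h2.1, h2.2]
    · linarith [h2.1, h2.2]
  have g5 : |(p.2 : ℝ)| ≤ 40 * H := by linarith
  have g6 : |(p.2 : ℝ)| ≤ 2 * ((K : ℝ) / Q) := by
    have : 2 * ((K : ℝ) / Q) = 2 * K / Q := by ring
    rw [this]
    exact c4
  refine ⟨?_, ?_, ?_, ?_, ?_⟩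
  · unfold rg reg
    rw [Finset.mem_filter, Finset.mem_filter, ← hH]
    refine ⟨⟨box41 g4 g5, ?_, ?_, ?_⟩, ?_, ?_, ?_, g6⟩ <;> linarith
  · rw [← hu]
    exact hu0
  · rw [← hu, ← hH]
    exact c2
  · rw [← ht]
    exact c3
  · rw [← ht, ← hκ]
    linarith

theorem rg_sub {b₁ b H' H : ℝ} (hH' : 1 ≤ H') (hb₁ : |b₁| ≤ 1 / 2) (hb : |b - b₁| ≤ 1 / 60) : rg b₁ H' H ⊆ reg b H' := by
  classical
  intro p hp
  unfold rg reg at hp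
  rw [Finset.mem_filter, Finset.mem_filter] at hp
  obtain ⟨⟨h1, -, -, -⟩, h5, h6, h7, -⟩ := hp
  have e1 : uu b p = uu b₁ p + (b - b₁) * (p.2 : ℝ) := by
    unfold uu
    ring
  have h9 : |(b - b₁) * (p.2 : ℝ)| ≤ 1 / 60 * (2 * uu b₁ p) := by
    rw [abs_mul]
    exact mul_le_mul hb h7 (abs_nonneg _) (by norm_num)
  rw [abs_le] at h9
  unfold reg
  rw [Finset.mem_filter]
  refine ⟨h1, ?_, ?_, ?_⟩
  · rw [e1]
    linarith [h9.1]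
  · rw [e1]
    linarith [h9.2]
  · rw [e1]
    linarith [h9.1]

theorem rg_card {b₁ H' H : ℝ} (hH : 1 ≤ H) (hH' : 1 ≤ H') : ((rg b₁ H' H).card : ℝ) ≤ 50 * (H' * H) := by
  classical
  have hmaps : ∀ p ∈ rg b₁ H' H, p.2 ∈ Finset.Icc ⌈-(2 * H)⌉ ⌊2 * H⌋ := by
    intro p hp
    unfold rg at hp
    rw [Finset.mem_filter] at hp
    have h1 := abs_le.1 hp.2.2.2.2
    rw [Finset.mem_Icc]
    exact ⟨Int.ceil_le.2 h1.1, Int.le_floor.2 h1.2⟩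
  have hfib : ∀ j ∈ Finset.Icc ⌈-(2 * H)⌉ ⌊2 * H⌋, ((rg b₁ H' H).filter fun p => p.2 = j).card ≤ ⌊11 / 2 * H'⌋₊ := by
    intro j _
    refine Nat.le_floor ?_
    have h1 : ((rg b₁ H' H).filter fun p => p.2 = j).card ≤
        (Finset.Icc ⌈H' / 2 - b₁ * j⌉ ⌊5 * H' - b₁ * j⌋).card := by
      refine Finset.card_le_card_of_injOn Prod.fst ?_ ?_
      · intro p hp
        rw [Finset.mem_coe, Finset.mem_filter] at hp
        obtain ⟨h2, h3⟩ := hp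
        unfold rg at h2
        rw [Finset.mem_filter] at h2
        obtain ⟨-, h4, h5, -, -⟩ := h2
        unfold uu at h4 h5
        rw [h3] at h4 h5
        rw [Finset.mem_coe, Finset.mem_Icc]
        exact ⟨Int.ceil_le.2 (by linarith), Int.le_floor.2 (by linarith)⟩
      · intro p hp p' hp' h
        rw [Finset.mem_coe, Finset.mem_filter] at hp hp'
        exact Prod.ext h (hp.2.trans hp'.2.symm)
    have h2 := icc41 (H' / 2 - b₁ * j) (5 * H' - b₁ * j) (by linarith)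
    have h3 : (((rg b₁ H' H).filter fun p => p.2 = j).card : ℝ) ≤
        ((Finset.Icc ⌈H' / 2 - b₁ * j⌉ ⌊5 * H' - b₁ * j⌋).card : ℝ) := by exact_mod_cast h1
    linarith
  have h1 := Finset.card_le_mul_card_image_of_maps_to hmaps ⌊11 / 2 * H'⌋₊ hfib
  have h2 : ((rg b₁ H' H).card : ℝ) ≤ (⌊11 / 2 * H'⌋₊ : ℝ) * ((Finset.Icc ⌈-(2 * H)⌉ ⌊2 * H⌋).card : ℝ) := by
    exact_mod_cast h1
  have h3 : (⌊11 / 2 * H'⌋₊ : ℝ) ≤ 11 / 2 * H' := Nat.floor_le (by linarith)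
  have h4 := icc41 (-(2 * H)) (2 * H) (by linarith)
  have h5 : ((Finset.Icc ⌈-(2 * H)⌉ ⌊2 * H⌋).card : ℝ) ≤ 5 * H := by linarith
  calc ((rg b₁ H' H).card : ℝ) ≤ _ := h2
    _ ≤ 11 / 2 * H' * (5 * H) := mul_le_mul h3 h5 (Nat.cast_nonneg _) (by linarith)
    _ ≤ 50 * (H' * H) := by
        have : 0 ≤ H' * H := by positivity
        nlinarith

end Pool.Agent.Helper60.SV
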