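import Pool.Agent.Helper60.SV.C1

/-!
# SV-C2: from the sector to the box

PROOF. Every `k ∈ sec K Q n` is `lq φ n p` for exactly one `p` (`lq_surj`, `lq_inj`, `1 ≤ n.1` as `Q/A ≥ 1`), `p ∈ rg b₁ H' H` by `rg_mem`. `t ↦ t'` (`t' i` = the preimage of `t i`) is injective and maps `eqs (sec K Q n)` to `eqs (rg ..)`
(`lq φ n` is additive and injective). If `|df (fp φ) t| ≤ δ` then by `phase` (the linear part cancels: `∑ t'.1 = ∑ t'.2`)
`(f2 φ (sl n)/(2q³)) |df (ph (bq φ n)) t'| ≤ δ + 12 C u |t|⁴/q⁷`, with `f2 ≥ c₁`, `q ≤ Q/A`, `q ≥ Q/(2A)`, `u ≤ 4 K A/Q`, `|t| ≤ 1/A`: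
`|df| ≤ (2/c₁) (Q/A)³ δ + (24 C/c₁) (4 K A/Q) A⁻⁴ (2A/Q)⁴ = (2/c₁)(Q/A)³ δ + C' (K A/Q)/Q⁴`.
-/

open MeasureTheory Real Set Filter Topology

set_option autoImplicit false

namespace Pool.Agent.Helper60.SV

open Pool.Agent.Helper22.AE
open Pool.Agent.Helper92.GC (dt tp Tq uu tt ph reg arc gs dd Good IsNd oct sec)
open Pool.Agent.Helper92.DT (m12)
open Pool.Agent.Helper76.OV (sl f2 Cn lq b0 bq kap)

private lemma lq_sum70 (φ : ℝ → ℝ) (n : ℤ × ℤ) (p : Fin 6 → ℤ × ℤ) : lq φ n (∑ i, p i) = ∑ i, lq φ n (p i) := by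
  unfold lq
  refine Prod.ext ?_ ?_
  · rw [Prod.fst_sum]
    simp only
    rw [Prod.fst_sum, Prod.snd_sum, Finset.sum_mul, Finset.sum_mul, ← Finset.sum_add_distrib]
  · rw [Prod.snd_sum]
    simp only
    rw [Prod.fst_sum, Prod.snd_sum, Finset.sum_mul, Finset.sum_mul, ← Finset.sum_add_distrib]

private lemma six_err70 {f g : Fin 6 → ℝ} {E : ℝ} (h : ∀ i, |f i - g i| ≤ E) : |∑ i, f i - ∑ i, g i| ≤ 6 * E := by
  rw [← Finset.sum_sub_distrib]
  refine (Finset.abs_sum_le_sum_abs _ _).trans ?_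
  refine (Finset.sum_le_sum fun i _ => h i).trans ?_
  rw [Finset.sum_const, Finset.card_univ, Fintype.card_fin]
  simp

theorem pull {c₁ B : ℝ} (hc : 0 < c₁) (hB : 1 ≤ B) : ∃ C : ℝ, 1 ≤ C ∧ ∀ φ : ℝ → ℝ, Cn c₁ B φ → ∀ (K Q : ℕ) (A δ lam b₁ : ℝ) (n : ℤ × ℤ), 1 ≤ K →
    3 ≤ Q → 1 ≤ A → A ≤ Q → 12 * B ≤ c₁ * Q → 0 ≤ δ → Good (Q / A) n → |bq φ n - b₁| ≤ 1 / 60 → |b₁| ≤ 1 / 2 →
      C * ((Q / A) ^ 3 * δ + K * A / Q / (Q : ℝ) ^ 4) ≤ lam →
        ct (sec K Q n) (fp φ) δ ≤ ct (rg b₁ (K * A / Q) (K / Q)) (ph (bq φ n)) lam := by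
  obtain ⟨C, hC, hph⟩ := phase hc hB
  have hC0 : 0 < C := by linarith
  refine ⟨1 + 2 / c₁ + 1536 * C / c₁, ?_, ?_⟩
  · have h1 : 0 ≤ 2 / c₁ := by positivity
    have h2 : 0 ≤ 1536 * C / c₁ := by positivity
    linarith
  intro φ hφ K Q A δ lam b₁ n hK hQ hA hAQ hBQ hδ hn hb hb₁ hlam
  classical
  have hA0 : 0 < A := by linarith
  have hQ0 : (0 : ℝ) < Q := by linarith
  have hK0 : (1 : ℝ) ≤ K := by exact_mod_cast hK
  have hn1 : 1 ≤ n.1 := by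
    have h1 := hn.lo
    have h2 : 1 ≤ (Q : ℝ) / A := by
      rw [le_div_iff₀ hA0]
      linarith
    have h3 : (0 : ℝ) < n.1 := by linarith
    have h4 : (0 : ℤ) < n.1 := by exact_mod_cast h3
    omega
  have hq1 : (1 : ℝ) ≤ n.1 := by exact_mod_cast hn1
  have hq0 : (0 : ℝ) < n.1 := by linarith
  obtain ⟨x, y, hxy⟩ := hph φ hφ n hn.cop hn1 hn.nonneg hn.le
  have hinj := Pool.Agent.Helper76.OV.lq_inj φ hn.cop hn1
  have hsurj := Pool.Agent.Helper76.OV.lq_surj φ hn.cop hn1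
  obtain ⟨g, hg⟩ : ∃ g : ℤ × ℤ → ℤ × ℤ, ∀ k, lq φ n (g k) = k := ⟨fun k => (hsurj k).choose, fun k => (hsurj k).choose_spec⟩
  have hginj : Function.Injective g := by
    intro k k' h
    rw [← hg k, ← hg k', h]
  -- the curvature
  have hsl : |sl n| ≤ 2 := by
    have h1 : 0 ≤ sl n := div_nonneg (by exact_mod_cast hn.nonneg) hq0.le
    have h2 : sl n ≤ 1 := by
      unfold sl
      rw [div_le_one hq0]
      exact_mod_cast hn.le
    rw [abs_of_nonneg h1]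
    linarith
  have hf2 := hφ.lo _ hsl
  set c := f2 φ (sl n) / (2 * (n.1 : ℝ) ^ 3) with hcdef
  have hcc : c₁ / (2 * (n.1 : ℝ) ^ 3) ≤ c := by
    rw [hcdef]
    exact div_le_div_of_nonneg_right hf2 (by positivity)
  have hqhi : (n.1 : ℝ) ≤ Q / A := hn.hi
  have hqlo : (Q : ℝ) / (2 * A) ≤ n.1 := by
    have h1 := hn.lo
    rw [div_div] at h1
    rw [mul_comm]
    exact h1.le
  -- the error of one term
  have herr : ∀ k ∈ sec K Q n, g k ∈ rg b₁ (K * A / Q) (K / Q) ∧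
      |fp φ k - (x * (g k).1 + y * (g k).2) - c * ph (bq φ n) (g k)| ≤
        128 * C * (K * A / Q / (Q : ℝ) ^ 4) / (n.1 : ℝ) ^ 3 / 2 := by
    intro k hk
    have hk' : lq φ n (g k) ∈ sec K Q n := by
      rw [hg k]
      exact hk
    obtain ⟨h1, h2, h3, h4, h5⟩ := rg_mem hc hB hφ hK hQ hA hAQ hBQ hn hb hb₁ hk'
    refine ⟨h1, ?_⟩
    have hA1 : 1 / A ≤ 1 := by
      rw [div_le_one hA0]
      exact hA
    have h6 := hxy (g k) h2 (h4.trans hA1) h5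
    rw [hg k] at h6
    refine h6.trans ?_
    have h7 : |tt (b0 φ n) (g k)| ^ 4 ≤ (1 / A) ^ 4 := pow_le_pow_left₀ (abs_nonneg _) h4 4
    have h8 : uu (b0 φ n) (g k) * |tt (b0 φ n) (g k)| ^ 4 ≤ 4 * (K * A / Q) * (1 / A) ^ 4 :=
      mul_le_mul h3 h7 (by positivity) (by positivity)
    have h9 : (Q / (2 * A)) ^ 4 ≤ (n.1 : ℝ) ^ 4 := pow_le_pow_left₀ (by positivity) hqlo 4
    have h10 : uu (b0 φ n) (g k) * |tt (b0 φ n) (g k)| ^ 4 / (n.1 : ℝ) ^ 7 ≤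
        4 * (K * A / Q) * (1 / A) ^ 4 / ((Q / (2 * A)) ^ 4 * (n.1 : ℝ) ^ 3) := by
      refine div_le_div₀ (by positivity) h8 (by positivity) ?_
      calc (Q / (2 * A)) ^ 4 * (n.1 : ℝ) ^ 3 ≤ (n.1 : ℝ) ^ 4 * (n.1 : ℝ) ^ 3 :=
            mul_le_mul_of_nonneg_right h9 (by positivity)
        _ = (n.1 : ℝ) ^ 7 := by ring
    refine (mul_le_mul_of_nonneg_left h10 hC0.le).trans_eq ?_
    field_simp
    ring
  unfold ct
  refine Finset.card_le_card_of_injOn (fun t : T12 => (g ∘ t.1, g ∘ t.2)) ?_ ?_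
  · intro t ht
    rw [Finset.mem_coe, Finset.mem_filter] at ht
    obtain ⟨ht1, ht2⟩ := ht
    unfold eqs at ht1
    rw [Finset.mem_filter, Finset.mem_product, Fintype.mem_piFinset, Fintype.mem_piFinset] at ht1
    obtain ⟨⟨m1, m2⟩, m3⟩ := ht1
    have hs : ∑ i, g (t.1 i) = ∑ i, g (t.2 i) := by
      apply hinj
      rw [lq_sum70, lq_sum70]
      simp only [hg]
      exact m3
    rw [Finset.mem_coe, Finset.mem_filter]
    refine ⟨?_, ?_⟩
    · unfold eqs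
      rw [Finset.mem_filter, Finset.mem_product, Fintype.mem_piFinset, Fintype.mem_piFinset]
      exact ⟨⟨fun i => (herr _ (m1 i)).1, fun i => (herr _ (m2 i)).1⟩, hs⟩
    · have e1 := six_err70 (f := fun i => fp φ (t.1 i))
        (g := fun i => (x * (g (t.1 i)).1 + y * (g (t.1 i)).2) + c * ph (bq φ n) (g (t.1 i)))
        (E := 128 * C * (K * A / Q / (Q : ℝ) ^ 4) / (n.1 : ℝ) ^ 3 / 2) (fun i => by
          rw [← sub_sub]
          exact (herr _ (m1 i)).2)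
      have e2 := six_err70 (f := fun i => fp φ (t.2 i))
        (g := fun i => (x * (g (t.2 i)).1 + y * (g (t.2 i)).2) + c * ph (bq φ n) (g (t.2 i)))
        (E := 128 * C * (K * A / Q / (Q : ℝ) ^ 4) / (n.1 : ℝ) ^ 3 / 2) (fun i => by
          rw [← sub_sub]
          exact (herr _ (m2 i)).2)
      have l1 : ∀ s : Fin 6 → ℤ × ℤ, ∑ i, ((x * (g (s i)).1 + y * (g (s i)).2) + c * ph (bq φ n) (g (s i))) =
          x * (((∑ i, g (s i)).1 : ℤ) : ℝ) + y * (((∑ i, g (s i)).2 : ℤ) : ℝ) + c * ∑ i, ph (bq φ n) (g (s i)) := by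
        intro s
        rw [Prod.fst_sum, Prod.snd_sum, Finset.sum_add_distrib, Finset.sum_add_distrib]
        push_cast
        rw [Finset.mul_sum, Finset.mul_sum, Finset.mul_sum]
      rw [l1] at e1 e2
      rw [hs] at e1
      set Z := 128 * C * (K * A / Q / (Q : ℝ) ^ 4) / (n.1 : ℝ) ^ 3 / 2 with hZ
      have hd : |c * df (ph (bq φ n)) (g ∘ t.1, g ∘ t.2)| ≤ δ + 12 * Z := by
        have e3 : c * df (ph (bq φ n)) (g ∘ t.1, g ∘ t.2) =
            c * ∑ i, ph (bq φ n) (g (t.1 i)) - c * ∑ i, ph (bq φ n) (g (t.2 i)) := by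
          unfold df
          rw [mul_sub]
          rfl
        rw [e3]
        unfold df at ht2
        rw [abs_le] at e1 e2 ht2 ⊢
        constructor
        · linarith [e1.1, e1.2, e2.1, e2.2, ht2.1, ht2.2]
        · linarith [e1.1, e1.2, e2.1, e2.2, ht2.1, ht2.2]
      have hc0 : 0 < c := lt_of_lt_of_le (by positivity) hcc
      rw [abs_mul, abs_of_pos hc0] at hd
      have hd2 : c₁ / (2 * (n.1 : ℝ) ^ 3) * |df (ph (bq φ n)) (g ∘ t.1, g ∘ t.2)| ≤ δ + 12 * Z :=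
        (mul_le_mul_of_nonneg_right hcc (abs_nonneg _)).trans hd
      have hd3 : |df (ph (bq φ n)) (g ∘ t.1, g ∘ t.2)| ≤ (δ + 12 * Z) * (2 * (n.1 : ℝ) ^ 3) / c₁ := by
        rw [le_div_iff₀ hc]
        have h1 := mul_le_mul_of_nonneg_right hd2 (by positivity : (0 : ℝ) ≤ 2 * (n.1 : ℝ) ^ 3)
        refine le_trans (le_of_eq ?_) h1
        field_simp
      refine hd3.trans (le_trans ?_ hlam)
      have hW : 0 ≤ K * A / Q / (Q : ℝ) ^ 4 := by positivity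
      have h3 : (n.1 : ℝ) ^ 3 ≤ (Q / A) ^ 3 := pow_le_pow_left₀ hq0.le hqhi 3
      have h4 : (δ + 12 * Z) * (2 * (n.1 : ℝ) ^ 3) / c₁ =
          2 / c₁ * ((n.1 : ℝ) ^ 3 * δ) + 1536 * C / c₁ * (K * A / Q / (Q : ℝ) ^ 4) := by
        rw [hZ]
        field_simp
        ring
      rw [h4]
      have h5 : (n.1 : ℝ) ^ 3 * δ ≤ (Q / A) ^ 3 * δ := mul_le_mul_of_nonneg_right h3 hδ
      have h6 : 0 ≤ (Q / A) ^ 3 * δ := by positivity
      have h7 : 2 / c₁ * ((n.1 : ℝ) ^ 3 * δ) ≤ (1 + 2 / c₁ + 1536 * C / c₁) * ((Q / A) ^ 3 * δ) := by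
        refine mul_le_mul ?_ h5 (by positivity) (by positivity)
        have : 0 ≤ 1536 * C / c₁ := by positivity
        linarith
      have h8 : 1536 * C / c₁ * (K * A / Q / (Q : ℝ) ^ 4) ≤
          (1 + 2 / c₁ + 1536 * C / c₁) * (K * A / Q / (Q : ℝ) ^ 4) := by
        refine mul_le_mul_of_nonneg_right ?_ hW
        have : 0 ≤ 2 / c₁ := by positivity
        linarith
      linarith
  · intro t _ t' _ h
    have h1 := congrArg Prod.fst h
    have h2 := congrArg Prod.snd h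
    refine Prod.ext ?_ ?_
    · funext i
      exact hginj (congrFun h1 i)
    · funext i
      exact hginj (congrFun h2 i)

end Pool.Agent.Helper60.SV
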