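import Pool.Agent.Helper60.SV.A1
import Pool.Agent.Helper60.SV.B3
import Pool.Agent.Helper60.SV.C2

/-!
# SV-C3: the sum over the vectors of a class

PROOF. `P = Q/A ≥ 1`, `H' = K A/Q`, `H = K/Q`. For `n ∈ gd P` we have `|bq φ n| ≤ 1/2` (`bq_le`), so `|bq φ n - gb i| ≤ 1/120` for some `i ≤ 60`; `|gb i| ≤ 1/2`. By `pull`: `ct (sec K Q n) (fp φ) δ ≤ ∑_{t ∈ eqs (rg (gb i) H' H)} 1_{|df (ph (bq φ n)) t| ≤ lam}`.
Sum over the `n` belonging to `i`, exchange the sums, `cnt` for every `t` (positivity of `uu b (t i)` by `rg_sub`): `≤ C ∑_t (1 + P² vol {b ∈ I_i : |df (ph b) t| ≤ lam})`, `∑_t 1 = card (eqs ..) ≤ card^11` (`eqs_card`),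
`∑_t vol = ∫_{I_i} ct (rg ..) (ph b) lam db` (`b ↦ df (ph b) t` is measurable; `integral_indicator_one`, finite sum).
-/

open MeasureTheory Real Set Filter Topology

set_option autoImplicit false

namespace Pool.Agent.Helper60.SV

open Pool.Agent.Helper22.AE
open Pool.Agent.Helper92.GC (dt tp Tq uu tt ph reg arc gs dd Good IsNd oct sec)
open Pool.Agent.Helper92.DT (m12)
open Pool.Agent.Helper76.OV (sl f2 Cn lq b0 bq kap)

private lemma meas63 (t : T12) : Measurable fun b : ℝ => df (ph b) t := by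
  have h : ∀ k : ℤ × ℤ, Measurable fun b : ℝ => ph b k := by
    intro k
    unfold ph uu
    exact measurable_const.div (measurable_const.add (measurable_id.mul measurable_const))
  unfold df
  exact (Finset.measurable_fun_sum _ fun i _ => h _).sub (Finset.measurable_fun_sum _ fun i _ => h _)

open Classical in
private lemma ct_sum63 (S : Finset (ℤ × ℤ)) (f : ℤ × ℤ → ℝ) (δ : ℝ) :
    (ct S f δ : ℝ) = ∑ t ∈ eqs S, if |df f t| ≤ δ then (1 : ℝ) else 0 := by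
  unfold ct
  rw [Finset.card_filter]
  push_cast
  rfl

private lemma int63 (S : Finset (ℤ × ℤ)) (lam a b : ℝ) :
    ∫ x in Icc a b, (ct S (ph x) lam : ℝ) =
      ∑ t ∈ eqs S, (volume {x : ℝ | x ∈ Icc a b ∧ |df (ph x) t| ≤ lam}).toReal := by
  classical
  have hm : ∀ t : T12, MeasurableSet {x : ℝ | |df (ph x) t| ≤ lam} := fun t =>
    measurableSet_le (meas63 t).abs measurable_const
  have h1 : ∀ x : ℝ, (ct S (ph x) lam : ℝ) = ∑ t ∈ eqs S, {x : ℝ | |df (ph x) t| ≤ lam}.indicator (1 : ℝ → ℝ) x := by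
    intro x
    rw [ct_sum63]
    refine Finset.sum_congr rfl fun t _ => ?_
    simp only [Set.indicator_apply, Set.mem_ofPred_eq, Pi.one_apply]
  have hfin : volume (Icc a b) ≠ ⊤ := measure_Icc_lt_top.ne
  simp_rw [h1]
  rw [integral_finsetSum]
  · refine Finset.sum_congr rfl fun t _ => ?_
    rw [integral_indicator_one (hm t), measureReal_restrict_apply (hm t), Measure.real]
    congr 2
    ext x
    simp only [Set.mem_inter_iff, Set.mem_ofPred_eq]
    tauto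
  · intro t _
    refine (integrable_indicator_iff (hm t)).2 ?_
    exact (integrableOn_const (by rw [Measure.restrict_apply (hm t)]; exact (lt_of_le_of_lt (measure_mono Set.inter_subset_right) measure_Icc_lt_top).ne))

private lemma gb_abs63 {i : ℕ} (hi : i < 61) : |gb i| ≤ 1 / 2 := by
  have h : (i : ℝ) ≤ 60 := by exact_mod_cast Nat.le_of_lt_succ hi
  have h0 : (0 : ℝ) ≤ i := Nat.cast_nonneg i
  unfold gb
  rw [abs_le]
  constructor <;> linarith

private lemma gb_ex63 {x : ℝ} (hx : |x| ≤ 1 / 2) : ∃ i, i < 61 ∧ |x - gb i| ≤ 1 / 60 := by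
  rw [abs_le] at hx
  have h0 : 0 ≤ 60 * (x + 1 / 2) := by linarith [hx.1]
  refine ⟨⌊60 * (x + 1 / 2)⌋₊, ?_, ?_⟩
  · have h1 : ((⌊60 * (x + 1 / 2)⌋₊ : ℕ) : ℝ) ≤ 60 * (x + 1 / 2) := Nat.floor_le h0
    have h2 : ((⌊60 * (x + 1 / 2)⌋₊ : ℕ) : ℝ) < 61 := by linarith [hx.2]
    exact_mod_cast h2
  · have h1 : ((⌊60 * (x + 1 / 2)⌋₊ : ℕ) : ℝ) ≤ 60 * (x + 1 / 2) := Nat.floor_le h0
    have h2 : 60 * (x + 1 / 2) < ((⌊60 * (x + 1 / 2)⌋₊ : ℕ) : ℝ) + 1 := Nat.lt_floor_add_one _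
    unfold gb
    rw [abs_le]
    constructor <;> linarith

theorem sum_n {c₁ B : ℝ} (hc : 0 < c₁) (hB : 1 ≤ B) : ∃ C : ℝ, 1 ≤ C ∧ ∀ φ : ℝ → ℝ, Cn c₁ B φ → ∀ (K Q : ℕ) (A δ lam : ℝ), 1 ≤ K → 3 ≤ Q → Q ≤ K →
    1 ≤ A → A ≤ Q → 12 * B ≤ c₁ * Q → 0 ≤ δ → C * ((Q / A) ^ 3 * δ + K * A / Q / (Q : ℝ) ^ 4) ≤ lam → 0 < lam →
      ∑ n ∈ gd (Q / A), (ct (sec K Q n) (fp φ) δ : ℝ) ≤ C * ∑ i ∈ Finset.range 61,
        (((rg (gb i) (K * A / Q) (K / Q)).card : ℝ) ^ 11 +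
          (Q / A) ^ 2 * ∫ b in Icc (gb i - 1 / 60) (gb i + 1 / 60), (ct (rg (gb i) (K * A / Q) (K / Q)) (ph b) lam : ℝ)) := by
  classical
  obtain ⟨C₁, hC₁, h₁⟩ := pull hc hB
  obtain ⟨C₂, hC₂, h₂⟩ := cnt hc hB
  refine ⟨max C₁ C₂, le_max_of_le_left hC₁, ?_⟩
  intro φ hφ K Q A δ lam hK hQ hQK hA hAQ hBQ hδ hlam hlam0
  have hA0 : 0 < A := by linarith
  have hQ0 : (0 : ℝ) < Q := by
    have : (3 : ℝ) ≤ Q := by exact_mod_cast hQ
    linarith
  have hK0 : (0 : ℝ) < K := by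
    have : (1 : ℝ) ≤ K := by exact_mod_cast hK
    linarith
  have hP : 1 ≤ (Q : ℝ) / A := by rwa [one_le_div hA0]
  have hH' : 1 ≤ (K : ℝ) * A / Q := by
    rw [one_le_div hQ0]
    have : (Q : ℝ) ≤ K := by exact_mod_cast hQK
    nlinarith
  have hbr : 0 ≤ ((Q : ℝ) / A) ^ 3 * δ + K * A / Q / (Q : ℝ) ^ 4 := by positivity
  have hlam₁ : C₁ * (((Q : ℝ) / A) ^ 3 * δ + K * A / Q / (Q : ℝ) ^ 4) ≤ lam :=
    le_trans (mul_le_mul_of_nonneg_right (le_max_left _ _) hbr) hlam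
  set P : ℝ := (Q : ℝ) / A with hPdef
  set S : ℕ → Finset (ℤ × ℤ) := fun i => rg (gb i) (K * A / Q) (K / Q) with hSdef
  have hgood : ∀ n ∈ gd P, Good P n := by
    intro n hn
    unfold gd at hn
    exact (Finset.mem_filter.1 hn).2
  -- every vector belongs to a grid point
  have hstep : ∀ n ∈ gd P, (ct (sec K Q n) (fp φ) δ : ℝ) ≤
      ∑ i ∈ Finset.range 61, if |bq φ n - gb i| ≤ 1 / 60 then (ct (S i) (ph (bq φ n)) lam : ℝ) else 0 := by
    intro n hn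
    have hG := hgood n hn
    have hn1 : 1 ≤ n.1 := by
      have h : (0 : ℝ) < n.1 := by
        have := hG.lo
        linarith
      have h' : 0 < n.1 := by exact_mod_cast h
      omega
    obtain ⟨i, hi, hbi⟩ := gb_ex63 (Pool.Agent.Helper76.OV.bq_le φ hG.cop hn1)
    have hp := h₁ φ hφ K Q A δ lam (gb i) n hK hQ hA hAQ hBQ hδ hG hbi (gb_abs63 hi) hlam₁
    have hp' : (ct (sec K Q n) (fp φ) δ : ℝ) ≤ (ct (S i) (ph (bq φ n)) lam : ℝ) := by exact_mod_cast hp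
    refine hp'.trans ?_
    refine le_trans (le_of_eq ?_) (Finset.single_le_sum (f := fun i => if |bq φ n - gb i| ≤ 1 / 60 then (ct (S i) (ph (bq φ n)) lam : ℝ) else 0) ?_ (Finset.mem_range.2 hi))
    · simp only [if_pos hbi]
    · intro j _
      split_ifs
      · exact Nat.cast_nonneg _
      · exact le_rfl
  refine (Finset.sum_le_sum hstep).trans ?_
  rw [Finset.sum_comm, Finset.mul_sum]
  refine Finset.sum_le_sum fun i hi => ?_
  have hi61 : i < 61 := Finset.mem_range.1 hi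
  have hI := int63 (S i) lam (gb i - 1 / 60) (gb i + 1 / 60)
  -- exchange the sums
  have hex : ∑ n ∈ gd P, (if |bq φ n - gb i| ≤ 1 / 60 then (ct (S i) (ph (bq φ n)) lam : ℝ) else 0) =
      ∑ t ∈ eqs (S i), (((gd P).filter fun n => |bq φ n - gb i| ≤ 1 / 60 ∧ |df (ph (bq φ n)) t| ≤ lam).card : ℝ) := by
    have h1 : ∀ n : ℤ × ℤ, (if |bq φ n - gb i| ≤ 1 / 60 then (ct (S i) (ph (bq φ n)) lam : ℝ) else 0) =
        ∑ t ∈ eqs (S i), if |bq φ n - gb i| ≤ 1 / 60 ∧ |df (ph (bq φ n)) t| ≤ lam then (1 : ℝ) else 0 := by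
      intro n
      by_cases hb : |bq φ n - gb i| ≤ 1 / 60
      · simp only [hb, if_true, true_and]
        exact ct_sum63 _ _ _
      · simp only [hb, if_false, false_and, Finset.sum_const_zero]
    simp_rw [h1]
    rw [Finset.sum_comm]
    refine Finset.sum_congr rfl fun t _ => ?_
    rw [Finset.card_filter]
    push_cast
    rfl
  rw [hex]
  have hvol0 : ∀ t : T12, 0 ≤ (volume {b : ℝ | b ∈ Icc (gb i - 1 / 60) (gb i + 1 / 60) ∧ |df (ph b) t| ≤ lam}).toReal :=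
    fun t => ENNReal.toReal_nonneg
  have hcnt : ∀ t ∈ eqs (S i), (((gd P).filter fun n => |bq φ n - gb i| ≤ 1 / 60 ∧ |df (ph (bq φ n)) t| ≤ lam).card : ℝ) ≤
      max C₁ C₂ * (1 + P ^ 2 * (volume {b : ℝ | b ∈ Icc (gb i - 1 / 60) (gb i + 1 / 60) ∧ |df (ph b) t| ≤ lam}).toReal) := by
    intro t ht
    unfold eqs at ht
    rw [Finset.mem_filter, Finset.mem_product, Fintype.mem_piFinset, Fintype.mem_piFinset] at ht
    have hpos : ∀ b ∈ Icc (gb i - 1 / 60) (gb i + 1 / 60), ∀ k ∈ S i, 0 < uu b k := by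
      intro b hb k hk
      have hb' : |b - gb i| ≤ 1 / 60 := by
        rw [abs_le]
        constructor <;> linarith [hb.1, hb.2]
      have h := rg_sub (H := (K : ℝ) / Q) hH' (gb_abs63 hi61) hb' hk
      unfold reg at h
      have h4 := (Finset.mem_filter.1 h).2.1
      linarith
    refine (h₂ φ hφ P (gb i) lam hP hlam0 t (fun j b hb => ⟨hpos b hb _ (ht.1.1 j), hpos b hb _ (ht.1.2 j)⟩) _ ?_).trans ?_
    · intro n hn
      rw [Finset.mem_filter] at hn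
      exact ⟨hgood n hn.1, hn.2.1, hn.2.2⟩
    · refine mul_le_mul_of_nonneg_right (le_max_right _ _) ?_
      have := hvol0 t
      positivity
  refine (Finset.sum_le_sum hcnt).trans ?_
  rw [← Finset.mul_sum, Finset.sum_add_distrib, ← Finset.mul_sum, ← hI]
  refine mul_le_mul_of_nonneg_left ?_ (by linarith [le_max_left C₁ C₂])
  have hcard : (∑ _t ∈ eqs (S i), (1 : ℝ)) ≤ ((S i).card : ℝ) ^ 11 := by
    rw [Finset.sum_const, nsmul_eq_mul, mul_one]
    exact eqs_card _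
  linarith

end Pool.Agent.Helper60.SV
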