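import Pool.Agent.Helper60.SV.Defs
import Pool.Agent.Helper92.GC.Q5
import Pool.Agent.Helper92.GC.Q5

/-!
# SV-D1: the sixth moment at a fixed slope, radii from 0

PROOF. As `six` (Helper76.MM.D1), but simpler (no dilation, `S ⊆ reg b H`, the window starts at 0). `exists_dw` with `X = T`, `R₁ = 0`: `v ≥ c₀/T` on `[0, T]`. `GC.dec` (T5, with `ε/3`) for `β = b`, `X = T`, coefficients `a` on `S` and `0` elsewhere;
`m` maximal with `M^(N₁ m) ≤ max 1 (H²)`: `M^(2 N₁ m) ≤ max 1 H⁴ ≤ 144 H T`, `M^(N₁ m) ≤ H³`. `n6 (arc) ≤ (number of k ∈ S in the arc)^(5/3) ≤ (..)²` (`n6_gs_card`); two members of one arc satisfy `|dd k k'| ≤ 768 H²/M^(N₁ m) ≤ C₂`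
(`arc_pairs`, Q5), so the sum over the arcs is at most the number of pairs of `reg b H` with `|dd| ≤ C₂`, at most `C H^(2 + ε/6)` (`reg_pairs`, GC.Q4/Q5; see MM.D2). `n6³ ≤ C H^ε H⁶`, `∫_0^T m6 ≤ (T/c₀) n6³`.
-/

open MeasureTheory Real Set Filter Topology

set_option autoImplicit false

namespace Pool.Agent.Helper60.SV

open Pool.Agent.Helper22.AE
open Pool.Agent.Helper92.GC (dt tp Tq uu tt ph reg arc gs dd Good IsNd oct sec)
open Pool.Agent.Helper92.DT (m12)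
open Pool.Agent.Helper76.OV (sl f2 Cn lq b0 bq kap)

open Pool.Agent.Helper92.GC (m6)
open Pool.Agent.Helper92.GC (m6_eq S3 cub m6_congr m6_card m6_nonneg IsDw n6_slice n6_gs_card exists_dw dec arc_pairs)
open Pool.Agent.Helper22.AC (n6 IsWt mu)

private theorem m6_image30 (S : Finset (ℤ × ℤ)) (φ : ℤ × ℤ → ℤ × ℤ) (hφ : Function.Injective φ)
    (hadd : ∀ k l, φ (k + l) = φ k + φ l) (a : ℤ × ℤ → ℂ) : m6 (S.image φ) a = m6 S (fun k => a (φ k)) := by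
  rw [m6_eq, m6_eq]
  have h3 : S3 (S.image φ) = (S3 S).image φ := by
    unfold S3
    ext l
    simp only [Finset.mem_image, Finset.mem_product]
    constructor
    · rintro ⟨⟨x, y, z⟩, ⟨⟨x', hx, rfl⟩, ⟨y', hy, rfl⟩, ⟨z', hz, rfl⟩⟩, rfl⟩
      exact ⟨x' + y' + z', ⟨(x', y', z'), ⟨hx, hy, hz⟩, rfl⟩, by rw [hadd, hadd]⟩
    · rintro ⟨w, ⟨⟨x, y, z⟩, ⟨hx, hy, hz⟩, rfl⟩, rfl⟩
      exact ⟨(φ x, φ y, φ z), ⟨⟨x, hx, rfl⟩, ⟨y, hy, rfl⟩, ⟨z, hz, rfl⟩⟩, by rw [hadd, hadd]⟩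
  rw [h3, Finset.sum_image (fun x _ y _ h => hφ h)]
  refine Finset.sum_congr rfl fun l _ => ?_
  have h4 : cub (S.image φ) a (φ l) = cub S (fun k => a (φ k)) l := by
    unfold cub
    rw [Finset.sum_filter, Finset.sum_filter]
    simp only [Finset.sum_product]
    rw [Finset.sum_image (fun x _ y _ h => hφ h)]
    refine Finset.sum_congr rfl fun x _ => ?_
    rw [Finset.sum_image (fun x _ y _ h => hφ h)]
    refine Finset.sum_congr rfl fun y _ => ?_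
    rw [Finset.sum_image (fun x _ y _ h => hφ h)]
    refine Finset.sum_congr rfl fun z _ => ?_
    rw [← hadd, ← hadd]
    simp only [hφ.eq_iff]
  rw [h4]

private theorem m6_subset30 {S R : Finset (ℤ × ℤ)} (h : S ⊆ R) {a : ℤ × ℤ → ℂ} (ha : ∀ k, k ∉ S → a k = 0) :
    m6 R a = m6 S a := by
  have h1 : tp R a = tp S a := by
    funext c
    unfold tp
    refine (Finset.sum_subset h fun k _ hk => ?_).symm
    rw [ha k hk, zero_mul]
  unfold m6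
  rw [h1]

private theorem m6_cont30 (S : Finset (ℤ × ℤ)) (a : ℤ × ℤ → ℂ) (f : ℤ × ℤ → ℝ) :
    Continuous (fun R : ℝ => m6 S (fun k => a k * ee (R * f k))) := by
  have hcomp : IsCompact Tq := isCompact_Icc.prod isCompact_Icc
  unfold m6
  refine continuous_parametric_integral_of_continuous
    (f := fun (R : ℝ) (c : ℝ × ℝ) => ‖tp S (fun k => a k * ee (R * f k)) c‖ ^ 6) ?_ hcomp
  have h1 : Continuous (fun q : ℝ × (ℝ × ℝ) => tp S (fun k => a k * ee (q.1 * f k)) q.2) := by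
    unfold tp dt
    refine continuous_finsetSum _ fun k _ => ?_
    refine Continuous.mul (Continuous.mul continuous_const (ee_cont.comp (by fun_prop))) (ee_cont.comp (by fun_prop))
  exact h1.norm.pow 6

private theorem wt_int30 {X : ℝ} {v : ℝ → ℝ} (hv : IsWt X v) : Integrable v := by
  by_contra hcon
  have h2 := hv.int_one
  rw [integral_undef hcon] at h2
  exact zero_ne_one h2

private theorem win30 {X R₁ : ℝ} {v : ℝ → ℝ} {c₀ : ℝ} {Cd : ℕ → ℝ} (hX : 0 < X) (hc : 0 < c₀) (h : IsDw X R₁ v c₀ Cd)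
    (S : Finset (ℤ × ℤ)) {a : ℤ × ℤ → ℂ} (ha : ∀ k, ‖a k‖ ≤ 1) (f : ℤ × ℤ → ℝ) :
    ∫ R in Icc R₁ (R₁ + X), m6 S (fun k => a k * ee (R * f k)) ≤ X / c₀ * n6 (mu v) (gs S a f) ^ 3 := by
  have hg := m6_cont30 S a f
  have hg0 : ∀ R : ℝ, 0 ≤ m6 S (fun k => a k * ee (R * f k)) := fun R => m6_nonneg S _
  have hgb : ∀ R : ℝ, m6 S (fun k => a k * ee (R * f k)) ≤ (S.card : ℝ) ^ 6 := fun R =>
    m6_card S fun k => by
      rw [norm_mul, ee_norm, mul_one]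
      exact ha k
  have hs := n6_slice h.wt S a f
  have hint : Integrable (fun R => v R * m6 S (fun k => a k * ee (R * f k))) := by
    refine (wt_int30 h.wt).mul_bdd (c := (S.card : ℝ) ^ 6) hg.aestronglyMeasurable
      (Filter.Eventually.of_forall fun R => ?_)
    rw [Real.norm_of_nonneg (hg0 R)]
    exact hgb R
  have h1 : ∫ R in Icc R₁ (R₁ + X), c₀ / X * m6 S (fun k => a k * ee (R * f k)) ≤
      ∫ R in Icc R₁ (R₁ + X), v R * m6 S (fun k => a k * ee (R * f k)) := by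
    refine setIntegral_mono_on ?_ hint.integrableOn measurableSet_Icc fun R hR => ?_
    · exact (continuous_const.mul hg).continuousOn.integrableOn_compact isCompact_Icc
    · exact mul_le_mul_of_nonneg_right (h.low R hR) (hg0 R)
  have h2 : ∫ R in Icc R₁ (R₁ + X), v R * m6 S (fun k => a k * ee (R * f k)) ≤
      ∫ R, v R * m6 S (fun k => a k * ee (R * f k)) :=
    setIntegral_le_integral hint (Filter.Eventually.of_forall fun R =>
      mul_nonneg (h.wt.nonneg R) (hg0 R))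
  rw [integral_const_mul] at h1
  rw [hs]
  have h3 := h1.trans h2
  have h4 := mul_le_mul_of_nonneg_left h3 (by positivity : 0 ≤ X / c₀)
  refine le_trans (le_of_eq ?_) h4
  field_simp

/-- the integer shear -/
private def sh30 (n : ℤ) (k : ℤ × ℤ) : ℤ × ℤ := (k.1 + n * k.2, k.2)

private theorem sh_inj30 (n : ℤ) : Function.Injective (sh30 n) := by
  intro k l h
  have h1 : k.1 + n * k.2 = l.1 + n * l.2 := (Prod.mk.inj h).1
  have h2 : k.2 = l.2 := (Prod.mk.inj h).2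
  rw [h2] at h1
  exact Prod.ext (by omega) h2

private theorem sh_add30 (n : ℤ) (k l : ℤ × ℤ) : sh30 n (k + l) = sh30 n k + sh30 n l := by
  unfold sh30
  refine Prod.ext ?_ rfl
  change (k.1 + l.1) + n * (k.2 + l.2) = (k.1 + n * k.2) + (l.1 + n * l.2)
  ring

private theorem uu_sh30 (n : ℤ) (b : ℝ) (k : ℤ × ℤ) : uu (b - n) (sh30 n k) = uu b k := by
  unfold uu sh30
  push_cast
  ring

private theorem ph_sh30 (n : ℤ) (b : ℝ) (k : ℤ × ℤ) : ph (b - n) (sh30 n k) = ph b k := by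
  unfold ph
  rw [uu_sh30]
  rfl

private theorem reg_iff30 {β H : ℝ} {k : ℤ × ℤ} (hk : k ∈ reg β H) :
    H / 4 ≤ uu β k ∧ uu β k ≤ 8 * H ∧ |(k.2 : ℝ)| ≤ 5 * uu β k := by
  classical
  unfold reg at hk
  rw [Finset.mem_filter] at hk
  exact hk.2

private theorem reg_mem30 {β H : ℝ} {k : ℤ × ℤ} (h1 : H / 4 ≤ uu β k) (h2 : uu β k ≤ 8 * H)
    (h3 : |(k.2 : ℝ)| ≤ 5 * uu β k) (h4 : |(k.1 : ℝ)| ≤ 40 * H) (h5 : |(k.2 : ℝ)| ≤ 40 * H) : k ∈ reg β H := by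
  classical
  unfold reg
  rw [Finset.mem_filter]
  refine ⟨?_, h1, h2, h3⟩
  have g1 : |(k.1 : ℝ)| ≤ ((⌈40 * H⌉₊ : ℤ) : ℝ) := by
    push_cast
    exact h4.trans (Nat.le_ceil _)
  have g2 : |(k.2 : ℝ)| ≤ ((⌈40 * H⌉₊ : ℤ) : ℝ) := by
    push_cast
    exact h5.trans (Nat.le_ceil _)
  have g3 : |k.1| ≤ (⌈40 * H⌉₊ : ℤ) := by exact_mod_cast g1
  have g4 : |k.2| ≤ (⌈40 * H⌉₊ : ℤ) := by exact_mod_cast g2
  unfold box
  rw [Finset.mem_product, Finset.mem_Icc, Finset.mem_Icc]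
  exact ⟨abs_le.1 g3, abs_le.1 g4⟩

private theorem sub30 {b H : ℝ} {S : Finset (ℤ × ℤ)} (hH : 1 ≤ H) (hS : S ⊆ reg b H) {n : ℤ}
    (hn : |b - n| ≤ 1 / 2) : S.image (sh30 n) ⊆ reg (b - n) H := by
  intro k' hk'
  obtain ⟨k, hk, rfl⟩ := Finset.mem_image.1 hk'
  obtain ⟨g1, g2, g3⟩ := reg_iff30 (hS hk)
  have hu0 : 0 < uu b k := by linarith
  have f2 : (((sh30 n k).2 : ℤ) : ℝ) = (k.2 : ℝ) := rfl
  have f3 : (((sh30 n k).1 : ℤ) : ℝ) = uu b k - (b - n) * k.2 := by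
    unfold sh30 uu
    push_cast
    ring
  have f4 : |(b - n) * (k.2 : ℝ)| ≤ 5 / 2 * uu b k := by
    rw [abs_mul]
    calc |b - n| * |(k.2 : ℝ)| ≤ 1 / 2 * (5 * uu b k) := mul_le_mul hn g3 (abs_nonneg _) (by norm_num)
      _ = 5 / 2 * uu b k := by ring
  obtain ⟨f5, f6⟩ := abs_le.1 f4
  refine reg_mem30 ?_ ?_ ?_ ?_ ?_
  · rw [uu_sh30]
    exact g1
  · rw [uu_sh30]
    exact g2
  · rw [uu_sh30, f2]
    exact g3
  · rw [f3, abs_le]
    constructor <;> linarith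
  · rw [f2]
    linarith


theorem six0 {ε : ℝ} (hε : 0 < ε) : ∃ C : ℝ, 1 ≤ C ∧ ∀ (b H T : ℝ) (a : ℤ × ℤ → ℂ) (S : Finset (ℤ × ℤ)), 1 ≤ H → H ^ 3 ≤ T → |b| ≤ 1 →
    (∀ k, ‖a k‖ ≤ 1) → S ⊆ reg b H → ∫ r in Icc (0 : ℝ) T, m6 S (fun k => a k * ee (r * ph b k)) ≤ C * H ^ ε * T * H ^ 6 := by
  classical
  obtain ⟨c₀, hc₀, Cd, hdw⟩ := exists_dw
  obtain ⟨M, N₁, hM, hN₁, C₁, hC₁, hdec⟩ := dec (ε := ε / 6) (by positivity)
  obtain ⟨C₂, hC₂, hpairs⟩ := arc_pairs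
  have hM0 : (1 : ℝ) < M := by exact_mod_cast (by omega : 1 < M)
  obtain ⟨y, hy⟩ : ∃ y : ℝ, y = (M : ℝ) ^ N₁ := ⟨_, rfl⟩
  have hy1 : 1 < y := by
    rw [hy]
    exact one_lt_pow₀ hM0 (by omega)
  have hy0 : 0 < y := by linarith
  refine ⟨max 1 (1 / c₀ * (C₁ * (C₂ * (1 + 6 / ε) * (1 + y))) ^ 3), le_max_left _ _, ?_⟩
  intro b H T a S hH hT hb ha hS
  have hH0 : 0 < H := by linarith
  have hT1 : 1 ≤ T := by
    have : 1 ≤ H ^ 3 := one_le_pow₀ hH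
    linarith
  have hT0 : 0 < T := by linarith
  obtain ⟨n, hn⟩ : ∃ n : ℤ, n = round b := ⟨_, rfl⟩
  have hn2 : |b - n| ≤ 1 / 2 := by
    rw [hn]
    exact abs_sub_round b
  have hsub := sub30 hH hS hn2
  obtain ⟨β, hβ⟩ : ∃ β : ℝ, β = b - n := ⟨_, rfl⟩
  rw [← hβ] at hsub hn2
  obtain ⟨a', ha'⟩ : ∃ a' : ℤ × ℤ → ℂ, ∀ k, a' k = if k ∈ S.image (sh30 n) then a (k.1 - n * k.2, k.2) else 0 :=
    ⟨_, fun _ => rfl⟩
  have ha1 : ∀ k, ‖a' k‖ ≤ 1 := by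
    intro k
    rw [ha']
    split_ifs
    · exact ha _
    · rw [norm_zero]
      exact zero_le_one
  have ha2 : ∀ k, k ∉ S.image (sh30 n) → a' k = 0 := fun k hk => by rw [ha', if_neg hk]
  have ha3 : ∀ k ∈ S, a' (sh30 n k) = a k := by
    intro k hk
    rw [ha', if_pos (Finset.mem_image_of_mem _ hk)]
    congr 1
    refine Prod.ext ?_ rfl
    change (k.1 + n * k.2) - n * k.2 = k.1
    ring
  have hGr : ∀ r : ℝ, m6 S (fun k => a k * ee (r * ph b k)) = m6 (reg β H) (fun k => a' k * ee (r * ph β k)) := by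
    intro r
    rw [m6_subset30 hsub (fun k hk => by rw [ha2 k hk, zero_mul]), m6_image30 S _ (sh_inj30 n) (sh_add30 n)]
    refine m6_congr fun k hk => ?_
    rw [ha3 k hk, hβ, ph_sh30]
  simp only [hGr]
  obtain ⟨v, hv⟩ := hdw T hT0 0
  have hW := win30 hT0 hc₀ hv (reg β H) ha1 (ph β)
  rw [zero_add] at hW
  -- the parameter
  obtain ⟨m, hm1, hm2⟩ := exists_nat_pow_near (one_le_pow₀ hH : 1 ≤ H ^ 2) hy1
  have hcast : ((M ^ (N₁ * m) : ℕ) : ℝ) = y ^ m := by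
    rw [hy]
    push_cast
    rw [pow_mul]
  have hpos : (0 : ℝ) < y ^ m := by positivity
  have hN1 : 1 ≤ M ^ (N₁ * m) := Nat.one_le_pow _ _ (by omega)
  have hc2 : (M : ℝ) ^ (N₁ * m) ≤ H ^ 3 := by
    rw [pow_mul, ← hy]
    exact hm1.trans (pow_le_pow_right₀ hH (by norm_num))
  have hc1 : (M : ℝ) ^ (2 * (N₁ * m)) ≤ 144 * (H * T) := by
    have h1 : (M : ℝ) ^ (2 * (N₁ * m)) = (y ^ m) ^ 2 := by
      rw [hy, ← pow_mul, ← pow_mul]
      congr 1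
      ring
    rw [h1]
    have h2 : (y ^ m) ^ 2 ≤ (H ^ 2) ^ 2 := pow_le_pow_left₀ hpos.le hm1 2
    have h3 : (H ^ 2) ^ 2 = H * H ^ 3 := by ring
    have h4 : H * H ^ 3 ≤ H * T := mul_le_mul_of_nonneg_left hT hH0.le
    have h5 : 0 < H * T := by positivity
    linarith
  have hratio : H ^ 2 / ((M ^ (N₁ * m) : ℕ) : ℝ) ≤ y := by
    rw [hcast, div_le_iff₀ hpos]
    have h1 := hm2.le
    rw [pow_succ y m] at h1
    linarith
  have hlog : 1 + log H ≤ (1 + 6 / ε) * H ^ (ε / 6) := by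
    have h1 := log_le_rpow_div hH0.le (show 0 < ε / 6 by positivity)
    have h2 : H ^ (ε / 6) / (ε / 6) = 6 / ε * H ^ (ε / 6) := by field_simp
    have h3 : 1 ≤ H ^ (ε / 6) := one_le_rpow hH (by positivity)
    rw [h2] at h1
    linarith
  have hlog0 : 0 ≤ log H := log_nonneg hH
  have hn6 : n6 (mu v) (gs (reg β H) a' (ph β)) ≤ C₁ * (C₂ * (1 + 6 / ε) * (1 + y)) * (H ^ (ε / 6) * H ^ (ε / 6) * H ^ 2) := by
    have h1 := hdec m β H T v a' hH hT0 hv.wt hc1 hc2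
    have h2 : ∑ r ∈ Finset.range (M ^ (N₁ * m)), n6 (mu v) (gs (arc β (reg β H) (M ^ (N₁ * m)) r) a' (ph β)) ≤
        ∑ r ∈ Finset.range (M ^ (N₁ * m)), ((arc β (reg β H) (M ^ (N₁ * m)) r).card : ℝ) ^ (5 / 3 : ℝ) :=
      Finset.sum_le_sum fun r _ => n6_gs_card hv.wt _ ha1 _
    have h3 := hpairs β H (M ^ (N₁ * m)) hn2 hH hN1
    have h4 : C₂ * H ^ 2 * (1 + log H) * (1 + H ^ 2 / ((M ^ (N₁ * m) : ℕ) : ℝ)) ≤
        C₂ * H ^ 2 * ((1 + 6 / ε) * H ^ (ε / 6)) * (1 + y) := by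
      have h7 : 0 ≤ 1 + H ^ 2 / ((M ^ (N₁ * m) : ℕ) : ℝ) := by positivity
      have h8 : 0 ≤ 1 + log H := by linarith
      gcongr
    calc n6 (mu v) (gs (reg β H) a' (ph β)) ≤ C₁ * H ^ (ε / 6) *
          (C₂ * H ^ 2 * ((1 + 6 / ε) * H ^ (ε / 6)) * (1 + y)) :=
          h1.trans (mul_le_mul_of_nonneg_left (h2.trans (h3.trans h4)) (by positivity))
      _ = _ := by ring
  have hn0 : 0 ≤ n6 (mu v) (gs (reg β H) a' (ph β)) := Pool.Agent.Helper22.AC.n6_nonneg _ _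
  have hHe : (H ^ (ε / 6) * H ^ (ε / 6) * H ^ 2) ^ 3 = H ^ ε * H ^ 6 := by
    rw [← rpow_add hH0, mul_pow, ← rpow_natCast (H ^ (ε / 6 + ε / 6)) 3, ← rpow_mul hH0.le]
    have e1 : (ε / 6 + ε / 6) * ((3 : ℕ) : ℝ) = ε := by
      push_cast
      ring
    rw [e1]
    ring
  have hn3 : n6 (mu v) (gs (reg β H) a' (ph β)) ^ 3 ≤
      (C₁ * (C₂ * (1 + 6 / ε) * (1 + y))) ^ 3 * (H ^ ε * H ^ 6) := by
    refine (pow_le_pow_left₀ hn0 hn6 3).trans (le_of_eq ?_)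
    rw [mul_pow, hHe]
  refine hW.trans ?_
  calc T / c₀ * n6 (mu v) (gs (reg β H) a' (ph β)) ^ 3 ≤
        T / c₀ * ((C₁ * (C₂ * (1 + 6 / ε) * (1 + y))) ^ 3 * (H ^ ε * H ^ 6)) := by gcongr
    _ = 1 / c₀ * (C₁ * (C₂ * (1 + 6 / ε) * (1 + y))) ^ 3 * H ^ ε * T * H ^ 6 := by ring
    _ ≤ max 1 (1 / c₀ * (C₁ * (C₂ * (1 + 6 / ε) * (1 + y))) ^ 3) * H ^ ε * T * H ^ 6 := by
        gcongr
        exact le_max_right _ _

end Pool.Agent.Helper60.SV
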