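import Pool.Agent.Helper60.SV.C1
import Pool.Agent.Helper60.SV.D1
import Pool.Agent.Helper60.LT.A1
import Pool.Agent.Helper76.MM.E1

/-!
# SV-D2: the twelfth moment over all scales

PROOF. `S = rg b₁ H' H ⊆ reg b H'` for `|b - b₁| ≤ 1/60` (`rg_sub`), `card S ≤ 50 H' H` (`rg_card`). Radii `r ≤ H'³`: `m12 S ≤ (card S)⁶ m6 S`, `six0` with `T = H'³`, `H = H'`: the part is at most `(1/30) (50 H' H)⁶ C H'^ε H'⁹`.
Radii in `[2^i H'³, 2^(i+1) H'³]`, `2^i H'³ ≤ T₀`: `S` is cut from `reg b₁ H'` by the six half planes `H'/2 ≤ uu b₁`, `uu b₁ ≤ 5H'`, `± p.2 ≤ 2 uu b₁`, `± p.2 ≤ 2H` (`riesz12_half`, DT.R2, or `cut_poly`, `m12_cut`, LT.A1), so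
`m12 S a ≤ 24^72 m12 (reg b₁ H') a`, and `M12` (MM.E1, `e = ε/2`, `B = 30`) gives `C H'^(ε/2) (2^i H'³ H'^12 + H'^17)`; sum over `i`: geometric series `≤ 2 T₀ H'^12`, and the number of `i` is at most `1 + log₂ T₀ ≤ C H'^(ε/2)` (`T₀ ≤ H'^30`).
-/

open MeasureTheory Real Set Filter Topology

set_option autoImplicit false

namespace Pool.Agent.Helper60.SV

open Pool.Agent.Helper22.AE
open Pool.Agent.Helper92.GC (dt tp Tq uu tt ph reg arc gs dd Good IsNd oct sec)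
open Pool.Agent.Helper92.DT (m12)
open Pool.Agent.Helper76.OV (sl f2 Cn lq b0 bq kap)
open Pool.Agent.Helper92.DT (riesz12_half)
open Pool.Agent.Helper92.GC (m6 tp_norm_le tp_cont)
open Pool.Agent.Helper76.MM (tf TT tf_contOn tf_nonneg)

private theorem d2_tq : IsProbabilityMeasure ((volume : Measure (ℝ × ℝ)).restrict Tq) := by
  constructor
  unfold Tq
  rw [Measure.restrict_apply_univ, Measure.volume_eq_prod, Measure.prod_prod, Real.volume_Icc,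
    sub_zero, ENNReal.ofReal_one, mul_one]

private theorem d2_tp_card (S : Finset (ℤ × ℤ)) {b : ℤ × ℤ → ℂ} (hb : ∀ k, ‖b k‖ ≤ 1) (c : ℝ × ℝ) :
    ‖tp S b c‖ ≤ (S.card : ℝ) := by
  refine (tp_norm_le S b c).trans ?_
  refine (Finset.sum_le_card_nsmul _ _ 1 fun k _ => hb k).trans (by simp)

private theorem d2_m12 (S : Finset (ℤ × ℤ)) {b : ℤ × ℤ → ℂ} (hb : ∀ k, ‖b k‖ ≤ 1) :
    m12 S b ≤ (S.card : ℝ) ^ 6 * m6 S b := by
  have hp := d2_tq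
  have hint : Integrable (fun c => ‖tp S b c‖ ^ 6) (volume.restrict Tq) := by
    refine Integrable.of_bound (C := (S.card : ℝ) ^ 6)
      ((tp_cont S b).norm.pow 6).aestronglyMeasurable (Filter.Eventually.of_forall fun c => ?_)
    rw [Real.norm_of_nonneg (by positivity)]
    exact pow_le_pow_left₀ (norm_nonneg _) (d2_tp_card S hb c) 6
  unfold m12 m6
  rw [← integral_const_mul]
  refine integral_mono_of_nonneg (Filter.Eventually.of_forall fun q => by positivity)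
      (hint.const_mul _) (Filter.Eventually.of_forall fun c => ?_)
  change ‖tp S b c‖ ^ 12 ≤ _
  have h4 : ‖tp S b c‖ ^ 12 = ‖tp S b c‖ ^ 6 * ‖tp S b c‖ ^ 6 := by ring
  rw [h4]
  exact mul_le_mul_of_nonneg_right (pow_le_pow_left₀ (norm_nonneg _) (d2_tp_card S hb c) 6) (by positivity)

private theorem e1_reg {β H : ℝ} {k : ℤ × ℤ} (hk : k ∈ reg β H) :
    H / 4 ≤ uu β k ∧ uu β k ≤ 8 * H ∧ |(k.2 : ℝ)| ≤ 5 * uu β k := by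
  classical
  unfold reg at hk
  rw [Finset.mem_filter] at hk
  exact hk.2

private theorem e1_uu {b₀ b H : ℝ} (hH : 0 < H) (hb : |b - b₀| ≤ 1 / 50) {k : ℤ × ℤ} (hk : k ∈ reg b₀ H) : 0 < uu b k := by
  obtain ⟨h1, h2, h3⟩ := e1_reg hk
  have e1 : uu b k = uu b₀ k + (b - b₀) * k.2 := by unfold uu; ring
  have h4 : |(b - b₀) * (k.2 : ℝ)| ≤ 1 / 50 * (5 * uu b₀ k) := by
    rw [abs_mul]
    exact mul_le_mul hb h3 (abs_nonneg _) (by norm_num)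
  rw [abs_le] at h4
  rw [e1]
  linarith [h4.1]

private theorem e1_int {b₀ H : ℝ} (hH : 0 < H) {S : Finset (ℤ × ℤ)} (hS : S ⊆ reg b₀ H) (a : ℤ × ℤ → ℂ) {r₁ r₂ β₁ β₂ : ℝ}
    (h1 : b₀ - 1 / 50 ≤ β₁) (h2 : β₂ ≤ b₀ + 1 / 50) :
    IntegrableOn (fun q : ℝ × ℝ => tf S a q.2 q.1) (Icc β₁ β₂ ×ˢ Icc r₁ r₂) := by
  have hc := tf_contOn S a (Icc β₁ β₂) (by
    intro k hk b hb
    refine (e1_uu hH ?_ (hS hk)).ne'
    rw [abs_le]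
    constructor <;> linarith [hb.1, hb.2])
  have hc2 : ContinuousOn (fun q : ℝ × ℝ => tf S a q.2 q.1) (Icc β₁ β₂ ×ˢ Icc r₁ r₂) := by
    have h3 := hc.comp (f := fun q : ℝ × ℝ => (q.2, q.1)) (s := Icc β₁ β₂ ×ˢ Icc r₁ r₂) (by fun_prop) (by
      intro q hq
      exact ⟨mem_univ _, hq.1⟩)
    exact h3
  exact hc2.integrableOn_compact (isCompact_Icc.prod isCompact_Icc)

private theorem e1_TT {b₀ H : ℝ} (hH : 0 < H) {S : Finset (ℤ × ℤ)} (hS : S ⊆ reg b₀ H) (a : ℤ × ℤ → ℂ) {r₁ r₂ β₁ β₂ : ℝ}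
    (h1 : b₀ - 1 / 50 ≤ β₁) (h2 : β₂ ≤ b₀ + 1 / 50) :
    TT S a r₁ r₂ β₁ β₂ = ∫ q in Icc β₁ β₂ ×ˢ Icc r₁ r₂, tf S a q.2 q.1 := by
  have h3 := e1_int hH hS a (r₁ := r₁) (r₂ := r₂) h1 h2
  rw [Measure.volume_eq_prod] at h3 ⊢
  rw [setIntegral_prod _ h3]
  rfl

private theorem m6_cont30 (S : Finset (ℤ × ℤ)) (a : ℤ × ℤ → ℂ) (f : ℤ × ℤ → ℝ) :
    Continuous (fun R : ℝ => m6 S (fun k => a k * ee (R * f k))) := by
  have hcomp : IsCompact Tq := isCompact_Icc.prod isCompact_Icc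
  unfold m6
  refine continuous_parametric_integral_of_continuous
    (f := fun (R : ℝ) (c : ℝ × ℝ) => ‖tp S (fun k => a k * ee (R * f k)) c‖ ^ 6) ?_ hcomp
  have h1 : Continuous (fun q : ℝ × (ℝ × ℝ) => tp S (fun k => a k * ee (q.1 * f k)) q.2) := by
    unfold tp dt
    refine continuous_finsetSum _ fun k _ => ?_
    refine Continuous.mul (Continuous.mul continuous_const (ee_cont.comp (by fun_prop))) (ee_cont.comp (by fun_prop))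
  exact h1.norm.pow 6

/-- cutting -/
private theorem cut30 (b₁ H' H : ℝ) (a : ℤ × ℤ → ℂ) : m12 (rg b₁ H' H) a ≤ ((24 : ℝ) ^ 12) ^ 6 * m12 (reg b₁ H') a := by
  classical
  obtain ⟨S₁, hS₁⟩ : ∃ S : Finset (ℤ × ℤ), S = (reg b₁ H').filter (fun k => H' / 2 ≤ 1 * (k.1 : ℝ) + b₁ * (k.2 : ℝ)) := ⟨_, rfl⟩
  obtain ⟨S₂, hS₂⟩ : ∃ S : Finset (ℤ × ℤ), S = S₁.filter (fun k => -(5 * H') ≤ -1 * (k.1 : ℝ) + -b₁ * (k.2 : ℝ)) := ⟨_, rfl⟩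
  obtain ⟨S₃, hS₃⟩ : ∃ S : Finset (ℤ × ℤ), S = S₂.filter (fun k => 0 ≤ 2 * (k.1 : ℝ) + (2 * b₁ - 1) * (k.2 : ℝ)) := ⟨_, rfl⟩
  obtain ⟨S₄, hS₄⟩ : ∃ S : Finset (ℤ × ℤ), S = S₃.filter (fun k => 0 ≤ 2 * (k.1 : ℝ) + (2 * b₁ + 1) * (k.2 : ℝ)) := ⟨_, rfl⟩
  obtain ⟨S₅, hS₅⟩ : ∃ S : Finset (ℤ × ℤ), S = S₄.filter (fun k => -(2 * H) ≤ 0 * (k.1 : ℝ) + -1 * (k.2 : ℝ)) := ⟨_, rfl⟩
  obtain ⟨S₆, hS₆⟩ : ∃ S : Finset (ℤ × ℤ), S = S₅.filter (fun k => -(2 * H) ≤ 0 * (k.1 : ℝ) + 1 * (k.2 : ℝ)) := ⟨_, rfl⟩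
  have e : rg b₁ H' H = S₆ := by
    rw [hS₆, hS₅, hS₄, hS₃, hS₂, hS₁]
    unfold rg
    ext k
    simp only [Finset.mem_filter, abs_le]
    unfold uu
    constructor
    · rintro ⟨h0, h1, h2, ⟨h3, h4⟩, h5, h6⟩
      refine ⟨⟨⟨⟨⟨⟨h0, ?_⟩, ?_⟩, ?_⟩, ?_⟩, ?_⟩, ?_⟩ <;> linarith
    · rintro ⟨⟨⟨⟨⟨⟨h0, h1⟩, h2⟩, h3⟩, h4⟩, h5⟩, h6⟩
      refine ⟨h0, ?_, ?_, ⟨?_, ?_⟩, ?_, ?_⟩ <;> linarith
  have g1 : m12 S₁ a ≤ (24 : ℝ) ^ 12 * m12 (reg b₁ H') a := by rw [hS₁]; exact riesz12_half _ a _ _ _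
  have g2 : m12 S₂ a ≤ (24 : ℝ) ^ 12 * m12 S₁ a := by rw [hS₂]; exact riesz12_half _ a _ _ _
  have g3 : m12 S₃ a ≤ (24 : ℝ) ^ 12 * m12 S₂ a := by rw [hS₃]; exact riesz12_half _ a _ _ _
  have g4 : m12 S₄ a ≤ (24 : ℝ) ^ 12 * m12 S₃ a := by rw [hS₄]; exact riesz12_half _ a _ _ _
  have g5 : m12 S₅ a ≤ (24 : ℝ) ^ 12 * m12 S₄ a := by rw [hS₅]; exact riesz12_half _ a _ _ _
  have g6 : m12 S₆ a ≤ (24 : ℝ) ^ 12 * m12 S₅ a := by rw [hS₆]; exact riesz12_half _ a _ _ _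
  rw [e]
  obtain ⟨c, hc⟩ : ∃ c : ℝ, c = (24 : ℝ) ^ 12 := ⟨_, rfl⟩
  have hc0 : 0 < c := by rw [hc]; positivity
  rw [← hc] at g1 g2 g3 g4 g5 g6 ⊢
  calc m12 S₆ a ≤ c * (c * (c * (c * (c * (c * m12 (reg b₁ H') a))))) := by
        refine g6.trans (mul_le_mul_of_nonneg_left ?_ hc0.le)
        refine g5.trans (mul_le_mul_of_nonneg_left ?_ hc0.le)
        refine g4.trans (mul_le_mul_of_nonneg_left ?_ hc0.le)
        refine g3.trans (mul_le_mul_of_nonneg_left ?_ hc0.le)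
        exact g2.trans (mul_le_mul_of_nonneg_left g1 hc0.le)
    _ = c ^ 6 * m12 (reg b₁ H') a := by ring

private theorem split30 {b₀ H : ℝ} (hH : 0 < H) {S : Finset (ℤ × ℤ)} (hS : S ⊆ reg b₀ H) (a : ℤ × ℤ → ℂ) {x y z β₁ β₂ : ℝ}
    (h1 : b₀ - 1 / 50 ≤ β₁) (h2 : β₂ ≤ b₀ + 1 / 50) (hxy : x ≤ y) (hyz : y ≤ z) :
    TT S a x z β₁ β₂ ≤ TT S a x y β₁ β₂ + TT S a y z β₁ β₂ := by
  rw [e1_TT hH hS a h1 h2, e1_TT hH hS a h1 h2, e1_TT hH hS a h1 h2]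
  have i1 := e1_int hH hS a (r₁ := x) (r₂ := y) h1 h2
  have i2 := e1_int hH hS a (r₁ := y) (r₂ := z) h1 h2
  have hsub : Icc β₁ β₂ ×ˢ Ioc y z ⊆ Icc β₁ β₂ ×ˢ Icc y z := prod_mono (Subset.refl _) Ioc_subset_Icc_self
  have e : Icc β₁ β₂ ×ˢ Icc x z = Icc β₁ β₂ ×ˢ Icc x y ∪ Icc β₁ β₂ ×ˢ Ioc y z := by
    rw [← prod_union, Icc_union_Ioc_eq_Icc hxy hyz]
  rw [e, setIntegral_union ?_ ?_ i1 (i2.mono_set hsub)]
  · refine add_le_add le_rfl ?_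
    exact setIntegral_mono_set i2 (Filter.Eventually.of_forall fun q => tf_nonneg _ _ _ _) hsub.eventuallyLE
  · refine Set.disjoint_left.2 ?_
    rintro ⟨p, q⟩ hp hq
    have h3 := hp.2.2
    have h4 := hq.2.1
    exact absurd h3 (not_le.2 h4)
  · exact measurableSet_Icc.prod measurableSet_Ioc

private theorem mono30 {b₀ H : ℝ} (hH : 0 < H) {S : Finset (ℤ × ℤ)} (hS : S ⊆ reg b₀ H) (a : ℤ × ℤ → ℂ) {x y z β₁ β₂ : ℝ}
    (h1 : b₀ - 1 / 50 ≤ β₁) (h2 : β₂ ≤ b₀ + 1 / 50) (hyz : y ≤ z) :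
    TT S a x y β₁ β₂ ≤ TT S a x z β₁ β₂ := by
  rw [e1_TT hH hS a h1 h2, e1_TT hH hS a h1 h2]
  refine setIntegral_mono_set (e1_int hH hS a h1 h2) (Filter.Eventually.of_forall fun q => tf_nonneg _ _ _ _) ?_
  exact (prod_mono (Subset.refl _) (Icc_subset_Icc le_rfl hyz)).eventuallyLE

private theorem tele30 {b₀ H : ℝ} (hH : 0 < H) {S : Finset (ℤ × ℤ)} (hS : S ⊆ reg b₀ H) (a : ℤ × ℤ → ℂ) {X β₁ β₂ : ℝ}
    (h1 : b₀ - 1 / 50 ≤ β₁) (h2 : β₂ ≤ b₀ + 1 / 50) (hX : 0 < X) (m : ℕ) :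
    TT S a 0 (2 ^ m * X) β₁ β₂ ≤ TT S a 0 X β₁ β₂ + ∑ i ∈ Finset.range m, TT S a (2 ^ i * X) (2 * (2 ^ i * X)) β₁ β₂ := by
  induction m with
  | zero => simp
  | succ m ih =>
    have hp : (0 : ℝ) < 2 ^ m * X := by positivity
    have h3 := split30 hH hS a (x := 0) (y := 2 ^ m * X) (z := 2 ^ (m + 1) * X) h1 h2 hp.le (by
      rw [pow_succ]
      linarith)
    rw [Finset.sum_range_succ]
    have e : (2 : ℝ) ^ (m + 1) * X = 2 * (2 ^ m * X) := by ring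
    rw [e] at h3 ⊢
    linarith

private theorem cutTT30 {b₁ H' H : ℝ} (hH' : 1 ≤ H') (a : ℤ × ℤ → ℂ) {x y β₁ β₂ : ℝ}
    (h1 : b₁ - 1 / 50 ≤ β₁) (h2 : β₂ ≤ b₁ + 1 / 50) (hS : rg b₁ H' H ⊆ reg b₁ H') :
    TT (rg b₁ H' H) a x y β₁ β₂ ≤ ((24 : ℝ) ^ 12) ^ 6 * TT (reg b₁ H') a x y β₁ β₂ := by
  have hH0 : 0 < H' := by linarith
  rw [e1_TT hH0 hS a h1 h2, e1_TT hH0 (Finset.Subset.refl _) a h1 h2, ← integral_const_mul]
  refine integral_mono (e1_int hH0 hS a h1 h2) ((e1_int hH0 (Finset.Subset.refl _) a h1 h2).const_mul _) fun q => ?_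
  exact cut30 b₁ H' H _

private theorem low30 {ε C₀ : ℝ} (hC₀ : 1 ≤ C₀) (hsix : ∀ (b H T : ℝ) (a : ℤ × ℤ → ℂ) (S : Finset (ℤ × ℤ)), 1 ≤ H → H ^ 3 ≤ T → |b| ≤ 1 →
    (∀ k, ‖a k‖ ≤ 1) → S ⊆ reg b H → ∫ r in Icc (0 : ℝ) T, m6 S (fun k => a k * ee (r * ph b k)) ≤ C₀ * H ^ ε * T * H ^ 6)
    {b₁ H' H : ℝ} (hH : 1 ≤ H) (hHH : H ≤ H') (hb₁ : |b₁| ≤ 1 / 2) :
    TT (rg b₁ H' H) (fun _ => 1) 0 (H' ^ 3) (b₁ - 1 / 60) (b₁ + 1 / 60) ≤ (50 : ℝ) ^ 6 * C₀ * H' ^ ε * (H' ^ 15 * H ^ 6) := by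
  have hH' : 1 ≤ H' := hH.trans hHH
  have hH0 : 0 < H := by linarith
  have hH0' : 0 < H' := by linarith
  obtain ⟨Q, hQ⟩ : ∃ Q : ℝ, Q = (50 : ℝ) ^ 6 * C₀ * H' ^ ε * (H' ^ 15 * H ^ 6) := ⟨_, rfl⟩
  have hQ0 : 0 ≤ Q := by
    rw [hQ]
    positivity
  rw [← hQ]
  have h1 : ∀ b ∈ Icc (b₁ - 1 / 60) (b₁ + 1 / 60), ∫ r in Icc 0 (H' ^ 3), tf (rg b₁ H' H) (fun _ => 1) r b ≤ Q := by
    intro b hb
    have hb2 : |b - b₁| ≤ 1 / 60 := by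
      rw [abs_le]
      constructor <;> linarith [hb.1, hb.2]
    have hb3 : |b| ≤ 1 := by
      rw [abs_le] at hb₁ ⊢
      constructor <;> linarith [hb.1, hb.2, hb₁.1, hb₁.2]
    have h2 := hsix b H' (H' ^ 3) (fun _ => 1) (rg b₁ H' H) hH' le_rfl hb3 (fun _ => by rw [norm_one]) (rg_sub hH' hb₁ hb2)
    have h3 : ∫ r in Icc 0 (H' ^ 3), tf (rg b₁ H' H) (fun _ => 1) r b ≤
        ∫ r in Icc 0 (H' ^ 3), ((rg b₁ H' H).card : ℝ) ^ 6 * m6 (rg b₁ H' H) (fun k => 1 * ee (r * ph b k)) := by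
      refine integral_mono_of_nonneg (Filter.Eventually.of_forall fun r => tf_nonneg _ _ _ _)
        ((continuous_const.mul (m6_cont30 _ _ (ph b))).continuousOn.integrableOn_compact isCompact_Icc)
        (Filter.Eventually.of_forall fun r => ?_)
      refine d2_m12 _ fun k => ?_
      rw [norm_mul, ee_norm, mul_one, norm_one]
    refine h3.trans ?_
    rw [integral_const_mul]
    have h4 : ((rg b₁ H' H).card : ℝ) ^ 6 ≤ (50 * (H' * H)) ^ 6 := pow_le_pow_left₀ (by positivity) (rg_card hH hH') 6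
    calc ((rg b₁ H' H).card : ℝ) ^ 6 * ∫ r in Icc 0 (H' ^ 3), m6 (rg b₁ H' H) (fun k => 1 * ee (r * ph b k)) ≤
          (50 * (H' * H)) ^ 6 * (C₀ * H' ^ ε * H' ^ 3 * H' ^ 6) :=
          mul_le_mul h4 h2 (integral_nonneg fun r => Pool.Agent.Helper92.GC.m6_nonneg _ _) (by positivity)
      _ = Q := by
          rw [hQ]
          ring
  unfold TT
  have h3 : ∫ b in Icc (b₁ - 1 / 60) (b₁ + 1 / 60), ∫ r in Icc 0 (H' ^ 3), tf (rg b₁ H' H) (fun _ => 1) r b ≤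
      ∫ _b in Icc (b₁ - 1 / 60) (b₁ + 1 / 60), Q := by
    refine integral_mono_of_nonneg (Filter.Eventually.of_forall fun b => ?_) ?_ ?_
    · exact integral_nonneg fun r => tf_nonneg _ _ r b
    · exact integrableOn_const (by simp)
    · exact (ae_restrict_iff' measurableSet_Icc).2 (Filter.Eventually.of_forall h1)
  refine h3.trans ?_
  rw [setIntegral_const, smul_eq_mul, measureReal_def, Real.volume_Icc, ENNReal.toReal_ofReal (by linarith)]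
  linarith


theorem tot {ε : ℝ} (hε : 0 < ε) : ∃ C : ℝ, 1 ≤ C ∧ ∀ b₁ H' H T₀ : ℝ, 1 ≤ H → H ≤ H' → |b₁| ≤ 1 / 2 → H' ^ 3 ≤ T₀ → T₀ ≤ H' ^ 30 →
    ∫ b in Icc (b₁ - 1 / 60) (b₁ + 1 / 60), ∫ r in Icc (0 : ℝ) T₀, m12 (rg b₁ H' H) (fun k => ee (r * ph b k)) ≤
      C * H' ^ ε * (T₀ * H' ^ 12 + H' ^ 17 + H' ^ 15 * H ^ 6) := by
  obtain ⟨C₀, hC₀, hsix⟩ := six0 hε
  obtain ⟨C₁, hC₁, hM⟩ := Pool.Agent.Helper76.MM.M12 (e := ε / 2) (by positivity) 30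
  obtain ⟨c, hc⟩ : ∃ c : ℝ, c = ((24 : ℝ) ^ 12) ^ 6 := ⟨_, rfl⟩
  have hc1 : 0 < c := by rw [hc]; positivity
  have h1' : 0 ≤ c * C₁ * (2 + 80 / ε) := by positivity
  refine ⟨(50 : ℝ) ^ 6 * C₀ + c * C₁ * (2 + 80 / ε), by nlinarith, ?_⟩
  intro b₁ H' H T₀ hH hHH hb₁ hT1 hT2
  have hH' : 1 ≤ H' := hH.trans hHH
  have hH0 : 0 < H := by linarith
  have hH0' : 0 < H' := by linarith
  have hX : 0 < H' ^ 3 := by positivity
  have hT0 : 0 < T₀ := by linarith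
  have hS : rg b₁ H' H ⊆ reg b₁ H' := rg_sub hH' hb₁ (by rw [sub_self, abs_zero]; norm_num)
  have hb1 : b₁ - 1 / 50 ≤ b₁ - 1 / 60 := by linarith
  have hb2 : b₁ + 1 / 60 ≤ b₁ + 1 / 50 := by linarith
  have e1 : TT (rg b₁ H' H) (fun _ => 1) 0 T₀ (b₁ - 1 / 60) (b₁ + 1 / 60) =
      ∫ b in Icc (b₁ - 1 / 60) (b₁ + 1 / 60), ∫ r in Icc (0 : ℝ) T₀, m12 (rg b₁ H' H) (fun k => ee (r * ph b k)) := by
    unfold TT tf
    simp only [one_mul]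
  rw [← e1]
  have e2 : ∀ x y : ℝ, TT (reg b₁ H') (fun _ => 1) x y (b₁ - 1 / 60) (b₁ + 1 / 60) =
      ∫ b in Icc (b₁ - 1 / 60) (b₁ + 1 / 60), ∫ r in Icc x y, m12 (reg b₁ H') (fun k => ee (r * ph b k)) := by
    intro x y
    unfold TT tf
    simp only [one_mul]
  obtain ⟨n, hn1, hn2⟩ := exists_nat_pow_near ((one_le_div hX).2 hT1) (one_lt_two)
  have hn3 : (2 : ℝ) ^ n * H' ^ 3 ≤ T₀ := (le_div_iff₀ hX).1 hn1
  have hn4 : T₀ ≤ 2 ^ (n + 1) * H' ^ 3 := ((div_lt_iff₀ hX).1 hn2).le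
  have k1 := mono30 hH0' hS (fun _ => 1) (x := 0) hb1 hb2 hn4
  have k2 := tele30 hH0' hS (fun _ => 1) hb1 hb2 hX (n + 1)
  have k3 := low30 hC₀ hsix hH hHH hb₁
  have k4 : ∀ i ∈ Finset.range (n + 1), TT (rg b₁ H' H) (fun _ => 1) (2 ^ i * H' ^ 3) (2 * (2 ^ i * H' ^ 3)) (b₁ - 1 / 60) (b₁ + 1 / 60) ≤
      c * (C₁ * H' ^ (ε / 2) * (2 ^ i * H' ^ 3 * H' ^ 12 + H' ^ 17)) := by
    intro i hi
    have hin : i ≤ n := by
      have := Finset.mem_range.1 hi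
      omega
    have h2i : (1 : ℝ) ≤ 2 ^ i := one_le_pow₀ (by norm_num)
    have hT : H' ^ 3 ≤ 2 ^ i * H' ^ 3 := by nlinarith
    have hT' : 2 ^ i * H' ^ 3 ≤ T₀ := by
      refine le_trans ?_ hn3
      have : (2 : ℝ) ^ i ≤ 2 ^ n := pow_le_pow_right₀ (by norm_num) hin
      exact mul_le_mul_of_nonneg_right this hX.le
    have hT0' : 0 < 2 ^ i * H' ^ 3 := by positivity
    have h5 := hM H' (2 ^ i * H' ^ 3) b₁ hH' hT (by
      refine (hT'.trans hT2).trans (le_of_eq ?_)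
      rw [← rpow_natCast H' 30]
      norm_num) hb₁
    rw [← e2] at h5
    refine (cutTT30 hH' (fun _ => 1) hb1 hb2 hS).trans ?_
    rw [← hc]
    refine mul_le_mul_of_nonneg_left (h5.trans (le_of_eq ?_)) hc1.le
    field_simp
  have k5 : ∑ i ∈ Finset.range (n + 1), TT (rg b₁ H' H) (fun _ => 1) (2 ^ i * H' ^ 3) (2 * (2 ^ i * H' ^ 3)) (b₁ - 1 / 60) (b₁ + 1 / 60) ≤
      c * (C₁ * H' ^ (ε / 2) * (2 * T₀ * H' ^ 12 + (n + 1) * H' ^ 17)) := by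
    refine (Finset.sum_le_sum k4).trans ?_
    rw [← Finset.mul_sum, ← Finset.mul_sum, Finset.sum_add_distrib, ← Finset.sum_mul, ← Finset.sum_mul, Finset.sum_const,
      Finset.card_range, nsmul_eq_mul]
    have h6 : ∑ i ∈ Finset.range (n + 1), (2 : ℝ) ^ i ≤ 2 * 2 ^ n := by
      rw [geom_sum_eq (by norm_num), pow_succ]
      have : (0 : ℝ) < 2 ^ n := by positivity
      norm_num
      linarith
    have h7 : (∑ i ∈ Finset.range (n + 1), (2 : ℝ) ^ i) * H' ^ 3 * H' ^ 12 ≤ 2 * T₀ * H' ^ 12 := by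
      have h8 : (∑ i ∈ Finset.range (n + 1), (2 : ℝ) ^ i) * H' ^ 3 ≤ 2 * T₀ := by
        calc (∑ i ∈ Finset.range (n + 1), (2 : ℝ) ^ i) * H' ^ 3 ≤ 2 * 2 ^ n * H' ^ 3 := mul_le_mul_of_nonneg_right h6 hX.le
          _ = 2 * (2 ^ n * H' ^ 3) := by ring
          _ ≤ 2 * T₀ := by linarith
      exact mul_le_mul_of_nonneg_right h8 (by positivity)
    have h9 : (((n + 1 : ℕ)) : ℝ) = (n : ℝ) + 1 := by push_cast; rfl
    rw [h9]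
    refine mul_le_mul_of_nonneg_left (mul_le_mul_of_nonneg_left ?_ (by positivity)) hc1.le
    linarith
  have hP1 : 1 ≤ H' ^ (ε / 2) := one_le_rpow hH' (by positivity)
  have k6 : (n : ℝ) + 1 ≤ (1 + 80 / ε) * H' ^ (ε / 2) := by
    have h1 : (2 : ℝ) ^ n ≤ H' ^ 27 := by
      have h2 : (2 : ℝ) ^ n * H' ^ 3 ≤ H' ^ 27 * H' ^ 3 := by
        calc (2 : ℝ) ^ n * H' ^ 3 ≤ T₀ := hn3
          _ ≤ H' ^ 30 := hT2
          _ = H' ^ 27 * H' ^ 3 := by ring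
      exact le_of_mul_le_mul_right h2 hX
    have h2 := Real.log_le_log (by positivity) h1
    rw [Real.log_pow, Real.log_pow] at h2
    have h3 : (0.69 : ℝ) < log 2 := by
      have := Real.log_two_gt_d9
      linarith
    have h4 := log_le_rpow_div hH0'.le (show 0 < ε / 2 by positivity)
    have h5 : H' ^ (ε / 2) / (ε / 2) = 2 / ε * H' ^ (ε / 2) := by field_simp
    rw [h5] at h4
    push_cast at h2
    have h6 : (n : ℝ) * 0.69 ≤ (n : ℝ) * log 2 := mul_le_mul_of_nonneg_left h3.le (Nat.cast_nonneg n)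
    have h7 : (n : ℝ) ≤ 40 * log H' := by
      have : 0 ≤ log H' := log_nonneg hH'
      linarith
    have h8 : 80 / ε * H' ^ (ε / 2) = 40 * (2 / ε * H' ^ (ε / 2)) := by ring
    linarith
  have hPP : H' ^ ε = H' ^ (ε / 2) * H' ^ (ε / 2) := by
    rw [← rpow_add hH0']
    congr 1
    ring
  obtain ⟨P, hP⟩ : ∃ P : ℝ, P = H' ^ (ε / 2) := ⟨_, rfl⟩
  rw [← hP] at hP1 k5 k6 hPP
  rw [hPP] at k3 ⊢
  have hP0 : 0 < P := by linarith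
  have hε2 : 0 ≤ 80 / ε := by positivity
  have hPP1 : P ≤ P * P := by nlinarith
  have k7 : c * (C₁ * P * (2 * T₀ * H' ^ 12 + (n + 1) * H' ^ 17)) ≤ c * C₁ * (2 + 80 / ε) * (P * P) * (T₀ * H' ^ 12 + H' ^ 17) := by
    have h1 : 2 * T₀ * H' ^ 12 + (n + 1) * H' ^ 17 ≤ (2 + 80 / ε) * P * (T₀ * H' ^ 12 + H' ^ 17) := by
      have h2 : (n + 1) * H' ^ 17 ≤ (1 + 80 / ε) * P * H' ^ 17 := mul_le_mul_of_nonneg_right k6 (by positivity)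
      have h3 : 2 * (T₀ * H' ^ 12) ≤ (2 + 80 / ε) * P * (T₀ * H' ^ 12) := by
        refine mul_le_mul_of_nonneg_right ?_ (by positivity)
        nlinarith
      have h4 : (1 + 80 / ε) * P * H' ^ 17 ≤ (2 + 80 / ε) * P * H' ^ 17 := by
        have h5 : (1 + 80 / ε) * P ≤ (2 + 80 / ε) * P := mul_le_mul_of_nonneg_right (by linarith) hP0.le
        exact mul_le_mul_of_nonneg_right h5 (by positivity)
      calc 2 * T₀ * H' ^ 12 + (n + 1) * H' ^ 17 ≤ (2 + 80 / ε) * P * (T₀ * H' ^ 12) + (2 + 80 / ε) * P * H' ^ 17 := by linarith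
        _ = _ := by ring
    calc c * (C₁ * P * (2 * T₀ * H' ^ 12 + (n + 1) * H' ^ 17)) ≤ c * (C₁ * P * ((2 + 80 / ε) * P * (T₀ * H' ^ 12 + H' ^ 17))) := by
          gcongr
      _ = _ := by ring
  have hA : 0 ≤ T₀ * H' ^ 12 + H' ^ 17 := by positivity
  have hB : 0 ≤ H' ^ 15 * H ^ 6 := by positivity
  calc TT (rg b₁ H' H) (fun _ => 1) 0 T₀ (b₁ - 1 / 60) (b₁ + 1 / 60) ≤
        (50 : ℝ) ^ 6 * C₀ * (P * P) * (H' ^ 15 * H ^ 6) + c * C₁ * (2 + 80 / ε) * (P * P) * (T₀ * H' ^ 12 + H' ^ 17) := by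
        linarith
    _ ≤ (50 : ℝ) ^ 6 * C₀ * (P * P) * (T₀ * H' ^ 12 + H' ^ 17 + H' ^ 15 * H ^ 6) +
        c * C₁ * (2 + 80 / ε) * (P * P) * (T₀ * H' ^ 12 + H' ^ 17 + H' ^ 15 * H ^ 6) := by
        refine add_le_add ?_ ?_
        · exact mul_le_mul_of_nonneg_left (by linarith) (by positivity)
        · exact mul_le_mul_of_nonneg_left (by linarith) (by positivity)
    _ = _ := by ring

end Pool.Agent.Helper60.SV
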