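import Pool.Agent.Helper76.OV.G1
import Pool.Agent.Helper78.CG.Defs
import Pool.Agent.Helper78.CE.Defs
import Pool.Agent.Helper92.DT.R0

/-!
# Project SV (MP_fb29e9_nt): ovals of class C⁵, almost every centre, exponent 7/12 and fourteenth moment. Definitions

Plan: /team-store/h60_SV_README.md. `K` is the size of the frequencies, `Q ~ K^(5/6)` the order of the Farey dissection, `H = K/Q ~ K^(1/6)`, `P = Q/A` a class of denominators (`1 ≤ A ≤ H`),
`H' = K A/Q = K/P`. For `n = (q, a)` with `q ~ P` the frequencies of the sector `sec K Q n` are `k = h n + j n'`, `(h, j)` in a box `H' × H`.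
`m12` (DT.Defs), `reg`, `ph`, `uu`, `tt`, `dt`, `tp`, `Tq`, `arc`, `gs`, `IsNd`, `Good` (GC), `oct`, `sec` (GC.G3), `hs`, `mu2` (CE.Defs), `Cn`, `lq`, `bq`, `b0`, `kap`, `sl`, `f2` (OV.Defs of Helper76).
-/

open MeasureTheory Real Set Filter Topology

set_option autoImplicit false

namespace Pool.Agent.Helper60.SV

open Pool.Agent.Helper22.AE
open Pool.Agent.Helper92.GC (dt tp Tq uu tt ph reg arc gs dd Good IsNd oct sec)
open Pool.Agent.Helper92.DT (m12)
open Pool.Agent.Helper76.OV (sl f2 Cn)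

/-- two six-tuples -/
abbrev T12 : Type := (Fin 6 → ℤ × ℤ) × (Fin 6 → ℤ × ℤ)

/-- the pairs of six-tuples from `S` with equal sums -/
noncomputable def eqs (S : Finset (ℤ × ℤ)) : Finset T12 :=
  ((Fintype.piFinset fun _ : Fin 6 => S) ×ˢ (Fintype.piFinset fun _ : Fin 6 => S)).filter
    fun t => ∑ i, t.1 i = ∑ i, t.2 i

/-- the difference of the sums of `f` -/
noncomputable def df (f : ℤ × ℤ → ℝ) (t : T12) : ℝ := ∑ i, f (t.1 i) - ∑ i, f (t.2 i)

open Classical in
/-- the number of pairs of six-tuples from `S` with equal sums and sums of `f` within `δ` -/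
noncomputable def ct (S : Finset (ℤ × ℤ)) (f : ℤ × ℤ → ℝ) (δ : ℝ) : ℕ := ((eqs S).filter fun t => |df f t| ≤ δ).card

/-- the phase `k₁ φ(k₂/k₁)` -/
noncomputable def fp (φ : ℝ → ℝ) (k : ℤ × ℤ) : ℝ := (k.1 : ℝ) * φ (sl k)

/-- the second function of the curve: `g'' = t φ''`, `g 0 = g' 0 = 0` -/
noncomputable def gg (φ : ℝ → ℝ) (t : ℝ) : ℝ := t * (φ t + φ 0) - 2 * ∫ s in (0 : ℝ)..t, φ s

open Classical in
/-- the vectors of a class of denominators -/
noncomputable def gd (P : ℝ) : Finset (ℤ × ℤ) := (box ⌈P⌉₊).filter (Good P)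

open Classical in
/-- the frequencies of a class -/
noncomputable def cls (K Q : ℕ) (P : ℝ) : Finset (ℤ × ℤ) := (oct K).filter fun k => ∃ n, IsNd Q k n ∧ Good P n

open Classical in
/-- the frequencies with small denominators -/
noncomputable def sml (K Q : ℕ) (P : ℝ) : Finset (ℤ × ℤ) := (oct K).filter fun k => ∃ n, IsNd Q k n ∧ (n.1 : ℝ) ≤ P

open Classical in
/-- the box of the coordinates of a sector: `H'/2 ≤ u ≤ 5 H'`, `|t| ≤ 2`, `|j| ≤ 2 H` -/
noncomputable def rg (b H' H : ℝ) : Finset (ℤ × ℤ) :=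
  (reg b H').filter fun p => H' / 2 ≤ uu b p ∧ uu b p ≤ 5 * H' ∧ |(p.2 : ℝ)| ≤ 2 * uu b p ∧ |(p.2 : ℝ)| ≤ 2 * H

/-- the grid of slopes: `i/60 - 1/2`, `i ≤ 60` -/
noncomputable def gb (i : ℕ) : ℝ := (i : ℝ) / 60 - 1 / 2

/-- rotation by a right angle -/
def rot (k : ℤ × ℤ) : ℤ × ℤ := (-k.2, k.1)

/-- the isometries which map the first octant to the octants: rotation by `j π/2`, after the reflection `(k₁, -k₂)` for `s = false` -/
def iso (j : ℕ) (s : Bool) (k : ℤ × ℤ) : ℤ × ℤ := rot^[j] (if s then k else (k.1, -k.2))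

end Pool.Agent.Helper60.SV
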