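import Pool.Agent.Helper60.SV.A3
import Pool.Agent.Helper60.SV.C3
import Pool.Agent.Helper60.SV.D2

/-!
# SV-E1: the number of solutions in a class

PROOF. `P = Q/A`, `H = K/Q`, `H' = H A`, `lam = C₁ (P³/K⁴ + H'/Q⁴)` with `C₁` from `sum_n` (`δ = 1/K⁴`), `T₀ = 1/(2 lam)`. `K⁵ ≤ Q⁶ ≤ 64 K⁵` gives `H⁶ = K⁶/Q⁶ ∈ [K/64, K]`, `A ≤ H`. Sizes (all from these):
`P³/K⁴ · H'³ = (P H')³/K⁴ = 1/K`; `H'⁴/Q⁴ = (H'/Q)⁴ ≤ (H²/Q)⁴`, `(H²/Q)^24 = H^48/Q^24 ≤ K⁸/K^20`, so `(H'/Q)⁴ ≤ K^(-2)`. Hence `lam H'³ ≤ 2 C₁/K ≤ 1/2` for `K ≥ 4 C₁`: `H'³ ≤ T₀`. `T₀ ≤ K⁴/P³` and `T₀ ≤ H'^30`: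
`K⁴/P³ = K⁴ A³/Q³ ≤ K⁴ A³/K^(5/2) = K^(3/2) A³ ≤ K²`, `H'^30 ≥ H^30 ≥ (K/64)⁵ ≥ K²` for `K ≥ 2^10`. `lam H'^5 ≤ 2 C₁ H'²/K ≤ 2 C₁ H⁴/K ≤ 2 C₁`; `lam H'³ H⁶ ≤ 2 C₁ H⁶/K ≤ 2 C₁`.
By `tent` (for every `b`, then integrate over `b`; `b ↦ ct` measurable and bounded) and `tot`: `∫_b ct (rg ..) (ph b) lam ≤ 10 lam C H'^ε (T₀ H'^12 + H'^17 + H'^15 H⁶) ≤ C' H'^ε H'^12`. `card (rg)^11 ≤ (50 H' H)^11` = `50^11 (H² A)^11`.
For `K` smaller than a constant: `ct ≤ card^11` and `card (gd P) ≤ 3P²` bound the sum by a constant, and the right side is at least `1` (`Q/A ≥ 1`, since `A ≤ K/Q ≤ Q` by `Q² ≥ K`; `K A/Q ≥ 1`).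
-/

open MeasureTheory Real Set Filter Topology

set_option autoImplicit false

namespace Pool.Agent.Helper60.SV

open Pool.Agent.Helper22.AE
open Pool.Agent.Helper92.GC (dt tp Tq uu tt ph reg arc gs dd Good IsNd oct sec)
open Pool.Agent.Helper92.DT (m12)
open Pool.Agent.Helper76.OV (sl f2 Cn lq b0 bq kap)

private theorem int85 (S : Finset (ℤ × ℤ)) (b₁ T : ℝ) :
    IntegrableOn (fun b => ∫ r in Icc (0 : ℝ) T, m12 S (fun k => ee (r * ph b k))) (Icc (b₁ - 1 / 60) (b₁ + 1 / 60)) := by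
  have hm : ∀ b r : ℝ, m12 S (fun k => ee (r * ph b k)) = ∑ t ∈ eqs S, cos (2 * π * df (fun k => r * ph b k) t) :=
    fun b r => m12_cos S _
  have hmeas : Measurable (fun z : ℝ × ℝ => ∑ t ∈ eqs S, cos (2 * π * df (fun k => z.2 * ph z.1 k) t)) := by
    refine Finset.measurable_sum _ fun t _ => ?_
    refine measurable_cos.comp (Measurable.const_mul ?_ _)
    unfold df
    refine (Finset.measurable_sum _ fun i _ => ?_).sub (Finset.measurable_sum _ fun i _ => ?_)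
    all_goals
      unfold ph uu
      fun_prop
  have hI : Integrable (fun z : ℝ × ℝ => ∑ t ∈ eqs S, cos (2 * π * df (fun k => z.2 * ph z.1 k) t))
      ((volume.restrict (Icc (b₁ - 1 / 60) (b₁ + 1 / 60))).prod (volume.restrict (Icc 0 T))) := by
    refine Integrable.of_bound hmeas.aestronglyMeasurable ((eqs S).card : ℝ) (Eventually.of_forall fun z => ?_)
    refine (norm_sum_le _ _).trans ?_
    refine (Finset.sum_le_card_nsmul _ _ 1 fun t _ => ?_).trans (by simp)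
    rw [Real.norm_eq_abs]
    exact abs_cos_le_one _
  have h := hI.integral_prod_left
  simp only [hm]
  exact h

private theorem ctb85 {S : Finset (ℤ × ℤ)} {b₁ lam : ℝ} (hl : 0 < lam) :
    ∫ b in Icc (b₁ - 1 / 60) (b₁ + 1 / 60), (ct S (ph b) lam : ℝ) ≤
      10 * lam * ∫ b in Icc (b₁ - 1 / 60) (b₁ + 1 / 60), ∫ r in Icc (0 : ℝ) (1 / (2 * lam)), m12 S (fun k => ee (r * ph b k)) := by
  rw [← integral_const_mul]
  refine integral_mono_of_nonneg (Eventually.of_forall fun b => Nat.cast_nonneg _) ((int85 S b₁ _).const_mul _)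
    (Eventually.of_forall fun b => tent S (ph b) hl)

private theorem gb85 {i : ℕ} (hi : i ∈ Finset.range 61) : |gb i| ≤ 1 / 2 := by
  have h : i ≤ 60 := by
    have := Finset.mem_range.1 hi
    omega
  have h' : (i : ℝ) ≤ 60 := by exact_mod_cast h
  have h0 : (0 : ℝ) ≤ i := Nat.cast_nonneg _
  unfold gb
  rw [abs_le]
  constructor <;> linarith

/-- the sizes -/
private theorem size85 {C₁ K Q A : ℝ} (hC : 1 ≤ C₁) (hQ : 3 ≤ Q) (hK : 1024 ≤ K) (hKC : 4 * C₁ ≤ K) (hQK : Q ≤ K) (h1 : K ^ 5 ≤ Q ^ 6)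
    (h2 : Q ^ 6 ≤ 64 * K ^ 5) (hA : 1 ≤ A) (hAH : A ≤ K / Q) :
    1 ≤ K / Q ∧ K / Q ≤ K * A / Q ∧ K * A / Q ≤ K ∧ A ≤ Q ∧
      ∀ lam : ℝ, lam = C₁ * ((Q / A) ^ 3 * (1 / K ^ 4) + K * A / Q / Q ^ 4) → 0 < lam ∧ (K * A / Q) ^ 3 ≤ 1 / (2 * lam) ∧
        1 / (2 * lam) ≤ (K * A / Q) ^ 30 ∧ lam * (K * A / Q) ^ 17 ≤ 2 * C₁ * (K * A / Q) ^ 12 ∧
        lam * ((K * A / Q) ^ 15 * (K / Q) ^ 6) ≤ 2 * C₁ * (K * A / Q) ^ 12 := by
  have hQ0 : 0 < Q := by linarith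
  have hK0 : 0 < K := by linarith
  have hA0 : 0 < A := by linarith
  set H : ℝ := K / Q with hH
  have hH1 : 1 ≤ H := by
    rw [hH, le_div_iff₀ hQ0]
    linarith
  have hH0 : 0 < H := by linarith
  have hKQ : K ≤ Q ^ 2 := by
    have h3 : K ^ 3 ≤ (Q ^ 2) ^ 3 := by
      calc K ^ 3 ≤ K ^ 5 := pow_le_pow_right₀ (by linarith) (by norm_num)
        _ ≤ Q ^ 6 := h1
        _ = (Q ^ 2) ^ 3 := by ring
    exact le_of_pow_le_pow_left₀ (by norm_num) (by positivity) h3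
  have hHQ : H ≤ Q := by
    rw [hH, div_le_iff₀ hQ0]
    nlinarith
  have hAQ : A ≤ Q := hAH.trans hHQ
  have hH' : K * A / Q = H * A := by
    rw [hH]
    ring
  rw [hH']
  have hH'0 : 0 < H * A := by positivity
  have hHH' : H ≤ H * A := le_mul_of_one_le_right hH0.le hA
  have hH'1 : 1 ≤ H * A := hH1.trans hHH'
  have hH'2 : H * A ≤ H ^ 2 := by
    rw [sq]
    exact mul_le_mul_of_nonneg_left hAH hH0.le
  have hH'K : H * A ≤ K := by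
    rw [hH, div_mul_eq_mul_div, div_le_iff₀ hQ0]
    exact mul_le_mul_of_nonneg_left hAQ hK0.le
  have hHQK : H * Q = K := by
    rw [hH]
    field_simp
  have hH6 : H ^ 6 ≤ K := by
    have h3 : H ^ 6 * Q ^ 6 = K * K ^ 5 := by
      rw [← mul_pow, hHQK]
      ring
    have h4 : H ^ 6 * K ^ 5 ≤ K * K ^ 5 := by
      rw [← h3]
      exact mul_le_mul_of_nonneg_left h1 (by positivity)
    exact le_of_mul_le_mul_right h4 (by positivity)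
  have hH6' : K ≤ 64 * H ^ 6 := by
    have h3 : H ^ 6 * Q ^ 6 = K * K ^ 5 := by
      rw [← mul_pow, hHQK]
      ring
    have h4 : K * K ^ 5 ≤ (64 * H ^ 6) * K ^ 5 := by
      rw [← h3]
      calc H ^ 6 * Q ^ 6 ≤ H ^ 6 * (64 * K ^ 5) := mul_le_mul_of_nonneg_left h2 (by positivity)
        _ = 64 * H ^ 6 * K ^ 5 := by ring
    exact le_of_mul_le_mul_right h4 (by positivity)
  refine ⟨hH1, hHH', hH'K, hAQ, ?_⟩
  rintro lam hlam
  have hx : (Q / A) ^ 3 * (1 / K ^ 4) * (H * A) ^ 3 = 1 / K := by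
    have h3 : Q / A * (H * A) = K := by
      rw [← hHQK]
      field_simp
    calc (Q / A) ^ 3 * (1 / K ^ 4) * (H * A) ^ 3 = (Q / A * (H * A)) ^ 3 / K ^ 4 := by ring
      _ = K ^ 3 / K ^ 4 := by rw [h3]
      _ = 1 / K := by
        rw [div_eq_div_iff (by positivity) (by positivity)]
        ring
  have hy : H * A / Q ^ 4 * (H * A) ^ 3 ≤ 1 / K := by
    have h3 : (H * A) ^ 4 ≤ H ^ 8 := by
      calc (H * A) ^ 4 ≤ (H ^ 2) ^ 4 := pow_le_pow_left₀ hH'0.le hH'2 4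
        _ = H ^ 8 := by ring
    have h4 : H * A / Q ^ 4 * (H * A) ^ 3 = (H * A) ^ 4 / Q ^ 4 := by ring
    rw [h4, div_le_div_iff₀ (by positivity) hK0, one_mul]
    have h5 : H ^ 8 * Q ^ 8 = K ^ 8 := by
      rw [← mul_pow, hHQK]
    have h6 : (K ^ 5) ^ 2 ≤ (Q ^ 6) ^ 2 := pow_le_pow_left₀ (by positivity) h1 2
    have h7 : H ^ 8 * K * Q ^ 8 ≤ Q ^ 4 * Q ^ 8 := by
      calc H ^ 8 * K * Q ^ 8 = K ^ 9 := by
            calc H ^ 8 * K * Q ^ 8 = K * (H ^ 8 * Q ^ 8) := by ring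
              _ = K * K ^ 8 := by rw [h5]
              _ = K ^ 9 := by ring
        _ ≤ K ^ 10 := pow_le_pow_right₀ (by linarith) (by norm_num)
        _ = (K ^ 5) ^ 2 := by ring
        _ ≤ (Q ^ 6) ^ 2 := h6
        _ = Q ^ 4 * Q ^ 8 := by ring
    have h8 : H ^ 8 * K ≤ Q ^ 4 := le_of_mul_le_mul_right h7 (by positivity)
    exact (mul_le_mul_of_nonneg_right h3 hK0.le).trans h8
  have hl0 : 0 < lam := by
    rw [hlam]
    positivity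
  have hl3 : lam * (H * A) ^ 3 ≤ 2 * C₁ / K := by
    calc lam * (H * A) ^ 3 = C₁ * ((Q / A) ^ 3 * (1 / K ^ 4) * (H * A) ^ 3 + H * A / Q ^ 4 * (H * A) ^ 3) := by
          rw [hlam]
          ring
      _ ≤ C₁ * (1 / K + 1 / K) := by
          rw [hx]
          exact mul_le_mul_of_nonneg_left (by linarith) (by linarith)
      _ = 2 * C₁ / K := by ring
  have hl3' : lam * (H * A) ^ 3 * K ≤ 2 * C₁ := by
    rwa [le_div_iff₀ hK0] at hl3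
  refine ⟨hl0, ?_, ?_, ?_, ?_⟩
  · rw [le_div_iff₀ (by positivity)]
    have h3 : 2 * C₁ / K ≤ 1 / 2 := by
      rw [div_le_div_iff₀ hK0 (by norm_num)]
      linarith
    nlinarith
  · have h3 : 1 / (2 * lam) ≤ K ^ 2 := by
      have h4 : (Q / A) ^ 3 * (1 / K ^ 4) ≤ lam := by
        rw [hlam]
        have h5 : 0 ≤ H * A / Q ^ 4 := by positivity
        have h6 : 0 ≤ (Q / A) ^ 3 * (1 / K ^ 4) := by positivity
        nlinarith
      have h5 : 1 / K ^ 2 ≤ (Q / A) ^ 3 * (1 / K ^ 4) := by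
        have h6 : Q ^ 2 / K ≤ Q / A := by
          rw [div_le_div_iff₀ hK0 hA0]
          rw [le_div_iff₀ hQ0] at hAH
          nlinarith
        have h7 : (Q ^ 2 / K) ^ 3 ≤ (Q / A) ^ 3 := pow_le_pow_left₀ (by positivity) h6 3
        have h8 : K ^ 2 ≤ (Q ^ 2 / K) ^ 3 := by
          rw [div_pow, le_div_iff₀ (by positivity)]
          calc K ^ 2 * K ^ 3 = K ^ 5 := by ring
            _ ≤ Q ^ 6 := h1
            _ = (Q ^ 2) ^ 3 := by ring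
        calc 1 / K ^ 2 = K ^ 2 * (1 / K ^ 4) := by
              field_simp
          _ ≤ (Q / A) ^ 3 * (1 / K ^ 4) := mul_le_mul_of_nonneg_right (h8.trans h7) (by positivity)
      have h6 : 1 / K ^ 2 ≤ lam := h5.trans h4
      rw [div_le_iff₀ (by positivity)]
      have h7 : 1 ≤ lam * K ^ 2 := by
        rwa [div_le_iff₀ (by positivity)] at h6
      nlinarith
    refine h3.trans ?_
    have h4 : K ^ 2 ≤ (K / 64) ^ 5 := by
      rw [div_pow, le_div_iff₀ (by positivity)]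
      have h5 : (64 : ℝ) ^ 5 ≤ K ^ 3 := by
        calc (64 : ℝ) ^ 5 = 1024 ^ 3 := by norm_num
          _ ≤ K ^ 3 := pow_le_pow_left₀ (by norm_num) hK 3
      calc K ^ 2 * 64 ^ 5 ≤ K ^ 2 * K ^ 3 := mul_le_mul_of_nonneg_left h5 (by positivity)
        _ = K ^ 5 := by ring
    calc K ^ 2 ≤ (K / 64) ^ 5 := h4
      _ ≤ (H ^ 6) ^ 5 := pow_le_pow_left₀ (by positivity) (by linarith) 5
      _ = H ^ 30 := by ring
      _ ≤ (H * A) ^ 30 := pow_le_pow_left₀ hH0.le hHH' 30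
  · have h3 : (H * A) ^ 2 ≤ K := by
      calc (H * A) ^ 2 ≤ (H ^ 2) ^ 2 := pow_le_pow_left₀ hH'0.le hH'2 2
        _ = H ^ 4 := by ring
        _ ≤ H ^ 6 := pow_le_pow_right₀ hH1 (by norm_num)
        _ ≤ K := hH6
    calc lam * (H * A) ^ 17 = lam * (H * A) ^ 3 * (H * A) ^ 2 * (H * A) ^ 12 := by ring
      _ ≤ lam * (H * A) ^ 3 * K * (H * A) ^ 12 := by gcongr
      _ ≤ 2 * C₁ * (H * A) ^ 12 := by gcongr
  · calc lam * ((H * A) ^ 15 * H ^ 6) = lam * (H * A) ^ 3 * H ^ 6 * (H * A) ^ 12 := by ring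
      _ ≤ lam * (H * A) ^ 3 * K * (H * A) ^ 12 := by gcongr
      _ ≤ 2 * C₁ * (H * A) ^ 12 := by gcongr

open Classical in
/-- the trivial bound -/
private theorem triv85 (φ : ℝ → ℝ) {K Q : ℕ} {P δ : ℝ} (hK : 1 ≤ K) (hP : 1 ≤ P) (hPK : P ≤ K) :
    ∑ n ∈ gd P, (ct (sec K Q n) (fp φ) δ : ℝ) ≤ 3 * 25 ^ 11 * (K : ℝ) ^ 24 := by
  have hK1 : (1 : ℝ) ≤ K := by exact_mod_cast hK
  have h1 : ∀ n ∈ gd P, (ct (sec K Q n) (fp φ) δ : ℝ) ≤ (25 * (K : ℝ) ^ 2) ^ 11 := by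
    intro n _
    refine (ct_card _ _ _).trans (pow_le_pow_left₀ (Nat.cast_nonneg _) ?_ 11)
    have h2 : (sec K Q n).card ≤ (box (2 * K)).card := by
      refine Finset.card_le_card ?_
      unfold sec oct
      exact (Finset.filter_subset _ _).trans (Finset.filter_subset _ _)
    have h3 : (box (2 * K)).card = (4 * K + 1) ^ 2 := by
      unfold box
      rw [Finset.card_product, Int.card_Icc]
      have : ((((2 * K : ℕ) : ℤ) + 1 - -((2 * K : ℕ) : ℤ)).toNat) = 4 * K + 1 := by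
        push_cast
        omega
      rw [this, sq]
    have h4 : ((sec K Q n).card : ℝ) ≤ (4 * K + 1) ^ 2 := by
      rw [h3] at h2
      exact_mod_cast h2
    refine h4.trans ?_
    calc (4 * (K : ℝ) + 1) ^ 2 ≤ (5 * (K : ℝ)) ^ 2 := pow_le_pow_left₀ (by positivity) (by linarith) 2
      _ = 25 * (K : ℝ) ^ 2 := by ring
  have h2 : ((gd P).card : ℝ) ≤ 3 * P ^ 2 := by
    refine Pool.Agent.Helper92.GC.good_card hP (gd P) fun n hn => ?_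
    unfold gd at hn
    exact (Finset.mem_filter.1 hn).2
  calc ∑ n ∈ gd P, (ct (sec K Q n) (fp φ) δ : ℝ) ≤ ∑ n ∈ gd P, (25 * (K : ℝ) ^ 2) ^ 11 := Finset.sum_le_sum h1
    _ = (gd P).card * (25 * (K : ℝ) ^ 2) ^ 11 := by rw [Finset.sum_const, nsmul_eq_mul]
    _ ≤ 3 * (K : ℝ) ^ 2 * (25 * (K : ℝ) ^ 2) ^ 11 := by
        gcongr
        refine h2.trans ?_
        gcongr
    _ = 3 * 25 ^ 11 * (K : ℝ) ^ 24 := by ring

theorem cls_ct {ε c₁ B : ℝ} (hε : 0 < ε) (hc : 0 < c₁) (hB : 1 ≤ B) : ∃ C : ℝ, 1 ≤ C ∧ ∀ φ : ℝ → ℝ, Cn c₁ B φ → ∀ (K Q : ℕ) (A : ℝ), 3 ≤ Q →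
    Q ≤ K → 12 * B ≤ c₁ * Q → (K : ℝ) ^ 5 ≤ (Q : ℝ) ^ 6 → (Q : ℝ) ^ 6 ≤ 64 * (K : ℝ) ^ 5 → 1 ≤ A → A ≤ K / Q →
      ∑ n ∈ gd (Q / A), (ct (sec K Q n) (fp φ) (1 / (K : ℝ) ^ 4) : ℝ) ≤
        C * (K : ℝ) ^ ε * ((Q / A) ^ 2 * (K * A / Q) ^ 12 + (K / Q) ^ 22 * A ^ 11) := by
  obtain ⟨C₁, hC₁, hsum⟩ := sum_n hc hB
  obtain ⟨C₂, hC₂, htot⟩ := tot hε
  set K₀ : ℝ := max (4 * C₁) 1024 with hK₀
  have hK₀1 : 1024 ≤ K₀ := le_max_right _ _
  set Cb : ℝ := 61 * C₁ * (50 ^ 11 + 10 * C₂ * (1 / 2 + 4 * C₁)) with hCb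
  have hCb0 : 0 ≤ Cb := by positivity
  have hCs : (1 : ℝ) ≤ 3 * 25 ^ 11 * K₀ ^ 24 := by
    have h1 : (1 : ℝ) ≤ K₀ ^ 24 := one_le_pow₀ (by linarith)
    nlinarith
  refine ⟨Cb + 3 * 25 ^ 11 * K₀ ^ 24, by linarith, ?_⟩
  intro φ hφ K Q A hQ hQK hBQ h1 h2 hA hAH
  have hQr : (3 : ℝ) ≤ Q := by exact_mod_cast hQ
  have hQKr : (Q : ℝ) ≤ K := by exact_mod_cast hQK
  have hQ0 : (0 : ℝ) < Q := by linarith
  have hK0 : (0 : ℝ) < K := by linarith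
  have hK1 : (1 : ℝ) ≤ K := by linarith
  have hA0 : 0 < A := by linarith
  have hKe : (1 : ℝ) ≤ (K : ℝ) ^ ε := Real.one_le_rpow hK1 hε.le
  have hKe0 : (0 : ℝ) ≤ (K : ℝ) ^ ε := by linarith
  have hKQ : (K : ℝ) ≤ (Q : ℝ) ^ 2 := by
    have h3 : (K : ℝ) ^ 3 ≤ ((Q : ℝ) ^ 2) ^ 3 := by
      calc (K : ℝ) ^ 3 ≤ (K : ℝ) ^ 5 := pow_le_pow_right₀ hK1 (by norm_num)
        _ ≤ (Q : ℝ) ^ 6 := h1
        _ = ((Q : ℝ) ^ 2) ^ 3 := by ring
    exact le_of_pow_le_pow_left₀ (by norm_num) (by positivity) h3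
  have hAQ : A ≤ Q := by
    refine hAH.trans ?_
    rw [div_le_iff₀ hQ0]
    nlinarith
  have hP1 : (1 : ℝ) ≤ Q / A := by
    rw [le_div_iff₀ hA0]
    linarith
  have hH1 : (1 : ℝ) ≤ K / Q := by
    rw [le_div_iff₀ hQ0]
    linarith
  have hH'1 : (1 : ℝ) ≤ K * A / Q := by
    rw [le_div_iff₀ hQ0]
    nlinarith
  set X : ℝ := (Q / A) ^ 2 * (K * A / Q) ^ 12 with hX
  set Y : ℝ := ((K : ℝ) / Q) ^ 22 * A ^ 11 with hY
  have hX1 : 1 ≤ X := by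
    rw [hX]
    exact one_le_mul_of_one_le_of_one_le (one_le_pow₀ hP1) (one_le_pow₀ hH'1)
  have hY0 : 0 ≤ Y := by positivity
  rcases lt_or_ge (K : ℝ) K₀ with hsm | hlg
  · have h3 := triv85 φ (K := K) (Q := Q) (P := Q / A) (δ := 1 / (K : ℝ) ^ 4) (by omega) hP1
      ((div_le_self hQ0.le hA).trans hQKr)
    refine h3.trans ?_
    have h4 : 3 * 25 ^ 11 * (K : ℝ) ^ 24 ≤ 3 * 25 ^ 11 * K₀ ^ 24 := by gcongr
    refine h4.trans ?_
    have h5 : 1 ≤ (K : ℝ) ^ ε * (X + Y) := one_le_mul_of_one_le_of_one_le hKe (by linarith)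
    calc 3 * 25 ^ 11 * K₀ ^ 24 ≤ (Cb + 3 * 25 ^ 11 * K₀ ^ 24) * 1 := by linarith
      _ ≤ (Cb + 3 * 25 ^ 11 * K₀ ^ 24) * ((K : ℝ) ^ ε * (X + Y)) := mul_le_mul_of_nonneg_left h5 (by positivity)
      _ = (Cb + 3 * 25 ^ 11 * K₀ ^ 24) * (K : ℝ) ^ ε * (X + Y) := by ring
  · have hK10 : (1024 : ℝ) ≤ K := hK₀1.trans hlg
    have hKC : 4 * C₁ ≤ K := (le_max_left _ _).trans hlg
    obtain ⟨-, hHH', hH'K, -, hlam⟩ := size85 hC₁ hQr hK10 hKC hQKr h1 h2 hA hAH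
    set lam : ℝ := C₁ * ((Q / A) ^ 3 * (1 / (K : ℝ) ^ 4) + K * A / Q / (Q : ℝ) ^ 4) with hlamdef
    obtain ⟨hl0, hl3, hl30, hl17, hl15⟩ := hlam lam rfl
    have hs := hsum φ hφ K Q A (1 / (K : ℝ) ^ 4) lam (by omega) hQ hQK hA hAQ hBQ (by positivity) le_rfl hl0
    refine hs.trans ?_
    have hterm : ∀ i ∈ Finset.range 61, ((rg (gb i) (K * A / Q) (K / Q)).card : ℝ) ^ 11 +
          (Q / A) ^ 2 * ∫ b in Icc (gb i - 1 / 60) (gb i + 1 / 60), (ct (rg (gb i) (K * A / Q) (K / Q)) (ph b) lam : ℝ) ≤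
        (50 ^ 11 + 10 * C₂ * (1 / 2 + 4 * C₁)) * ((K : ℝ) ^ ε * (X + Y)) := by
      intro i hi
      have hb := gb85 hi
      have h3 : ((rg (gb i) (K * A / Q) (K / Q)).card : ℝ) ^ 11 ≤ 50 ^ 11 * Y := by
        have h4 := rg_card (b₁ := gb i) hH1 hH'1
        calc ((rg (gb i) (K * A / Q) (K / Q)).card : ℝ) ^ 11 ≤ (50 * (K * A / Q * (K / Q))) ^ 11 :=
              pow_le_pow_left₀ (Nat.cast_nonneg _) h4 11
          _ = 50 ^ 11 * Y := by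
              rw [hY]
              ring
      have h4 : ∫ b in Icc (gb i - 1 / 60) (gb i + 1 / 60), (ct (rg (gb i) (K * A / Q) (K / Q)) (ph b) lam : ℝ) ≤
          10 * C₂ * (1 / 2 + 4 * C₁) * ((K : ℝ) ^ ε * (K * A / Q) ^ 12) := by
        have h5 := htot (gb i) (K * A / Q) (K / Q) (1 / (2 * lam)) hH1 hHH' hb hl3 hl30
        have h6 : (K * A / Q) ^ ε ≤ (K : ℝ) ^ ε := Real.rpow_le_rpow (by positivity) hH'K hε.le
        have h7 : 0 ≤ (K * A / Q) ^ ε := Real.rpow_nonneg (by positivity) _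
        have h8 : lam * (1 / (2 * lam) * (K * A / Q) ^ 12 + (K * A / Q) ^ 17 + (K * A / Q) ^ 15 * (K / Q) ^ 6) ≤
            (1 / 2 + 4 * C₁) * (K * A / Q) ^ 12 := by
          have h9 : lam * (1 / (2 * lam) * (K * A / Q) ^ 12) = 1 / 2 * (K * A / Q) ^ 12 := by
            field_simp
          calc lam * (1 / (2 * lam) * (K * A / Q) ^ 12 + (K * A / Q) ^ 17 + (K * A / Q) ^ 15 * (K / Q) ^ 6) =
                lam * (1 / (2 * lam) * (K * A / Q) ^ 12) + lam * (K * A / Q) ^ 17 + lam * ((K * A / Q) ^ 15 * (K / Q) ^ 6) := by ring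
            _ ≤ 1 / 2 * (K * A / Q) ^ 12 + 2 * C₁ * (K * A / Q) ^ 12 + 2 * C₁ * (K * A / Q) ^ 12 := by
                rw [h9]
                linarith
            _ = (1 / 2 + 4 * C₁) * (K * A / Q) ^ 12 := by ring
        calc ∫ b in Icc (gb i - 1 / 60) (gb i + 1 / 60), (ct (rg (gb i) (K * A / Q) (K / Q)) (ph b) lam : ℝ) ≤
              10 * lam * ∫ b in Icc (gb i - 1 / 60) (gb i + 1 / 60), ∫ r in Icc (0 : ℝ) (1 / (2 * lam)),
                m12 (rg (gb i) (K * A / Q) (K / Q)) (fun k => ee (r * ph b k)) := ctb85 hl0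
          _ ≤ 10 * lam * (C₂ * (K * A / Q) ^ ε *
                (1 / (2 * lam) * (K * A / Q) ^ 12 + (K * A / Q) ^ 17 + (K * A / Q) ^ 15 * (K / Q) ^ 6)) :=
              mul_le_mul_of_nonneg_left h5 (by positivity)
          _ = 10 * C₂ * (K * A / Q) ^ ε *
                (lam * (1 / (2 * lam) * (K * A / Q) ^ 12 + (K * A / Q) ^ 17 + (K * A / Q) ^ 15 * (K / Q) ^ 6)) := by ring
          _ ≤ 10 * C₂ * (K : ℝ) ^ ε * ((1 / 2 + 4 * C₁) * (K * A / Q) ^ 12) := by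
              refine mul_le_mul ?_ h8 (by positivity) (by positivity)
              exact mul_le_mul_of_nonneg_left h6 (by positivity)
          _ = 10 * C₂ * (1 / 2 + 4 * C₁) * ((K : ℝ) ^ ε * (K * A / Q) ^ 12) := by ring
      have h5 : (Q / A) ^ 2 * ∫ b in Icc (gb i - 1 / 60) (gb i + 1 / 60), (ct (rg (gb i) (K * A / Q) (K / Q)) (ph b) lam : ℝ) ≤
          10 * C₂ * (1 / 2 + 4 * C₁) * ((K : ℝ) ^ ε * X) := by
        calc (Q / A) ^ 2 * ∫ b in Icc (gb i - 1 / 60) (gb i + 1 / 60), (ct (rg (gb i) (K * A / Q) (K / Q)) (ph b) lam : ℝ) ≤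
              (Q / A) ^ 2 * (10 * C₂ * (1 / 2 + 4 * C₁) * ((K : ℝ) ^ ε * (K * A / Q) ^ 12)) :=
              mul_le_mul_of_nonneg_left h4 (by positivity)
          _ = 10 * C₂ * (1 / 2 + 4 * C₁) * ((K : ℝ) ^ ε * X) := by
              rw [hX]
              ring
      have h6 : Y ≤ (K : ℝ) ^ ε * Y := le_mul_of_one_le_left hY0 hKe
      have h7 : 0 ≤ (K : ℝ) ^ ε * X := by positivity
      have h8 : 0 ≤ (K : ℝ) ^ ε * Y := by positivity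
      have h9 : 0 ≤ 10 * C₂ * (1 / 2 + 4 * C₁) := by positivity
      calc ((rg (gb i) (K * A / Q) (K / Q)).card : ℝ) ^ 11 +
          (Q / A) ^ 2 * ∫ b in Icc (gb i - 1 / 60) (gb i + 1 / 60), (ct (rg (gb i) (K * A / Q) (K / Q)) (ph b) lam : ℝ) ≤
            50 ^ 11 * ((K : ℝ) ^ ε * Y) + 10 * C₂ * (1 / 2 + 4 * C₁) * ((K : ℝ) ^ ε * X) := by
            refine add_le_add (h3.trans ?_) h5
            exact mul_le_mul_of_nonneg_left h6 (by positivity)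
        _ ≤ (50 ^ 11 * ((K : ℝ) ^ ε * Y) + 10 * C₂ * (1 / 2 + 4 * C₁) * ((K : ℝ) ^ ε * X)) +
            (50 ^ 11 * ((K : ℝ) ^ ε * X) + 10 * C₂ * (1 / 2 + 4 * C₁) * ((K : ℝ) ^ ε * Y)) := by
            have := mul_nonneg h9 h8
            linarith
        _ = (50 ^ 11 + 10 * C₂ * (1 / 2 + 4 * C₁)) * ((K : ℝ) ^ ε * (X + Y)) := by ring
    have hsum2 := Finset.sum_le_card_nsmul _ _ _ hterm
    rw [Finset.card_range, nsmul_eq_mul] at hsum2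
    have h5 : 0 ≤ 3 * 25 ^ 11 * K₀ ^ 24 * ((K : ℝ) ^ ε * (X + Y)) := by positivity
    calc C₁ * ∑ i ∈ Finset.range 61, (((rg (gb i) (K * A / Q) (K / Q)).card : ℝ) ^ 11 +
          (Q / A) ^ 2 * ∫ b in Icc (gb i - 1 / 60) (gb i + 1 / 60), (ct (rg (gb i) (K * A / Q) (K / Q)) (ph b) lam : ℝ)) ≤
          C₁ * (((61 : ℕ) : ℝ) * ((50 ^ 11 + 10 * C₂ * (1 / 2 + 4 * C₁)) * ((K : ℝ) ^ ε * (X + Y)))) :=
          mul_le_mul_of_nonneg_left hsum2 (by linarith)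
      _ = Cb * ((K : ℝ) ^ ε * (X + Y)) := by
          rw [hCb]
          push_cast
          ring
      _ ≤ Cb * ((K : ℝ) ^ ε * (X + Y)) + 3 * 25 ^ 11 * K₀ ^ 24 * ((K : ℝ) ^ ε * (X + Y)) := by linarith
      _ = (Cb + 3 * 25 ^ 11 * K₀ ^ 24) * (K : ℝ) ^ ε * (X + Y) := by ring

end Pool.Agent.Helper60.SV
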