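import Pool.Agent.Helper60.SV.F2
import Pool.Agent.Helper92.DT.R4
import Pool.Agent.Helper92.GC.Q1
import Pool.Agent.Helper92.GC.T1

/-!
# SV-F1: the second parameter is introduced

PROOF. Slices (as `n6_slice`, GC.T1; for `mu2` see CG/CE or MM): `∫ ‖gs S a f‖^12 d(mu v) = ∫ v(R) m12 S (a ee(R f)) dR`, `∫ ‖hs S a f g‖^12 d(mu2 v w) = ∫∫ v(R) w(Z) m12 S (a ee(R f) ee(Z g)) dZ dR`.
For `0 ≤ Z ≤ 1/K`: `ee(-Z fp (gg φ) k) = ee (uu 0 k χ(tt 0 k))`, `χ = -Z gg φ`, on `S`: `0 < uu 0 k = k.1 ≤ 2K =: U`, `tt 0 k ∈ [0, 1]`; `|χ| ≤ B/K = 2B/U`, `|χ x - χ y| ≤ (2B/U) |x - y|` (`gg_bd`). `mul12_exp` (DT.R4): multiplier of norm `exp (7600 B)`, so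
`m12 S (a ee(R f)) ≤ C m12 S (a ee(R f) ee(Z g))`. Multiply by `w(Z) ≥ c₀/W` (`IsDw.low`, `Z ∈ [0, 1/K] ⊆ [0, W]`) and integrate over `Z ∈ [0, 1/K]`: `(c₀/(W K)) m12 S (a ee(R f)) ≤ C ∫ w(Z) m12 S (..) dZ`.
-/

open MeasureTheory Real Set Filter Topology

set_option autoImplicit false

namespace Pool.Agent.Helper60.SV

open Pool.Agent.Helper22.AE
open Pool.Agent.Helper92.GC (dt tp Tq uu tt ph reg arc gs dd Good IsNd oct sec)
open Pool.Agent.Helper92.DT (m12)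
open Pool.Agent.Helper76.OV (sl f2 Cn lq b0 bq kap)

open Pool.Agent.Helper92.GC (IsDw)
open Pool.Agent.Helper78.CE (hs mu2)
open Pool.Agent.Helper22.AC (IsWt mu)

/-- the measure with density `v` -/
private noncomputable def nu99 (v : ℝ → ℝ) : Measure ℝ := (volume : Measure ℝ).withDensity fun R => ENNReal.ofReal (v R)

private theorem nu_prob99 {X : ℝ} {v : ℝ → ℝ} (hv : IsWt X v) : IsProbabilityMeasure (nu99 v) := by
  have hint : Integrable v := by
    by_contra hcon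
    have h2 := hv.int_one
    rw [integral_undef hcon] at h2
    exact zero_ne_one h2
  constructor
  unfold nu99
  rw [withDensity_apply _ MeasurableSet.univ, Measure.restrict_univ,
    ← ofReal_integral_eq_lintegral_ofReal hint (Eventually.of_forall hv.nonneg), hv.int_one,
    ENNReal.ofReal_one]

private theorem m12_congr99 {S : Finset (ℤ × ℤ)} {a b : ℤ × ℤ → ℂ} (h : ∀ k ∈ S, a k = b k) : m12 S a = m12 S b := by
  unfold m12
  refine integral_congr_ae (Eventually.of_forall fun c => ?_)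
  have e : tp S a c = tp S b c := Finset.sum_congr rfl fun k hk => by rw [h k hk]
  simp only [e]

private theorem m12_nonneg99 (S : Finset (ℤ × ℤ)) (a : ℤ × ℤ → ℂ) : 0 ≤ m12 S a :=
  integral_nonneg fun _ => by positivity

/-- slices of `gs` -/
private theorem gs_slice99 {X : ℝ} {v : ℝ → ℝ} (hv : IsWt X v) (S : Finset (ℤ × ℤ)) (a : ℤ × ℤ → ℂ)
    (f : ℤ × ℤ → ℝ) :
    ∫ q, ‖gs S a f q‖ ^ 12 ∂(mu v) = ∫ R, m12 S (fun k => a k * ee (R * f k)) ∂(nu99 v) ∧
    Integrable (fun R => m12 S (fun k => a k * ee (R * f k))) (nu99 v) := by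
  have hp := nu_prob99 hv
  have hpr := Pool.Agent.Helper22.AC.mu_prob hv
  have hint : Integrable (fun q => ‖gs S a f q‖ ^ 12) (mu v) := by
    refine Integrable.of_bound (C := (∑ k ∈ S, ‖a k‖) ^ 12)
      ((Pool.Agent.Helper92.GC.gs_cont S a f).norm.pow 12).aestronglyMeasurable (Eventually.of_forall fun q => ?_)
    rw [Real.norm_of_nonneg (by positivity)]
    exact pow_le_pow_left₀ (norm_nonneg _) (Pool.Agent.Helper92.GC.gs_norm_le S a f q) 12
  have e : (fun R => m12 S (fun k => a k * ee (R * f k))) = fun R =>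
      ∫ c, ‖gs S a f (c, R)‖ ^ 12 ∂(volume.restrict (Icc (0 : ℝ) 1 ×ˢ Icc (0 : ℝ) 1)) := by
    funext R
    unfold m12 Tq
    refine integral_congr_ae (Eventually.of_forall fun c => ?_)
    simp only
    rw [Pool.Agent.Helper92.GC.gs_slice]
  rw [e]
  unfold mu at hint ⊢
  unfold nu99 at hp ⊢
  exact ⟨integral_prod_symm _ hint, hint.integral_prod_right⟩

private theorem hs_slice99 (S : Finset (ℤ × ℤ)) (a : ℤ × ℤ → ℂ) (f g : ℤ × ℤ → ℝ) (c : ℝ × ℝ) (r : ℝ × ℝ) :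
    hs S a f g (c, r) = tp S (fun k => a k * ee (r.1 * f k + r.2 * g k)) c := by
  unfold hs tp
  refine Finset.sum_congr rfl fun k _ => ?_
  change a k * ee (dt k c + r.1 * f k + r.2 * g k) = _
  rw [add_assoc, ee_add]
  ring

/-- slices of `hs` -/
private theorem hs_int99 {X X' : ℝ} {v w : ℝ → ℝ} (hv : IsWt X v) (hw : IsWt X' w) (S : Finset (ℤ × ℤ)) (a : ℤ × ℤ → ℂ)
    (f g : ℤ × ℤ → ℝ) :
    ∫ q, ‖hs S a f g q‖ ^ 12 ∂(mu2 v w) = ∫ R, (∫ Z, m12 S (fun k => a k * ee (R * f k + Z * g k)) ∂(nu99 w)) ∂(nu99 v) ∧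
    Integrable (fun R => ∫ Z, m12 S (fun k => a k * ee (R * f k + Z * g k)) ∂(nu99 w)) (nu99 v) := by
  have hp1 := nu_prob99 hv
  have hp2 := nu_prob99 hw
  have hpr := Pool.Agent.Helper78.CE.mu2_prob hv hw
  have hint : Integrable (fun q => ‖hs S a f g q‖ ^ 12) (mu2 v w) := by
    refine Integrable.of_bound (C := (∑ k ∈ S, ‖a k‖) ^ 12) ((Pool.Agent.Helper78.CE.hs_cont S a f g).norm.pow 12).aestronglyMeasurable
      (Eventually.of_forall fun q => ?_)
    rw [Real.norm_of_nonneg (by positivity)]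
    exact pow_le_pow_left₀ (norm_nonneg _) (Pool.Agent.Helper78.CE.hs_norm_le S a f g q) 12
  have e : (fun r : ℝ × ℝ => m12 S (fun k => a k * ee (r.1 * f k + r.2 * g k))) = fun r =>
      ∫ c, ‖hs S a f g (c, r)‖ ^ 12 ∂(volume.restrict Tq) := by
    funext r
    unfold m12
    refine integral_congr_ae (Eventually.of_forall fun c => ?_)
    simp only
    rw [hs_slice99]
  have h1 : ∫ q, ‖hs S a f g q‖ ^ 12 ∂(mu2 v w) =
      ∫ r : ℝ × ℝ, m12 S (fun k => a k * ee (r.1 * f k + r.2 * g k)) ∂((nu99 v).prod (nu99 w)) := by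
    rw [e]
    unfold mu2 at hint ⊢
    unfold nu99 at hp1 hp2 ⊢
    exact integral_prod_symm _ hint
  have h2 : Integrable (fun r : ℝ × ℝ => m12 S (fun k => a k * ee (r.1 * f k + r.2 * g k))) ((nu99 v).prod (nu99 w)) := by
    rw [e]
    unfold mu2 at hint
    unfold nu99 at hp1 hp2 ⊢
    exact hint.integral_prod_right
  rw [h1, integral_prod _ h2]
  exact ⟨rfl, h2.integral_prod_left⟩

/-- lower bound of the mass of a short interval -/
private theorem mass99 {W c₀ : ℝ} {w : ℝ → ℝ} {Cd : ℕ → ℝ} (hW : 1 ≤ W) (hc0 : 0 < c₀) (hw : IsDw W 0 w c₀ Cd) {K : ℕ}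
    (hK : 1 ≤ K) : c₀ / (K * W) ≤ (nu99 w (Icc 0 (1 / (K : ℝ)))).toReal := by
  have hK0 : (1 : ℝ) ≤ K := by exact_mod_cast hK
  have hp := nu_prob99 hw.wt
  have h1 : ENNReal.ofReal (c₀ / (K * W)) ≤ nu99 w (Icc 0 (1 / (K : ℝ))) := by
    unfold nu99
    rw [withDensity_apply _ measurableSet_Icc]
    have h2 : ∫⁻ _ in Icc (0 : ℝ) (1 / (K : ℝ)), ENNReal.ofReal (c₀ / W) ≤
        ∫⁻ Z in Icc (0 : ℝ) (1 / (K : ℝ)), ENNReal.ofReal (w Z) := by
      refine setLIntegral_mono' measurableSet_Icc fun Z hZ => ENNReal.ofReal_le_ofReal (hw.low Z ⟨hZ.1, ?_⟩)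
      have h3 : 1 / (K : ℝ) ≤ 1 := by
        rw [div_le_one (by linarith)]
        exact hK0
      linarith [hZ.2]
    refine le_trans (le_of_eq ?_) h2
    rw [setLIntegral_const, Real.volume_Icc, sub_zero, ← ENNReal.ofReal_mul (by positivity)]
    congr 1
    field_simp
  have h4 : nu99 w (Icc 0 (1 / (K : ℝ))) ≠ ⊤ := measure_ne_top _ _
  exact (ENNReal.ofReal_le_iff_le_toReal h4).1 h1

theorem gam {c₁ B : ℝ} (hc : 0 < c₁) (hB : 1 ≤ B) : ∃ C : ℝ, 1 ≤ C ∧ ∀ φ : ℝ → ℝ, Cn c₁ B φ → ∀ (K : ℕ) (X W c₀ : ℝ) (v w : ℝ → ℝ) (Cd : ℕ → ℝ)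
    (a : ℤ × ℤ → ℂ) (S : Finset (ℤ × ℤ)), 1 ≤ K → 0 < X → 1 ≤ W → 0 < c₀ → IsWt X v → IsDw W 0 w c₀ Cd → S ⊆ oct K →
      ∫ q, ‖gs S a (fp φ) q‖ ^ 12 ∂(mu v) ≤ C / c₀ * (K * W) * ∫ q, ‖hs S a (fp φ) (fp (gg φ)) q‖ ^ 12 ∂(mu2 v w) := by
  set D : ℝ := exp (3800 * (2 * B)) ^ 12 with hD
  have hD1 : 1 ≤ D := one_le_pow₀ (Real.one_le_exp (by linarith))
  refine ⟨D, hD1, ?_⟩
  intro φ hφ K X W c₀ v w Cd a S hK hX hW hc0 hv hw hS
  have hK0 : (1 : ℝ) ≤ K := by exact_mod_cast hK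
  obtain ⟨hg1, hg2⟩ := gg_bd hc hB hφ
  -- the elements of `S`
  have hmem : ∀ k ∈ S, (K : ℝ) ≤ k.1 ∧ (k.1 : ℝ) < 2 * K ∧ 0 ≤ (k.2 : ℝ) ∧ (k.2 : ℝ) ≤ k.1 := by
    intro k hk
    have h1 := hS hk
    unfold Pool.Agent.Helper92.GC.oct at h1
    obtain ⟨-, h2, h3, h4, h5⟩ := Finset.mem_filter.1 h1
    exact ⟨by exact_mod_cast h2, by exact_mod_cast h3, by exact_mod_cast h4, by exact_mod_cast h5⟩
  -- the multiplier
  have key : ∀ R : ℝ, ∀ Z ∈ Icc (0 : ℝ) (1 / (K : ℝ)), m12 S (fun k => a k * ee (R * fp φ k)) ≤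
      D * m12 S (fun k => a k * ee (R * fp φ k + Z * fp (gg φ) k)) := by
    intro R Z hZ
    have hm := Pool.Agent.Helper92.DT.mul12_exp (S := S) (β := 0) (U := 2 * K) (t₁ := 0) (t₂ := 1) (B := 2 * B)
      (by linarith) zero_le_one (by
        intro k hk
        obtain ⟨h1, h2, h3, h4⟩ := hmem k hk
        have e1 : uu 0 k = (k.1 : ℝ) := by unfold uu; ring
        unfold tt
        rw [e1]
        have h5 : (0 : ℝ) < k.1 := by linarith
        refine ⟨h5, h2.le, div_nonneg h3 h5.le, ?_⟩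
        rw [div_le_one h5]
        exact h4) (χ := fun t => -Z * gg φ t) (by
        intro t ht
        have e2 : 2 * B / (2 * K) = B / K := by field_simp
        rw [e2, abs_mul, abs_neg, abs_of_nonneg hZ.1]
        calc Z * |gg φ t| ≤ 1 / K * B := mul_le_mul hZ.2 (hg1 t ht) (abs_nonneg _) (by positivity)
          _ = B / K := by ring) (by
        intro x hx y hy
        have e2 : 2 * B / (2 * K) = B / K := by field_simp
        rw [e2, sub_zero, mul_one]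
        have e3 : -Z * gg φ x - -Z * gg φ y = -(Z * (gg φ x - gg φ y)) := by ring
        rw [e3, abs_neg, abs_mul, abs_of_nonneg hZ.1]
        calc Z * |gg φ x - gg φ y| ≤ 1 / K * (B * |x - y|) := mul_le_mul hZ.2 (hg2 x hx y hy) (abs_nonneg _) (by positivity)
          _ = B / K * |x - y| := by ring)
    have h1 := hm.2 (fun k => a k * ee (R * fp φ k + Z * fp (gg φ) k))
    refine le_trans (le_of_eq ?_) h1
    refine m12_congr99 fun k hk => ?_
    obtain ⟨h2, -, -, -⟩ := hmem k hk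
    have e1 : uu 0 k = (k.1 : ℝ) := by unfold uu; ring
    have e2 : tt 0 k = sl k := by
      unfold tt sl
      rw [e1]
    have e3 : uu 0 k * (-Z * gg φ (tt 0 k)) = -(Z * fp (gg φ) k) := by
      rw [e1, e2]
      unfold fp
      ring
    simp only
    rw [e3]
    have e4 : R * fp φ k = -(Z * fp (gg φ) k) + (R * fp φ k + Z * fp (gg φ) k) := by ring
    conv_lhs => rw [e4, ee_add]
    ring
  -- the inner integral
  have hp2 := nu_prob99 hw.wt
  have inner : ∀ R : ℝ, m12 S (fun k => a k * ee (R * fp φ k)) ≤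
      D / c₀ * (K * W) * ∫ Z, m12 S (fun k => a k * ee (R * fp φ k + Z * fp (gg φ) k)) ∂(nu99 w) := by
    intro R
    set M0 := m12 S (fun k => a k * ee (R * fp φ k)) with hM0
    have hint : Integrable (fun Z => m12 S (fun k => a k * ee (R * fp φ k + Z * fp (gg φ) k))) (nu99 w) := by
      have h1 := (gs_slice99 hw.wt S (fun k => a k * ee (R * fp φ k)) (fp (gg φ))).2
      refine h1.congr (Eventually.of_forall fun Z => ?_)
      simp only
      refine m12_congr99 fun k _ => ?_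
      rw [ee_add]
      ring
    have hn : 0 ≤ M0 := m12_nonneg99 _ _
    have h2 : (M0 / D) * (nu99 w (Icc 0 (1 / (K : ℝ)))).toReal ≤
        ∫ Z, m12 S (fun k => a k * ee (R * fp φ k + Z * fp (gg φ) k)) ∂(nu99 w) := by
      have h3 : ∫ Z in Icc (0 : ℝ) (1 / (K : ℝ)), m12 S (fun k => a k * ee (R * fp φ k + Z * fp (gg φ) k)) ∂(nu99 w) ≤
          ∫ Z, m12 S (fun k => a k * ee (R * fp φ k + Z * fp (gg φ) k)) ∂(nu99 w) :=
        setIntegral_le_integral hint (Eventually.of_forall fun Z => m12_nonneg99 _ _)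
      refine le_trans ?_ h3
      have h4 : ∫ _ in Icc (0 : ℝ) (1 / (K : ℝ)), (M0 / D) ∂(nu99 w) = (M0 / D) * (nu99 w (Icc 0 (1 / (K : ℝ)))).toReal := by
        rw [setIntegral_const, smul_eq_mul, mul_comm]
        rfl
      rw [← h4]
      refine setIntegral_mono_on (integrableOn_const (measure_ne_top _ _)) hint.integrableOn measurableSet_Icc fun Z hZ => ?_
      rw [div_le_iff₀ (by linarith)]
      have := key R Z hZ
      linarith
    have h5 := mass99 hW hc0 hw hK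
    have h6 : (M0 / D) * (c₀ / (K * W)) ≤
        ∫ Z, m12 S (fun k => a k * ee (R * fp φ k + Z * fp (gg φ) k)) ∂(nu99 w) :=
      (mul_le_mul_of_nonneg_left h5 (div_nonneg hn (by linarith))).trans h2
    have h7 : M0 = D / c₀ * (K * W) * ((M0 / D) * (c₀ / (K * W))) := by
      have hD0 : D ≠ 0 := by linarith
      have hK1 : (K : ℝ) ≠ 0 := by linarith
      have hW1 : W ≠ 0 := by linarith
      field_simp
    calc M0 = D / c₀ * (K * W) * ((M0 / D) * (c₀ / (K * W))) := h7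
      _ ≤ _ := mul_le_mul_of_nonneg_left h6 (by positivity)
  obtain ⟨h1, h2⟩ := gs_slice99 hv S a (fp φ)
  obtain ⟨h3, h4⟩ := hs_int99 hv hw.wt S a (fp φ) (fp (gg φ))
  rw [h1, h3, ← integral_const_mul]
  exact integral_mono h2 (h4.const_mul _) inner

end Pool.Agent.Helper60.SV
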