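import Pool.Agent.Helper60.SV.Defs

/-!
# SV-F2: the curve

PROOF. `gg φ t = t (φ t + φ 0) - 2 ∫_0^t φ`: `gg' = t φ' - φ + φ 0`, `gg'' = t φ''`, `gg 0 = gg' 0 = 0` (`φ` of class C⁴; `intervalIntegral.integral_hasDerivAt_right`). `crv`: `f1 = deriv φ`, `φ := f2 φ`, `g1 = fun t => t * deriv φ t - φ t + φ 0`, `r t = t`.
`gg_bd`: `|gg' t| ≤ ∫_0^t s B ≤ B/2` on `[0, 1]` (mean value theorem twice, or: `|gg' x| ≤ B |x|` since `|gg''| ≤ B`), so `gg` has Lipschitz constant `B` and `|gg| ≤ B`.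
`fp_ff`: `uu 0 k = k.1`, `tt 0 k = sl k`.
-/

open MeasureTheory Real Set Filter Topology

set_option autoImplicit false

namespace Pool.Agent.Helper60.SV

open Pool.Agent.Helper22.AE
open Pool.Agent.Helper92.GC (dt tp Tq uu tt ph reg arc gs dd Good IsNd oct sec)
open Pool.Agent.Helper92.DT (m12)
open Pool.Agent.Helper76.OV (sl f2 Cn lq b0 bq kap)

open Pool.Agent.Helper78.CG (Crv ff)

theorem fp_ff (φ : ℝ → ℝ) : fp φ = ff 0 φ := by
  funext k
  unfold fp ff tt uu sl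
  rw [zero_mul, add_zero]

private lemma phi_deriv54 {c₁ B : ℝ} {φ : ℝ → ℝ} (hφ : Cn c₁ B φ) (t : ℝ) :
    HasDerivAt φ (deriv φ t) t :=
  (hφ.smooth.differentiable (by norm_num) t).hasDerivAt

private lemma phi_deriv2_54 {c₁ B : ℝ} {φ : ℝ → ℝ} (hφ : Cn c₁ B φ) (t : ℝ) :
    HasDerivAt (deriv φ) (f2 φ t) t := by
  have h1 : ContDiff ℝ (3 + 1) φ := hφ.smooth.of_le (by norm_num)
  have h2 : ContDiff ℝ 3 (deriv φ) := (contDiff_succ_iff_deriv.1 h1).2.2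
  exact (h2.differentiable (by norm_num) t).hasDerivAt

private lemma gg_deriv54 {c₁ B : ℝ} {φ : ℝ → ℝ} (hφ : Cn c₁ B φ) (t : ℝ) :
    HasDerivAt (gg φ) (t * deriv φ t - φ t + φ 0) t := by
  have hc : Continuous φ := hφ.smooth.continuous
  have h1 : HasDerivAt (fun u => ∫ s in (0 : ℝ)..u, φ s) (φ t) t :=
    intervalIntegral.integral_hasDerivAt_right (hc.intervalIntegrable 0 t)
      (hc.stronglyMeasurableAtFilter _ _) hc.continuousAt
  have h2 := (((hasDerivAt_id t).mul ((phi_deriv54 hφ t).add_const (φ 0))).sub (h1.const_mul 2))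
  refine h2.congr_deriv ?_
  simp only [id]
  ring

private lemma gg_deriv2_54 {c₁ B : ℝ} {φ : ℝ → ℝ} (hφ : Cn c₁ B φ) (t : ℝ) :
    HasDerivAt (fun t => t * deriv φ t - φ t + φ 0) (t * f2 φ t) t := by
  have h2 := ((((hasDerivAt_id t).mul (phi_deriv2_54 hφ t)).sub (phi_deriv54 hφ t)).add_const (φ 0))
  refine h2.congr_deriv ?_
  simp only [id]
  ring

theorem crv {c₁ B : ℝ} (hc : 0 < c₁) (hB : 1 ≤ B) {φ : ℝ → ℝ} (hφ : Cn c₁ B φ) : Crv (min c₁ 1) B 1 φ (gg φ) (fun t => t) := by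
  refine ⟨⟨deriv φ, fun t => t * deriv φ t - φ t + φ 0, f2 φ, fun t ht => ⟨phi_deriv54 hφ t,
    phi_deriv2_54 hφ t, gg_deriv54 hφ t, gg_deriv2_54 hφ t, ?_, ?_⟩⟩, ?_, ?_⟩
  · exact (min_le_left _ _).trans (hφ.lo t (ht.trans (by norm_num)))
  · exact (le_abs_self _).trans (hφ.h2 t (ht.trans (by norm_num)))
  · intro t ht
    rw [mul_one]
    exact ht.trans hB
  · intro t t' _ _ h
    have h1 : 0 ≤ t - t' := sub_nonneg.2 h
    refine ⟨?_, ?_⟩
    · calc min c₁ 1 * (t - t') ≤ 1 * (t - t') := mul_le_mul_of_nonneg_right (min_le_right _ _) h1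
        _ = t - t' := one_mul _
    · calc t - t' = 1 * (t - t') := (one_mul _).symm
        _ ≤ B * (t - t') := mul_le_mul_of_nonneg_right hB h1

theorem gg_bd {c₁ B : ℝ} (hc : 0 < c₁) (hB : 1 ≤ B) {φ : ℝ → ℝ} (hφ : Cn c₁ B φ) : (∀ t ∈ Icc (0 : ℝ) 1, |gg φ t| ≤ B) ∧
    ∀ x ∈ Icc (0 : ℝ) 1, ∀ y ∈ Icc (0 : ℝ) 1, |gg φ x - gg φ y| ≤ B * |x - y| := by
  have hB0 : 0 ≤ B := le_trans zero_le_one hB
  have h0 : (0 : ℝ) ∈ Icc (0 : ℝ) 1 := ⟨le_refl _, zero_le_one⟩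
  have h1 : ∀ t ∈ Icc (0 : ℝ) 1, |t * deriv φ t - φ t + φ 0| ≤ B := by
    intro t ht
    have h2 := (convex_Icc (0 : ℝ) 1).norm_image_sub_le_of_norm_hasDerivWithin_le (C := B)
      (f := fun t => t * deriv φ t - φ t + φ 0) (f' := fun t => t * f2 φ t)
      (fun x _ => (gg_deriv2_54 hφ x).hasDerivWithinAt) (fun x hx => ?_) h0 ht
    · simp only [zero_mul, zero_sub, neg_add_cancel, sub_zero, Real.norm_eq_abs] at h2
      refine h2.trans ?_
      calc B * |t| ≤ B * 1 := mul_le_mul_of_nonneg_left (by rw [abs_of_nonneg ht.1]; exact ht.2) hB0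
        _ = B := mul_one B
    · have h3 : |x| ≤ 1 := by rw [abs_of_nonneg hx.1]; exact hx.2
      rw [Real.norm_eq_abs, abs_mul]
      calc |x| * |f2 φ x| ≤ 1 * B := mul_le_mul h3 (hφ.h2 x (h3.trans (by norm_num)))
            (abs_nonneg _) zero_le_one
        _ = B := one_mul B
  have h2 : ∀ x ∈ Icc (0 : ℝ) 1, ∀ y ∈ Icc (0 : ℝ) 1, |gg φ x - gg φ y| ≤ B * |x - y| := by
    intro x hx y hy
    exact (convex_Icc (0 : ℝ) 1).norm_image_sub_le_of_norm_hasDerivWithin_le (C := B)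
      (f := gg φ) (f' := fun t => t * deriv φ t - φ t + φ 0)
      (fun x _ => (gg_deriv54 hφ x).hasDerivWithinAt) (fun x hx => h1 x hx) hy hx
  refine ⟨fun t ht => ?_, h2⟩
  have h3 := h2 t ht 0 h0
  have h4 : gg φ 0 = 0 := by
    unfold gg
    rw [intervalIntegral.integral_same]
    ring
  rw [h4, sub_zero, sub_zero] at h3
  refine h3.trans ?_
  calc B * |t| ≤ B * 1 := mul_le_mul_of_nonneg_left (by rw [abs_of_nonneg ht.1]; exact ht.2) hB0
    _ = B := mul_one B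

end Pool.Agent.Helper60.SV
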