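import Pool.Agent.Helper60.SV.Defs
import Pool.Agent.Helper92.GC.E1
import Pool.Agent.Helper92.GC.S2

/-!
# SV-F3: arcs and sectors

PROOF. For `k ∈ arc 0 (cls K Q P) N r`: `s = sl k = tt 0 k ∈ [12 r/N - 6, 12 (r+1)/N - 6)` (`s ∈ [0, 1]`, so the floor has no truncation). If `IsNd Q k n`, `n ∈ gd P`: `|s - n.2/n.1| = |dd n k|/(n.1 k.1) ≤ 1/(n.1 Q) ≤ 2/(P Q)`.
(1) So for given `r` the numbers `n.2/n.1` lie in an interval of length `12/N + 4/(PQ) ≤ (12 L + 4)/(P Q) ≤ (12 L + 4)/P²` (`P ≤ Q`), and different vectors `n`, `m` have `|n.2/n.1 - m.2/m.1| ≥ 1/(n.1 m.1) ≥ 1/P²` (coprime): at most `12 L + 5`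
(`sep_card72` in GC.S3 is private, copy it).
(2) For given `n` the numbers `s` lie in an interval of length `4/(PQ) ≤ 4/N`, so there are at most `2` (say `≤ 3`) values of `r`.
`split`: every `k ∈ cls K Q P` has exactly one `n` with `IsNd Q k n` (`nd_unique`), and it is in `gd P` (`cls`; `Good P n` gives `n ∈ box ⌈P⌉₊`); so the sum over `arc 0 (cls K Q P) N r` is the sum over these `n` of the sums over
`(arc 0 (cls K Q P) N r).filter (fun k => IsNd Q k n)`, a subset of `sec K Q n`.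
-/

open MeasureTheory Real Set Filter Topology

set_option autoImplicit false

namespace Pool.Agent.Helper60.SV

open Pool.Agent.Helper22.AE
open Pool.Agent.Helper92.GC (dt tp Tq uu tt ph reg arc gs dd Good IsNd oct sec)
open Pool.Agent.Helper92.DT (m12)
open Pool.Agent.Helper76.OV (sl f2 Cn lq b0 bq kap)

private lemma sep_card60 {ι : Type*} (T : Finset ι) (s : ι → ℝ) {δ l : ℝ} (hδ : 0 < δ) (hl : 0 ≤ l)
    (h1 : ∀ x ∈ T, ∀ y ∈ T, x ≠ y → δ ≤ |s x - s y|) (h2 : ∀ x ∈ T, ∀ y ∈ T, |s x - s y| ≤ l) :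
    (T.card : ℝ) ≤ 1 + l / δ := by
  classical
  rcases T.eq_empty_or_nonempty with rfl | hT
  · simp only [Finset.card_empty, Nat.cast_zero]
    positivity
  obtain ⟨x0, hx0, hmin⟩ := T.exists_min_image s hT
  have hinj : Set.InjOn (fun x => ⌊(s x - s x0) / δ⌋₊) T := by
    intro x hx y hy hxy
    by_contra hne
    have h3 := h1 x hx y hy hne
    have hx1 : 0 ≤ (s x - s x0) / δ := div_nonneg (by linarith [hmin x hx]) hδ.le
    have hy1 : 0 ≤ (s y - s x0) / δ := div_nonneg (by linarith [hmin y hy]) hδ.le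
    have hfx := Nat.floor_le hx1
    have hfx' := Nat.lt_floor_add_one ((s x - s x0) / δ)
    have hfy := Nat.floor_le hy1
    have hfy' := Nat.lt_floor_add_one ((s y - s x0) / δ)
    have h5 : |(s x - s x0) / δ - (s y - s x0) / δ| < 1 := by
      simp only at hxy
      rw [hxy] at hfx hfx'
      rw [abs_lt]
      constructor <;> linarith
    have h4 : (s x - s x0) / δ - (s y - s x0) / δ = (s x - s y) / δ := by ring
    rw [h4, abs_div, abs_of_pos hδ, div_lt_one hδ] at h5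
    linarith
  have hmap : ∀ x ∈ T, (fun x => ⌊(s x - s x0) / δ⌋₊) x ∈ Finset.range (⌊l / δ⌋₊ + 1) := by
    intro x hx
    rw [Finset.mem_range, Nat.lt_succ_iff]
    apply Nat.floor_le_floor
    exact div_le_div_of_nonneg_right ((le_abs_self _).trans (h2 x hx x0 hx0)) hδ.le
  have hc := Finset.card_le_card_of_injOn _ hmap hinj
  rw [Finset.card_range] at hc
  calc (T.card : ℝ) ≤ ((⌊l / δ⌋₊ + 1 : ℕ) : ℝ) := by exact_mod_cast hc
    _ = ⌊l / δ⌋₊ + 1 := by push_cast; ring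
    _ ≤ 1 + l / δ := by linarith [Nat.floor_le (div_nonneg hl hδ.le)]

private lemma sep60 {P : ℝ} (hP : 1 ≤ P) {x y : ℤ × ℤ} (hx : Good P x) (hy : Good P y) (hne : x ≠ y) :
    1 / P ^ 2 ≤ |(x.2 : ℝ) / x.1 - (y.2 : ℝ) / y.1| := by
  have hx1 : (0 : ℝ) < x.1 := by linarith [hx.lo]
  have hy1 : (0 : ℝ) < y.1 := by linarith [hy.lo]
  have hx1' : 0 < x.1 := by exact_mod_cast hx1
  have hy1' : 0 < y.1 := by exact_mod_cast hy1
  have hnz : x.2 * y.1 - y.2 * x.1 ≠ 0 := by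
    intro h0
    have h1 : x.1 ∣ x.2 * y.1 := ⟨y.2, by linear_combination h0⟩
    have h2 : x.1 ∣ y.1 := hx.cop.dvd_of_dvd_mul_left h1
    have h3 : y.1 ∣ y.2 * x.1 := ⟨x.2, by linear_combination -h0⟩
    have h4 : y.1 ∣ x.1 := hy.cop.dvd_of_dvd_mul_left h3
    have h5 : x.1 = y.1 := le_antisymm (Int.le_of_dvd hy1' h2) (Int.le_of_dvd hx1' h4)
    apply hne
    refine Prod.ext h5 ?_
    rw [h5] at h0
    have h6 : (x.2 - y.2) * y.1 = 0 := by linear_combination h0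
    rcases mul_eq_zero.1 h6 with h7 | h7
    · linarith
    · omega
  have habs : (1 : ℝ) ≤ |((x.2 * y.1 - y.2 * x.1 : ℤ) : ℝ)| := by
    have := Int.one_le_abs hnz
    exact_mod_cast this
  have he : (x.2 : ℝ) / x.1 - (y.2 : ℝ) / y.1 = ((x.2 * y.1 - y.2 * x.1 : ℤ) : ℝ) / (x.1 * y.1) := by
    push_cast
    field_simp
  rw [he, abs_div, abs_of_pos (mul_pos hx1 hy1)]
  have hxy : (x.1 : ℝ) * y.1 ≤ P ^ 2 := by
    have := mul_le_mul hx.hi hy.hi hy1.le (by linarith : (0 : ℝ) ≤ P)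
    nlinarith
  exact div_le_div₀ (abs_nonneg _) habs (mul_pos hx1 hy1) hxy

private lemma tt_zero60 (k : ℤ × ℤ) : tt 0 k = (k.2 : ℝ) / k.1 := by
  unfold tt uu
  rw [zero_mul, add_zero]

private lemma mem_gd60 {P : ℝ} {n : ℤ × ℤ} : n ∈ gd P ↔ Good P n := by
  classical
  unfold gd
  rw [Finset.mem_filter]
  refine ⟨fun h => h.2, fun h => ⟨?_, h⟩⟩
  have h1 : (n.1 : ℤ) ≤ (⌈P⌉₊ : ℤ) := by
    have h2 : (n.1 : ℝ) ≤ ((⌈P⌉₊ : ℤ) : ℝ) := by
      push_cast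
      exact h.hi.trans (Nat.le_ceil P)
    exact_mod_cast h2
  have h3 := h.nonneg
  have h4 := h.le
  unfold box
  rw [Finset.mem_product, Finset.mem_Icc, Finset.mem_Icc]
  refine ⟨⟨?_, h1⟩, ?_, ?_⟩ <;> omega

private lemma oct60 {K Q : ℕ} {P : ℝ} (hK : 1 ≤ K) {k : ℤ × ℤ} (hk : k ∈ cls K Q P) :
    1 ≤ k.1 ∧ 0 ≤ k.2 ∧ k.2 ≤ k.1 := by
  classical
  unfold cls oct at hk
  rw [Finset.mem_filter, Finset.mem_filter] at hk
  obtain ⟨⟨-, h1, -, h3, h4⟩, -⟩ := hk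
  refine ⟨?_, h3, h4⟩
  omega

/-- the slope of a frequency is close to the slope of its vector -/
private lemma near60 {K Q : ℕ} {P : ℝ} (hK : 1 ≤ K) (hQ : 3 ≤ Q) (hP : 1 ≤ P) {k n : ℤ × ℤ} (hk : k ∈ cls K Q P)
    (h : IsNd Q k n) (hn : Good P n) : |tt 0 k - (n.2 : ℝ) / n.1| ≤ 2 / (P * Q) := by
  obtain ⟨h1, h2, h3⟩ := oct60 hK hk
  have hk1 : (0 : ℝ) < k.1 := by exact_mod_cast h1
  have hn1 : (0 : ℝ) < n.1 := by linarith [hn.lo]
  have hQ0 : (0 : ℝ) < Q := by exact_mod_cast (by omega : 0 < Q)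
  rw [tt_zero60]
  have he : (k.2 : ℝ) / k.1 - (n.2 : ℝ) / n.1 = ((dd n k : ℤ) : ℝ) / (n.1 * k.1) := by
    unfold dd
    push_cast
    field_simp
  rw [he, abs_div, abs_of_pos (mul_pos hn1 hk1), div_le_div_iff₀ (by positivity) (by positivity)]
  have h4 : |((dd n k : ℤ) : ℝ)| * Q ≤ k.1 := by
    have := h.2.1
    exact_mod_cast this
  have h5 : P ≤ 2 * n.1 := by linarith [hn.lo]
  calc |((dd n k : ℤ) : ℝ)| * (P * Q) = (|((dd n k : ℤ) : ℝ)| * Q) * P := by ring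
    _ ≤ k.1 * (2 * n.1) := mul_le_mul h4 h5 (by linarith) hk1.le
    _ = 2 * (n.1 * k.1) := by ring

private lemma arc60 {K Q N : ℕ} {P : ℝ} {r : ℕ} {k : ℤ × ℤ} (hk : k ∈ arc 0 (cls K Q P) N r) :
    k ∈ cls K Q P ∧ ⌊(N : ℝ) * ((tt 0 k + 6) / 12)⌋₊ = r := by
  classical
  unfold arc at hk
  rw [Finset.mem_filter] at hk
  exact hk

private lemma tt_nonneg60 {K Q : ℕ} {P : ℝ} (hK : 1 ≤ K) {k : ℤ × ℤ} (hk : k ∈ cls K Q P) : 0 ≤ tt 0 k := by
  obtain ⟨h1, h2, h3⟩ := oct60 hK hk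
  rw [tt_zero60]
  have hk1 : (0 : ℝ) < k.1 := by exact_mod_cast h1
  have hk2 : (0 : ℝ) ≤ k.2 := by exact_mod_cast h2
  positivity

open Classical in
/-- the vectors of an arc -/
noncomputable def ga2 (K Q N : ℕ) (P : ℝ) (r : ℕ) : Finset (ℤ × ℤ) := (gd P).filter fun n => ∃ k ∈ arc 0 (cls K Q P) N r, IsNd Q k n

theorem arcs {L : ℝ} (hL : 1 ≤ L) {K Q N : ℕ} {P : ℝ} (hK : 1 ≤ K) (hQ : 3 ≤ Q) (hP : 1 ≤ P) (hPQ : P ≤ Q) (hN : 1 ≤ N) (h1 : (N : ℝ) ≤ P * Q)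
    (h2 : P * Q ≤ L * N) (r : ℕ) : ((ga2 K Q N P r).card : ℝ) ≤ 20 * L := by
  classical
  obtain ⟨T, hT⟩ : ∃ T : Finset (ℤ × ℤ), T = ga2 K Q N P r := ⟨_, rfl⟩
  rw [← hT]
  have hP0 : 0 < P := by linarith
  have hQ0 : (0 : ℝ) < Q := by exact_mod_cast (by omega : 0 < Q)
  have hN0 : (0 : ℝ) < N := by exact_mod_cast (by omega : 0 < N)
  have hmem : ∀ n ∈ T, Good P n ∧ ∃ k ∈ arc 0 (cls K Q P) N r, IsNd Q k n := by
    intro n hn
    rw [hT] at hn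
    unfold ga2 at hn
    rw [Finset.mem_filter, mem_gd60] at hn
    exact hn
  have hl0 : 0 ≤ (12 * L + 4) / (P * Q) := by positivity
  have hsep := sep_card60 T (fun n => (n.2 : ℝ) / n.1) (δ := 1 / P ^ 2) (l := (12 * L + 4) / (P * Q)) (by positivity) hl0
    (fun x hx y hy hne => sep60 hP (hmem x hx).1 (hmem y hy).1 hne) (by
      intro x hx y hy
      obtain ⟨gx, k, hk, ik⟩ := hmem x hx
      obtain ⟨gy, m, hm, im⟩ := hmem y hy
      obtain ⟨ck, fk⟩ := arc60 hk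
      obtain ⟨cm, fm⟩ := arc60 hm
      have a1 := near60 hK hQ hP ck ik gx
      have a2 := near60 hK hQ hP cm im gy
      have b1 : (0 : ℝ) ≤ (N : ℝ) * ((tt 0 k + 6) / 12) := by
        have := tt_nonneg60 hK ck
        positivity
      have b2 : (0 : ℝ) ≤ (N : ℝ) * ((tt 0 m + 6) / 12) := by
        have := tt_nonneg60 hK cm
        positivity
      have c1 := Nat.floor_le b1
      have c2 := Nat.lt_floor_add_one ((N : ℝ) * ((tt 0 k + 6) / 12))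
      have c3 := Nat.floor_le b2
      have c4 := Nat.lt_floor_add_one ((N : ℝ) * ((tt 0 m + 6) / 12))
      rw [fk] at c1 c2
      rw [fm] at c3 c4
      have e1 : |tt 0 k - tt 0 m| ≤ 12 / N := by
        rw [le_div_iff₀ hN0]
        have e0 : |tt 0 k - tt 0 m| * N = |(tt 0 k - tt 0 m) * N| := by rw [abs_mul, abs_of_pos hN0]
        rw [e0, abs_le]
        constructor <;> linarith
      have e2 : (12 : ℝ) / N ≤ 12 * L / (P * Q) := by
        rw [div_le_div_iff₀ hN0 (by positivity)]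
        nlinarith
      have e3 : (12 * L + 4) / (P * Q) = 12 * L / (P * Q) + 2 / (P * Q) + 2 / (P * Q) := by ring
      rw [e3]
      have e4 : (x.2 : ℝ) / x.1 - (y.2 : ℝ) / y.1 = (tt 0 k - tt 0 m) - (tt 0 k - (x.2 : ℝ) / x.1) + (tt 0 m - (y.2 : ℝ) / y.1) := by ring
      show |(x.2 : ℝ) / x.1 - (y.2 : ℝ) / y.1| ≤ _
      rw [e4]
      have e5 := abs_add_le ((tt 0 k - tt 0 m) - (tt 0 k - (x.2 : ℝ) / x.1)) (tt 0 m - (y.2 : ℝ) / y.1)
      have e6 := abs_sub (tt 0 k - tt 0 m) (tt 0 k - (x.2 : ℝ) / x.1)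
      linarith)
  refine hsep.trans ?_
  have e1 : (12 * L + 4) / (P * Q) / (1 / P ^ 2) = (12 * L + 4) * (P / Q) := by
    field_simp
  rw [e1]
  have e2 : P / Q ≤ 1 := by
    rw [div_le_one hQ0]
    exact hPQ
  have e3 : (12 * L + 4) * (P / Q) ≤ 12 * L + 4 := by
    have : 0 ≤ 12 * L + 4 := by linarith
    nlinarith
  linarith

theorem arcs_sum {K Q N : ℕ} {P : ℝ} (hK : 1 ≤ K) (hQ : 3 ≤ Q) (hP : 1 ≤ P) (hPQ : P ≤ Q) (hN : 1 ≤ N) (h1 : (N : ℝ) ≤ P * Q)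
    (s : ℤ × ℤ → ℝ) (hs : ∀ n, 0 ≤ s n) : ∑ r ∈ Finset.range N, ∑ n ∈ ga2 K Q N P r, s n ≤ 3 * ∑ n ∈ gd P, s n := by
  classical
  have hP0 : 0 < P := by linarith
  have hQ0 : (0 : ℝ) < Q := by exact_mod_cast (by omega : 0 < Q)
  have hN0 : (0 : ℝ) < N := by exact_mod_cast (by omega : 0 < N)
  have e1 : ∑ r ∈ Finset.range N, ∑ n ∈ ga2 K Q N P r, s n =
      ∑ r ∈ Finset.range N, ∑ n ∈ gd P, (if n ∈ ga2 K Q N P r then s n else 0) := by
    refine Finset.sum_congr rfl fun r _ => ?_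
    rw [← Finset.sum_filter]
    refine Finset.sum_congr ?_ fun _ _ => rfl
    ext n
    rw [Finset.mem_filter]
    refine ⟨fun h => ⟨?_, h⟩, fun h => h.2⟩
    unfold ga2 at h
    exact (Finset.mem_filter.1 h).1
  rw [e1, Finset.sum_comm, Finset.mul_sum]
  refine Finset.sum_le_sum fun n hn => ?_
  rw [mem_gd60] at hn
  rw [← Finset.sum_filter, Finset.sum_const, nsmul_eq_mul]
  refine mul_le_mul_of_nonneg_right ?_ (hs n)
  obtain ⟨y0, hy0⟩ : ∃ y0 : ℝ, y0 = (N : ℝ) * (((n.2 : ℝ) / n.1 + 6) / 12) := ⟨_, rfl⟩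
  have hsub : (Finset.range N).filter (fun r => n ∈ ga2 K Q N P r) ⊆ Finset.Icc ⌊y0 - 1 / 6⌋₊ (⌊y0 - 1 / 6⌋₊ + 1) := by
    intro r hr
    rw [Finset.mem_filter] at hr
    obtain ⟨-, hr⟩ := hr
    unfold ga2 at hr
    rw [Finset.mem_filter] at hr
    obtain ⟨-, k, hk, ik⟩ := hr
    obtain ⟨ck, fk⟩ := arc60 hk
    have a1 := near60 hK hQ hP ck ik hn
    have a2 : |(N : ℝ) * ((tt 0 k + 6) / 12) - y0| ≤ 1 / 6 := by
      have e2 : (N : ℝ) * ((tt 0 k + 6) / 12) - y0 = (N : ℝ) / 12 * (tt 0 k - (n.2 : ℝ) / n.1) := by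
        rw [hy0]
        ring
      rw [e2, abs_mul, abs_of_pos (by positivity : (0 : ℝ) < (N : ℝ) / 12)]
      calc (N : ℝ) / 12 * |tt 0 k - (n.2 : ℝ) / n.1| ≤ (P * Q) / 12 * (2 / (P * Q)) :=
            mul_le_mul (by linarith) a1 (abs_nonneg _) (by positivity)
        _ = 1 / 6 := by
            field_simp
            norm_num
    rw [abs_le] at a2
    rw [Finset.mem_Icc, ← fk]
    constructor
    · exact Nat.floor_le_floor (by linarith)
    · rw [← Nat.floor_add_one (?_ : (0 : ℝ) ≤ y0 - 1 / 6)]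
      · exact Nat.floor_le_floor (by linarith)
      · have hn1 : (0 : ℝ) < n.1 := by linarith [hn.lo]
        have hn2 : (0 : ℝ) ≤ n.2 := by exact_mod_cast hn.nonneg
        have h3 : (0 : ℝ) ≤ (n.2 : ℝ) / n.1 := by positivity
        have h4 : (1 : ℝ) ≤ N := by exact_mod_cast hN
        rw [hy0]
        nlinarith
  have h2 := Finset.card_le_card hsub
  rw [Nat.card_Icc] at h2
  have h3 : ((Finset.range N).filter (fun r => n ∈ ga2 K Q N P r)).card ≤ 3 := by omega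
  exact_mod_cast h3

open Classical in
theorem split {K Q N : ℕ} {P : ℝ} (hK : 1 ≤ K) (hQ : 3 ≤ Q) (r : ℕ) (F : ℤ × ℤ → ℂ) :
    ∑ k ∈ arc 0 (cls K Q P) N r, F k = ∑ n ∈ ga2 K Q N P r, ∑ k ∈ (arc 0 (cls K Q P) N r).filter (fun k => IsNd Q k n), F k := by
  have hnd : ∀ k ∈ arc 0 (cls K Q P) N r, ∃ n ∈ ga2 K Q N P r, IsNd Q k n := by
    intro k hk
    obtain ⟨ck, -⟩ := arc60 hk
    have ck' := ck
    unfold cls at ck'
    rw [Finset.mem_filter] at ck'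
    obtain ⟨-, n, h1, h2⟩ := ck'
    refine ⟨n, ?_, h1⟩
    unfold ga2
    rw [Finset.mem_filter, mem_gd60]
    exact ⟨h2, k, hk, h1⟩
  have e1 : ∀ n ∈ ga2 K Q N P r, ∑ k ∈ (arc 0 (cls K Q P) N r).filter (fun k => IsNd Q k n), F k =
      ∑ k ∈ arc 0 (cls K Q P) N r, (if IsNd Q k n then F k else 0) := by
    intro n _
    rw [Finset.sum_filter]
  rw [Finset.sum_congr rfl e1, Finset.sum_comm]
  refine Finset.sum_congr rfl fun k hk => ?_
  obtain ⟨n, hn, ik⟩ := hnd k hk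
  rw [Finset.sum_eq_single n]
  · rw [if_pos ik]
  · intro m _ hm
    rw [if_neg]
    intro im
    exact hm (Pool.Agent.Helper92.GC.nd_unique hQ (oct60 hK (arc60 hk).1).1 im ik)
  · intro h
    exact absurd hn h

theorem gd_card {P : ℝ} (hP : 1 ≤ P) : ((gd P).card : ℝ) ≤ 3 * P ^ 2 := by
  refine Pool.Agent.Helper92.GC.good_card hP _ fun n hn => ?_
  exact mem_gd60.1 hn

end Pool.Agent.Helper60.SV
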