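import Pool.Agent.Helper60.SV.A1
import Pool.Agent.Helper60.SV.A2
import Pool.Agent.Helper60.SV.F1
import Pool.Agent.Helper60.SV.F3

/-!
# SV-F4: decoupling of a class

PROOF. `dec12` (CG.Main) with `ε/12`, `c = min c₁ 1`, `C₀ = B`, `lam = 2`: `M`, `C₁`. `y = 2 C₁ + 1` (so `y³ ≥ 2 C₁`), `m` with `M^m ≤ P Q/y < M^(m+1)` (`exists_nat_pow_near`; `P Q ≥ C ≥ y`), `N = M^m`, `L = y M`. `W = (P Q)³/K ≥ 1`, `w` from `exists_dw` (`R₁ = 0`).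
Condition of `dec12` (`ρ = 1`, `H = K`, `b = 0`): `C₁ (1/W + 1/X) ≤ 2 C₁ K/(P Q)³ ≤ K/N³` (`1/X ≤ K/(P Q)³` and `N y ≤ P Q`). `gam`: `∫ ‖gs‖^12 ≤ (C/c₀) (P Q)³ n12(..)⁶` with `S = cls K Q P ⊆ oct K`
(`K ≤ uu 0 k = k.1 < 2K`, `0 ≤ tt 0 k ≤ 1`), `fp = ff 0` (`fp_ff`). `(M^(ε m/12))^6 ≤ (P Q)^(ε/2) ≤ K^ε`.
For an arc `r`: by `split` `hs (arc ..)` is the sum over the at most `20 L` vectors `n ∈ ga2 K Q N P r` of `hs ((arc ..).filter (IsNd Q · n))`, so `‖·‖^12 ≤ (20L)^11 ∑ ‖·‖^12`, `n12 ≤ (20 L)^(11/6) ∑_n (∫ ..)^(1/6)`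
(`(x + y)^(1/6) ≤ x^(1/6) + y^(1/6)`), and by `hs_ct`, `ct_mono`: `∫ .. ≤ ct (sec K Q n) (fp φ) (1/X) =: s n`. `∑_r ∑_n (s n)^(1/6) ≤ 3 ∑_{gd P} (s n)^(1/6)` (`arcs_sum`), `(∑ (s n)^(1/6))⁶ ≤ (card gd P)⁵ ∑ s n ≤ (3P²)⁵ ∑ s n`
(`inner_le`../power mean: `(∑ x)^6 ≤ card^5 ∑ x^6`, `inv_mul_le..`; Mathlib `inner_..` name: `inner_mul_le_norm_mul_norm` is not needed, use `Finset.sum_pow_le..`/`pow_sum_div_card_le_sum_pow`).
-/

open MeasureTheory Real Set Filter Topology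

set_option autoImplicit false

namespace Pool.Agent.Helper60.SV

open Pool.Agent.Helper22.AE
open Pool.Agent.Helper92.GC (dt tp Tq uu tt ph reg arc gs dd Good IsNd oct sec)
open Pool.Agent.Helper92.DT (m12)
open Pool.Agent.Helper76.OV (sl f2 Cn lq b0 bq kap)

open Pool.Agent.Helper22.AC (IsWt mu)

open Pool.Agent.Helper92.GC (IsDw)
open Pool.Agent.Helper78.CE (hs mu2 hs_cont hs_norm_le mu2_prob)
open Pool.Agent.Helper78.CD (n12)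
open Pool.Agent.Helper78.CG (ff dec12)

private lemma nn56 {v w : ℝ → ℝ} (f : (ℝ × ℝ) × (ℝ × ℝ) → ℂ) : 0 ≤ n12 (mu2 v w) f :=
  rpow_nonneg (integral_nonneg fun _ => by positivity) _

private lemma root56 {x : ℝ} (hx : 0 ≤ x) : (x ^ (1 / 6 : ℝ)) ^ 6 = x := by
  rw [← rpow_natCast, ← rpow_mul hx]
  norm_num

private lemma n12_pow56 {v w : ℝ → ℝ} (f : (ℝ × ℝ) × (ℝ × ℝ) → ℂ) : n12 (mu2 v w) f ^ 6 = ∫ q, ‖f q‖ ^ 12 ∂(mu2 v w) := by
  unfold n12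
  exact root56 (integral_nonneg fun _ => by positivity)

private lemma sub56 {ι : Type} (s : Finset ι) (x : ι → ℝ) (hx : ∀ i ∈ s, 0 ≤ x i) :
    (∑ i ∈ s, x i) ^ (1 / 6 : ℝ) ≤ ∑ i ∈ s, (x i) ^ (1 / 6 : ℝ) := by
  classical
  revert hx
  refine Finset.induction_on s (fun _ => by simp) fun i t hi ih hx => ?_
  rw [Finset.sum_insert hi, Finset.sum_insert hi]
  have h1 := ih fun j hj => hx j (Finset.mem_insert_of_mem hj)
  have h2 := rpow_add_le_add_rpow (hx i (Finset.mem_insert_self i t))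
    (Finset.sum_nonneg fun j hj => hx j (Finset.mem_insert_of_mem hj)) (by norm_num : (0 : ℝ) ≤ 1 / 6) (by norm_num)
  linarith

private lemma pm56 {ι : Type} (s : Finset ι) (x : ι → ℝ) (hx : ∀ i ∈ s, 0 ≤ x i) :
    (∑ i ∈ s, (x i) ^ (1 / 6 : ℝ)) ^ 6 ≤ (s.card : ℝ) ^ 5 * ∑ i ∈ s, x i := by
  have h1 := pow_sum_le_card_mul_sum_pow (s := s) (f := fun i => (x i) ^ (1 / 6 : ℝ)) (fun i hi => rpow_nonneg (hx i hi) _) 5
  refine h1.trans (le_of_eq ?_)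
  congr 1
  exact Finset.sum_congr rfl fun i hi => root56 (hx i hi)

private lemma int56 {X X' : ℝ} {v w : ℝ → ℝ} (hv : IsWt X v) (hw : IsWt X' w) (S : Finset (ℤ × ℤ)) (a : ℤ × ℤ → ℂ)
    (f g : ℤ × ℤ → ℝ) : Integrable (fun q => ‖hs S a f g q‖ ^ 12) (mu2 v w) := by
  have hpr := mu2_prob hv hw
  refine Integrable.of_bound (C := (∑ k ∈ S, ‖a k‖) ^ 12) ((hs_cont S a f g).norm.pow 12).aestronglyMeasurable
    (Eventually.of_forall fun q => ?_)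
  rw [Real.norm_of_nonneg (by positivity)]
  exact pow_le_pow_left₀ (norm_nonneg _) (hs_norm_le S a f g q) 12

private lemma alg56 {n C Me D T Ke P s E : ℝ} (h0 : 0 ≤ n) (h1 : n ≤ C * Me * (D * (3 * T))) (h2 : Me ^ 6 ≤ Ke)
    (h3 : T ^ 6 ≤ (3 * P ^ 2) ^ 5 * s) (h4 : D ^ 6 = E) :
    n ^ 6 ≤ (C ^ 6 * E * 3 ^ 11) * (Ke * P ^ 10 * s) := by
  have hKe : 0 ≤ Ke := (by positivity : 0 ≤ Me ^ 6).trans h2
  refine (pow_le_pow_left₀ h0 h1 6).trans ?_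
  have e : (C * Me * (D * (3 * T))) ^ 6 = (C ^ 6 * D ^ 6 * 3 ^ 6) * (Me ^ 6 * T ^ 6) := by ring
  rw [e]
  have h5 : Me ^ 6 * T ^ 6 ≤ Ke * ((3 * P ^ 2) ^ 5 * s) := mul_le_mul h2 h3 (by positivity) hKe
  refine (mul_le_mul_of_nonneg_left h5 (by positivity)).trans (le_of_eq ?_)
  rw [h4]
  ring

private lemma fin56 {y G A q Ke P10 s I : ℝ} (h1 : I ≤ A * (Ke * P10 * s)) (hy : 0 ≤ y) (hG : 0 ≤ G) (hq : 0 ≤ q)
    (hKe : 0 ≤ Ke) (hP : 0 ≤ P10) (hs : 0 ≤ s) : G * q * I ≤ (y + G * A) * Ke * q * P10 * s := by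
  have h2 : G * q * I ≤ G * q * (A * (Ke * P10 * s)) := mul_le_mul_of_nonneg_left h1 (by positivity)
  have h3 : 0 ≤ y * (Ke * q * P10 * s) := by positivity
  linarith

/-- one arc -/
private lemma arc56 {L : ℝ} (hL : 1 ≤ L) {K Q N : ℕ} {P : ℝ} (hK : 1 ≤ K) (hQ : 3 ≤ Q) (hP : 1 ≤ P) (hPQ : P ≤ Q) (hN : 1 ≤ N)
    (h1 : (N : ℝ) ≤ P * Q) (h2 : P * Q ≤ L * N) (r : ℕ) {X W : ℝ} {v w : ℝ → ℝ} (hX : 0 < X) (hv : IsWt X v) (hw : IsWt W w)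
    {a : ℤ × ℤ → ℂ} (ha : ∀ k, ‖a k‖ ≤ 1) (f g : ℤ × ℤ → ℝ) :
    n12 (mu2 v w) (hs (arc 0 (cls K Q P) N r) a f g) ≤ ((20 * L) ^ 11) ^ (1 / 6 : ℝ) *
      ∑ n ∈ ga2 K Q N P r, ((ct (sec K Q n) f (1 / X) : ℝ)) ^ (1 / 6 : ℝ) := by
  classical
  have hpt : ∀ q, ‖hs (arc 0 (cls K Q P) N r) a f g q‖ ^ 12 ≤ (20 * L) ^ 11 *
      ∑ n ∈ ga2 K Q N P r, ‖hs ((arc 0 (cls K Q P) N r).filter (fun k => IsNd Q k n)) a f g q‖ ^ 12 := by
    intro q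
    have e : hs (arc 0 (cls K Q P) N r) a f g q =
        ∑ n ∈ ga2 K Q N P r, hs ((arc 0 (cls K Q P) N r).filter (fun k => IsNd Q k n)) a f g q := by
      unfold hs
      have := split (N := N) (P := P) hK hQ r (fun k => a k * ee (dt k q.1 + q.2.1 * f k + q.2.2 * g k))
      convert this
    rw [e]
    refine (pow_le_pow_left₀ (norm_nonneg _) (norm_sum_le _ _) 12).trans ?_
    refine (pow_sum_le_card_mul_sum_pow (fun i _ => norm_nonneg _) 11).trans ?_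
    exact mul_le_mul_of_nonneg_right (pow_le_pow_left₀ (Nat.cast_nonneg _) (arcs hL hK hQ hP hPQ hN h1 h2 r) 11)
      (Finset.sum_nonneg fun _ _ => by positivity)
  have hint : ∫ q, ‖hs (arc 0 (cls K Q P) N r) a f g q‖ ^ 12 ∂(mu2 v w) ≤ (20 * L) ^ 11 *
      ∑ n ∈ ga2 K Q N P r, (ct (sec K Q n) f (1 / X) : ℝ) := by
    refine (integral_mono (int56 hv hw _ a f g) ((integrable_finsetSum _ fun n _ => int56 hv hw _ a f g).const_mul _) hpt).trans ?_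
    rw [integral_const_mul, integral_finsetSum _ fun n _ => int56 hv hw _ a f g]
    refine mul_le_mul_of_nonneg_left (Finset.sum_le_sum fun n _ => ?_) (by positivity)
    refine (hs_ct hv hw hX _ ha f g).trans ?_
    have hsub : (arc 0 (cls K Q P) N r).filter (fun k => IsNd Q k n) ⊆ sec K Q n := by
      intro k hk
      rw [Finset.mem_filter] at hk
      have h3 := hk.1
      unfold arc at h3
      have h4 := (Finset.mem_filter.1 h3).1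
      unfold cls at h4
      have h5 := (Finset.mem_filter.1 h4).1
      unfold sec
      exact Finset.mem_filter.2 ⟨h5, hk.2⟩
    exact_mod_cast ct_mono hsub f (le_refl (1 / X))
  unfold n12
  refine (rpow_le_rpow (integral_nonneg fun _ => by positivity) hint (by norm_num)).trans ?_
  rw [mul_rpow (by positivity) (Finset.sum_nonneg fun _ _ => Nat.cast_nonneg _)]
  exact mul_le_mul_of_nonneg_left (sub56 _ _ fun _ _ => Nat.cast_nonneg _) (by positivity)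

theorem class_dec {ε c₁ B : ℝ} (hε : 0 < ε) (hc : 0 < c₁) (hB : 1 ≤ B) : ∃ C : ℝ, 1 ≤ C ∧ ∀ φ : ℝ → ℝ, Cn c₁ B φ → ∀ (K Q : ℕ) (P X : ℝ)
    (v : ℝ → ℝ) (a : ℤ × ℤ → ℂ), 3 ≤ Q → Q ≤ K → 1 ≤ P → P ≤ Q → C ≤ P * Q → (K : ℝ) ≤ (P * Q) ^ 3 → (P * Q) ^ 3 ≤ K * X → 0 < X → IsWt X v →
      (∀ k, ‖a k‖ ≤ 1) → ∫ q, ‖gs (cls K Q P) a (fp φ) q‖ ^ 12 ∂(mu v) ≤
        C * (K : ℝ) ^ ε * (P * Q) ^ 3 * P ^ 10 * ∑ n ∈ gd P, (ct (sec K Q n) (fp φ) (1 / X) : ℝ) := by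
  obtain ⟨M, hM, C₁, hC₁, hdec⟩ := dec12 (ε := ε / 12) (c := min c₁ 1) (C₀ := B) (lam := 2) (by positivity)
    (lt_min hc one_pos) (by norm_num)
  obtain ⟨c₀, hc₀, Cd, hdw⟩ := Pool.Agent.Helper92.GC.exists_dw
  obtain ⟨Cg, hCg, hgam⟩ := gam hc hB
  have hM1 : (1 : ℝ) < M := by exact_mod_cast lt_of_lt_of_le (by norm_num : 1 < 2) hM
  set y : ℝ := 2 * C₁ + 1 with hy
  have hy1 : 1 ≤ y := by rw [hy]; linarith
  set L : ℝ := y * M with hL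
  have hL1 : 1 ≤ L := by
    rw [hL]
    nlinarith
  have hA : 0 ≤ Cg / c₀ * (C₁ ^ 6 * (20 * L) ^ 11 * 3 ^ 11) := by positivity
  refine ⟨y + Cg / c₀ * (C₁ ^ 6 * (20 * L) ^ 11 * 3 ^ 11), by linarith, ?_⟩
  intro φ hφ K Q P X v a hQ3 hQK hP hPQ hCP hK3 hX3 hX hv ha
  have hQ0 : (3 : ℝ) ≤ Q := by exact_mod_cast hQ3
  have hK1 : 1 ≤ K := by omega
  have hKr : (1 : ℝ) ≤ K := by exact_mod_cast hK1
  have hQKr : (Q : ℝ) ≤ K := by exact_mod_cast hQK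
  have hPQ0 : 0 < P * Q := by positivity
  have hyPQ : y ≤ P * Q := by linarith
  obtain ⟨m, hm1, hm2⟩ := exists_nat_pow_near (x := P * Q / y) (y := (M : ℝ)) (by rw [le_div_iff₀ (by linarith)]; linarith) hM1
  have hN1 : 1 ≤ M ^ m := Nat.one_le_pow _ _ (by omega)
  have hNr : (1 : ℝ) ≤ (M : ℝ) ^ m := by exact_mod_cast hN1
  have hNy : y * (M : ℝ) ^ m ≤ P * Q := by
    rw [le_div_iff₀ (by linarith)] at hm1
    linarith
  have hNPQ : ((M ^ m : ℕ) : ℝ) ≤ P * Q := by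
    push_cast
    nlinarith
  have hPQL : P * Q ≤ L * ((M ^ m : ℕ) : ℝ) := by
    rw [div_lt_iff₀ (by linarith), pow_succ] at hm2
    push_cast
    rw [hL]
    nlinarith
  set W : ℝ := (P * Q) ^ 3 / K with hW
  have hW1 : 1 ≤ W := by
    rw [hW, le_div_iff₀ (by linarith)]
    linarith
  have hW0 : 0 < W := by linarith
  obtain ⟨w, hw⟩ := hdw W hW0 0
  have hsub : cls K Q P ⊆ oct K := by
    classical
    intro k hk
    unfold cls at hk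
    exact (Finset.mem_filter.1 hk).1
  have hcond : C₁ * (1 / W + 1 / X) ≤ K * (1 / (M : ℝ) ^ m) ^ 3 := by
    have h1 : 1 / W = K / (P * Q) ^ 3 := by
      rw [hW, one_div_div]
    have h2 : 1 / X ≤ K / (P * Q) ^ 3 := by
      rw [div_le_div_iff₀ hX (by positivity)]
      linarith
    have h3 : C₁ * (1 / W + 1 / X) ≤ C₁ * (2 * (K / (P * Q) ^ 3)) := by
      refine mul_le_mul_of_nonneg_left ?_ (by linarith)
      rw [h1]
      linarith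
    refine h3.trans ?_
    have h4 : y ≤ y ^ 3 := by nlinarith [mul_self_nonneg (y - 1), mul_self_nonneg y]
    have h5 : (y * (M : ℝ) ^ m) ^ 3 ≤ (P * Q) ^ 3 := pow_le_pow_left₀ (by positivity) hNy 3
    have h6 : 2 * C₁ * ((M : ℝ) ^ m) ^ 3 ≤ (P * Q) ^ 3 := by
      refine le_trans ?_ h5
      rw [mul_pow]
      exact mul_le_mul_of_nonneg_right (by linarith) (by positivity)
    rw [one_div, inv_pow, ← div_eq_mul_inv, show C₁ * (2 * ((K : ℝ) / (P * Q) ^ 3)) = (2 * C₁ * K) / (P * Q) ^ 3 by ring,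
      div_le_div_iff₀ (by positivity) (by positivity)]
    nlinarith
  have hS : ∀ k ∈ cls K Q P, (K : ℝ) / 2 ≤ uu 0 k ∧ uu 0 k ≤ 2 * K ∧ |tt 0 k| ≤ 1 := by
    intro k hk
    have h1 := hsub hk
    unfold oct at h1
    obtain ⟨_, h2, h3, h4, h5⟩ := Finset.mem_filter.1 h1
    have h2r : (K : ℝ) ≤ k.1 := by exact_mod_cast h2
    have h3r : (k.1 : ℝ) ≤ 2 * K := by exact_mod_cast h3.le
    have h4r : (0 : ℝ) ≤ k.2 := by exact_mod_cast h4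
    have h5r : (k.2 : ℝ) ≤ k.1 := by exact_mod_cast h5
    have e : uu 0 k = k.1 := by
      unfold uu
      ring
    rw [e]
    refine ⟨by linarith, h3r, ?_⟩
    unfold tt
    rw [e, abs_of_nonneg (div_nonneg h4r (by linarith))]
    exact (div_le_one (by linarith)).2 h5r
  have hmain := hdec m 0 K 1 X W φ (gg φ) (fun t => t) v w a (cls K Q P) (by linarith) hX hW0 one_pos (by norm_num) hS
    (crv hc hB hφ) hv hw.wt hcond
  rw [← fp_ff, ← fp_ff] at hmain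
  set T : ℝ := ∑ n ∈ gd P, ((ct (sec K Q n) (fp φ) (1 / X) : ℝ)) ^ (1 / 6 : ℝ) with hT
  set D6 : ℝ := ((20 * L) ^ 11) ^ (1 / 6 : ℝ) with hD6
  have hD0 : 0 ≤ D6 := by positivity
  have hD6' : D6 ^ 6 = (20 * L) ^ 11 := root56 (by positivity)
  have hsum : ∑ r ∈ Finset.range (M ^ m), n12 (mu2 v w) (hs (arc 0 (cls K Q P) (M ^ m) r) a (fp φ) (fp (gg φ))) ≤ D6 * (3 * T) := by
    refine (Finset.sum_le_sum fun r _ => arc56 hL1 hK1 hQ3 hP hPQ hN1 hNPQ hPQL r hX hv hw.wt ha (fp φ) (fp (gg φ))).trans ?_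
    rw [← Finset.mul_sum]
    refine mul_le_mul_of_nonneg_left ?_ hD0
    exact arcs_sum hK1 hQ3 hP hPQ hN1 hNPQ _ fun n => by positivity
  have hT6 : T ^ 6 ≤ (3 * P ^ 2) ^ 5 * ∑ n ∈ gd P, (ct (sec K Q n) (fp φ) (1 / X) : ℝ) := by
    refine (pm56 (gd P) _ fun _ _ => Nat.cast_nonneg _).trans ?_
    exact mul_le_mul_of_nonneg_right (pow_le_pow_left₀ (Nat.cast_nonneg _) (gd_card hP) 5) (Finset.sum_nonneg fun _ _ => Nat.cast_nonneg _)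
  have hMe : ((M : ℝ) ^ (ε / 12 * (m : ℝ))) ^ 6 ≤ (K : ℝ) ^ ε := by
    have e1 : ((M : ℝ) ^ (ε / 12 * (m : ℝ))) ^ 6 = ((M : ℝ) ^ m) ^ (ε / 2) := by
      rw [← rpow_natCast, ← rpow_natCast (M : ℝ) m, ← rpow_mul (by positivity), ← rpow_mul (by positivity)]
      congr 1
      push_cast
      ring
    rw [e1]
    have h1 : (M : ℝ) ^ m ≤ (K : ℝ) ^ 2 := by
      have h2 : (M : ℝ) ^ m ≤ P * Q := by exact_mod_cast hNPQ
      refine h2.trans ?_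
      rw [pow_two]
      exact mul_le_mul (hPQ.trans hQKr) hQKr (by positivity) (by positivity)
    refine (rpow_le_rpow (by positivity) h1 (by positivity)).trans (le_of_eq ?_)
    rw [← rpow_natCast, ← rpow_mul (by positivity)]
    congr 1
    push_cast
    ring
  have hhs : ∫ q, ‖hs (cls K Q P) a (fp φ) (fp (gg φ)) q‖ ^ 12 ∂(mu2 v w) ≤
      (C₁ ^ 6 * (20 * L) ^ 11 * 3 ^ 11) * ((K : ℝ) ^ ε * P ^ 10 * ∑ n ∈ gd P, (ct (sec K Q n) (fp φ) (1 / X) : ℝ)) := by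
    rw [← n12_pow56]
    exact alg56 (nn56 _) (hmain.trans (mul_le_mul_of_nonneg_left hsum (by positivity))) hMe hT6 hD6'
  refine (hgam φ hφ K X W c₀ v w Cd a (cls K Q P) hK1 hX hW1 hc₀ hv hw hsub).trans ?_
  have hKW : (K : ℝ) * W = (P * Q) ^ 3 := by
    rw [hW, mul_div_cancel₀]
    linarith
  rw [hKW]
  have hs0 : 0 ≤ ∑ n ∈ gd P, (ct (sec K Q n) (fp φ) (1 / X) : ℝ) := Finset.sum_nonneg fun _ _ => Nat.cast_nonneg _
  exact fin56 hhs (by linarith) (by positivity) (by positivity) (by positivity) (by positivity) hs0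

end Pool.Agent.Helper60.SV
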