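import Mathlib
import Pool.Agent.Helper22.SC.U8
import Pool.Agent.Helper22.SC.T4
import Pool.Agent.Helper22.SC.T7
import Pool.Agent.Helper60.SV.H5

set_option autoImplicit false
open MeasureTheory Real Set

namespace Pool.Agent.Helper60.SV.Final

/-- The number of integer points in `c + R · D`, where `D = {p | p.1 cos t + p.2 sin t ≤ H t for all t}`. -/
noncomputable def latticeCount (H : ℝ → ℝ) (c : ℝ × ℝ) (R : ℝ) : ℝ :=
  (Nat.card {k : ℤ × ℤ // ∀ t : ℝ, ((k.1 : ℝ) - c.1) * cos t + ((k.2 : ℝ) - c.2) * sin t ≤ R * H t} : ℝ)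

/-- The area of `D`. -/
noncomputable def area (H : ℝ → ℝ) : ℝ :=
  (volume {p : ℝ × ℝ | ∀ t : ℝ, p.1 * cos t + p.2 * sin t ≤ H t}).toReal

/-- `H` is a `C²` support function, with positive radius of curvature `H + H''`, and `0` lies inside `D`. -/
def IsSupport (H : ℝ → ℝ) : Prop :=
  ContDiff ℝ 2 H ∧ Function.Periodic H (2 * π) ∧ ∀ t, 0 < H t ∧ 0 < H t + deriv (deriv H) t

/-- The error term for the centre `c` is `O(R^θ)`. -/
def Bound (θ : ℝ) (H : ℝ → ℝ) (c : ℝ × ℝ) : Prop :=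
  ∃ C : ℝ, ∀ R : ℝ, 1 ≤ R → |latticeCount H c R - area H * R ^ 2| ≤ C * R ^ θ

/-- The moment of order `p` of the error for the centre `c` is `O(X^q)`. -/
def Moment (p q : ℝ) (H : ℝ → ℝ) (c : ℝ × ℝ) : Prop :=
  ∃ C : ℝ, ∀ X : ℝ, 1 ≤ X → ∫ R in (1 : ℝ)..X, |latticeCount H c R - area H * R ^ 2| ^ p ≤ C * X ^ q

/-- (1) For every oval of class `C⁵`, e.g. the disc: for almost every centre the exponent `7/12 + ε` is admissible for every `ε > 0` and the moment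
of order 14 up to `X` is `O(X^(8+ε))`.
(2) For every `C²` oval: for almost every centre the exponent `3/5 + ε` is admissible for every `ε > 0` and the twelfth moment up to `X` is
`O(X^(7+ε))`, and for `3/5 < θ < 2/3` the set of the centres `c` for which the error is not `O(R^θ)` has Hausdorff dimension at most
`(2 - 3θ) max (2/(2θ-1)) (3/(1-θ)) < 2`.
(3) There are `C²` ovals, as close to the disc as one likes, for which no exponent `θ < 3/5` is admissible for any centre, the moments of order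
`p > 12` are for no centre `O(X^q)` with `q < (3p-1)/5` (which is more than `1 + p/2`), and the dimension in (2) is at least
`2(2 - 3θ)/(2θ - 1)`; this is equality for `θ ≤ 5/8`. -/
theorem result : (∀ H : ℝ → ℝ, IsSupport H → ContDiff ℝ 5 H →
    ∀ᵐ c : ℝ × ℝ, ∀ ε : ℝ, 0 < ε → Bound (7 / 12 + ε) H c ∧ Moment 14 (8 + ε) H c) ∧
  (∀ H : ℝ → ℝ, IsSupport H →
    (∀ᵐ c : ℝ × ℝ, ∀ ε : ℝ, 0 < ε → Bound (3 / 5 + ε) H c ∧ Moment 12 (7 + ε) H c) ∧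
    ∀ θ : ℝ, 3 / 5 < θ → θ < 2 / 3 →
      dimH {c : ℝ × ℝ | ¬ Bound θ H c} ≤ ENNReal.ofReal ((2 - 3 * θ) * max (2 / (2 * θ - 1)) (3 / (1 - θ)))) ∧
  ∀ δ : ℝ, 0 < δ → ∃ H : ℝ → ℝ, IsSupport H ∧
    (∀ t, |H t - 1| ≤ δ ∧ |deriv H t| ≤ δ ∧ |deriv (deriv H) t| ≤ δ) ∧
    (∀ c : ℝ × ℝ, ∀ θ : ℝ, θ < 3 / 5 → ¬ Bound θ H c) ∧
    (∀ c : ℝ × ℝ, ∀ p : ℝ, 12 < p → ∀ q : ℝ, q < (3 * p - 1) / 5 → ¬ Moment p q H c) ∧
    ∀ θ : ℝ, 3 / 5 < θ → θ < 2 / 3 →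
      ENNReal.ofReal ((2 - 3 * θ) * (2 / (2 * θ - 1))) ≤ dimH {c : ℝ × ℝ | ¬ Bound θ H c} := by
  refine ⟨fun H hH h5 => ?_, fun H hH => ?_, fun δ hδ => ?_⟩
  · have hs : Pool.Agent.Helper22.AE.IsSupp H := ⟨hH.1, hH.2.1, fun t => (hH.2.2 t).1, fun t => (hH.2.2 t).2⟩
    filter_upwards [Pool.Agent.Helper60.SV.ae_bd hs h5, Pool.Agent.Helper60.SV.ae_mom hs h5] with c h1 h2
    exact fun ε hε => ⟨h1 ε hε, h2 ε hε⟩
  · have hs : Pool.Agent.Helper22.AE.IsSupp H := ⟨hH.1, hH.2.1, fun t => (hH.2.2 t).1, fun t => (hH.2.2 t).2⟩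
    refine ⟨?_, fun θ h1 h2 => ?_⟩
    · filter_upwards [Pool.Agent.Helper22.SC.ae_exc2 hs, Pool.Agent.Helper22.SC.ae_twelfth hs] with c h1 h2
      exact fun ε hε => ⟨h1 ε hε, h2 ε hε⟩
    · have h := Pool.Agent.Helper22.SC.dim_exc2 hs h1 h2
      have e : max ((4 - 6 * θ) / (2 * θ - 1)) ((6 - 9 * θ) / (1 - θ)) =
          (2 - 3 * θ) * max (2 / (2 * θ - 1)) (3 / (1 - θ)) := by
        rw [mul_max_of_nonneg _ _ (by linarith)]
        congr 1 <;> ring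
      rw [e] at h
      exact h
  · obtain ⟨H, hN, hS, hb, hm, hd⟩ := Pool.Agent.Helper22.SC.exact_centres3 hδ
    refine ⟨H, ⟨hS.smooth, hS.per, fun t => ⟨hS.pos t, hS.rho_pos t⟩⟩, fun t => ⟨hN.d0 t, hN.d1 t, hN.d2 t⟩, hb, hm, fun θ h1 h2 => ?_⟩
    have h := hd θ h1 h2
    have e : (4 - 6 * θ) / (2 * θ - 1) = (2 - 3 * θ) * (2 / (2 * θ - 1)) := by ring
    rw [e] at h
    exact h

end Pool.Agent.Helper60.SV.Final
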