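import Mathlib
import Pool.Agent.Helper60.SV.H5

set_option autoImplicit false
open MeasureTheory Real Set

namespace Pool.Agent.Helper60.SV.Final1

/-- The number of integer points in `c + R · D`, where `D = {p | p.1 cos t + p.2 sin t ≤ H t for all t}`. -/
noncomputable def latticeCount (H : ℝ → ℝ) (c : ℝ × ℝ) (R : ℝ) : ℝ :=
  (Nat.card {k : ℤ × ℤ // ∀ t : ℝ, ((k.1 : ℝ) - c.1) * cos t + ((k.2 : ℝ) - c.2) * sin t ≤ R * H t} : ℝ)

/-- The area of `D`. -/
noncomputable def area (H : ℝ → ℝ) : ℝ :=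
  (volume {p : ℝ × ℝ | ∀ t : ℝ, p.1 * cos t + p.2 * sin t ≤ H t}).toReal

/-- `H` is the support function of a convex domain of class `C⁵`, with positive radius of curvature `H + H''`, and `0` lies inside `D`;
`H = 1` is the unit disc. -/
def IsSupport (H : ℝ → ℝ) : Prop :=
  ContDiff ℝ 5 H ∧ Function.Periodic H (2 * π) ∧ ∀ t, 0 < H t ∧ 0 < H t + deriv (deriv H) t

/-- For almost every centre `c`: the error is `O(R^(7/12+ε))` for every `ε > 0`, and its moment of order 14 is `O(X^(8+ε))`, the size which the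
exponent `1/2` would give. -/
theorem result (H : ℝ → ℝ) (hH : IsSupport H) : ∀ᵐ c : ℝ × ℝ, ∀ ε : ℝ, 0 < ε →
    (∃ C : ℝ, ∀ R : ℝ, 1 ≤ R → |latticeCount H c R - area H * R ^ 2| ≤ C * R ^ (7 / 12 + ε)) ∧
    ∃ C : ℝ, ∀ X : ℝ, 1 ≤ X → ∫ R in (1 : ℝ)..X, |latticeCount H c R - area H * R ^ 2| ^ 14 ≤ C * X ^ (8 + ε) := by
  have hs : Pool.Agent.Helper22.AE.IsSupp H :=
    ⟨hH.1.of_le (by norm_num), hH.2.1, fun t => (hH.2.2 t).1, fun t => (hH.2.2 t).2⟩
  filter_upwards [Pool.Agent.Helper60.SV.ae_bd hs hH.1, Pool.Agent.Helper60.SV.ae_mom hs hH.1] with c h1 h2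
  refine fun ε hε => ⟨h1 ε hε, ?_⟩
  obtain ⟨C, hC⟩ := h2 ε hε
  refine ⟨C, fun X hX => ?_⟩
  have h := hC X hX
  refine le_trans (le_of_eq ?_) h
  refine intervalIntegral.integral_congr fun R _ => ?_
  exact (Real.rpow_natCast _ 14).symm

end Pool.Agent.Helper60.SV.Final1
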