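import Pool.Agent.Helper60.SV.E1
import Pool.Agent.Helper60.SV.F4

/-!
# SV-G1: the twelfth moment of a class

PROOF. `class_dec`, `cls_ct` with `ε/2`, `P = Q/A`. `A ≤ K/Q ≤ Q` (`Q² ≥ K` from `Q⁶ ≥ K⁵`), so `1 ≤ P ≤ Q`, `P Q ≥ Q ≥ C`; `(P Q)³ ≥ Q³ ≥ K`; `(P Q)³ ≤ Q⁶ ≤ 64 K⁵ ≤ K X`. `1/X ≤ 1/K⁴` (`ct_mono`). With `P A = Q`:
`(P Q)³ P^10 (P² (K A/Q)^12 + (K/Q)^22 A^11) = Q⁶ K^12 A⁻³ + K^22 Q⁻⁶ A⁻² ≤ 64 K^17 + K^17`.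
-/

open MeasureTheory Real Set Filter Topology

set_option autoImplicit false

namespace Pool.Agent.Helper60.SV

open Pool.Agent.Helper22.AE
open Pool.Agent.Helper92.GC (dt tp Tq uu tt ph reg arc gs dd Good IsNd oct sec)
open Pool.Agent.Helper92.DT (m12)
open Pool.Agent.Helper76.OV (sl f2 Cn lq b0 bq kap)

open Pool.Agent.Helper22.AC (IsWt mu)

theorem cls_mom {ε c₁ B : ℝ} (hε : 0 < ε) (hc : 0 < c₁) (hB : 1 ≤ B) : ∃ C : ℝ, 1 ≤ C ∧ ∀ φ : ℝ → ℝ, Cn c₁ B φ → ∀ (K Q : ℕ) (A X : ℝ)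
    (v : ℝ → ℝ) (a : ℤ × ℤ → ℂ), 3 ≤ Q → Q ≤ K → C ≤ Q → 12 * B ≤ c₁ * Q → (K : ℝ) ^ 5 ≤ (Q : ℝ) ^ 6 → (Q : ℝ) ^ 6 ≤ 64 * (K : ℝ) ^ 5 → 1 ≤ A →
      A ≤ K / Q → 64 * (K : ℝ) ^ 4 ≤ X → IsWt X v → (∀ k, ‖a k‖ ≤ 1) →
        ∫ q, ‖gs (cls K Q (Q / A)) a (fp φ) q‖ ^ 12 ∂(mu v) ≤ C * (K : ℝ) ^ (17 + ε) := by
  obtain ⟨C₁, hC₁, h1⟩ := class_dec (half_pos hε) hc hB
  obtain ⟨C₂, hC₂, h2⟩ := cls_ct (half_pos hε) hc hB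
  have hCC : 1 ≤ C₁ * C₂ := one_le_mul_of_one_le_of_one_le hC₁ hC₂
  refine ⟨65 * (C₁ * C₂), by linarith, ?_⟩
  intro φ hφ K Q A X v a hQ hQK hCQ hBQ hKQ hQK6 hA hAK hX hv ha
  have hQ0 : (3 : ℝ) ≤ Q := by exact_mod_cast hQ
  have hQK' : (Q : ℝ) ≤ K := by exact_mod_cast hQK
  have hK0 : (3 : ℝ) ≤ K := hQ0.trans hQK'
  have hA0 : 0 < A := by linarith
  have hQp : (0 : ℝ) < Q := by linarith
  have hKp : (0 : ℝ) < K := by linarith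
  have hQ2 : (K : ℝ) ≤ (Q : ℝ) ^ 2 := by
    have h3 : (K : ℝ) ^ 3 ≤ ((Q : ℝ) ^ 2) ^ 3 := by
      calc (K : ℝ) ^ 3 ≤ (K : ℝ) ^ 5 := pow_le_pow_right₀ (by linarith) (by norm_num)
        _ ≤ (Q : ℝ) ^ 6 := hKQ
        _ = ((Q : ℝ) ^ 2) ^ 3 := by ring
    exact le_of_pow_le_pow_left₀ (by norm_num) (by positivity) h3
  have hAQ : A ≤ Q := by
    refine hAK.trans ?_
    rw [div_le_iff₀ hQp]
    nlinarith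
  have hP1 : 1 ≤ Q / A := by rwa [one_le_div hA0]
  have hPQ : Q / A ≤ Q := div_le_self hQp.le hA
  have hQPQ : (Q : ℝ) ≤ Q / A * Q := by nlinarith
  have hC₁Q : C₁ ≤ Q := by nlinarith
  have hX0 : 0 < X := lt_of_lt_of_le (by positivity) hX
  have hcube : (K : ℝ) ≤ (Q / A * Q) ^ 3 := by
    calc (K : ℝ) ≤ (Q : ℝ) ^ 2 := hQ2
      _ ≤ (Q : ℝ) ^ 3 := pow_le_pow_right₀ (by linarith) (by norm_num)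
      _ ≤ (Q / A * Q) ^ 3 := pow_le_pow_left₀ hQp.le hQPQ 3
  have hcube2 : (Q / A * Q) ^ 3 ≤ K * X := by
    calc (Q / A * Q) ^ 3 ≤ ((Q : ℝ) * Q) ^ 3 := pow_le_pow_left₀ (by positivity) (mul_le_mul_of_nonneg_right hPQ hQp.le) 3
      _ = (Q : ℝ) ^ 6 := by ring
      _ ≤ 64 * (K : ℝ) ^ 5 := hQK6
      _ = K * (64 * (K : ℝ) ^ 4) := by ring
      _ ≤ K * X := mul_le_mul_of_nonneg_left hX hKp.le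
  have h3 := h1 φ hφ K Q (Q / A) X v a hQ hQK hP1 hPQ (hC₁Q.trans hQPQ) hcube hcube2 hX0 hv ha
  have h4 := h2 φ hφ K Q A hQ hQK hBQ hKQ hQK6 hA hAK
  have h5 : ∑ n ∈ gd (Q / A), (ct (sec K Q n) (fp φ) (1 / X) : ℝ) ≤
      ∑ n ∈ gd (Q / A), (ct (sec K Q n) (fp φ) (1 / (K : ℝ) ^ 4) : ℝ) := by
    refine Finset.sum_le_sum fun n _ => ?_
    have h6 : 1 / X ≤ 1 / (K : ℝ) ^ 4 := by
      refine one_div_le_one_div_of_le (by positivity) ?_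
      have : 0 < (K : ℝ) ^ 4 := by positivity
      linarith
    exact_mod_cast ct_mono (Finset.Subset.refl _) (fp φ) h6
  have hQ6 : 0 < (Q : ℝ) ^ 6 := by positivity
  have h7 : (Q / A * Q) ^ 3 * (Q / A) ^ 10 * ((Q / A) ^ 2 * (K * A / Q) ^ 12 + (K / Q) ^ 22 * A ^ 11) ≤ 65 * (K : ℝ) ^ 17 := by
    have e1 : (Q / A * Q) ^ 3 * (Q / A) ^ 10 * ((Q / A) ^ 2 * (K * A / Q) ^ 12 + (K / Q) ^ 22 * A ^ 11) =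
        (Q : ℝ) ^ 6 * (K : ℝ) ^ 12 / A ^ 3 + (K : ℝ) ^ 22 / (Q : ℝ) ^ 6 / A ^ 2 := by
      field_simp
    rw [e1]
    have e2 : (Q : ℝ) ^ 6 * (K : ℝ) ^ 12 / A ^ 3 ≤ 64 * (K : ℝ) ^ 17 := by
      calc (Q : ℝ) ^ 6 * (K : ℝ) ^ 12 / A ^ 3 ≤ (Q : ℝ) ^ 6 * (K : ℝ) ^ 12 :=
            div_le_self (by positivity) (one_le_pow₀ hA)
        _ ≤ 64 * (K : ℝ) ^ 5 * (K : ℝ) ^ 12 := mul_le_mul_of_nonneg_right hQK6 (by positivity)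
        _ = 64 * (K : ℝ) ^ 17 := by ring
    have e3 : (K : ℝ) ^ 22 / (Q : ℝ) ^ 6 / A ^ 2 ≤ (K : ℝ) ^ 17 := by
      refine (div_le_self (by positivity) (one_le_pow₀ hA)).trans ?_
      rw [div_le_iff₀ hQ6]
      calc (K : ℝ) ^ 22 = (K : ℝ) ^ 17 * (K : ℝ) ^ 5 := by ring
        _ ≤ (K : ℝ) ^ 17 * (Q : ℝ) ^ 6 := mul_le_mul_of_nonneg_left hKQ (by positivity)
    linarith
  have h8 : (K : ℝ) ^ (17 + ε) = (K : ℝ) ^ 17 * ((K : ℝ) ^ (ε / 2) * (K : ℝ) ^ (ε / 2)) := by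
    rw [← Real.rpow_add hKp, add_halves, Real.rpow_add hKp]
    congr 1
    exact_mod_cast Real.rpow_natCast (K : ℝ) 17
  have hKe : 0 < (K : ℝ) ^ (ε / 2) := Real.rpow_pos_of_pos hKp _
  calc ∫ q, ‖gs (cls K Q (Q / A)) a (fp φ) q‖ ^ 12 ∂(mu v)
      ≤ C₁ * (K : ℝ) ^ (ε / 2) * (Q / A * Q) ^ 3 * (Q / A) ^ 10 * ∑ n ∈ gd (Q / A), (ct (sec K Q n) (fp φ) (1 / X) : ℝ) := h3
    _ ≤ C₁ * (K : ℝ) ^ (ε / 2) * (Q / A * Q) ^ 3 * (Q / A) ^ 10 *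
          (C₂ * (K : ℝ) ^ (ε / 2) * ((Q / A) ^ 2 * (K * A / Q) ^ 12 + (K / Q) ^ 22 * A ^ 11)) :=
        mul_le_mul_of_nonneg_left (h5.trans h4) (by positivity)
    _ = C₁ * C₂ * ((K : ℝ) ^ (ε / 2) * (K : ℝ) ^ (ε / 2)) *
          ((Q / A * Q) ^ 3 * (Q / A) ^ 10 * ((Q / A) ^ 2 * (K * A / Q) ^ 12 + (K / Q) ^ 22 * A ^ 11)) := by ring
    _ ≤ C₁ * C₂ * ((K : ℝ) ^ (ε / 2) * (K : ℝ) ^ (ε / 2)) * (65 * (K : ℝ) ^ 17) :=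
        mul_le_mul_of_nonneg_left h7 (by positivity)
    _ = 65 * (C₁ * C₂) * (K : ℝ) ^ (17 + ε) := by
        rw [h8]
        ring

end Pool.Agent.Helper60.SV
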