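import Pool.Agent.Helper60.SV.G1
import Pool.Agent.Helper92.GC.E2

/-!
# SV-G2: the twelfth moment of an octant

PROOF. `cls_mom` with `ε/2`: `C₁`. `K₀` a constant (depending on `C₁`, `c₁`, `B`). For `K < K₀`: `Z = oct K`, `card ≤ 25 K² ≤ C K^(11/6)`, and `a = 0` on `oct K`. For `K ≥ K₀`: `Q = ⌈K^(5/6)⌉₊`, `K^(5/6) ≤ Q ≤ 2 K^(5/6)`, so `K⁵ ≤ Q⁶ ≤ 64 K⁵`;
`J` with `2^J ≤ K/Q < 2^(J+1)`; `Z = sml K Q (Q/2^(J+1))`: `small_q` (GC.E2; `Q/2^(J+1) ≥ Q²/(2K) ≥ 1`) gives `card Z ≤ C K² 2^(-(J+1)) ≤ C K Q ≤ 2 C K^(11/6)`. Every `k ∈ oct K` has exactly one `n` with `IsNd Q k n`, `n.1 ≤ Q` (`nd_exists`, `nd_unique`, `nd_range`,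
`nd_coprime`), and is either in `Z` or in exactly one class `cls K Q (Q/2^j)`, `j ≤ J` (`Q/2^(j+1) < n.1 ≤ Q/2^j`). As `a = 0` on `Z`: `gs (oct K) a f = ∑_{j ≤ J} gs (cls K Q (Q/2^j)) a f`, `‖·‖^12 ≤ (J+1)^11 ∑ ‖·‖^12`, `J + 1 ≤ C K^(ε/24)`.
`exists_dw` with `64 X`, `R₁`: `v ≥ c₀/(64 X)` on `[R₁, R₁ + 64 X]`, so `∫_{Tq × [R₁, R₁+X]} F ≤ (64 X/c₀) ∫ F d(mu v)` for `F ≥ 0`; `cls_mom` with `64 X ≥ 64 K⁴`, `A = 2^j ≤ K/Q`.
-/

open MeasureTheory Real Set Filter Topology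

set_option autoImplicit false

namespace Pool.Agent.Helper60.SV

open Pool.Agent.Helper22.AE
open Pool.Agent.Helper92.GC (dt tp Tq uu tt ph reg arc gs dd Good IsNd oct sec)
open Pool.Agent.Helper92.DT (m12)
open Pool.Agent.Helper76.OV (sl f2 Cn lq b0 bq kap)

open Pool.Agent.Helper22.AC (IsWt mu mu_prob)
open Pool.Agent.Helper92.GC (IsDw exists_dw gs_cont gs_norm_le small_q nd_exists nd_unique nd_range nd_coprime)

private theorem oct_mem15 {K : ℕ} {k : ℤ × ℤ} (hk : k ∈ oct K) : (K : ℤ) ≤ k.1 ∧ k.1 < 2 * K ∧ 0 ≤ k.2 ∧ k.2 ≤ k.1 := by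
  unfold oct at hk
  exact (Finset.mem_filter.1 hk).2

private theorem oct_card15 (K : ℕ) (hK : 1 ≤ K) : ((oct K).card : ℝ) ≤ 25 * (K : ℝ) ^ 2 := by
  have h1 : (oct K).card ≤ (box (2 * K)).card := by
    unfold oct
    exact Finset.card_filter_le _ _
  have h2 : (box (2 * K)).card = (4 * K + 1) ^ 2 := by
    unfold box
    rw [Finset.card_product, Int.card_Icc, pow_two]
    congr 1 <;> · push_cast; omega
  have h3 : (4 * K + 1) ^ 2 ≤ (5 * K) ^ 2 := Nat.pow_le_pow_left (by omega) 2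
  have h4 : (oct K).card ≤ 25 * K ^ 2 := by
    calc (oct K).card ≤ (5 * K) ^ 2 := h1.trans (h2.le.trans h3)
      _ = 25 * K ^ 2 := by ring
  exact_mod_cast h4

private theorem meas15 {Y X R₁ c₀ : ℝ} {v : ℝ → ℝ} {Cd : ℕ → ℝ} (hX : 0 ≤ X) (hXY : X ≤ Y) (hY : 0 < Y) (hc : 0 < c₀)
    (h : IsDw Y R₁ v c₀ Cd) :
    (volume : Measure ((ℝ × ℝ) × ℝ)).restrict (Tq ×ˢ Icc R₁ (R₁ + X)) ≤ ENNReal.ofReal (Y / c₀) • mu v := by
  have hp := mu_prob h.wt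
  have h1 : (volume : Measure ℝ).restrict (Icc R₁ (R₁ + X)) ≤
      (volume.withDensity fun R => ENNReal.ofReal (Y / c₀ * v R)) := by
    rw [← withDensity_indicator_one measurableSet_Icc]
    refine withDensity_mono (Eventually.of_forall fun R => ?_)
    by_cases hR : R ∈ Icc R₁ (R₁ + X)
    · rw [indicator_of_mem hR, Pi.one_apply, ← ENNReal.ofReal_one]
      apply ENNReal.ofReal_le_ofReal
      have h2 := h.low R ⟨hR.1, hR.2.trans (by linarith)⟩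
      have h3 := mul_le_mul_of_nonneg_left h2 (by positivity : 0 ≤ Y / c₀)
      have h4 : Y / c₀ * (c₀ / Y) = 1 := by field_simp
      linarith
    · rw [indicator_of_notMem hR]
      exact zero_le
  have h2 : (volume.withDensity fun R => ENNReal.ofReal (Y / c₀ * v R) : Measure ℝ) =
      ENNReal.ofReal (Y / c₀) • (volume.withDensity fun R => ENNReal.ofReal (v R)) := by
    have hm : Measurable fun R => ENNReal.ofReal (v R) := ENNReal.measurable_ofReal.comp h.wt.cont.measurable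
    rw [← withDensity_smul (ENNReal.ofReal (Y / c₀)) hm]
    congr 1
    funext R
    rw [Pi.smul_apply, smul_eq_mul, ENNReal.ofReal_mul (by positivity)]
  rw [h2] at h1
  have h3 : (volume : Measure ((ℝ × ℝ) × ℝ)).restrict (Tq ×ˢ Icc R₁ (R₁ + X)) =
      ((volume : Measure (ℝ × ℝ)).restrict Tq).prod ((volume : Measure ℝ).restrict (Icc R₁ (R₁ + X))) := by
    rw [Measure.prod_restrict]
    rfl
  rw [h3]
  unfold mu
  rw [← Measure.prod_smul_right]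
  exact Measure.prod_mono le_rfl h1

private theorem int15 {X : ℝ} {v : ℝ → ℝ} (hv : IsWt X v) (S : Finset (ℤ × ℤ)) (a : ℤ × ℤ → ℂ)
    (f : ℤ × ℤ → ℝ) : Integrable (fun q => ‖gs S a f q‖ ^ 12) (mu v) := by
  have := mu_prob hv
  refine Integrable.of_bound (C := (∑ k ∈ S, ‖a k‖) ^ 12) ((gs_cont S a f).norm.pow 12).aestronglyMeasurable
    (Eventually.of_forall fun q => ?_)
  rw [Real.norm_of_nonneg (by positivity)]
  exact pow_le_pow_left₀ (norm_nonneg _) (gs_norm_le S a f q) 12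

private theorem win15 {Y X R₁ c₀ : ℝ} {v : ℝ → ℝ} {Cd : ℕ → ℝ} (hX : 0 ≤ X) (hXY : X ≤ Y) (hY : 0 < Y) (hc : 0 < c₀)
    (h : IsDw Y R₁ v c₀ Cd) (S : Finset (ℤ × ℤ)) (a : ℤ × ℤ → ℂ) (f : ℤ × ℤ → ℝ) :
    ∫ q in Tq ×ˢ Icc R₁ (R₁ + X), ‖gs S a f q‖ ^ 12 ≤ Y / c₀ * ∫ q, ‖gs S a f q‖ ^ 12 ∂(mu v) := by
  have h1 := integral_mono_measure (meas15 hX hXY hY hc h)
    (Eventually.of_forall fun q => (by positivity : (0 : ℝ) ≤ ‖gs S a f q‖ ^ 12))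
    ((int15 h.wt S a f).smul_measure ENNReal.ofReal_ne_top)
  rw [integral_smul_measure, ENNReal.toReal_ofReal (by positivity), smul_eq_mul] at h1
  exact h1

private theorem gs_zero15 (S : Finset (ℤ × ℤ)) (a : ℤ × ℤ → ℂ) (f : ℤ × ℤ → ℝ) (h : ∀ k ∈ S, a k = 0) (q : (ℝ × ℝ) × ℝ) :
    gs S a f q = 0 := by
  unfold gs
  exact Finset.sum_eq_zero fun k hk => by rw [h k hk, zero_mul]

private theorem dec15 {K Q : ℕ} (J : ℕ) (hK : 1 ≤ K) (hQ : 3 ≤ Q) (a : ℤ × ℤ → ℂ) (f : ℤ × ℤ → ℝ)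
    (ha : ∀ k ∈ sml K Q (Q / 2 ^ (J + 1)), a k = 0) (q : (ℝ × ℝ) × ℝ) :
    gs (oct K) a f q = ∑ j ∈ Finset.range (J + 1), gs (cls K Q (Q / 2 ^ j)) a f q := by
  classical
  unfold gs cls
  simp only [Finset.sum_filter]
  rw [Finset.sum_comm]
  refine Finset.sum_congr rfl fun k hk => ?_
  obtain ⟨h1, h2, h3, h4⟩ := oct_mem15 hk
  have hk1 : 1 ≤ k.1 := by omega
  obtain ⟨n, hn, hnQ⟩ := nd_exists hQ hk1 h3 h4
  obtain ⟨r1, r2, r3⟩ := nd_range hQ hk1 h3 h4 hn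
  by_cases hs : (n.1 : ℝ) ≤ Q / 2 ^ (J + 1)
  · have hz : a k = 0 := by
      apply ha
      unfold sml
      rw [Finset.mem_filter]
      exact ⟨hk, n, hn, hs⟩
    simp [hz]
  · rw [not_le] at hs
    have hex : ∃ j : ℕ, (Q : ℝ) / 2 ^ (j + 1) < n.1 := ⟨J, hs⟩
    obtain ⟨j, hj⟩ : ∃ j, j = Nat.find hex := ⟨_, rfl⟩
    have hj1 : (Q : ℝ) / 2 ^ (j + 1) < n.1 := by rw [hj]; exact Nat.find_spec hex
    have hjJ : j ≤ J := by rw [hj]; exact Nat.find_min' hex hs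
    have hj2 : (n.1 : ℝ) ≤ Q / 2 ^ j := by
      rcases Nat.eq_zero_or_pos j with h0 | h0
      · rw [h0, pow_zero, div_one]
        exact_mod_cast hnQ
      · have h5 := Nat.find_min hex (m := j - 1) (by omega)
        rw [not_lt, Nat.sub_add_cancel h0] at h5
        exact h5
    rw [Finset.sum_eq_single j]
    · rw [if_pos]
      refine ⟨n, hn, nd_coprime hn, ?_, hj2, r1, r2⟩
      rw [div_div, ← pow_succ]
      exact hj1
    · intro i _ hij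
      rw [if_neg]
      rintro ⟨n', hn', hg⟩
      have hnn := nd_unique hQ hk1 hn' hn
      subst hnn
      have g1 := hg.lo
      have g2 := hg.hi
      rw [div_div, ← pow_succ] at g1
      rcases lt_or_gt_of_ne hij with hlt | hgt
      · have h5 := Nat.find_min hex (m := i) (by omega)
        exact h5 g1
      · have h6 : (Q : ℝ) / 2 ^ i ≤ Q / 2 ^ (j + 1) := by
          apply div_le_div_of_nonneg_left (Nat.cast_nonneg Q) (by positivity)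
          exact pow_le_pow_right₀ (by norm_num) hgt
        linarith
    · intro hnot
      exact absurd (Finset.mem_range.2 (by omega)) hnot

private theorem jen15 (S : ℕ → Finset (ℤ × ℤ)) (J : ℕ) (S₀ : Finset (ℤ × ℤ)) (a : ℤ × ℤ → ℂ) (f : ℤ × ℤ → ℝ) (q : (ℝ × ℝ) × ℝ)
    (h : gs S₀ a f q = ∑ j ∈ Finset.range (J + 1), gs (S j) a f q) :
    ‖gs S₀ a f q‖ ^ 12 ≤ ((J : ℝ) + 1) ^ 11 * ∑ j ∈ Finset.range (J + 1), ‖gs (S j) a f q‖ ^ 12 := by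
  have h1 := pow_sum_div_card_le_sum_pow (s := Finset.range (J + 1)) (f := fun j => ‖gs (S j) a f q‖)
    (fun _ _ => norm_nonneg _) 11
  rw [Finset.card_range, div_le_iff₀ (by positivity)] at h1
  rw [h]
  refine (pow_le_pow_left₀ (norm_nonneg _) (norm_sum_le _ _) 12).trans (h1.trans (le_of_eq ?_))
  push_cast
  ring

/-- the number of dyadic classes -/
private theorem log15 {δ : ℝ} (hδ : 0 < δ) {K : ℕ} (hK : 1 ≤ K) {J : ℕ} (hJ : (2 : ℝ) ^ J ≤ K) :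
    ((J : ℝ) + 1) ≤ (2 / δ + 1) * (K : ℝ) ^ δ := by
  have hK1 : (1 : ℝ) ≤ K := by exact_mod_cast hK
  have h1 : (J : ℝ) * Real.log 2 ≤ Real.log K := by
    rw [← Real.log_pow]
    exact Real.log_le_log (by positivity) hJ
  have h2 : Real.log K ≤ (K : ℝ) ^ δ / δ := Real.log_le_rpow_div (by positivity) hδ
  have h3 : (1 / 2 : ℝ) ≤ Real.log 2 := by
    have := Real.log_two_gt_d9
    linarith
  have h4 : (J : ℝ) * (1 / 2) ≤ (K : ℝ) ^ δ / δ :=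
    (mul_le_mul_of_nonneg_left h3 (Nat.cast_nonneg J)).trans (h1.trans h2)
  have h5 : (1 : ℝ) ≤ (K : ℝ) ^ δ := Real.one_le_rpow hK1 hδ.le
  have h6 : (2 / δ + 1) * (K : ℝ) ^ δ = 2 * ((K : ℝ) ^ δ / δ) + (K : ℝ) ^ δ := by ring
  rw [h6]
  linarith

/-- the choice of the order of the Farey dissection -/
private theorem ord15 {M : ℝ} (hM : 8 ≤ M) {K : ℕ} (hK : M ^ 2 ≤ K) : ∃ Q : ℕ, M ≤ Q ∧ Q ≤ K ∧ (K : ℝ) ^ 5 ≤ (Q : ℝ) ^ 6 ∧
    (Q : ℝ) ^ 6 ≤ 64 * (K : ℝ) ^ 5 ∧ (Q : ℝ) ≤ 2 * (K : ℝ) ^ (5 / 6 : ℝ) := by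
  have hK1 : (1 : ℝ) ≤ K := by nlinarith
  have hK0 : (0 : ℝ) < K := by linarith
  obtain ⟨x, hx⟩ : ∃ x : ℝ, x = (K : ℝ) ^ (5 / 6 : ℝ) := ⟨_, rfl⟩
  have hx1 : 1 ≤ x := by rw [hx]; exact Real.one_le_rpow hK1 (by norm_num)
  have hx6 : x ^ 6 = (K : ℝ) ^ 5 := by
    rw [hx, ← Real.rpow_natCast, ← Real.rpow_mul hK0.le, ← Real.rpow_natCast]
    norm_num
  have hxK : x ≤ K := by
    rw [hx]
    calc (K : ℝ) ^ (5 / 6 : ℝ) ≤ (K : ℝ) ^ (1 : ℝ) := Real.rpow_le_rpow_of_exponent_le hK1 (by norm_num)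
      _ = K := Real.rpow_one _
  have hxM : M ≤ x := by
    calc M = √(M ^ 2) := (Real.sqrt_sq (by linarith)).symm
      _ ≤ √K := Real.sqrt_le_sqrt hK
      _ = (K : ℝ) ^ (1 / 2 : ℝ) := Real.sqrt_eq_rpow _
      _ ≤ x := by rw [hx]; exact Real.rpow_le_rpow_of_exponent_le hK1 (by norm_num)
  have hle : x ≤ (⌈x⌉₊ : ℝ) := Nat.le_ceil x
  have hlt : (⌈x⌉₊ : ℝ) ≤ 2 * x := by
    have := Nat.ceil_lt_add_one (by linarith : 0 ≤ x)
    linarith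
  refine ⟨⌈x⌉₊, hxM.trans hle, Nat.ceil_le.2 hxK, ?_, ?_, ?_⟩
  · rw [← hx6]
    exact pow_le_pow_left₀ (by linarith) hle 6
  · calc (⌈x⌉₊ : ℝ) ^ 6 ≤ (2 * x) ^ 6 := pow_le_pow_left₀ (by positivity) hlt 6
      _ = 64 * (K : ℝ) ^ 5 := by rw [mul_pow, hx6]; norm_num
  · rw [← hx]
    exact hlt

private theorem dyad15 {x : ℝ} (hx : 1 ≤ x) : ∃ J : ℕ, (2 : ℝ) ^ J ≤ x ∧ x < 2 ^ (J + 1) :=
  exists_nat_pow_near hx (by norm_num)

theorem oct_mom {ε c₁ B : ℝ} (hε : 0 < ε) (hc : 0 < c₁) (hB : 1 ≤ B) : ∃ C : ℝ, 1 ≤ C ∧ ∀ K : ℕ, 1 ≤ K → ∃ Z : Finset (ℤ × ℤ), Z ⊆ oct K ∧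
    (Z.card : ℝ) ≤ C * (K : ℝ) ^ (11 / 6 : ℝ) ∧ ∀ φ : ℝ → ℝ, Cn c₁ B φ → ∀ (X R₁ : ℝ) (a : ℤ × ℤ → ℂ), (K : ℝ) ^ 4 ≤ X → (∀ k, ‖a k‖ ≤ 1) →
      (∀ k ∈ Z, a k = 0) → ∫ q in Tq ×ˢ Icc R₁ (R₁ + X), ‖gs (oct K) a (fp φ) q‖ ^ 12 ≤ C * X * (K : ℝ) ^ (17 + ε) := by
  classical
  obtain ⟨C₁, hC₁, H1⟩ := cls_mom (half_pos hε) hc hB
  obtain ⟨C₃, hC₃, H3⟩ := small_q
  obtain ⟨c₀, hc₀, Cd, Hd⟩ := exists_dw
  obtain ⟨M, hM⟩ : ∃ M : ℝ, M = 8 + C₁ + 12 * B / c₁ := ⟨_, rfl⟩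
  have hBc : 0 ≤ 12 * B / c₁ := by positivity
  have hM8 : 8 ≤ M := by linarith
  obtain ⟨δ, hδ⟩ : ∃ δ : ℝ, δ = ε / 24 := ⟨_, rfl⟩
  have hδ0 : 0 < δ := by rw [hδ]; positivity
  obtain ⟨C, hC⟩ : ∃ C : ℝ, C = 1 + 25 * M ^ 2 + 2 * C₃ + 64 / c₀ * ((2 / δ + 1) ^ 12 * C₁) := ⟨_, rfl⟩
  have hpos1 : 0 ≤ 25 * M ^ 2 := by positivity
  have hpos2 : 0 ≤ 64 / c₀ * ((2 / δ + 1) ^ 12 * C₁) := by positivity
  refine ⟨C, by linarith, fun K hK => ?_⟩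
  have hK1 : (1 : ℝ) ≤ K := by exact_mod_cast hK
  have hK0 : (0 : ℝ) < K := by linarith
  have hKp : 0 < (K : ℝ) ^ (11 / 6 : ℝ) := Real.rpow_pos_of_pos hK0 _
  by_cases hKM : M ^ 2 ≤ K
  · obtain ⟨Q, hMQ, hQK, hQ1, hQ2, hQ3⟩ := ord15 hM8 hKM
    have hQ8 : (8 : ℝ) ≤ Q := hM8.trans hMQ
    have hQ8' : 8 ≤ Q := by exact_mod_cast hQ8
    have hQ0 : (0 : ℝ) < Q := by linarith
    have hQK' : (Q : ℝ) ≤ K := by exact_mod_cast hQK
    have hx1 : (1 : ℝ) ≤ K / Q := by rwa [one_le_div hQ0]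
    obtain ⟨J, hJ1, hJ2⟩ := dyad15 hx1
    have hQQ : 2 * (K : ℝ) ≤ (Q : ℝ) ^ 2 := by
      by_contra hcon
      rw [not_le] at hcon
      have h1 : ((Q : ℝ) ^ 2) ^ 3 < (2 * (K : ℝ)) ^ 3 := pow_lt_pow_left₀ hcon (by positivity) (by norm_num)
      have h2 : ((Q : ℝ) ^ 2) ^ 3 = (Q : ℝ) ^ 6 := by ring
      rw [h2] at h1
      have h3 : (8 : ℝ) ≤ K := by linarith
      have h4 : (2 * (K : ℝ)) ^ 3 ≤ (K : ℝ) ^ 5 := by
        have h5 : (2 * (K : ℝ)) ^ 3 = 8 * (K : ℝ) ^ 3 := by ring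
        have h6 : (K : ℝ) ^ 5 = (K : ℝ) ^ 2 * (K : ℝ) ^ 3 := by ring
        rw [h5, h6]
        exact mul_le_mul_of_nonneg_right (by nlinarith) (by positivity)
      linarith
    have hP1 : (1 : ℝ) ≤ Q / 2 ^ (J + 1) := by
      rw [one_le_div (by positivity)]
      have h1 : (2 : ℝ) ^ (J + 1) ≤ 2 * (K / Q) := by
        rw [pow_succ]
        linarith
      refine h1.trans ?_
      rw [← mul_div_assoc, div_le_iff₀ hQ0]
      nlinarith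
    refine ⟨sml K Q (Q / 2 ^ (J + 1)), ?_, ?_, ?_⟩
    · unfold sml
      exact Finset.filter_subset _ _
    · have h1 := H3 K Q (Q / 2 ^ (J + 1)) (by omega) hQK hP1 (sml K Q (Q / 2 ^ (J + 1))) ?_
      · refine h1.trans ?_
        have h2 : C₃ * (K : ℝ) ^ 2 * (Q / 2 ^ (J + 1)) / Q = C₃ * (K : ℝ) * (K / 2 ^ (J + 1)) := by
          field_simp
        rw [h2]
        have h3 : (K : ℝ) / 2 ^ (J + 1) ≤ Q := by
          rw [div_le_iff₀ (by positivity)]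
          rw [div_lt_iff₀ hQ0] at hJ2
          linarith
        have h4 : (K : ℝ) * (K : ℝ) ^ (5 / 6 : ℝ) = (K : ℝ) ^ (11 / 6 : ℝ) := by
          rw [← Real.rpow_one_add' hK0.le (by norm_num)]
          norm_num
        calc C₃ * (K : ℝ) * (K / 2 ^ (J + 1)) ≤ C₃ * (K : ℝ) * Q :=
              mul_le_mul_of_nonneg_left h3 (by positivity)
          _ ≤ C₃ * (K : ℝ) * (2 * (K : ℝ) ^ (5 / 6 : ℝ)) := mul_le_mul_of_nonneg_left hQ3 (by positivity)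
          _ = 2 * C₃ * ((K : ℝ) * (K : ℝ) ^ (5 / 6 : ℝ)) := by ring
          _ = 2 * C₃ * (K : ℝ) ^ (11 / 6 : ℝ) := by rw [h4]
          _ ≤ C * (K : ℝ) ^ (11 / 6 : ℝ) := mul_le_mul_of_nonneg_right (by linarith) hKp.le
      · intro k hk
        unfold sml at hk
        rw [Finset.mem_filter] at hk
        obtain ⟨h1, h2, h3, h4⟩ := oct_mem15 hk.1
        exact ⟨h1, h2, h3, h4, hk.2⟩
    · intro φ hφ X R₁ a hX ha haZ
      have hK4 : (1 : ℝ) ≤ (K : ℝ) ^ 4 := one_le_pow₀ hK1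
      have hX0 : 0 < X := by linarith
      obtain ⟨v, hv⟩ := Hd (64 * X) (by positivity) R₁
      have hwin := win15 (X := X) hX0.le (by linarith) (by positivity) hc₀ hv (oct K) a (fp φ)
      refine hwin.trans ?_
      have hcl : ∀ j ∈ Finset.range (J + 1), ∫ q, ‖gs (cls K Q (Q / 2 ^ j)) a (fp φ) q‖ ^ 12 ∂(mu v) ≤
          C₁ * (K : ℝ) ^ (17 + ε / 2) := by
        intro j hj
        have hjJ : j ≤ J := by
          have := Finset.mem_range.1 hj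
          omega
        refine H1 φ hφ K Q (2 ^ j) (64 * X) v a (by omega) hQK (by linarith) ?_ hQ1 hQ2 (one_le_pow₀ (by norm_num))
          ((pow_le_pow_right₀ (by norm_num) hjJ).trans hJ1) (by linarith) hv.wt ha
        have h1 : 12 * B / c₁ ≤ Q := by linarith
        rw [div_le_iff₀ hc] at h1
        linarith
      have hin : ∫ q, ‖gs (oct K) a (fp φ) q‖ ^ 12 ∂(mu v) ≤
          ((J : ℝ) + 1) ^ 11 * ∑ j ∈ Finset.range (J + 1), ∫ q, ‖gs (cls K Q (Q / 2 ^ j)) a (fp φ) q‖ ^ 12 ∂(mu v) := by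
        rw [← integral_finsetSum _ (fun j _ => int15 hv.wt _ _ _), ← integral_const_mul]
        refine integral_mono (int15 hv.wt _ _ _)
          ((integrable_finsetSum _ fun j _ => int15 hv.wt _ _ _).const_mul _) fun q => ?_
        exact jen15 (fun j => cls K Q (Q / 2 ^ j)) J (oct K) a (fp φ) q (dec15 J hK (by omega) a (fp φ) haZ q)
      have hsum : ∑ j ∈ Finset.range (J + 1), ∫ q, ‖gs (cls K Q (Q / 2 ^ j)) a (fp φ) q‖ ^ 12 ∂(mu v) ≤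
          ((J : ℝ) + 1) * (C₁ * (K : ℝ) ^ (17 + ε / 2)) := by
        refine (Finset.sum_le_card_nsmul _ _ _ hcl).trans (le_of_eq ?_)
        rw [Finset.card_range, nsmul_eq_mul]
        push_cast
        ring
      have hJK : (2 : ℝ) ^ J ≤ K := by
        refine hJ1.trans ?_
        rw [div_le_iff₀ hQ0]
        nlinarith
      have hlog := log15 hδ0 hK hJK
      have hK12 : ((K : ℝ) ^ δ) ^ 12 = (K : ℝ) ^ (ε / 2) := by
        rw [← Real.rpow_natCast, ← Real.rpow_mul hK0.le, hδ]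
        congr 1
        push_cast
        ring
      have hK17 : (K : ℝ) ^ (ε / 2) * (K : ℝ) ^ (17 + ε / 2) = (K : ℝ) ^ (17 + ε) := by
        rw [← Real.rpow_add hK0]
        congr 1
        ring
      have hJ12 : ((J : ℝ) + 1) ^ 12 ≤ (2 / δ + 1) ^ 12 * (K : ℝ) ^ (ε / 2) := by
        calc ((J : ℝ) + 1) ^ 12 ≤ ((2 / δ + 1) * (K : ℝ) ^ δ) ^ 12 := pow_le_pow_left₀ (by positivity) hlog 12
          _ = (2 / δ + 1) ^ 12 * (K : ℝ) ^ (ε / 2) := by rw [mul_pow, hK12]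
      have hmain : ∫ q, ‖gs (oct K) a (fp φ) q‖ ^ 12 ∂(mu v) ≤ (2 / δ + 1) ^ 12 * C₁ * (K : ℝ) ^ (17 + ε) := by
        calc ∫ q, ‖gs (oct K) a (fp φ) q‖ ^ 12 ∂(mu v)
            ≤ ((J : ℝ) + 1) ^ 11 * (((J : ℝ) + 1) * (C₁ * (K : ℝ) ^ (17 + ε / 2))) :=
              hin.trans (mul_le_mul_of_nonneg_left hsum (by positivity))
          _ = ((J : ℝ) + 1) ^ 12 * (C₁ * (K : ℝ) ^ (17 + ε / 2)) := by ring
          _ ≤ (2 / δ + 1) ^ 12 * (K : ℝ) ^ (ε / 2) * (C₁ * (K : ℝ) ^ (17 + ε / 2)) :=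
              mul_le_mul_of_nonneg_right hJ12 (by positivity)
          _ = (2 / δ + 1) ^ 12 * C₁ * ((K : ℝ) ^ (ε / 2) * (K : ℝ) ^ (17 + ε / 2)) := by ring
          _ = (2 / δ + 1) ^ 12 * C₁ * (K : ℝ) ^ (17 + ε) := by rw [hK17]
      calc 64 * X / c₀ * ∫ q, ‖gs (oct K) a (fp φ) q‖ ^ 12 ∂(mu v)
          ≤ 64 * X / c₀ * ((2 / δ + 1) ^ 12 * C₁ * (K : ℝ) ^ (17 + ε)) :=
            mul_le_mul_of_nonneg_left hmain (by positivity)
        _ = 64 / c₀ * ((2 / δ + 1) ^ 12 * C₁) * (X * (K : ℝ) ^ (17 + ε)) := by ring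
        _ ≤ C * (X * (K : ℝ) ^ (17 + ε)) := mul_le_mul_of_nonneg_right (by linarith) (by positivity)
        _ = C * X * (K : ℝ) ^ (17 + ε) := by ring
  · rw [not_le] at hKM
    refine ⟨oct K, Finset.Subset.refl _, ?_, ?_⟩
    · refine (oct_card15 K hK).trans ?_
      have h1 : (K : ℝ) ^ 2 ≤ M ^ 2 * (K : ℝ) ^ (11 / 6 : ℝ) := by
        have h2 : (K : ℝ) ≤ (K : ℝ) ^ (11 / 6 : ℝ) := by
          calc (K : ℝ) = (K : ℝ) ^ (1 : ℝ) := (Real.rpow_one _).symm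
            _ ≤ (K : ℝ) ^ (11 / 6 : ℝ) := Real.rpow_le_rpow_of_exponent_le hK1 (by norm_num)
        calc (K : ℝ) ^ 2 = K * K := by ring
          _ ≤ M ^ 2 * (K : ℝ) ^ (11 / 6 : ℝ) := mul_le_mul hKM.le h2 hK0.le (by positivity)
      calc 25 * (K : ℝ) ^ 2 ≤ 25 * (M ^ 2 * (K : ℝ) ^ (11 / 6 : ℝ)) := by linarith
        _ = 25 * M ^ 2 * (K : ℝ) ^ (11 / 6 : ℝ) := by ring
        _ ≤ C * (K : ℝ) ^ (11 / 6 : ℝ) := mul_le_mul_of_nonneg_right (by linarith) hKp.le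
    · intro φ hφ X R₁ a hX ha haZ
      have hK4 : (1 : ℝ) ≤ (K : ℝ) ^ 4 := one_le_pow₀ hK1
      have hX0 : 0 < X := by linarith
      have h0 : ∀ q, ‖gs (oct K) a (fp φ) q‖ ^ 12 = 0 := fun q => by
        rw [gs_zero15 _ _ _ haZ, norm_zero]
        norm_num
      simp only [h0, integral_zero]
      have hC0 : 0 ≤ C := by linarith
      positivity

end Pool.Agent.Helper60.SV
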