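import Pool.Agent.Helper60.SV.Defs
import Pool.Agent.Helper22.OV.D4
import Pool.Agent.Helper60.LT.A2

/-!
# SV-G3: reduction of the annulus to the octants

PROOF. `iso_phase`: for `k ∈ oct K`, `K ≥ 1`, `x = k.2/k.1 ∈ [0, 1]`: `nk (iso j s k) = nk k = k.1 √(1 + x²)`, and `arg (iso j s k) = j π/2 ± arctan x` modulo `2π` (`oan j s x`); `γ` is `2π`-periodic (compare OV.D4 of Helper22).
`iso_cover`: `k ∈ blk n` (`2^n ≤ nk k < 2^(n+1)`): after an isometry `k' = iso⁻¹ k` lies in the octant `0 ≤ k'.2 ≤ k'.1`, `k'.1 = max (|k.1|, |k.2|) ∈ [2^n/√2, 2^(n+1))`, so `2^(n-1) ≤ k'.1 < 2^(n+1)`.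
`cs_gs`: choose for every `k ∈ blk n` one `(j, s, e, k')` (`e = 0` if `k' ∈ oct (2^(n-1))`, else `e = 1`), and let `b j s e k' = conj (a (iso j s k'))` if `(j, s, e, k')` is the choice for `iso j s k' ∈ blk n`, else `0`. Then
`conj (cs (blk n) a γ (c, R)) = ∑_{j,s,e} ∑_{k' ∈ oct (2^(n-1+e))} b j s e k' ee (dt (iso j s k') c + R fp (oph γ j s) k')` (`iso_phase`), `‖∑_{16 terms}‖^12 ≤ 16^11 ∑`, and for fixed `R` the integral over `Tq` of
`‖∑_{k'} b k' ee (R f k') ee (dt (iso j s k') c)‖^12 = m12 ((oct ..).image (iso j s)) (..) = m12 (oct ..) (fun k' => b k' * ee (R f k'))` (`m12_image`, LT.A2; `iso j s` is additive and injective), which is the integral of `‖gs (oct ..) (b ..) f‖^12`. Fubini over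
`Tq × [R₁, R₂]` (continuous functions on compact sets).
-/

open MeasureTheory Real Set Filter Topology

set_option autoImplicit false

namespace Pool.Agent.Helper60.SV

open Pool.Agent.Helper22.AE
open Pool.Agent.Helper92.GC (dt tp Tq uu tt ph reg arc gs dd Good IsNd oct sec)
open Pool.Agent.Helper92.DT (m12)
open Pool.Agent.Helper76.OV (sl f2 Cn lq b0 bq kap)

open Pool.Agent.Helper22.AC (cs Fk)
open Pool.Agent.Helper22.OV (oph)

private theorem rot_add68 (k l : ℤ × ℤ) : rot (k + l) = rot k + rot l := by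
  unfold rot
  ext
  · simp only [Prod.snd_add, Prod.fst_add]
    ring
  · simp only [Prod.snd_add, Prod.fst_add]

private theorem rot_iter_add68 (j : ℕ) (k l : ℤ × ℤ) : rot^[j] (k + l) = rot^[j] k + rot^[j] l := by
  induction j with
  | zero => rfl
  | succ j ih =>
    rw [Function.iterate_succ_apply', ih, rot_add68, Function.iterate_succ_apply', Function.iterate_succ_apply']

theorem iso_add (j : ℕ) (s : Bool) (k l : ℤ × ℤ) : iso j s (k + l) = iso j s k + iso j s l := by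
  unfold iso
  rw [← rot_iter_add68]
  congr 1
  cases s
  · simp only [Bool.false_eq_true, if_false]
    ext
    · simp only [Prod.fst_add]
    · simp only [Prod.snd_add]
      ring
  · rfl

private theorem rot_inj68 : Function.Injective rot := by
  intro k l h
  unfold rot at h
  rw [Prod.mk.injEq] at h
  ext
  · exact h.2
  · have := h.1
    omega

theorem iso_inj (j : ℕ) (s : Bool) : Function.Injective (iso j s) := by
  intro k l h
  unfold iso at h
  have h1 := rot_inj68.iterate j h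
  cases s
  · simp only [Bool.false_eq_true, if_false, Prod.mk.injEq] at h1
    ext
    · exact h1.1
    · have := h1.2
      omega
  · exact h1

private theorem iso_succ68 (j : ℕ) (s : Bool) (k : ℤ × ℤ) : iso (j + 1) s k = rot (iso j s k) := by
  unfold iso
  exact Function.iterate_succ_apply' _ _ _

private theorem nk68 (k : ℤ × ℤ) : nk k = sqrt ((k.1 : ℝ) ^ 2 + (k.2 : ℝ) ^ 2) := by
  unfold nk cz
  rw [Complex.norm_def, Complex.normSq_mk]
  congr 1
  ring

private theorem mem_oct68 {K : ℕ} {k : ℤ × ℤ} :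
    k ∈ oct K ↔ (K : ℤ) ≤ k.1 ∧ k.1 < 2 * K ∧ 0 ≤ k.2 ∧ k.2 ≤ k.1 := by
  unfold oct
  rw [Finset.mem_filter]
  refine ⟨fun h => h.2, fun h => ⟨?_, h⟩⟩
  unfold box
  rw [Finset.mem_product, Finset.mem_Icc, Finset.mem_Icc]
  push_cast
  refine ⟨⟨?_, ?_⟩, ?_, ?_⟩ <;> omega

/-- the argument modulo `2π` -/
private theorem tk_ang68 {k : ℤ × ℤ} {a : ℝ} (hk : 0 < nk k) (h1 : nk k * cos a = (k.1 : ℝ))
    (h2 : nk k * sin a = (k.2 : ℝ)) {f : ℝ → ℝ} (hf : Function.Periodic f (2 * π)) :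
    f (tk k) = f a := by
  have hcz : cz k = (nk k : ℂ) * (Complex.cos a + Complex.sin a * Complex.I) := by
    apply Complex.ext
    · rw [← Complex.ofReal_cos, ← Complex.ofReal_sin]
      simp only [cz, Complex.mul_re, Complex.add_re, Complex.ofReal_re, Complex.I_re, Complex.ofReal_im,
        Complex.I_im, Complex.add_im, Complex.mul_im]
      linarith
    · rw [← Complex.ofReal_cos, ← Complex.ofReal_sin]
      simp only [cz, Complex.mul_re, Complex.add_re, Complex.ofReal_re, Complex.I_re, Complex.ofReal_im,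
        Complex.I_im, Complex.add_im, Complex.mul_im]
      linarith
  have h3 : ((tk k : ℝ) : Real.Angle) = (a : Real.Angle) := by
    unfold tk
    rw [hcz]
    have h5 := Complex.arg_mul_cos_add_sin_mul_I_coe_angle hk (a : Real.Angle)
    rw [Real.Angle.cos_coe, Real.Angle.sin_coe, Complex.ofReal_cos, Complex.ofReal_sin] at h5
    exact h5
  rw [Real.Angle.angle_eq_iff_two_pi_dvd_sub] at h3
  obtain ⟨n, hn⟩ := h3
  have h4 : tk k = a + n • (2 * π) := by
    rw [zsmul_eq_mul]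
    linarith
  rw [h4]
  exact (hf.zsmul n) a

private theorem oct_nk68 {K : ℕ} (hK : 1 ≤ K) {k : ℤ × ℤ} (hk : k ∈ oct K) :
    0 < (k.1 : ℝ) ∧ nk k = (k.1 : ℝ) * sqrt (1 + sl k ^ 2) := by
  have h1 := (mem_oct68.1 hk).1
  have h2 : 0 < (k.1 : ℝ) := by
    have : (0 : ℤ) < k.1 := by omega
    exact_mod_cast this
  refine ⟨h2, ?_⟩
  rw [nk68]
  unfold sl
  have e : (k.1 : ℝ) ^ 2 + (k.2 : ℝ) ^ 2 = (k.1 : ℝ) ^ 2 * (1 + ((k.2 : ℝ) / (k.1 : ℝ)) ^ 2) := by
    field_simp
  rw [e, Real.sqrt_mul (by positivity), Real.sqrt_sq h2.le]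

private theorem iso_ang68 {K : ℕ} (hK : 1 ≤ K) (j : ℕ) (s : Bool) {k : ℤ × ℤ} (hk : k ∈ oct K) :
    nk (iso j s k) = nk k ∧ nk k * cos (Pool.Agent.Helper22.OV.oan j s (sl k)) = ((iso j s k).1 : ℝ) ∧
      nk k * sin (Pool.Agent.Helper22.OV.oan j s (sl k)) = ((iso j s k).2 : ℝ) := by
  induction j with
  | zero =>
    obtain ⟨h1, h2⟩ := oct_nk68 hK hk
    have h3 : 0 < sqrt (1 + sl k ^ 2) := Real.sqrt_pos.2 (by positivity)
    have h4 : nk k * cos (arctan (sl k)) = (k.1 : ℝ) := by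
      rw [h2, Real.cos_arctan]
      field_simp
    have h5 : nk k * sin (arctan (sl k)) = (k.2 : ℝ) := by
      have h6 : (k.1 : ℝ) * sl k = k.2 := by
        unfold sl
        field_simp
      rw [h2, Real.sin_arctan, ← h6]
      field_simp
    cases s
    · have e1 : iso 0 false k = (k.1, -k.2) := rfl
      have e2 : Pool.Agent.Helper22.OV.oan 0 false (sl k) = -arctan (sl k) := by
        unfold Pool.Agent.Helper22.OV.oan
        simp
      rw [e1, e2, Real.cos_neg, Real.sin_neg]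
      refine ⟨?_, h4, ?_⟩
      · rw [nk68, nk68]
        push_cast
        congr 1
        ring
      · push_cast
        linarith
    · have e1 : iso 0 true k = k := rfl
      have e2 : Pool.Agent.Helper22.OV.oan 0 true (sl k) = arctan (sl k) := by
        unfold Pool.Agent.Helper22.OV.oan
        simp
      rw [e1, e2]
      exact ⟨rfl, h4, h5⟩
  | succ j ih =>
    obtain ⟨i1, i2, i3⟩ := ih
    have e2 : Pool.Agent.Helper22.OV.oan (j + 1) s (sl k) =
        Pool.Agent.Helper22.OV.oan j s (sl k) + π / 2 := by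
      unfold Pool.Agent.Helper22.OV.oan
      push_cast
      ring
    rw [iso_succ68, e2, Real.cos_add_pi_div_two, Real.sin_add_pi_div_two]
    unfold rot
    refine ⟨?_, ?_, ?_⟩
    · rw [← i1, nk68, nk68]
      push_cast
      congr 1
      ring
    · push_cast
      linarith
    · exact i2

theorem iso_phase {γ : ℝ → ℝ} (hγ : Function.Periodic γ (2 * π)) {K : ℕ} (hK : 1 ≤ K) {j : ℕ} (hj : j < 4) (s : Bool) {k : ℤ × ℤ} (hk : k ∈ oct K) :
    Fk γ (iso j s k) = fp (oph γ j s) k := by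
  obtain ⟨h1, h2, h3⟩ := iso_ang68 hK j s hk
  obtain ⟨h4, h5⟩ := oct_nk68 hK hk
  have h6 : 0 < nk (iso j s k) := by
    rw [h1, h5]
    have : 0 < sqrt (1 + sl k ^ 2) := Real.sqrt_pos.2 (by positivity)
    positivity
  rw [← h1] at h2 h3
  unfold Fk fp oph
  rw [tk_ang68 h6 h2 h3 hγ, h1, h5]
  ring

/-- the eight octants -/
private theorem cover68 (k : ℤ × ℤ) : ∃ j < 4, ∃ s : Bool, ∃ k' : ℤ × ℤ, 0 ≤ k'.2 ∧ k'.2 ≤ k'.1 ∧
    k'.1 ^ 2 + k'.2 ^ 2 = k.1 ^ 2 + k.2 ^ 2 ∧ iso j s k' = k := by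
  obtain ⟨u, v⟩ := k
  rcases le_total |v| |u| with h | h
  · rcases le_total 0 u with hu | hu
    · rcases le_total 0 v with hv | hv
      · refine ⟨0, by norm_num, true, (u, v), hv, ?_, rfl, rfl⟩
        rwa [abs_of_nonneg hu, abs_of_nonneg hv] at h
      · refine ⟨0, by norm_num, false, (u, -v), by simpa using hv, ?_, ?_, ?_⟩
        · rw [abs_of_nonneg hu, abs_of_nonpos hv] at h
          exact h
        · show u ^ 2 + (-v) ^ 2 = u ^ 2 + v ^ 2
          ring
        · show (u, - -v) = (u, v)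
          rw [neg_neg]
    · rcases le_total 0 v with hv | hv
      · refine ⟨2, by norm_num, false, (-u, v), hv, ?_, ?_, ?_⟩
        · rw [abs_of_nonpos hu, abs_of_nonneg hv] at h
          exact h
        · show (-u) ^ 2 + v ^ 2 = u ^ 2 + v ^ 2
          ring
        · show (- -u, - -v) = (u, v)
          rw [neg_neg, neg_neg]
      · refine ⟨2, by norm_num, true, (-u, -v), by simpa using hv, ?_, ?_, ?_⟩
        · rw [abs_of_nonpos hu, abs_of_nonpos hv] at h
          exact h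
        · show (-u) ^ 2 + (-v) ^ 2 = u ^ 2 + v ^ 2
          ring
        · show (- -u, - -v) = (u, v)
          rw [neg_neg, neg_neg]
  · rcases le_total 0 v with hv | hv
    · rcases le_total 0 u with hu | hu
      · refine ⟨1, by norm_num, false, (v, u), hu, ?_, ?_, ?_⟩
        · rwa [abs_of_nonneg hu, abs_of_nonneg hv] at h
        · show v ^ 2 + u ^ 2 = u ^ 2 + v ^ 2
          ring
        · show (- -u, v) = (u, v)
          rw [neg_neg]
      · refine ⟨1, by norm_num, true, (v, -u), by simpa using hu, ?_, ?_, ?_⟩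
        · rw [abs_of_nonpos hu, abs_of_nonneg hv] at h
          exact h
        · show v ^ 2 + (-u) ^ 2 = u ^ 2 + v ^ 2
          ring
        · show (- -u, v) = (u, v)
          rw [neg_neg]
    · rcases le_total 0 u with hu | hu
      · refine ⟨3, by norm_num, true, (-v, u), hu, ?_, ?_, ?_⟩
        · rw [abs_of_nonneg hu, abs_of_nonpos hv] at h
          exact h
        · show (-v) ^ 2 + u ^ 2 = u ^ 2 + v ^ 2
          ring
        · show (- -u, - -v) = (u, v)
          rw [neg_neg, neg_neg]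
      · refine ⟨3, by norm_num, false, (-v, -u), by simpa using hu, ?_, ?_, ?_⟩
        · rw [abs_of_nonpos hu, abs_of_nonpos hv] at h
          exact h
        · show (-v) ^ 2 + (-u) ^ 2 = u ^ 2 + v ^ 2
          ring
        · show (- - -(-u), - -v) = (u, v)
          rw [neg_neg, neg_neg, neg_neg]

theorem iso_cover {n : ℕ} (hn : 1 ≤ n) {k : ℤ × ℤ} (hk : k ∈ blk n) :
    ∃ j < 4, ∃ s : Bool, ∃ e < 2, ∃ k' ∈ oct (2 ^ (n - 1 + e)), iso j s k' = k := by
  obtain ⟨j, hj, s, k', h1, h2, h3, h4⟩ := cover68 k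
  unfold blk at hk
  rw [Finset.mem_filter] at hk
  obtain ⟨-, h5, h6⟩ := hk
  have h7 : nk k ^ 2 = ((k'.1 ^ 2 + k'.2 ^ 2 : ℤ) : ℝ) := by
    rw [nk68, Real.sq_sqrt (by positivity), h3]
    push_cast
    ring
  have h0 : (0 : ℝ) ≤ nk k := by
    rw [nk68]
    positivity
  have h8 : k'.1 ^ 2 + k'.2 ^ 2 < (2 ^ (n + 1)) ^ 2 := by
    have e1 : nk k ^ 2 < (2 ^ (n + 1)) ^ 2 := by
      exact pow_lt_pow_left₀ h6 h0 (by norm_num)
    rw [h7] at e1
    exact_mod_cast e1
  have h9 : (2 ^ n) ^ 2 ≤ k'.1 ^ 2 + k'.2 ^ 2 := by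
    have e1 : ((2 : ℝ) ^ n) ^ 2 ≤ nk k ^ 2 := pow_le_pow_left₀ (by positivity) h5 2
    rw [h7] at e1
    exact_mod_cast e1
  have h10 : k'.1 < 2 ^ (n + 1) := by
    have e1 : k'.1 ^ 2 < (2 ^ (n + 1)) ^ 2 := by nlinarith [sq_nonneg k'.2]
    exact lt_of_pow_lt_pow_left₀ 2 (by positivity) e1
  obtain ⟨l, rfl⟩ : ∃ l, n = l + 1 := ⟨n - 1, by omega⟩
  have h11 : (2 : ℤ) ^ l ≤ k'.1 := by
    have e1 : k'.2 ^ 2 ≤ k'.1 ^ 2 := pow_le_pow_left₀ h1 h2 2
    have e2 : ((2 : ℤ) ^ l) ^ 2 ≤ k'.1 ^ 2 := by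
      have e3 : ((2 : ℤ) ^ (l + 1)) ^ 2 = 4 * ((2 : ℤ) ^ l) ^ 2 := by ring
      rw [e3] at h9
      nlinarith [sq_nonneg ((2 : ℤ) ^ l)]
    have e4 : (0 : ℤ) ≤ k'.1 := h1.trans h2
    exact le_of_sq_le_sq e2 e4
  have e5 : l + 1 - 1 = l := by omega
  have e6 : (2 : ℤ) ^ (l + 1) = 2 * 2 ^ l := by ring
  have e7 : (2 : ℤ) ^ (l + 1 + 1) = 2 * 2 ^ (l + 1) := by ring
  rcases lt_or_ge k'.1 (2 ^ (l + 1)) with h12 | h12
  · refine ⟨j, hj, s, 0, by norm_num, k', ?_, h4⟩
    rw [mem_oct68, e5, Nat.add_zero]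
    push_cast
    exact ⟨h11, by rw [e6] at h12; exact h12, h1, h2⟩
  · refine ⟨j, hj, s, 1, by norm_num, k', ?_, h4⟩
    rw [mem_oct68, e5]
    push_cast
    exact ⟨h12, by rw [e7] at h10; exact h10, h1, h2⟩

/-- Fubini for the continuous functions -/
private theorem fub68 {G : (ℝ × ℝ) × ℝ → ℝ} (hG : Continuous G) (R₁ R₂ : ℝ) :
    ∫ q in Tq ×ˢ Icc R₁ R₂, G q = ∫ R in Icc R₁ R₂, ∫ c in Tq, G (c, R) := by
  have hc : IsCompact (Tq ×ˢ Icc R₁ R₂) :=
    (isCompact_Icc.prod isCompact_Icc).prod isCompact_Icc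
  have h1 : IntegrableOn G (Tq ×ˢ Icc R₁ R₂) := hG.continuousOn.integrableOn_compact hc
  have h2 : IntegrableOn G (Tq ×ˢ Icc R₁ R₂) ((volume : Measure (ℝ × ℝ)).prod volume) := h1
  have h3 := MeasureTheory.setIntegral_prod_swap (μ := (volume : Measure (ℝ × ℝ)))
    (ν := (volume : Measure ℝ)) Tq (Icc R₁ R₂) G
  have h4 := MeasureTheory.setIntegral_prod (μ := (volume : Measure ℝ)) (ν := (volume : Measure (ℝ × ℝ)))
    (fun z : ℝ × (ℝ × ℝ) => G z.swap) (s := Icc R₁ R₂) (t := Tq) h2.swap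
  exact (h3.symm.trans h4)

/-- one octant -/
private theorem one68 {j : ℕ} {s : Bool} (S : Finset (ℤ × ℤ)) (b : ℤ × ℤ → ℂ) (f : ℤ × ℤ → ℝ) (R₁ R₂ : ℝ) :
    ∫ q in Tq ×ˢ Icc R₁ R₂, ‖∑ k ∈ S, b k * ee (dt (iso j s k) q.1 + q.2 * f k)‖ ^ 12 =
      ∫ q in Tq ×ˢ Icc R₁ R₂, ‖gs S b f q‖ ^ 12 := by
  classical
  have c1 : Continuous fun q : (ℝ × ℝ) × ℝ => ‖∑ k ∈ S, b k * ee (dt (iso j s k) q.1 + q.2 * f k)‖ ^ 12 := by
    refine (continuous_norm.comp (continuous_finsetSum S fun k _ => ?_)).pow 12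
    refine continuous_const.mul (ee_cont.comp ?_)
    unfold dt
    fun_prop
  have c2 : Continuous fun q : (ℝ × ℝ) × ℝ => ‖gs S b f q‖ ^ 12 := by
    unfold gs
    refine (continuous_norm.comp (continuous_finsetSum S fun k _ => ?_)).pow 12
    refine continuous_const.mul (ee_cont.comp ?_)
    unfold dt
    fun_prop
  rw [fub68 c1, fub68 c2]
  congr 1
  funext R
  have h1 := Pool.Agent.Helper60.LT.m12_image (iso j s) (iso_add j s) (iso_inj j s) S
    (fun l => b (Function.invFun (iso j s) l) * ee (R * f (Function.invFun (iso j s) l)))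
  have h2 : ∀ k, Function.invFun (iso j s) (iso j s k) = k := Function.leftInverse_invFun (iso_inj j s)
  simp only [h2] at h1
  unfold m12 at h1
  have h3 : ∀ c : ℝ × ℝ, tp (S.image (iso j s)) (fun l => b (Function.invFun (iso j s) l) *
      ee (R * f (Function.invFun (iso j s) l))) c =
      ∑ k ∈ S, b k * ee (dt (iso j s k) (c, R).1 + (c, R).2 * f k) := by
    intro c
    unfold tp
    rw [Finset.sum_image fun x _ y _ h => iso_inj j s h]
    refine Finset.sum_congr rfl fun k _ => ?_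
    simp only [h2]
    rw [ee_add]
    ring
  have h4 : ∀ c : ℝ × ℝ, tp S (fun k => b k * ee (R * f k)) c = gs S b f (c, R) := by
    intro c
    unfold tp gs
    refine Finset.sum_congr rfl fun k _ => ?_
    rw [ee_add]
    ring
  simp only [h3, h4] at h1
  exact h1

theorem cs_gs {γ : ℝ → ℝ} (hγ : Function.Periodic γ (2 * π)) {n : ℕ} (hn : 1 ≤ n) (a : ℤ × ℤ → ℂ) :
    ∃ b : ℕ → Bool → ℕ → ℤ × ℤ → ℂ, (∀ j s e k, b j s e k = 0 ∨ b j s e k = (starRingEnd ℂ) (a (iso j s k))) ∧ ∀ R₁ R₂ : ℝ,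
      ∫ q in Tq ×ˢ Icc R₁ R₂, ‖cs (blk n) a γ q‖ ^ 12 ≤ 16 ^ 11 * ∑ j ∈ Finset.range 4, ∑ s : Bool, ∑ e ∈ Finset.range 2,
        ∫ q in Tq ×ˢ Icc R₁ R₂, ‖gs (oct (2 ^ (n - 1 + e))) (b j s e) (fp (oph γ j s)) q‖ ^ 12 := by
  classical
  have hex : ∀ k : ℤ × ℤ, ∃ x : ℕ × Bool × ℕ × (ℤ × ℤ), k ∈ blk n → x.1 < 4 ∧ x.2.2.1 < 2 ∧
      x.2.2.2 ∈ oct (2 ^ (n - 1 + x.2.2.1)) ∧ iso x.1 x.2.1 x.2.2.2 = k := by
    intro k
    by_cases hk : k ∈ blk n
    · obtain ⟨j, hj, s, e, he, k', hk', h⟩ := iso_cover hn hk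
      exact ⟨(j, s, e, k'), fun _ => ⟨hj, he, hk', h⟩⟩
    · exact ⟨(0, true, 0, 0), fun h => absurd h hk⟩
  choose X hX using hex
  refine ⟨fun j s e k' => if iso j s k' ∈ blk n ∧ X (iso j s k') = (j, s, e, k') then
    (starRingEnd ℂ) (a (iso j s k')) else 0, ?_, ?_⟩
  · intro j s e k
    simp only
    split_ifs
    · exact Or.inr rfl
    · exact Or.inl rfl
  intro R₁ R₂
  set b : ℕ → Bool → ℕ → ℤ × ℤ → ℂ := fun j s e k' => if iso j s k' ∈ blk n ∧ X (iso j s k') = (j, s, e, k') then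
    (starRingEnd ℂ) (a (iso j s k')) else 0 with hb
  -- decomposition of sums
  have key : ∀ g : ℤ × ℤ → ℂ, ∑ k ∈ blk n, (starRingEnd ℂ) (a k) * g k =
      ∑ j ∈ Finset.range 4, ∑ s : Bool, ∑ e ∈ Finset.range 2, ∑ k' ∈ oct (2 ^ (n - 1 + e)),
        b j s e k' * g (iso j s k') := by
    intro g
    have e1 : ∀ k ∈ blk n, (starRingEnd ℂ) (a k) * g k =
        ∑ j ∈ Finset.range 4, ∑ s : Bool, ∑ e ∈ Finset.range 2, ∑ k' ∈ oct (2 ^ (n - 1 + e)),
          if X k = (j, s, e, k') then (starRingEnd ℂ) (a k) * g k else 0 := by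
      intro k hk
      obtain ⟨x1, x2, x3, x4⟩ := hX k hk
      rw [Finset.sum_eq_single (X k).1, Finset.sum_eq_single (X k).2.1,
        Finset.sum_eq_single (X k).2.2.1, Finset.sum_eq_single (X k).2.2.2, if_pos rfl]
      · intro k' _ hk'
        rw [if_neg]
        intro h
        apply hk'
        rw [h]
      · intro h
        exact absurd x3 h
      · intro e _ he
        refine Finset.sum_eq_zero fun k' _ => ?_
        rw [if_neg]
        intro h
        apply he
        rw [h]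
      · intro h
        exact absurd (Finset.mem_range.2 x2) h
      · intro s _ hs
        refine Finset.sum_eq_zero fun e _ => Finset.sum_eq_zero fun k' _ => ?_
        rw [if_neg]
        intro h
        apply hs
        rw [h]
      · intro h
        exact absurd (Finset.mem_univ _) h
      · intro j _ hj
        refine Finset.sum_eq_zero fun s _ => Finset.sum_eq_zero fun e _ =>
          Finset.sum_eq_zero fun k' _ => ?_
        rw [if_neg]
        intro h
        apply hj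
        rw [h]
      · intro h
        exact absurd (Finset.mem_range.2 x1) h
    rw [Finset.sum_congr rfl e1, Finset.sum_comm]
    refine Finset.sum_congr rfl fun j _ => ?_
    rw [Finset.sum_comm]
    refine Finset.sum_congr rfl fun s _ => ?_
    rw [Finset.sum_comm]
    refine Finset.sum_congr rfl fun e _ => ?_
    rw [Finset.sum_comm]
    refine Finset.sum_congr rfl fun k' _ => ?_
    have e2 : ∀ k ∈ blk n, X k = (j, s, e, k') → k = iso j s k' := by
      intro k hk h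
      have h4 := (hX k hk).2.2.2
      rw [h] at h4
      exact h4.symm
    rw [hb]
    simp only
    by_cases h : iso j s k' ∈ blk n ∧ X (iso j s k') = (j, s, e, k')
    · rw [if_pos h, Finset.sum_eq_single (iso j s k'), if_pos h.2]
      · intro k hk hne
        rw [if_neg]
        intro h'
        exact hne (e2 k hk h')
      · intro h'
        exact absurd h.1 h'
    · rw [if_neg h, zero_mul]
      refine Finset.sum_eq_zero fun k hk => ?_
      rw [if_neg]
      intro h'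
      apply h
      have h5 := e2 k hk h'
      rw [← h5]
      exact ⟨hk, h'⟩
  -- the pointwise bound
  set U : ℕ → Bool → ℕ → (ℝ × ℝ) × ℝ → ℂ := fun j s e q => ∑ k ∈ oct (2 ^ (n - 1 + e)),
    b j s e k * ee (dt (iso j s k) q.1 + q.2 * fp (oph γ j s) k) with hU
  have hcs : ∀ q, ‖cs (blk n) a γ q‖ = ‖∑ x ∈ Finset.range 4 ×ˢ ((Finset.univ : Finset Bool) ×ˢ Finset.range 2),
      U x.1 x.2.1 x.2.2 q‖ := by
    intro q
    rw [← Complex.norm_conj]
    have e1 : (starRingEnd ℂ) (cs (blk n) a γ q) =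
        ∑ k ∈ blk n, (starRingEnd ℂ) (a k) * ee (dt k q.1 + q.2 * Fk γ k) := by
      unfold cs
      rw [map_sum]
      refine Finset.sum_congr rfl fun k _ => ?_
      rw [map_mul, ← ee_neg, neg_neg]
      rfl
    rw [e1, key fun k => ee (dt k q.1 + q.2 * Fk γ k), Finset.sum_product]
    congr 1
    refine Finset.sum_congr rfl fun j hj => ?_
    rw [Finset.sum_product]
    refine Finset.sum_congr rfl fun s _ => Finset.sum_congr rfl fun e _ => ?_
    rw [hU]
    simp only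
    refine Finset.sum_congr rfl fun k hk => ?_
    rw [iso_phase hγ (Nat.one_le_pow _ _ (by norm_num)) (Finset.mem_range.1 hj) s hk]
  have hcard : ((Finset.range 4 ×ˢ ((Finset.univ : Finset Bool) ×ˢ Finset.range 2)).card : ℝ) = 16 := by
    rw [Finset.card_product, Finset.card_product, Finset.card_range, Finset.card_range, Finset.card_univ,
      Fintype.card_bool]
    norm_num
  have hpt : ∀ q, ‖cs (blk n) a γ q‖ ^ 12 ≤ 16 ^ 11 *
      ∑ x ∈ Finset.range 4 ×ˢ ((Finset.univ : Finset Bool) ×ˢ Finset.range 2), ‖U x.1 x.2.1 x.2.2 q‖ ^ 12 := by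
    intro q
    have h3 := pow_sum_div_card_le_sum_pow
      (s := Finset.range 4 ×ˢ ((Finset.univ : Finset Bool) ×ˢ Finset.range 2))
      (f := fun x => ‖U x.1 x.2.1 x.2.2 q‖) (n := 11) (fun x _ => norm_nonneg _)
    rw [hcard, div_le_iff₀ (by norm_num)] at h3
    rw [hcs]
    calc _ ≤ (∑ x ∈ Finset.range 4 ×ˢ ((Finset.univ : Finset Bool) ×ˢ Finset.range 2),
          ‖U x.1 x.2.1 x.2.2 q‖) ^ 12 := pow_le_pow_left₀ (norm_nonneg _) (norm_sum_le _ _) 12
      _ ≤ _ := h3
      _ = _ := by ring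
  have hUc : ∀ j s e, Continuous fun q => ‖U j s e q‖ ^ 12 := by
    intro j s e
    rw [hU]
    refine (continuous_norm.comp (continuous_finsetSum _ fun k _ => ?_)).pow 12
    refine continuous_const.mul (ee_cont.comp ?_)
    unfold dt
    fun_prop
  have hcc : Continuous fun q => ‖cs (blk n) a γ q‖ ^ 12 := by
    unfold cs
    refine (continuous_norm.comp (continuous_finsetSum _ fun k _ => ?_)).pow 12
    refine continuous_const.mul (ee_cont.comp ?_)
    fun_prop
  have hcomp : IsCompact (Tq ×ˢ Icc R₁ R₂) :=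
    (isCompact_Icc.prod isCompact_Icc).prod isCompact_Icc
  have hint : ∀ {G : (ℝ × ℝ) × ℝ → ℝ}, Continuous G → IntegrableOn G (Tq ×ˢ Icc R₁ R₂) :=
    fun hG => hG.continuousOn.integrableOn_compact hcomp
  have h1 : ∫ q in Tq ×ˢ Icc R₁ R₂, ‖cs (blk n) a γ q‖ ^ 12 ≤ ∫ q in Tq ×ˢ Icc R₁ R₂, 16 ^ 11 *
      ∑ x ∈ Finset.range 4 ×ˢ ((Finset.univ : Finset Bool) ×ˢ Finset.range 2), ‖U x.1 x.2.1 x.2.2 q‖ ^ 12 := by
    refine setIntegral_mono (hint hcc) (hint ?_) fun q => hpt q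
    exact continuous_const.mul (continuous_finsetSum _ fun x _ => hUc _ _ _)
  refine h1.trans (le_of_eq ?_)
  rw [integral_const_mul, integral_finsetSum _ fun x _ => hint (hUc _ _ _), Finset.sum_product]
  congr 1
  refine Finset.sum_congr rfl fun j _ => ?_
  rw [Finset.sum_product]
  refine Finset.sum_congr rfl fun s _ => Finset.sum_congr rfl fun e _ => ?_
  exact one68 _ _ _ _ _

end Pool.Agent.Helper60.SV
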