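import Pool.Agent.Helper60.SV.G2
import Pool.Agent.Helper60.SV.G3
import Pool.Agent.Helper22.OV.D5b
import Pool.Agent.Helper22.AC.D6b

/-!
# SV-G4: the twelfth moment for an oval of class C⁵

PROOF. `ov_cond hH h5` (with `η = 0`; `gam H α 0 = ga H α`) gives `α₀`, `c₁`, `B` with `Cn c₁ B (oph (ga H α) j s)` for `|α| ≤ α₀`. First let `|α| ≤ α₀`. `n = 0`: `‖cs‖ ≤ card (blk 0) ≤ 25`. `n ≥ 1`: `K_e = 2^(n-1+e)`, `Z_e` from `oct_mom`, `Z` = union of the 16 images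
`iso j s (Z_e)`, `card Z ≤ C (2^n)^(11/6)`. `a = a₁ + a₂`, `a₁ = a` on `Z`, `0` elsewhere: `‖cs a‖^12 ≤ 2^11 (‖cs a₁‖^12 + ‖cs a₂‖^12)`. `‖cs a₁‖^12 ≤ (card Z)⁶ ‖cs a₁‖⁶` and `sixth_ga` (`8^n/X ≤ 1`): `≤ C (2^n)^11 X (2^n)^(6+ε)`.
`cs a₂`: `cs_gs` (`ga H α` is `2π`-periodic), the `b j s e` are bounded by one and vanish on `Z_e`; `oct_mom` with `K_e ≤ 2^n`, `K_e⁴ ≤ 16^n ≤ X`.
General `α` with `|sin α| ≤ s₀ = min (sin α₀) (s₀ of sixth_ga) (..)`: modulo `2π` it is `α'` or `π + α'` with `|α'| ≤ α₀`; `ga H (π + α') t = -ga H' α' t` with `H' t = H (t + π)`, which is again `IsSupp`, of class C⁵; the sign is removed by `R ↦ -R`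
(as in `sixth_ga`, AC.D6b: private lemmas `cs_neg85`, `int_neg85`, or SC.U3 `cs_neg88`; copy them for the power 12), so the constants for `H` and `H'` are both needed.
-/

open MeasureTheory Real Set Filter Topology

set_option autoImplicit false

namespace Pool.Agent.Helper60.SV

open Pool.Agent.Helper22.AE
open Pool.Agent.Helper92.GC (dt tp Tq uu tt ph reg arc gs dd Good IsNd oct sec)
open Pool.Agent.Helper92.DT (m12)
open Pool.Agent.Helper76.OV (sl f2 Cn lq b0 bq kap)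

open Pool.Agent.Helper22.AC (cs ga)

private theorem cs_norm74 (S : Finset (ℤ × ℤ)) (a : ℤ × ℤ → ℂ) (γ : ℝ → ℝ) (q : (ℝ × ℝ) × ℝ) : ‖cs S a γ q‖ ≤ ∑ k ∈ S, ‖a k‖ := by
  unfold cs
  refine (norm_sum_le _ _).trans (le_of_eq (Finset.sum_congr rfl fun k _ => ?_))
  rw [norm_mul, ee_norm, mul_one]

private theorem int74 {f : (ℝ × ℝ) × ℝ → ℝ} (hf : Continuous f) (R₁ R₂ : ℝ) :
    IntegrableOn f ((Icc (0 : ℝ) 1 ×ˢ Icc (0 : ℝ) 1) ×ˢ Icc R₁ R₂) :=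
  hf.continuousOn.integrableOn_compact ((isCompact_Icc.prod isCompact_Icc).prod isCompact_Icc)

private theorem vol74 (R₁ X : ℝ) (hX : 0 ≤ X) :
    (volume : Measure ((ℝ × ℝ) × ℝ)).real ((Icc (0 : ℝ) 1 ×ˢ Icc (0 : ℝ) 1) ×ˢ Icc R₁ (R₁ + X)) = X := by
  rw [Measure.real, Measure.volume_eq_prod, Measure.prod_prod, Measure.volume_eq_prod, Measure.prod_prod, Real.volume_Icc,
    Real.volume_Icc, sub_zero, ENNReal.ofReal_one, one_mul, one_mul, add_sub_cancel_left, ENNReal.toReal_ofReal hX]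

/-- small angles -/
private theorem core74 {H : ℝ → ℝ} (hH : IsSupp H) (h5 : ContDiff ℝ 5 H) {ε : ℝ} (hε : 0 < ε) : ∃ α₀ C : ℝ, 0 < α₀ ∧ α₀ < π / 2 ∧ 1 ≤ C ∧
    ∀ (n : ℕ) (X R₁ α : ℝ), (16 : ℝ) ^ n ≤ X → |α| ≤ α₀ → ∀ a : ℤ × ℤ → ℂ, (∀ k, ‖a k‖ ≤ 1) →
      ∫ q in (Icc (0 : ℝ) 1 ×ˢ Icc (0 : ℝ) 1) ×ˢ Icc R₁ (R₁ + X), ‖cs (blk n) a (ga H α) q‖ ^ 12 ≤ C * X * ((2 : ℝ) ^ n) ^ (17 + ε) := by
  classical
  obtain ⟨α₀, η₀, c₁, B, hα₀, hα₁, hη₀, hc₁, hB, hcond⟩ := Pool.Agent.Helper22.OV.ov_cond hH h5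
  obtain ⟨s₁, C₂, hs₁, hs₁', hC₂, hsix⟩ := Pool.Agent.Helper22.AC.sixth_ga hH (h5.of_le (by norm_num)) hε
  obtain ⟨C₁, hC₁, hoct⟩ := oct_mom hε hc₁ hB
  choose Z hZ1 hZ2 hZ3 using hoct
  have hpi := Real.pi_pos
  refine ⟨min α₀ s₁, 25 ^ 12 + 2 ^ 11 * ((16 * C₁) ^ 6 * C₂ * 2) + 2 ^ 11 * (16 ^ 11 * (16 * C₁)), lt_min hα₀ hs₁,
    (min_le_left _ _).trans_lt hα₁, ?_, ?_⟩
  · have h1 : 0 ≤ 2 ^ 11 * ((16 * C₁) ^ 6 * C₂ * 2) := by positivity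
    have h2 : 0 ≤ 2 ^ 11 * (16 ^ 11 * (16 * C₁)) := by positivity
    linarith
  intro n X R₁ α hX hα a ha
  have hα' : |α| ≤ α₀ := hα.trans (min_le_left _ _)
  have hsin : |sin α| ≤ s₁ := (abs_sin_le_abs).trans (hα.trans (min_le_right _ _))
  have hX1 : 1 ≤ X := (one_le_pow₀ (by norm_num)).trans hX
  have hX0 : 0 < X := by linarith
  have h2n : (1 : ℝ) ≤ 2 ^ n := one_le_pow₀ (by norm_num)
  have h2n0 : (0 : ℝ) < 2 ^ n := by positivity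
  have hpw : 1 ≤ ((2 : ℝ) ^ n) ^ (17 + ε) := one_le_rpow h2n (by linarith)
  have hA : 0 ≤ 2 ^ 11 * ((16 * C₁) ^ 6 * C₂ * 2) * X * ((2 : ℝ) ^ n) ^ (17 + ε) := by positivity
  have hA' : 0 ≤ 2 ^ 11 * (16 ^ 11 * (16 * C₁)) * X * ((2 : ℝ) ^ n) ^ (17 + ε) := by positivity
  have hA'' : 0 ≤ 25 ^ 12 * X * ((2 : ℝ) ^ n) ^ (17 + ε) := by positivity
  rcases Nat.eq_zero_or_pos n with rfl | hn
  · -- `n = 0`
    have hb : ∀ q, ‖cs (blk 0) a (ga H α) q‖ ^ 12 ≤ 25 ^ 12 := by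
      intro q
      refine pow_le_pow_left₀ (norm_nonneg _) ?_ 12
      refine (cs_norm74 _ _ _ _).trans ?_
      have h1 := Pool.Agent.Helper22.AE.blk_card 0
      refine (Finset.sum_le_card_nsmul _ _ 1 fun k _ => ha k).trans ?_
      rw [nsmul_eq_mul, mul_one]
      linarith
    have h1 : ∫ q in (Icc (0 : ℝ) 1 ×ˢ Icc (0 : ℝ) 1) ×ˢ Icc R₁ (R₁ + X), ‖cs (blk 0) a (ga H α) q‖ ^ 12 ≤
        ∫ q in (Icc (0 : ℝ) 1 ×ˢ Icc (0 : ℝ) 1) ×ˢ Icc R₁ (R₁ + X), (25 : ℝ) ^ 12 :=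
      setIntegral_mono_on (int74 ((Pool.Agent.Helper22.AC.cs_cont _ _ _).norm.pow 12) _ _) (int74 continuous_const _ _)
        ((measurableSet_Icc.prod measurableSet_Icc).prod measurableSet_Icc) fun q _ => hb q
    rw [setIntegral_const, vol74 R₁ X hX0.le, smul_eq_mul] at h1
    have h2 : X * 25 ^ 12 ≤ 25 ^ 12 * X * ((2 : ℝ) ^ 0) ^ (17 + ε) := by
      have := le_mul_of_one_le_right (by positivity : (0 : ℝ) ≤ 25 ^ 12 * X) hpw
      linarith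
    have e1 : (25 ^ 12 + 2 ^ 11 * ((16 * C₁) ^ 6 * C₂ * 2) + 2 ^ 11 * (16 ^ 11 * (16 * C₁))) * X * ((2 : ℝ) ^ 0) ^ (17 + ε) =
      25 ^ 12 * X * ((2 : ℝ) ^ 0) ^ (17 + ε) + 2 ^ 11 * ((16 * C₁) ^ 6 * C₂ * 2) * X * ((2 : ℝ) ^ 0) ^ (17 + ε) +
        2 ^ 11 * (16 ^ 11 * (16 * C₁)) * X * ((2 : ℝ) ^ 0) ^ (17 + ε) := by ring
    rw [e1]
    linarith
  -- `n ≥ 1`
  have hga : (fun t => ga H α t) = Pool.Agent.Helper22.OV.gam H α 0 := by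
    funext t
    unfold Pool.Agent.Helper22.OV.gam
    rw [zero_mul, add_zero]
  have hγ : Function.Periodic (ga H α) (2 * π) := by
    intro t
    unfold ga
    have e1 : t + 2 * π + α = (t + α) + 2 * π := by ring
    have h1 := hH.per (t + α)
    have h2 := Pool.Agent.Helper22.OV.per_deriv hH.per (t + α)
    rw [e1, h1, h2]
  have hCn : ∀ (j : ℕ) (s : Bool), Cn c₁ B (Pool.Agent.Helper22.OV.oph (ga H α) j s) := by
    intro j s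
    obtain ⟨g1, g2, g3, -⟩ := hcond α hα' 0 (by rw [abs_zero]; exact hη₀.le) j s
    have e : ga H α = Pool.Agent.Helper22.OV.gam H α 0 := hga
    rw [e]
    exact ⟨g1, g2, fun x hx => (g3 x hx).1, fun x hx => (g3 x hx).2.1, fun x hx => (g3 x hx).2.2⟩
  have hKpos : ∀ e : ℕ, 1 ≤ 2 ^ (n - 1 + e) := fun e => Nat.one_le_two_pow
  obtain ⟨Ze, hZe⟩ : ∃ Ze : ℕ → Finset (ℤ × ℤ), ∀ e, Ze e = Z (2 ^ (n - 1 + e)) (hKpos e) := ⟨_, fun _ => rfl⟩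
  have hKle : ∀ e < 2, ((2 ^ (n - 1 + e) : ℕ) : ℝ) ≤ 2 ^ n := by
    intro e he
    push_cast
    exact pow_le_pow_right₀ (by norm_num) (by omega)
  obtain ⟨ZZ, hZZ⟩ : ∃ ZZ : Finset (ℤ × ℤ), ZZ = (Finset.range 4).biUnion fun j => (Finset.univ : Finset Bool).biUnion fun s =>
      (Finset.range 2).biUnion fun e => (Ze e).image (iso j s) := ⟨_, rfl⟩
  have hZcard : (ZZ.card : ℝ) ≤ 16 * C₁ * ((2 : ℝ) ^ n) ^ (11 / 6 : ℝ) := by
    have h1 : ∀ e < 2, ((Ze e).card : ℝ) ≤ C₁ * ((2 : ℝ) ^ n) ^ (11 / 6 : ℝ) := by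
      intro e he
      have h3 := hZ2 (2 ^ (n - 1 + e)) (hKpos e)
      rw [← hZe e] at h3
      refine h3.trans (mul_le_mul_of_nonneg_left ?_ (by linarith))
      exact rpow_le_rpow (by positivity) (hKle e he) (by norm_num)
    have h2 : (ZZ.card : ℝ) ≤ ∑ j ∈ Finset.range 4, ∑ s : Bool, ∑ e ∈ Finset.range 2, ((Ze e).card : ℝ) := by
      rw [hZZ]
      have h3 : ((Finset.range 4).biUnion fun j => (Finset.univ : Finset Bool).biUnion fun s =>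
          (Finset.range 2).biUnion fun e => (Ze e).image (iso j s)).card ≤
          ∑ j ∈ Finset.range 4, ∑ s : Bool, ∑ e ∈ Finset.range 2, (Ze e).card := by
        refine Finset.card_biUnion_le.trans (Finset.sum_le_sum fun j _ => ?_)
        refine Finset.card_biUnion_le.trans (Finset.sum_le_sum fun s _ => ?_)
        exact Finset.card_biUnion_le.trans (Finset.sum_le_sum fun e _ => Finset.card_image_le)
      exact_mod_cast h3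
    refine h2.trans ?_
    calc ∑ j ∈ Finset.range 4, ∑ s : Bool, ∑ e ∈ Finset.range 2, ((Ze e).card : ℝ) ≤
        ∑ j ∈ Finset.range 4, ∑ s : Bool, ∑ e ∈ Finset.range 2, C₁ * ((2 : ℝ) ^ n) ^ (11 / 6 : ℝ) :=
          Finset.sum_le_sum fun j _ => Finset.sum_le_sum fun s _ => Finset.sum_le_sum fun e he => h1 e (Finset.mem_range.1 he)
      _ = 16 * C₁ * ((2 : ℝ) ^ n) ^ (11 / 6 : ℝ) := by
          simp only [Finset.sum_const, Finset.card_range, Finset.card_univ, Fintype.card_bool, nsmul_eq_mul]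
          push_cast
          ring
  obtain ⟨a₁, ha₁⟩ : ∃ a₁ : ℤ × ℤ → ℂ, ∀ k, a₁ k = if k ∈ ZZ then a k else 0 := ⟨_, fun _ => rfl⟩
  obtain ⟨a₂, ha₂⟩ : ∃ a₂ : ℤ × ℤ → ℂ, ∀ k, a₂ k = if k ∈ ZZ then 0 else a k := ⟨_, fun _ => rfl⟩
  have ha₁b : ∀ k, ‖a₁ k‖ ≤ 1 := by
    intro k
    rw [ha₁]
    split_ifs
    · exact ha k
    · simp
  have ha₂b : ∀ k, ‖a₂ k‖ ≤ 1 := by
    intro k
    rw [ha₂]
    split_ifs
    · simp
    · exact ha k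
  have hsplit : ∀ q, cs (blk n) a (ga H α) q = cs (blk n) a₁ (ga H α) q + cs (blk n) a₂ (ga H α) q := by
    intro q
    unfold cs
    rw [← Finset.sum_add_distrib]
    refine Finset.sum_congr rfl fun k _ => ?_
    rw [ha₁, ha₂]
    split_ifs <;> ring
  have hpt : ∀ q, ‖cs (blk n) a (ga H α) q‖ ^ 12 ≤ 2 ^ 11 * (‖cs (blk n) a₁ (ga H α) q‖ ^ 12 + ‖cs (blk n) a₂ (ga H α) q‖ ^ 12) := by
    intro q
    rw [hsplit q]
    refine (pow_le_pow_left₀ (norm_nonneg _) (norm_add_le _ _) 12).trans ?_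
    have := add_pow_le (norm_nonneg (cs (blk n) a₁ (ga H α) q)) (norm_nonneg (cs (blk n) a₂ (ga H α) q)) 12
    simpa using this
  have hI : ∫ q in (Icc (0 : ℝ) 1 ×ˢ Icc (0 : ℝ) 1) ×ˢ Icc R₁ (R₁ + X), ‖cs (blk n) a (ga H α) q‖ ^ 12 ≤
      2 ^ 11 * ((∫ q in (Icc (0 : ℝ) 1 ×ˢ Icc (0 : ℝ) 1) ×ˢ Icc R₁ (R₁ + X), ‖cs (blk n) a₁ (ga H α) q‖ ^ 12) +
        ∫ q in (Icc (0 : ℝ) 1 ×ˢ Icc (0 : ℝ) 1) ×ˢ Icc R₁ (R₁ + X), ‖cs (blk n) a₂ (ga H α) q‖ ^ 12) := by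
    have i1 : Integrable (fun q => ‖cs (blk n) a₁ (ga H α) q‖ ^ 12)
        (volume.restrict ((Icc (0 : ℝ) 1 ×ˢ Icc (0 : ℝ) 1) ×ˢ Icc R₁ (R₁ + X))) :=
      int74 ((Pool.Agent.Helper22.AC.cs_cont (blk n) a₁ (ga H α)).norm.pow 12) R₁ (R₁ + X)
    have i2 : Integrable (fun q => ‖cs (blk n) a₂ (ga H α) q‖ ^ 12)
        (volume.restrict ((Icc (0 : ℝ) 1 ×ˢ Icc (0 : ℝ) 1) ×ˢ Icc R₁ (R₁ + X))) :=
      int74 ((Pool.Agent.Helper22.AC.cs_cont (blk n) a₂ (ga H α)).norm.pow 12) R₁ (R₁ + X)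
    have i0 : Integrable (fun q => ‖cs (blk n) a (ga H α) q‖ ^ 12)
        (volume.restrict ((Icc (0 : ℝ) 1 ×ˢ Icc (0 : ℝ) 1) ×ˢ Icc R₁ (R₁ + X))) :=
      int74 ((Pool.Agent.Helper22.AC.cs_cont (blk n) a (ga H α)).norm.pow 12) R₁ (R₁ + X)
    rw [← integral_add i1 i2, ← integral_const_mul]
    exact integral_mono i0 ((i1.add i2).const_mul _) fun q => hpt q
  -- the frequencies with small denominators
  have h1 : ∫ q in (Icc (0 : ℝ) 1 ×ˢ Icc (0 : ℝ) 1) ×ˢ Icc R₁ (R₁ + X), ‖cs (blk n) a₁ (ga H α) q‖ ^ 12 ≤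
      (16 * C₁) ^ 6 * C₂ * 2 * X * ((2 : ℝ) ^ n) ^ (17 + ε) := by
    have hb : ∀ q, ‖cs (blk n) a₁ (ga H α) q‖ ≤ 16 * C₁ * ((2 : ℝ) ^ n) ^ (11 / 6 : ℝ) := by
      intro q
      refine (cs_norm74 _ _ _ _).trans (le_trans ?_ hZcard)
      have h3 : ∑ k ∈ blk n, ‖a₁ k‖ ≤ ∑ k ∈ blk n, (if k ∈ ZZ then (1 : ℝ) else 0) := by
        refine Finset.sum_le_sum fun k _ => ?_
        rw [ha₁]
        split_ifs
        · exact ha k
        · simp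
      refine h3.trans ?_
      rw [← Finset.sum_filter, Finset.sum_const, nsmul_eq_mul, mul_one]
      have : ((blk n).filter fun k => k ∈ ZZ) ⊆ ZZ := fun k hk => (Finset.mem_filter.1 hk).2
      exact_mod_cast Finset.card_le_card this
    have h3 := hsix n X R₁ α hX1 hsin a₁ ha₁b
    have h8 : (8 : ℝ) ^ n / X ≤ 1 := by
      rw [div_le_one hX0]
      exact (pow_le_pow_left₀ (by norm_num) (by norm_num) n).trans hX
    have h4 : ∫ q in (Icc (0 : ℝ) 1 ×ˢ Icc (0 : ℝ) 1) ×ˢ Icc R₁ (R₁ + X), ‖cs (blk n) a₁ (ga H α) q‖ ^ 12 ≤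
        (16 * C₁ * ((2 : ℝ) ^ n) ^ (11 / 6 : ℝ)) ^ 6 *
          ∫ q in (Icc (0 : ℝ) 1 ×ˢ Icc (0 : ℝ) 1) ×ˢ Icc R₁ (R₁ + X), ‖cs (blk n) a₁ (ga H α) q‖ ^ 6 := by
      have i1 := int74 ((Pool.Agent.Helper22.AC.cs_cont (blk n) a₁ (ga H α)).norm.pow 12) R₁ (R₁ + X)
      have i2 := int74 ((Pool.Agent.Helper22.AC.cs_cont (blk n) a₁ (ga H α)).norm.pow 6) R₁ (R₁ + X)
      rw [← integral_const_mul]
      refine integral_mono i1 (i2.const_mul _) fun q => ?_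
      have h5 := pow_le_pow_left₀ (norm_nonneg _) (hb q) 6
      calc ‖cs (blk n) a₁ (ga H α) q‖ ^ 12 = ‖cs (blk n) a₁ (ga H α) q‖ ^ 6 * ‖cs (blk n) a₁ (ga H α) q‖ ^ 6 := by ring
        _ ≤ _ := mul_le_mul_of_nonneg_right h5 (by positivity)
    have e6 : (((2 : ℝ) ^ n) ^ (11 / 6 : ℝ)) ^ 6 = ((2 : ℝ) ^ n) ^ (11 : ℝ) := by
      rw [← rpow_natCast (((2 : ℝ) ^ n) ^ (11 / 6 : ℝ)), ← rpow_mul h2n0.le]
      norm_num
    have e7 : ((2 : ℝ) ^ n) ^ (17 + ε) = ((2 : ℝ) ^ n) ^ (11 : ℝ) * ((2 : ℝ) ^ n) ^ (6 + ε) := by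
      rw [← rpow_add h2n0]
      congr 1
      ring
    refine h4.trans ((mul_le_mul_of_nonneg_left h3 (by positivity)).trans ?_)
    rw [mul_pow, e6, e7]
    have h6 : 1 + (8 : ℝ) ^ n / X ≤ 2 := by linarith
    calc (16 * C₁) ^ 6 * ((2 : ℝ) ^ n) ^ (11 : ℝ) * (C₂ * X * ((2 : ℝ) ^ n) ^ (6 + ε) * (1 + 8 ^ n / X)) ≤
        (16 * C₁) ^ 6 * ((2 : ℝ) ^ n) ^ (11 : ℝ) * (C₂ * X * ((2 : ℝ) ^ n) ^ (6 + ε) * 2) := by gcongr
      _ = _ := by ring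
  -- the classes
  have h2 : ∫ q in (Icc (0 : ℝ) 1 ×ˢ Icc (0 : ℝ) 1) ×ˢ Icc R₁ (R₁ + X), ‖cs (blk n) a₂ (ga H α) q‖ ^ 12 ≤
      16 ^ 11 * (16 * C₁) * X * ((2 : ℝ) ^ n) ^ (17 + ε) := by
    obtain ⟨b, hb1, hb2⟩ := cs_gs hγ hn a₂
    refine (hb2 R₁ (R₁ + X)).trans ?_
    have h3 : ∀ j ∈ Finset.range 4, ∀ s ∈ (Finset.univ : Finset Bool), ∀ e ∈ Finset.range 2,
        ∫ q in Tq ×ˢ Icc R₁ (R₁ + X), ‖gs (oct (2 ^ (n - 1 + e))) (b j s e) (fp (Pool.Agent.Helper22.OV.oph (ga H α) j s)) q‖ ^ 12 ≤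
          C₁ * X * ((2 : ℝ) ^ n) ^ (17 + ε) := by
      intro j hj s _ e he
      have he2 := Finset.mem_range.1 he
      have hK4 : ((2 ^ (n - 1 + e) : ℕ) : ℝ) ^ 4 ≤ X := by
        refine (pow_le_pow_left₀ (by positivity) (hKle e he2) 4).trans (le_trans (le_of_eq ?_) hX)
        rw [← pow_mul, mul_comm, pow_mul]
        norm_num
      refine (hZ3 (2 ^ (n - 1 + e)) (hKpos e) _ (hCn j s) X R₁ (b j s e) hK4 ?_ ?_).trans ?_
      · intro k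
        rcases hb1 j s e k with h | h
        · rw [h]; simp
        · rw [h, RCLike.norm_conj]
          exact ha₂b _
      · intro k hk
        rcases hb1 j s e k with h | h
        · exact h
        · rw [h, ha₂, if_pos, map_zero]
          rw [hZZ, Finset.mem_biUnion]
          refine ⟨j, hj, ?_⟩
          rw [Finset.mem_biUnion]
          refine ⟨s, Finset.mem_univ _, ?_⟩
          rw [Finset.mem_biUnion]
          refine ⟨e, he, Finset.mem_image_of_mem _ ?_⟩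
          rw [hZe e]
          exact hk
      · refine mul_le_mul_of_nonneg_left ?_ (by positivity)
        exact rpow_le_rpow (by positivity) (hKle e he2) (by linarith)
    calc 16 ^ 11 * ∑ j ∈ Finset.range 4, ∑ s : Bool, ∑ e ∈ Finset.range 2,
          ∫ q in Tq ×ˢ Icc R₁ (R₁ + X), ‖gs (oct (2 ^ (n - 1 + e))) (b j s e) (fp (Pool.Agent.Helper22.OV.oph (ga H α) j s)) q‖ ^ 12 ≤
        16 ^ 11 * ∑ j ∈ Finset.range 4, ∑ s : Bool, ∑ e ∈ Finset.range 2, C₁ * X * ((2 : ℝ) ^ n) ^ (17 + ε) := by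
          refine mul_le_mul_of_nonneg_left ?_ (by positivity)
          exact Finset.sum_le_sum fun j hj => Finset.sum_le_sum fun s hs => Finset.sum_le_sum fun e he => h3 j hj s hs e he
      _ = 16 ^ 11 * (16 * C₁) * X * ((2 : ℝ) ^ n) ^ (17 + ε) := by
          simp only [Finset.sum_const, Finset.card_range, Finset.card_univ, Fintype.card_bool, nsmul_eq_mul]
          push_cast
          ring
  refine hI.trans ?_
  have e1 : (25 ^ 12 + 2 ^ 11 * ((16 * C₁) ^ 6 * C₂ * 2) + 2 ^ 11 * (16 ^ 11 * (16 * C₁))) * X * ((2 : ℝ) ^ n) ^ (17 + ε) =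
    25 ^ 12 * X * ((2 : ℝ) ^ n) ^ (17 + ε) + 2 ^ 11 * ((16 * C₁) ^ 6 * C₂ * 2 * X * ((2 : ℝ) ^ n) ^ (17 + ε) +
      16 ^ 11 * (16 * C₁) * X * ((2 : ℝ) ^ n) ^ (17 + ε)) := by ring
  rw [e1]
  linarith

/-- nonnegative cosine -/
private theorem cos74 {H : ℝ → ℝ} (hH : IsSupp H) (h5 : ContDiff ℝ 5 H) {ε : ℝ} (hε : 0 < ε) : ∃ s₀ C : ℝ, 0 < s₀ ∧ s₀ < 1 ∧ 1 ≤ C ∧
    ∀ (n : ℕ) (X R₁ α : ℝ), (16 : ℝ) ^ n ≤ X → |sin α| ≤ s₀ → 0 ≤ cos α → ∀ a : ℤ × ℤ → ℂ, (∀ k, ‖a k‖ ≤ 1) →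
      ∫ q in (Icc (0 : ℝ) 1 ×ˢ Icc (0 : ℝ) 1) ×ˢ Icc R₁ (R₁ + X), ‖cs (blk n) a (ga H α) q‖ ^ 12 ≤ C * X * ((2 : ℝ) ^ n) ^ (17 + ε) := by
  obtain ⟨α₀, C, hα₀, hα₁, hC, h⟩ := core74 hH h5 hε
  have hs0 : 0 < sin α₀ := sin_pos_of_pos_of_lt_pi hα₀ (by linarith [pi_pos])
  have hs1 : sin α₀ < 1 := by
    rw [← sin_pi_div_two]
    exact sin_lt_sin_of_lt_of_le_pi_div_two (by linarith [pi_pos]) le_rfl hα₁
  refine ⟨sin α₀, C, hs0, hs1, hC, ?_⟩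
  intro n X R₁ α hX hα hcos a ha
  obtain ⟨α', hα'⟩ : ∃ α' : ℝ, α' = arcsin (sin α) := ⟨_, rfl⟩
  have hsin' : sin α' = sin α := by rw [hα', sin_arcsin (neg_one_le_sin _) (sin_le_one _)]
  have hcos' : cos α' = cos α := by
    rw [hα', cos_arcsin, ← abs_cos_eq_sqrt_one_sub_sin_sq, abs_of_nonneg hcos]
  have hle : |α'| ≤ α₀ := by
    have h1 := abs_le.1 hα
    have h2 : α₀ ≤ π / 2 := hα₁.le
    rw [abs_le]
    constructor
    · rw [hα', ← arcsin_sin (x := -α₀) (by linarith) (by linarith)]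
      refine monotone_arcsin ?_
      rw [sin_neg]
      exact h1.1
    · rw [hα', ← arcsin_sin (x := α₀) (by linarith) h2]
      exact monotone_arcsin h1.2
  have hang : ((α : ℝ) : Real.Angle) = (α' : Real.Angle) := Real.Angle.cos_sin_inj hcos'.symm hsin'.symm
  obtain ⟨m, hm⟩ := Real.Angle.angle_eq_iff_two_pi_dvd_sub.1 hang
  have hga : ga H α = ga H α' := by
    funext t
    unfold ga
    have e1 : t + α = (t + α') + m * (2 * π) := by linarith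
    have h1 := hH.per.int_mul m (t + α')
    have h2 := (Pool.Agent.Helper22.OV.per_deriv hH.per).int_mul m (t + α')
    rw [e1, h1, h2, hsin', hcos']
  rw [hga]
  exact h n X R₁ α' hX hle a ha

private theorem shift_supp74 {H : ℝ → ℝ} (hH : IsSupp H) (h5 : ContDiff ℝ 5 H) :
    IsSupp (fun t => H (t + π)) ∧ ContDiff ℝ 5 (fun t => H (t + π)) := by
  have hd : deriv (fun t => H (t + π)) = fun t => deriv H (t + π) := by
    funext t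
    exact deriv_comp_add_const H π t
  have hdd : deriv (deriv (fun t => H (t + π))) = fun t => deriv (deriv H) (t + π) := by
    rw [hd]
    funext t
    exact deriv_comp_add_const (deriv H) π t
  refine ⟨⟨hH.smooth.comp (by fun_prop), ?_, fun t => hH.pos _, ?_⟩, h5.comp (by fun_prop)⟩
  · intro t
    have e : t + 2 * π + π = (t + π) + 2 * π := by ring
    simp only
    rw [e, hH.per]
  · intro t
    rw [hdd]
    exact hH.rho_pos _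

private theorem cs_neg74 (B : Finset (ℤ × ℤ)) (a : ℤ × ℤ → ℂ) (γ : ℝ → ℝ) (q : (ℝ × ℝ) × ℝ) :
    cs B a γ q = cs B a (fun t => -γ t) (q.1, -q.2) := by
  unfold cs
  refine Finset.sum_congr rfl fun k _ => ?_
  congr 2
  unfold Pool.Agent.Helper22.AC.Fk
  ring

private theorem int_neg74 (f : (ℝ × ℝ) × ℝ → ℝ) (S : Set (ℝ × ℝ)) (u v : ℝ) :
    ∫ q in S ×ˢ Icc u v, f (q.1, -q.2) = ∫ q in S ×ˢ Icc (-v) (-u), f q := by
  let e : ((ℝ × ℝ) × ℝ) ≃ᵐ ((ℝ × ℝ) × ℝ) :=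
    MeasurableEquiv.prodCongr (MeasurableEquiv.refl (ℝ × ℝ)) (MeasurableEquiv.neg ℝ)
  have he : ∀ q, e q = (q.1, -q.2) := fun q => rfl
  have hmp : MeasurePreserving e volume volume :=
    (MeasurePreserving.id (volume : Measure (ℝ × ℝ))).prod
      (Measure.measurePreserving_neg (volume : Measure ℝ))
  have h := hmp.setIntegral_preimage_emb e.measurableEmbedding f (S ×ˢ Icc (-v) (-u))
  have hpre : e ⁻¹' (S ×ˢ Icc (-v) (-u)) = S ×ˢ Icc u v := by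
    ext q
    rw [mem_preimage, he, mem_prod, mem_prod, mem_Icc, mem_Icc]
    simp only [neg_le_neg_iff]
    tauto
  rw [hpre] at h
  exact h

theorem twelfth_ga {H : ℝ → ℝ} (hH : IsSupp H) (h5 : ContDiff ℝ 5 H) {ε : ℝ} (hε : 0 < ε) : ∃ s₀ C : ℝ, 0 < s₀ ∧ s₀ < 1 ∧ 0 < C ∧
    ∀ (n : ℕ) (X R₁ α : ℝ), (16 : ℝ) ^ n ≤ X → |sin α| ≤ s₀ → ∀ a : ℤ × ℤ → ℂ, (∀ k, ‖a k‖ ≤ 1) →
      ∫ q in (Icc (0 : ℝ) 1 ×ˢ Icc (0 : ℝ) 1) ×ˢ Icc R₁ (R₁ + X), ‖cs (blk n) a (ga H α) q‖ ^ 12 ≤ C * X * ((2 : ℝ) ^ n) ^ (17 + ε) := by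
  obtain ⟨hH', h5'⟩ := shift_supp74 hH h5
  obtain ⟨s₁, C₁, hs₁, hs₁', hC₁, h1⟩ := cos74 hH h5 hε
  obtain ⟨s₂, C₂, hs₂, hs₂', hC₂, h2⟩ := cos74 hH' h5' hε
  refine ⟨min s₁ s₂, max C₁ C₂, lt_min hs₁ hs₂, (min_le_left _ _).trans_lt hs₁', lt_of_lt_of_le (by linarith) (le_max_left _ _), ?_⟩
  intro n X R₁ α hX hα a ha
  have hX1 : 1 ≤ X := (one_le_pow₀ (by norm_num)).trans hX
  have hX0 : 0 < X := by linarith
  have hpw : 0 ≤ X * ((2 : ℝ) ^ n) ^ (17 + ε) := by positivity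
  rcases le_total 0 (cos α) with hc | hc
  · refine (h1 n X R₁ α hX (hα.trans (min_le_left _ _)) hc a ha).trans ?_
    have := mul_le_mul_of_nonneg_right (le_max_left C₁ C₂) hpw
    calc _ = C₁ * (X * ((2 : ℝ) ^ n) ^ (17 + ε)) := by ring
      _ ≤ _ := this
      _ = _ := by ring
  · have hg : (fun t => -ga H α t) = ga (fun t => H (t + π)) (α + π) := by
      funext t
      unfold ga
      have hd : deriv (fun t => H (t + π)) (t + (α + π)) = deriv H (t + (α + π) + π) := deriv_comp_add_const H π _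
      rw [hd, cos_add_pi, sin_add_pi]
      have e1 : t + (α + π) + π = (t + α) + 2 * π := by ring
      have p1 := hH.per (t + α)
      have p2 := Pool.Agent.Helper22.OV.per_deriv hH.per (t + α)
      simp only
      rw [e1, p1, p2]
      ring
    have h3 := h2 n X (-(R₁ + X)) (α + π) hX (by rw [sin_add_pi, abs_neg]; exact hα.trans (min_le_right _ _))
      (by rw [cos_add_pi]; linarith) a ha
    have e1 : -(R₁ + X) + X = -R₁ := by ring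
    rw [e1, ← hg] at h3
    have h4 : ∫ q in (Icc (0 : ℝ) 1 ×ˢ Icc (0 : ℝ) 1) ×ˢ Icc R₁ (R₁ + X), ‖cs (blk n) a (ga H α) q‖ ^ 12 =
        ∫ q in (Icc (0 : ℝ) 1 ×ˢ Icc (0 : ℝ) 1) ×ˢ Icc (-(R₁ + X)) (-R₁), ‖cs (blk n) a (fun t => -ga H α t) q‖ ^ 12 := by
      rw [← int_neg74 (fun q => ‖cs (blk n) a (fun t => -ga H α t) q‖ ^ 12)]
      refine integral_congr_ae (Filter.Eventually.of_forall fun q => ?_)
      simp only
      rw [cs_neg74]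
    rw [h4]
    refine h3.trans ?_
    have := mul_le_mul_of_nonneg_right (le_max_right C₁ C₂) hpw
    calc _ = C₂ * (X * ((2 : ℝ) ^ n) ^ (17 + ε)) := by ring
      _ ≤ _ := this
      _ = _ := by ring

end Pool.Agent.Helper60.SV
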