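import Pool.Agent.Helper22.SC.Defs
import Pool.Agent.Helper22.SC.TDefs
import Pool.Agent.Helper22.AC.D6b

/-!
# SV-H1: the supremum over the radius

PROOF. `Λ = 48 (Λ₀ + 1)` or larger, `|ga H α t| ≤ Λ₀` (`ga_bdd`), so `|Fk (ga H α) k| ≤ 2^(n+1) Λ₀` on `blk n`. `f r = cs (blk n) a (ga H α) (c, r)` is `C¹` with `f' r = cs (blk n) (a k · (-2πi Fk k)) (ga H α) (c, r) = -2πi Λ 2^n cs (blk n) (da ..) (c, r)`.
`h = ‖f‖^(2m)`, `|h'| ≤ 2m ‖f‖^(2m-1) ‖f'‖ ≤ (2πΛ 2^n)(2m) x^(2m-1) y ≤ (2πΛ 2^n) ((2m-1) x^(2m) + y^(2m))` with `x = ‖f‖`, `y = ‖f'‖/(2πΛ 2^n)`. For `R, r ∈ [R₀, 2R₀]`: `h R ≤ h r + ∫ |h'|`; average over `r`: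
`h R ≤ (1/R₀) ∫ h + ∫ |h'| ≤ C Λ 2^n ∫ (x^(2m) + y^(2m))` (`1/R₀ ≤ 1 ≤ 2^n`). Let `C = 1 + 2π (2m - 1) Λ` (`m ≤ 6`).
-/

open MeasureTheory Real Set Filter Topology

set_option autoImplicit false

namespace Pool.Agent.Helper60.SV

open Pool.Agent.Helper22.AE
open Pool.Agent.Helper22.AC
open Pool.Agent.Helper22.SC (erc Mom)

open Classical in
/-- the coefficients of the derivative in the radius -/
noncomputable def da (Λ : ℝ) (n : ℕ) (γ : ℝ → ℝ) (a : ℤ × ℤ → ℂ) (k : ℤ × ℤ) : ℂ :=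
  if k ∈ blk n then a k * ((Fk γ k / (Λ * 2 ^ n) : ℝ) : ℂ) else 0

private lemma young49 {x y : ℝ} (hx : 0 ≤ x) (hy : 0 ≤ y) {m : ℕ} (hm : 1 ≤ m) :
    2 * m * x ^ (2 * m - 1) * y ≤ (2 * m - 1) * x ^ (2 * m) + y ^ (2 * m) := by
  rcases hx.eq_or_lt with rfl | hx0
  · have h1 : 2 * m - 1 ≠ 0 := by omega
    have h2 : 2 * m ≠ 0 := by omega
    rw [zero_pow h1, zero_pow h2]
    have := pow_nonneg hy (2 * m)
    linarith
  · have h1 : (-2 : ℝ) ≤ y / x - 1 := by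
      have := div_nonneg hy hx
      linarith
    have h2 := one_add_mul_le_pow h1 (2 * m)
    have h3 : 1 + (y / x - 1) = y / x := by ring
    rw [h3, div_pow] at h2
    have hp : 0 < x ^ (2 * m) := by positivity
    have h4 := mul_le_mul_of_nonneg_left h2 hp.le
    have h5 : x ^ (2 * m) * (y ^ (2 * m) / x ^ (2 * m)) = y ^ (2 * m) := by
      field_simp
    rw [h5] at h4
    obtain ⟨k, rfl⟩ : ∃ k, m = k + 1 := ⟨m - 1, by omega⟩
    have h6 : 2 * (k + 1) - 1 = 2 * k + 1 := by omega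
    have h7 : x ^ (2 * (k + 1)) = x ^ (2 * k + 1) * x := by
      rw [← pow_succ]
      congr 1
    rw [h6]
    have h8 : x ^ (2 * (k + 1)) * (1 + ((2 * (k + 1) : ℕ) : ℝ) * (y / x - 1)) =
        x ^ (2 * (k + 1)) * (1 - 2 * (k + 1)) + 2 * (k + 1) * x ^ (2 * k + 1) * y := by
      rw [h7]
      push_cast
      field_simp
      ring
    rw [h8] at h4
    push_cast
    nlinarith

private lemma sob49 {h h' g : ℝ → ℝ} (hd : ∀ r, HasDerivAt h (h' r) r) (hc : Continuous h')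
    (hgc : Continuous g) (hb : ∀ r, |h' r| ≤ g r) (h0 : ∀ r, 0 ≤ h r) {R₀ : ℝ} (hR₀ : 1 ≤ R₀) {R : ℝ}
    (hR : R ∈ Icc R₀ (2 * R₀)) :
    h R ≤ (∫ r in Icc R₀ (2 * R₀), h r) + ∫ r in Icc R₀ (2 * R₀), g r := by
  have hhc : Continuous h := continuous_iff_continuousAt.2 fun r => (hd r).continuousAt
  have hig : IntegrableOn g (Icc R₀ (2 * R₀)) := hgc.continuousOn.integrableOn_Icc
  have hih : IntegrableOn h (Icc R₀ (2 * R₀)) := hhc.continuousOn.integrableOn_Icc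
  have hg0 : ∀ r, 0 ≤ g r := fun r => (abs_nonneg _).trans (hb r)
  set I : ℝ := ∫ r in Icc R₀ (2 * R₀), g r with hI
  have key : ∀ r ∈ Icc R₀ (2 * R₀), h R - I ≤ h r := by
    intro r hr
    have e1 : ∫ s in r..R, h' s = h R - h r :=
      intervalIntegral.integral_eq_sub_of_hasDerivAt (fun s _ => hd s) (hc.intervalIntegrable _ _)
    have e2 : ‖∫ s in r..R, h' s‖ ≤ ∫ s in uIoc r R, ‖h' s‖ :=
      intervalIntegral.norm_integral_le_integral_norm_uIoc
    have hsub : uIoc r R ⊆ Icc R₀ (2 * R₀) := by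
      intro s hs
      rw [uIoc, mem_Ioc] at hs
      exact ⟨(le_min hr.1 hR.1).trans hs.1.le, hs.2.trans (max_le hr.2 hR.2)⟩
    have e3 : ∫ s in uIoc r R, ‖h' s‖ ≤ I := by
      calc ∫ s in uIoc r R, ‖h' s‖ ≤ ∫ s in uIoc r R, g s := by
            apply setIntegral_mono_on
            · exact (hc.norm.continuousOn.integrableOn_Icc (a := R₀) (b := 2 * R₀)).mono_set hsub
            · exact hig.mono_set hsub
            · exact measurableSet_uIoc
            · intro s _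
              exact hb s
        _ ≤ I := setIntegral_mono_set hig (Filter.Eventually.of_forall hg0)
            (Filter.Eventually.of_forall hsub)
    rw [e1, Real.norm_eq_abs] at e2
    have := le_abs_self (h R - h r)
    linarith
  have hvol : volume.real (Icc R₀ (2 * R₀)) = R₀ := by
    rw [Real.volume_real_Icc]
    rw [max_eq_left (by linarith)]
    ring
  have h1 : ∫ r in Icc R₀ (2 * R₀), (h R - I) ≤ ∫ r in Icc R₀ (2 * R₀), h r := by
    apply setIntegral_mono_on _ hih measurableSet_Icc key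
    exact integrableOn_const (by simp)
  rw [setIntegral_const, hvol, smul_eq_mul] at h1
  by_cases hneg : h R - I ≤ 0
  · have : 0 ≤ ∫ r in Icc R₀ (2 * R₀), h r := integral_nonneg fun r => h0 r
    linarith
  · push Not at hneg
    nlinarith

private lemma cs_deriv49 {Λ : ℝ} (hΛ : 1 ≤ Λ) (n : ℕ) (γ : ℝ → ℝ) (a : ℤ × ℤ → ℂ) (c : ℝ × ℝ) (r : ℝ) :
    HasDerivAt (fun r : ℝ => cs (blk n) a γ (c, r))
      (-(2 * π * Λ * 2 ^ n : ℝ) * Complex.I * cs (blk n) (da Λ n γ a) γ (c, r)) r := by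
  unfold cs
  rw [Finset.mul_sum]
  have hs : HasDerivAt (fun r : ℝ => ∑ k ∈ blk n, a k * ee (-((k.1 : ℝ) * c.1 + (k.2 : ℝ) * c.2 + r * Fk γ k)))
      (∑ k ∈ blk n, a k * (ee (-((k.1 : ℝ) * c.1 + (k.2 : ℝ) * c.2 + r * Fk γ k)) *
        (((2 * π * (-Fk γ k) : ℝ) : ℂ) * Complex.I))) r := by
    apply HasDerivAt.fun_sum
    intro k _
    apply HasDerivAt.const_mul
    unfold ee
    apply HasDerivAt.cexp
    apply HasDerivAt.mul_const
    apply HasDerivAt.ofReal_comp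
    apply HasDerivAt.const_mul
    have h1 : HasDerivAt (fun r : ℝ => (k.1 : ℝ) * c.1 + (k.2 : ℝ) * c.2 + r * Fk γ k) (Fk γ k) r := by
      have := ((hasDerivAt_id r).mul_const (Fk γ k)).const_add ((k.1 : ℝ) * c.1 + (k.2 : ℝ) * c.2)
      rw [one_mul] at this
      exact this
    exact h1.neg
  convert hs using 1
  apply Finset.sum_congr rfl
  intro k hk
  unfold da
  rw [if_pos hk]
  have h2 : (Λ : ℂ) ≠ 0 := by
    exact_mod_cast (by linarith : Λ ≠ 0)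
  have h3 : (2 : ℂ) ^ n ≠ 0 := pow_ne_zero _ (by norm_num)
  push_cast
  field_simp

private lemma cs_cont49 (B : Finset (ℤ × ℤ)) (a : ℤ × ℤ → ℂ) (γ : ℝ → ℝ) (c : ℝ × ℝ) :
    Continuous fun r : ℝ => cs B a γ (c, r) := by
  unfold cs ee
  fun_prop

theorem sup_R {H : ℝ → ℝ} (hH : IsSupp H) : ∃ Λ C : ℝ, 1 ≤ Λ ∧ 1 ≤ C ∧ ∀ (n : ℕ) (α R₀ : ℝ) (a : ℤ × ℤ → ℂ), 1 ≤ R₀ → (∀ k, ‖a k‖ ≤ 1) →
    (∀ k, ‖da Λ n (ga H α) a k‖ ≤ 1) ∧ ∀ (m : ℕ) (c : ℝ × ℝ), 1 ≤ m → m ≤ 6 → ∀ R ∈ Icc R₀ (2 * R₀),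
      ‖cs (blk n) a (ga H α) (c, R)‖ ^ (2 * m) ≤ C * 2 ^ n * ∫ r in Icc R₀ (2 * R₀),
        (‖cs (blk n) a (ga H α) (c, r)‖ ^ (2 * m) + ‖cs (blk n) (da Λ n (ga H α) a) (ga H α) (c, r)‖ ^ (2 * m)) := by
  obtain ⟨Λ₀, hΛ₀, hga⟩ := ga_bdd hH
  set Λ : ℝ := 2 * Λ₀ with hΛdef
  have hΛ : 1 ≤ Λ := by linarith
  have hπ := Real.pi_pos
  refine ⟨Λ, 1 + 2 * π * 11 * Λ, hΛ, by nlinarith [mul_pos hπ (by linarith : 0 < Λ)], ?_⟩
  intro n α R₀ a hR₀ ha
  set γ := ga H α with hγ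
  have h2n : (0 : ℝ) < 2 ^ n := by positivity
  have h2n1 : (1 : ℝ) ≤ 2 ^ n := one_le_pow₀ (by norm_num)
  constructor
  · intro k
    unfold da
    split_ifs with hk
    · rw [norm_mul, Complex.norm_real, Real.norm_eq_abs, abs_div]
      have hk2 : nk k < 2 ^ (n + 1) := by
        unfold blk at hk
        exact (Finset.mem_filter.1 hk).2.2
      have hk0 : 0 ≤ nk k := norm_nonneg _
      have h1 : |Fk γ k| ≤ Λ * 2 ^ n := by
        unfold Fk
        rw [abs_mul, abs_of_nonneg hk0]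
        have h3 := hga α (tk k)
        have h4 : nk k * |γ (tk k)| ≤ 2 ^ (n + 1) * Λ₀ :=
          mul_le_mul hk2.le h3 (abs_nonneg _) (by positivity)
        rw [pow_succ] at h4
        rw [hΛdef]
        linarith
      have h5 : |Λ * 2 ^ n| = Λ * 2 ^ n := abs_of_pos (by positivity)
      rw [h5]
      have h6 : |Fk γ k| / (Λ * 2 ^ n) ≤ 1 := by
        rw [div_le_one (by positivity)]
        exact h1
      have h7 : 0 ≤ |Fk γ k| / (Λ * 2 ^ n) := by positivity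
      calc ‖a k‖ * (|Fk γ k| / (Λ * 2 ^ n)) ≤ 1 * 1 := mul_le_mul (ha k) h6 h7 (by norm_num)
        _ = 1 := one_mul 1
    · rw [norm_zero]
      exact zero_le_one
  · intro m c hm1 hm6 R hR
    set f : ℝ → ℂ := fun r => cs (blk n) a γ (c, r) with hf
    set g : ℝ → ℂ := fun r => cs (blk n) (da Λ n γ a) γ (c, r) with hg
    set W : ℝ := 2 * π * Λ * 2 ^ n with hW
    have hW0 : 0 < W := by positivity
    have hfd : ∀ r, HasDerivAt f (-(W : ℂ) * Complex.I * g r) r := by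
      intro r
      have h := cs_deriv49 hΛ n γ a c r
      rw [← hW] at h
      exact_mod_cast h
    have hfc : Continuous f := cs_cont49 _ _ _ _
    have hgc : Continuous g := cs_cont49 _ _ _ _
    have hnf : ∀ r, ‖-(W : ℂ) * Complex.I * g r‖ = W * ‖g r‖ := by
      intro r
      rw [norm_mul, norm_mul, norm_neg, Complex.norm_I, mul_one, Complex.norm_real, Real.norm_eq_abs,
        abs_of_pos hW0]
    have hd : ∀ r, HasDerivAt (fun r => ‖f r‖ ^ (2 * m))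
        ((m : ℝ) * (‖f r‖ ^ 2) ^ (m - 1) * (2 * inner ℝ (f r) (-(W : ℂ) * Complex.I * g r))) r := by
      intro r
      have h1 := ((hfd r).norm_sq).pow m
      have h2 : (fun r => ‖f r‖ ^ (2 * m)) = fun r => (‖f r‖ ^ 2) ^ m := by
        funext r
        rw [pow_mul]
      rw [h2]
      exact h1
    have hcont : Continuous fun r => (m : ℝ) * (‖f r‖ ^ 2) ^ (m - 1) * (2 * inner ℝ (f r) (-(W : ℂ) * Complex.I * g r)) := by
      have h1 : Continuous fun r => inner ℝ (f r) (-(W : ℂ) * Complex.I * g r) :=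
        hfc.inner (continuous_const.mul hgc)
      exact (continuous_const.mul ((hfc.norm.pow 2).pow _)).mul (continuous_const.mul h1)
    have hbd : ∀ r, |(m : ℝ) * (‖f r‖ ^ 2) ^ (m - 1) * (2 * inner ℝ (f r) (-(W : ℂ) * Complex.I * g r))| ≤
        W * ((2 * m - 1) * ‖f r‖ ^ (2 * m) + ‖g r‖ ^ (2 * m)) := by
      intro r
      have h1 : |inner ℝ (f r) (-(W : ℂ) * Complex.I * g r)| ≤ ‖f r‖ * (W * ‖g r‖) := by
        have := abs_real_inner_le_norm (f r) (-(W : ℂ) * Complex.I * g r)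
        rwa [hnf] at this
      have h2 : |(m : ℝ) * (‖f r‖ ^ 2) ^ (m - 1) * (2 * inner ℝ (f r) (-(W : ℂ) * Complex.I * g r))| =
          (m : ℝ) * (‖f r‖ ^ 2) ^ (m - 1) * (2 * |inner ℝ (f r) (-(W : ℂ) * Complex.I * g r)|) := by
        rw [abs_mul, abs_mul, abs_mul, abs_of_nonneg (by positivity : (0 : ℝ) ≤ (m : ℝ)),
          abs_of_nonneg (by positivity : (0 : ℝ) ≤ (‖f r‖ ^ 2) ^ (m - 1)), abs_of_pos (by norm_num : (0 : ℝ) < 2)]
      rw [h2]
      have h3 : (m : ℝ) * (‖f r‖ ^ 2) ^ (m - 1) * (2 * |inner ℝ (f r) (-(W : ℂ) * Complex.I * g r)|) ≤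
          (m : ℝ) * (‖f r‖ ^ 2) ^ (m - 1) * (2 * (‖f r‖ * (W * ‖g r‖))) := by
        apply mul_le_mul_of_nonneg_left _ (by positivity)
        linarith
      refine h3.trans ?_
      have h4 : (m : ℝ) * (‖f r‖ ^ 2) ^ (m - 1) * (2 * (‖f r‖ * (W * ‖g r‖))) =
          W * (2 * m * ‖f r‖ ^ (2 * m - 1) * ‖g r‖) := by
        have h5 : ‖f r‖ ^ (2 * m - 1) = (‖f r‖ ^ 2) ^ (m - 1) * ‖f r‖ := by
          rw [← pow_mul, ← pow_succ]
          congr 1
          omega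
        rw [h5]
        ring
      rw [h4]
      exact mul_le_mul_of_nonneg_left (young49 (norm_nonneg _) (norm_nonneg _) hm1) hW0.le
    have hgcont : Continuous fun r => W * ((2 * (m : ℝ) - 1) * ‖f r‖ ^ (2 * m) + ‖g r‖ ^ (2 * m)) :=
      continuous_const.mul ((continuous_const.mul (hfc.norm.pow _)).add (hgc.norm.pow _))
    have hmain := sob49 hd hcont hgcont hbd (fun r => by positivity) hR₀ hR
    have hif : IntegrableOn (fun r => ‖f r‖ ^ (2 * m)) (Icc R₀ (2 * R₀)) :=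
      (hfc.norm.pow _).continuousOn.integrableOn_Icc
    have hig : IntegrableOn (fun r => ‖g r‖ ^ (2 * m)) (Icc R₀ (2 * R₀)) :=
      (hgc.norm.pow _).continuousOn.integrableOn_Icc
    refine hmain.trans ?_
    rw [integral_const_mul, integral_add (hif.const_mul _) hig, integral_const_mul,
      integral_add hif hig]
    set A : ℝ := ∫ r in Icc R₀ (2 * R₀), ‖f r‖ ^ (2 * m) with hA
    set B : ℝ := ∫ r in Icc R₀ (2 * R₀), ‖g r‖ ^ (2 * m) with hB
    have hA0 : 0 ≤ A := integral_nonneg fun r => by positivity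
    have hB0 : 0 ≤ B := integral_nonneg fun r => by positivity
    have hm : (2 * (m : ℝ) - 1) ≤ 11 := by
      have : (m : ℝ) ≤ 6 := by exact_mod_cast hm6
      linarith
    have hm' : (1 : ℝ) ≤ m := by exact_mod_cast hm1
    have hP : 0 < 2 * π * Λ := by positivity
    have e1 : (2 * (m : ℝ) - 1) * A ≤ 11 * A := mul_le_mul_of_nonneg_right hm hA0
    have e2 : W * ((2 * (m : ℝ) - 1) * A + B) ≤ W * (11 * (A + B)) :=
      mul_le_mul_of_nonneg_left (by linarith) hW0.le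
    have e3 : A ≤ 2 ^ n * (A + B) := by nlinarith
    calc A + W * ((2 * (m : ℝ) - 1) * A + B) ≤ 2 ^ n * (A + B) + W * (11 * (A + B)) := add_le_add e3 e2
      _ = (1 + 2 * π * 11 * Λ) * 2 ^ n * (A + B) := by
          rw [hW]
          ring

end Pool.Agent.Helper60.SV
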