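import Pool.Agent.Helper60.SV.H2

/-!
# SV-H3: Borel-Cantelli

PROOF. `blocks` with `ε/4`: for every `N`, `n ≤ N`, `σ` (`R₀ = 2^N`, `δ = R₀^(-1/2)`) functions `G`, `M6`, `M12` (choice). Bad sets in `Tq`: `{M6 > (1/2).. R₀^(4+ε)(2^n)^(-2)(1 + 8^n/R₀)}`, `{∫_R G(c, ·)⁶ > R₀^(4+ε)(2^n)^(-3)(1+8^n/R₀)}`, and for `16^n ≤ R₀`
`{M12 > R₀^(7+ε)}`, `{∫_R G(c, ·)^12 > R₀^(7+ε)(2^n)^(-1)}`: by Markov (`mul_meas_ge_le_lintegral`, or `meas_ge_le_integral_div`; Fubini for the integrals over `Tq × [R₀, 2R₀]`) each has measure at most `C (2^n)^(ε/4) R₀^(-ε) ≤ C R₀^(-3ε/4)`. The union over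
`n ≤ N`, `σ = ±1` and the four kinds has measure `≤ 8 C (N + 1) 2^(-3εN/4)`, summable; Borel-Cantelli (`measure_limsup_cofinite_eq_zero`/`ae_eventually_notMem`, as in SC.T3). The bound `C R₀^(1/2) 2^(n/2)` becomes `R₀^ε R₀^(1/2) 2^(n/2)` for `N ≥ N₀`.
`g R = G (c, R)`.
-/

open MeasureTheory Real Set Filter Topology

set_option autoImplicit false

namespace Pool.Agent.Helper60.SV

open Pool.Agent.Helper22.AE
open Pool.Agent.Helper22.AC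
open Pool.Agent.Helper22.SC (erc Mom)

/-- Borel-Cantelli for functions with small integrals -/
private lemma bc17 {α : Type*} [MeasurableSpace α] {μ : Measure α} [IsFiniteMeasure μ] (F : ℕ → ℕ → Bool → α → ℝ)
    (hF0 : ∀ N n b c, 0 ≤ F N n b c) (hFi : ∀ N n b, Integrable (F N n b) μ) {C ρ : ℝ} (hC : 0 ≤ C) (hρ0 : 0 < ρ)
    (hρ1 : ρ < 1) (h : ∀ N n b, n ≤ N → ∫ c, F N n b c ∂μ ≤ C * ρ ^ N) :
    ∀ᵐ c ∂μ, ∃ N₀ : ℕ, ∀ N : ℕ, N₀ ≤ N → ∀ n ≤ N, ∀ b, F N n b c ≤ 1 := by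
  have hM : ∀ N n b, n ≤ N → μ {c | 1 ≤ F N n b c} ≤ ENNReal.ofReal (C * ρ ^ N) := by
    intro N n b hn
    have h1 := mul_meas_ge_le_integral_of_nonneg (Eventually.of_forall fun c => hF0 N n b c) (hFi N n b) 1
    rw [one_mul] at h1
    rw [← ofReal_measureReal]
    exact ENNReal.ofReal_le_ofReal (h1.trans (h N n b hn))
  obtain ⟨B, hB⟩ : ∃ B : ℕ → Set α, B = fun N => ⋃ n ∈ Finset.range (N + 1), ⋃ b : Bool, {c | 1 ≤ F N n b c} := ⟨_, rfl⟩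
  have hBm : ∀ N, μ (B N) ≤ ENNReal.ofReal (2 * C * (((N : ℝ) ^ 1 * ρ ^ N) + ρ ^ N)) := by
    intro N
    have hx : 0 ≤ C * ρ ^ N := by positivity
    rw [hB]
    refine (measure_biUnion_finset_le _ _).trans ?_
    have h1 : ∀ n ∈ Finset.range (N + 1), μ (⋃ b : Bool, {c | 1 ≤ F N n b c}) ≤ ENNReal.ofReal (2 * (C * ρ ^ N)) := by
      intro n hn
      have hn' : n ≤ N := by have := Finset.mem_range.1 hn; omega
      refine (measure_iUnion_fintype_le _ _).trans ?_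
      rw [Fintype.sum_bool]
      refine (add_le_add (hM N n true hn') (hM N n false hn')).trans ?_
      rw [← ENNReal.ofReal_add hx hx, two_mul]
    refine (Finset.sum_le_sum h1).trans ?_
    rw [Finset.sum_const, Finset.card_range, nsmul_eq_mul, ← ENNReal.ofReal_natCast, ← ENNReal.ofReal_mul (Nat.cast_nonneg _)]
    apply ENNReal.ofReal_le_ofReal
    apply le_of_eq
    push_cast
    ring
  have hsum : ∑' N, μ (B N) ≠ ⊤ := by
    have h1 : Summable fun N : ℕ => (N : ℝ) ^ 1 * ρ ^ N :=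
      summable_pow_mul_geometric_of_norm_lt_one 1 (by rw [Real.norm_eq_abs, abs_of_pos hρ0]; exact hρ1)
    have h2 : Summable fun N : ℕ => 2 * C * (((N : ℝ) ^ 1 * ρ ^ N) + ρ ^ N) :=
      (h1.add (summable_geometric_of_lt_one hρ0.le hρ1)).mul_left _
    exact ne_top_of_le_ne_top h2.tsum_ofReal_ne_top (ENNReal.tsum_le_tsum hBm)
  filter_upwards [ae_eventually_notMem hsum] with c hc
  obtain ⟨N₀, hN₀⟩ := eventually_atTop.1 hc
  refine ⟨N₀, fun N hN n hn b => ?_⟩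
  have h1 := hN₀ N hN
  by_contra h2
  apply h1
  rw [hB]
  simp only [Set.mem_iUnion, Set.mem_ofPred_eq]
  exact ⟨n, Finset.mem_range.2 (by omega), b, (not_le.1 h2).le⟩

private lemma num17 {R x C a s w ε : ℝ} (hx : 1 ≤ x) (hxR : x ≤ R) (hC : 0 ≤ C) (hw : 0 ≤ w) (hε : 0 < ε) :
    C * R ^ a * x ^ (s + ε / 4) * w ≤ (R ^ (a + ε) * x ^ s * w) * (C * R ^ (-(3 * ε / 4))) := by
  have hR0 : 0 < R := by linarith
  have hx0 : 0 < x := by linarith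
  have h1 : x ^ (ε / 4) ≤ R ^ (ε / 4) := rpow_le_rpow hx0.le hxR (by positivity)
  have h2 : R ^ (a + ε) * R ^ (-(3 * ε / 4)) = R ^ a * R ^ (ε / 4) := by
    rw [← rpow_add hR0, ← rpow_add hR0]
    congr 1
    ring
  have h3 : 0 < R ^ a := rpow_pos_of_pos hR0 _
  have h4 : 0 < x ^ s := rpow_pos_of_pos hx0 _
  calc C * R ^ a * x ^ (s + ε / 4) * w = C * R ^ a * x ^ s * w * x ^ (ε / 4) := by rw [rpow_add hx0]; ring
    _ ≤ C * R ^ a * x ^ s * w * R ^ (ε / 4) := mul_le_mul_of_nonneg_left h1 (by positivity)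
    _ = C * x ^ s * w * (R ^ a * R ^ (ε / 4)) := by ring
    _ = C * x ^ s * w * (R ^ (a + ε) * R ^ (-(3 * ε / 4))) := by rw [h2]
    _ = _ := by ring

/-- normalised -/
private lemma nrm17 {α : Type*} [MeasurableSpace α] {μ : Measure α} (M : α → ℝ) {Q A K : ℝ} (hQ : 0 < Q)
    (h : ∫ c, M c ∂μ ≤ A) (hA : A ≤ Q * K) : ∫ c, M c / Q ∂μ ≤ K := by
  rw [integral_div, div_le_iff₀ hQ, mul_comm K]
  exact h.trans hA

theorem ae_blocks {H : ℝ → ℝ} (hH : IsSupp H) (h5 : ContDiff ℝ 5 H) {φ : ℝ × ℝ → ℝ} (hφ : IsBump φ) {ε : ℝ} (hε : 0 < ε) :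
    ∀ᵐ c ∂(volume.restrict (Icc (0 : ℝ) 1 ×ˢ Icc (0 : ℝ) 1)), ∃ N₀ : ℕ, ∀ N : ℕ, N₀ ≤ N → ∀ n ≤ N, ∀ σ : ℝ, (σ = 1 ∨ σ = -1) → ∀ R₀ : ℝ, R₀ = 2 ^ N →
      ∃ g : ℝ → ℝ, Continuous g ∧ (∀ R, 0 ≤ g R) ∧
        (∀ R ∈ Icc R₀ (2 * R₀), (IsSupp (fun θ => R * H θ + σ * R₀ ^ (-(1 / 2 : ℝ))) →
            ‖VKc φ (fun θ => R * H θ + σ * R₀ ^ (-(1 / 2 : ℝ))) (R₀ ^ (-(1 / 2 : ℝ))) n c‖ ≤ g R) ∧
          g R ≤ R₀ ^ (1 / 2 + ε) * (2 : ℝ) ^ ((n : ℝ) / 2) ∧ g R ^ 6 ≤ R₀ ^ (4 + ε) * ((2 : ℝ) ^ n) ^ (-2 : ℝ) * (1 + 8 ^ n / R₀) ∧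
          ((16 : ℝ) ^ n ≤ R₀ → g R ^ 12 ≤ R₀ ^ (7 + ε))) ∧
        ∫ R in Icc R₀ (2 * R₀), g R ^ 6 ≤ R₀ ^ (4 + ε) * ((2 : ℝ) ^ n) ^ (-3 : ℝ) * (1 + 8 ^ n / R₀) ∧
        ((16 : ℝ) ^ n ≤ R₀ → ∫ R in Icc R₀ (2 * R₀), g R ^ 12 ≤ R₀ ^ (7 + ε) * ((2 : ℝ) ^ n) ^ (-1 : ℝ)) := by
  classical
  obtain ⟨C, hC1, hbl⟩ := blocks hH h5 hφ (show 0 < ε / 4 by positivity)
  have hC0 : 0 ≤ C := by linarith
  obtain ⟨S, hS⟩ : ∃ S : Set (ℝ × ℝ), S = Icc (0 : ℝ) 1 ×ˢ Icc (0 : ℝ) 1 := ⟨_, rfl⟩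
  rw [← hS] at hbl ⊢
  have hScomp : IsCompact S := by rw [hS]; exact isCompact_Icc.prod isCompact_Icc
  have hfin : IsFiniteMeasure ((volume : Measure (ℝ × ℝ)).restrict S) := ⟨by
    rw [Measure.restrict_apply_univ]
    exact hScomp.measure_lt_top⟩
  -- the radii
  obtain ⟨Rf, hRf⟩ : ∃ Rf : ℕ → ℝ, Rf = fun N => (2 : ℝ) ^ N := ⟨_, rfl⟩
  have hR1 : ∀ N, 1 ≤ Rf N := by
    intro N
    rw [hRf]
    exact one_le_pow₀ (by norm_num)
  have hx1 : ∀ n : ℕ, (1 : ℝ) ≤ (2 : ℝ) ^ n := fun n => one_le_pow₀ (by norm_num)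
  have hxR : ∀ {n N : ℕ}, n ≤ N → (2 : ℝ) ^ n ≤ Rf N := by
    intro n N h
    rw [hRf]
    exact pow_le_pow_right₀ (by norm_num) h
  have hδ : ∀ N, Rf N ^ (-(1 / 2 : ℝ)) ∈ Icc (0 : ℝ) 1 := fun N =>
    ⟨rpow_nonneg (by linarith [hR1 N]) _, rpow_le_one_of_one_le_of_nonpos (hR1 N) (by norm_num)⟩
  obtain ⟨sg, hsg⟩ : ∃ sg : Bool → ℝ, sg = fun b => if b then 1 else -1 := ⟨_, rfl⟩
  have hsg' : ∀ b, sg b = 1 ∨ sg b = -1 := by
    intro b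
    rw [hsg]
    cases b
    · right
      simp
    · left
      simp
  -- the choice
  have key : ∀ (N n : ℕ) (b : Bool), ∃ (G : (ℝ × ℝ) × ℝ → ℝ) (M6 M12 : ℝ × ℝ → ℝ), Continuous G ∧ Continuous M6 ∧ Continuous M12 ∧
      (∀ q, 0 ≤ G q) ∧ (∀ c, 0 ≤ M6 c) ∧ (∀ c, 0 ≤ M12 c) ∧ (n ≤ N →
        (∀ c : ℝ × ℝ, ∀ R ∈ Icc (Rf N) (2 * Rf N), (IsSupp (fun θ => R * H θ + sg b * Rf N ^ (-(1 / 2 : ℝ))) →
          ‖VKc φ (fun θ => R * H θ + sg b * Rf N ^ (-(1 / 2 : ℝ))) (Rf N ^ (-(1 / 2 : ℝ))) n c‖ ≤ G (c, R)) ∧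
          G (c, R) ≤ C * Rf N ^ (1 / 2 : ℝ) * (2 : ℝ) ^ ((n : ℝ) / 2) ∧ G (c, R) ^ 6 ≤ M6 c ∧ G (c, R) ^ 12 ≤ M12 c) ∧
        ∫ c in S, M6 c ≤ C * Rf N ^ 4 * ((2 : ℝ) ^ n) ^ (-2 + ε / 4) * (1 + 8 ^ n / Rf N) ∧
        ∫ q in S ×ˢ Icc (Rf N) (2 * Rf N), G q ^ 6 ≤ C * Rf N ^ 4 * ((2 : ℝ) ^ n) ^ (-3 + ε / 4) * (1 + 8 ^ n / Rf N) ∧
        ((16 : ℝ) ^ n ≤ Rf N → ∫ c in S, M12 c ≤ C * Rf N ^ 7 * ((2 : ℝ) ^ n) ^ (ε / 4) ∧
          ∫ q in S ×ˢ Icc (Rf N) (2 * Rf N), G q ^ 12 ≤ C * Rf N ^ 7 * ((2 : ℝ) ^ n) ^ (-1 + ε / 4))) := by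
    intro N n b
    by_cases hn : n ≤ N
    · obtain ⟨G, M6, M12, hG, hM6, hM12, hG0, hpt, hi1, hi2, hi3⟩ := hbl (Rf N) (hR1 N) n (hxR hn) (Rf N ^ (-(1 / 2 : ℝ))) (hδ N) (sg b) (hsg' b)
      have hmem : Rf N ∈ Icc (Rf N) (2 * Rf N) := ⟨le_rfl, by linarith [hR1 N]⟩
      exact ⟨G, M6, M12, hG, hM6, hM12, hG0, fun c => (pow_nonneg (hG0 _) 6).trans (hpt c _ hmem).2.2.1,
        fun c => (pow_nonneg (hG0 _) 12).trans (hpt c _ hmem).2.2.2, fun _ => ⟨hpt, hi1, hi2, hi3⟩⟩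
    · exact ⟨fun _ => 0, fun _ => 0, fun _ => 0, continuous_const, continuous_const, continuous_const, fun _ => le_rfl,
        fun _ => le_rfl, fun _ => le_rfl, fun h => absurd h hn⟩
  choose G M6 M12 hG hM6 hM12 hG0 hM60 hM120 hkey using key
  obtain ⟨ρ, hρ⟩ : ∃ ρ : ℝ, ρ = (2 : ℝ) ^ (-(3 * ε / 4)) := ⟨_, rfl⟩
  have hρ0 : 0 < ρ := by rw [hρ]; positivity
  have hρ1 : ρ < 1 := by rw [hρ]; exact rpow_lt_one_of_one_lt_of_neg (by norm_num) (by linarith)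
  have hρN : ∀ N : ℕ, Rf N ^ (-(3 * ε / 4)) = ρ ^ N := by
    intro N
    rw [hRf, hρ]
    simp only
    rw [← rpow_natCast (2 : ℝ) N, ← rpow_mul (by norm_num), mul_comm, rpow_mul (by norm_num), rpow_natCast]
  have hRp : ∀ N, 0 < Rf N := fun N => by linarith [hR1 N]
  have hxp : ∀ n : ℕ, (0 : ℝ) < (2 : ℝ) ^ n := fun n => by positivity
  have hw : ∀ N n : ℕ, (0 : ℝ) < 1 + 8 ^ n / Rf N := fun N n => by
    have := hRp N
    positivity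
  -- the four thresholds
  obtain ⟨Q1, hQ1⟩ : ∃ Q1 : ℕ → ℕ → ℝ, Q1 = fun N n => Rf N ^ (4 + ε) * ((2 : ℝ) ^ n) ^ (-2 : ℝ) * (1 + 8 ^ n / Rf N) := ⟨_, rfl⟩
  obtain ⟨Q2, hQ2⟩ : ∃ Q2 : ℕ → ℕ → ℝ, Q2 = fun N n => Rf N ^ (4 + ε) * ((2 : ℝ) ^ n) ^ (-3 : ℝ) * (1 + 8 ^ n / Rf N) := ⟨_, rfl⟩
  obtain ⟨Q3, hQ3⟩ : ∃ Q3 : ℕ → ℕ → ℝ, Q3 = fun N _ => Rf N ^ (7 + ε) := ⟨_, rfl⟩
  obtain ⟨Q4, hQ4⟩ : ∃ Q4 : ℕ → ℕ → ℝ, Q4 = fun N n => Rf N ^ (7 + ε) * ((2 : ℝ) ^ n) ^ (-1 : ℝ) := ⟨_, rfl⟩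
  have hQ1p : ∀ N n, 0 < Q1 N n := fun N n => by
    rw [hQ1]
    exact mul_pos (mul_pos (rpow_pos_of_pos (hRp N) _) (rpow_pos_of_pos (hxp n) _)) (hw N n)
  have hQ2p : ∀ N n, 0 < Q2 N n := fun N n => by
    rw [hQ2]
    exact mul_pos (mul_pos (rpow_pos_of_pos (hRp N) _) (rpow_pos_of_pos (hxp n) _)) (hw N n)
  have hQ3p : ∀ N n, 0 < Q3 N n := fun N n => by
    rw [hQ3]
    exact rpow_pos_of_pos (hRp N) _
  have hQ4p : ∀ N n, 0 < Q4 N n := fun N n => by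
    rw [hQ4]
    exact mul_pos (rpow_pos_of_pos (hRp N) _) (rpow_pos_of_pos (hxp n) _)
  -- integrability
  have hGint : ∀ N n b (k : ℕ), IntegrableOn (fun q => G N n b q ^ k) (S ×ˢ Icc (Rf N) (2 * Rf N)) (volume.prod volume) := by
    intro N n b k
    rw [← Measure.volume_eq_prod]
    exact ((hG N n b).pow k).continuousOn.integrableOn_compact (hScomp.prod isCompact_Icc)
  have hGi : ∀ N n b (k : ℕ), Integrable (fun c => ∫ R in Icc (Rf N) (2 * Rf N), G N n b (c, R) ^ k) (volume.restrict S) := by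
    intro N n b k
    have h1 : Integrable (fun q => G N n b q ^ k) ((volume.restrict S).prod (volume.restrict (Icc (Rf N) (2 * Rf N)))) := by
      rw [Measure.prod_restrict]
      exact hGint N n b k
    exact h1.integral_prod_left
  have hGe : ∀ N n b (k : ℕ), ∫ c in S, ∫ R in Icc (Rf N) (2 * Rf N), G N n b (c, R) ^ k =
      ∫ q in S ×ˢ Icc (Rf N) (2 * Rf N), G N n b q ^ k := by
    intro N n b k
    have h1 := setIntegral_prod (μ := (volume : Measure (ℝ × ℝ))) (ν := (volume : Measure ℝ)) (fun q => G N n b q ^ k) (hGint N n b k)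
    rw [← Measure.volume_eq_prod] at h1
    exact h1.symm
  have hMi : ∀ M : ℝ × ℝ → ℝ, Continuous M → Integrable M (volume.restrict S) := fun M hM =>
    hM.continuousOn.integrableOn_compact hScomp
  -- the four applications of Borel-Cantelli
  have hB1 := bc17 (μ := (volume : Measure (ℝ × ℝ)).restrict S) (fun N n b c => M6 N n b c / Q1 N n)
    (fun N n b c => div_nonneg (hM60 N n b c) (hQ1p N n).le) (fun N n b => (hMi _ (hM6 N n b)).div_const _) hC0 hρ0 hρ1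
    (fun N n b hn => by
      refine nrm17 _ (hQ1p N n) (hkey N n b hn).2.1 ?_
      have h1 := num17 (R := Rf N) (x := (2 : ℝ) ^ n) (C := C) (a := 4) (s := -2) (w := 1 + 8 ^ n / Rf N) (ε := ε) (hx1 n) (hxR hn) hC0
        (hw N n).le hε
      rw [hρN] at h1
      rw [hQ1]
      refine le_trans (le_of_eq ?_) h1
      norm_cast)
  have hB2 := bc17 (μ := (volume : Measure (ℝ × ℝ)).restrict S) (fun N n b c => (∫ R in Icc (Rf N) (2 * Rf N), G N n b (c, R) ^ 6) / Q2 N n)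
    (fun N n b c => div_nonneg (integral_nonneg fun R => pow_nonneg (hG0 N n b _) 6) (hQ2p N n).le)
    (fun N n b => (hGi N n b 6).div_const _) hC0 hρ0 hρ1
    (fun N n b hn => by
      refine nrm17 _ (hQ2p N n) ((hGe N n b 6).trans_le (hkey N n b hn).2.2.1) ?_
      have h1 := num17 (R := Rf N) (x := (2 : ℝ) ^ n) (C := C) (a := 4) (s := -3) (w := 1 + 8 ^ n / Rf N) (ε := ε) (hx1 n) (hxR hn) hC0
        (hw N n).le hε
      rw [hρN] at h1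
      rw [hQ2]
      refine le_trans (le_of_eq ?_) h1
      norm_cast)
  have hB3 := bc17 (μ := (volume : Measure (ℝ × ℝ)).restrict S) (fun N n b c => if (16 : ℝ) ^ n ≤ Rf N then M12 N n b c / Q3 N n else 0)
    (fun N n b c => by
      split_ifs
      · exact div_nonneg (hM120 N n b c) (hQ3p N n).le
      · exact le_rfl) (fun N n b => by
      split_ifs
      · exact (hMi _ (hM12 N n b)).div_const _
      · exact integrable_zero _ _ _) hC0 hρ0 hρ1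
    (fun N n b hn => by
      split_ifs with h16
      · refine nrm17 _ (hQ3p N n) ((hkey N n b hn).2.2.2 h16).1 ?_
        have h1 := num17 (R := Rf N) (x := (2 : ℝ) ^ n) (C := C) (a := 7) (s := 0) (w := 1) (ε := ε) (hx1 n) (hxR hn) hC0
          zero_le_one hε
        rw [hρN, rpow_zero, mul_one, mul_one, mul_one, zero_add] at h1
        rw [hQ3]
        refine le_trans (le_of_eq ?_) h1
        norm_cast
      · rw [integral_zero]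
        positivity)
  have hB4 := bc17 (μ := (volume : Measure (ℝ × ℝ)).restrict S)
    (fun N n b c => if (16 : ℝ) ^ n ≤ Rf N then (∫ R in Icc (Rf N) (2 * Rf N), G N n b (c, R) ^ 12) / Q4 N n else 0)
    (fun N n b c => by
      split_ifs
      · exact div_nonneg (integral_nonneg fun R => pow_nonneg (hG0 N n b _) 12) (hQ4p N n).le
      · exact le_rfl) (fun N n b => by
      split_ifs
      · exact (hGi N n b 12).div_const _
      · exact integrable_zero _ _ _) hC0 hρ0 hρ1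
    (fun N n b hn => by
      split_ifs with h16
      · refine nrm17 _ (hQ4p N n) ((hGe N n b 12).trans_le ((hkey N n b hn).2.2.2 h16).2) ?_
        have h1 := num17 (R := Rf N) (x := (2 : ℝ) ^ n) (C := C) (a := 7) (s := -1) (w := 1) (ε := ε) (hx1 n) (hxR hn) hC0
          zero_le_one hε
        rw [hρN, mul_one, mul_one] at h1
        rw [hQ4]
        refine le_trans (le_of_eq ?_) h1
        norm_cast
      · rw [integral_zero]
        positivity)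
  -- the constant
  have hRinf : Tendsto (fun N : ℕ => Rf N ^ ε) atTop atTop := by
    rw [hRf]
    exact (tendsto_rpow_atTop hε).comp (tendsto_pow_atTop_atTop_of_one_lt (by norm_num))
  obtain ⟨N₅, hN₅⟩ := eventually_atTop.1 (hRinf.eventually_ge_atTop C)
  filter_upwards [hB1, hB2, hB3, hB4] with c h1 h2 h3 h4
  obtain ⟨N₁, h1⟩ := h1
  obtain ⟨N₂, h2⟩ := h2
  obtain ⟨N₃, h3⟩ := h3
  obtain ⟨N₄, h4⟩ := h4
  refine ⟨N₁ + N₂ + N₃ + N₄ + N₅, fun N hN n hn σ hσ R₀ hR₀ => ?_⟩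
  have hRR : R₀ = Rf N := by rw [hR₀, hRf]
  obtain ⟨b, hb⟩ : ∃ b, σ = sg b := by
    rcases hσ with h | h
    · exact ⟨true, by rw [h, hsg]; simp⟩
    · exact ⟨false, by rw [h, hsg]; simp⟩
  rw [hRR, hb]
  have g1 := (div_le_one (hQ1p N n)).1 (h1 N (by omega) n hn b)
  have g2 := (div_le_one (hQ2p N n)).1 (h2 N (by omega) n hn b)
  have g3 := h3 N (by omega) n hn b
  have g4 := h4 N (by omega) n hn b
  have g5 := hN₅ N (by omega)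
  obtain ⟨hpt, -, -, -⟩ := hkey N n b hn
  refine ⟨fun R => G N n b (c, R), (hG N n b).comp (by fun_prop), fun R => hG0 N n b _, fun R hR => ⟨(hpt c R hR).1, ?_, ?_, ?_⟩, ?_, ?_⟩
  · refine (hpt c R hR).2.1.trans ?_
    apply mul_le_mul_of_nonneg_right _ (by positivity)
    rw [rpow_add (hRp N), mul_comm (Rf N ^ (1 / 2 : ℝ))]
    exact mul_le_mul_of_nonneg_right g5 (rpow_nonneg (hRp N).le _)
  · refine (hpt c R hR).2.2.1.trans ?_
    rw [hQ1] at g1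
    exact g1
  · intro h16
    rw [if_pos h16, hQ3] at g3
    exact (hpt c R hR).2.2.2.trans ((div_le_one (rpow_pos_of_pos (hRp N) _)).1 g3)
  · rw [hQ2] at g2
    exact g2
  · intro h16
    rw [if_pos h16] at g4
    have g4' := (div_le_one (hQ4p N n)).1 g4
    rw [hQ4] at g4'
    exact g4'

end Pool.Agent.Helper60.SV
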