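import Pool.Agent.Helper60.SV.H3
import Pool.Agent.Helper22.SC.T3b
import Pool.Agent.Helper22.AC.D1
import Pool.Agent.Helper22.AE.P1

/-!
# SV-H4: one dyadic range

PROOF. `φ` from `exists_bump`; `errc_le_blocks` with `τ = 1/2`, `e2 = ε/8` (assume `ε ≤ 1`), `n1` least with `R₀^(1/2 + e2) ≤ 2^n1` (`n1 ≤ N`, `2^n ≤ R₀^(1/2 + e2)` for `n < n1`): `|erc H c R| ≤ C R₀^(1/2) + ∑_{n < n1} (g_{n,1} R + g_{n,-1} R) =: E R`, continuous in `R`.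
`ae_blocks` with `ε/8`. For `16^n ≤ R₀`: `g ≤ R₀^((7 + ε/8)/12)` and `∫ g^14 ≤ (sup g)² ∫ g^12 ≤ R₀^(1 + ε/4) 2^n · R₀^(7 + ε/8) 2^(-n) ≤ R₀^(8 + ε/2)`. For `16^n > R₀`: `(2^n)^(-2) ≤ R₀^(-1/2)`, `(2^n)^(-2) 8^n/R₀ = 2^n/R₀ ≤ R₀^(-1/2 + e2)`, so
`g⁶ ≤ 2 R₀^(7/2 + ε/8 + e2)`, `g ≤ 2 R₀^(7/12 + ε/24)`; `∫ g⁶ ≤ R₀^(4+ε/8)(R₀^(-3/4) + R₀^(-1))`, `∫ g^14 ≤ (sup g)^8 ∫ g⁶ ≤ 2^9 R₀^(14/3 + ε/3 + 13/4 + ε/8) ≤ 2^9 R₀^(8 + ε)` (`14/3 + 13/4 = 95/12 < 8`).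
Sum over at most `2 (N + 1)` functions: `(∑ x_i)^14 ≤ (2N + 3)^13 ∑ x_i^14`, and `(2N+3)^13 ≤ C R₀^(ε/8)`.
-/

open MeasureTheory Real Set Filter Topology

set_option autoImplicit false

namespace Pool.Agent.Helper60.SV

open Pool.Agent.Helper22.AE
open Pool.Agent.Helper22.AC
open Pool.Agent.Helper22.SC (erc Mom)


private lemma sup_h93 {r κ x g : ℝ} (hr : 1 ≤ r) (hκ : 0 < κ) (hx : 0 < x) (hxr : x ≤ r ^ (1 / 2 + κ))
    (h6 : g ^ 6 ≤ r ^ (4 + κ) * x ^ (-2 : ℝ) * (1 + x ^ 3 / r)) (h12 : x ^ 4 ≤ r → g ^ 12 ≤ r ^ (7 + κ)) :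
    g ≤ 2 * r ^ (7 / 12 + κ) := by
  have hr0 : 0 < r := by linarith
  have hp : 0 < r ^ (7 / 12 + κ) := Real.rpow_pos_of_pos hr0 _
  rcases le_or_gt (x ^ 4) r with h | h
  · have h1 := h12 h
    have h2 : g ^ 12 ≤ (r ^ (7 / 12 + κ)) ^ 12 := by
      refine h1.trans ?_
      rw [← Real.rpow_natCast, ← Real.rpow_mul hr0.le]
      apply Real.rpow_le_rpow_of_exponent_le hr
      push_cast
      linarith
    have h3 : g ≤ r ^ (7 / 12 + κ) := le_of_pow_le_pow_left₀ (by norm_num) hp.le h2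
    linarith
  · have h1 : x ^ (-2 : ℝ) ≤ r ^ (-(1 / 2) : ℝ) := by
      have e1 : x ^ (-2 : ℝ) = (x ^ 4) ^ (-(1 / 2) : ℝ) := by
        rw [← Real.rpow_natCast, ← Real.rpow_mul hx.le]
        norm_num
      rw [e1]
      exact Real.rpow_le_rpow_of_nonpos hr0 h.le (by norm_num)
    have h2 : x ^ (-2 : ℝ) * (x ^ 3 / r) ≤ r ^ (-(1 / 2) + κ) := by
      have e1 : x ^ (-2 : ℝ) * (x ^ 3 / r) = x * r⁻¹ := by
        have : x ^ (-2 : ℝ) = (x ^ 2)⁻¹ := by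
          rw [Real.rpow_neg hx.le]
          norm_num
        rw [this]
        field_simp
      rw [e1]
      calc x * r⁻¹ ≤ r ^ (1 / 2 + κ) * r⁻¹ := mul_le_mul_of_nonneg_right hxr (by positivity)
        _ = r ^ (-(1 / 2) + κ) := by
          rw [← Real.rpow_neg_one r, ← Real.rpow_add hr0]
          congr 1
          ring
    have h3 : r ^ (-(1 / 2) : ℝ) ≤ r ^ (-(1 / 2) + κ) := Real.rpow_le_rpow_of_exponent_le hr (by linarith)
    have h4 : g ^ 6 ≤ 2 * (r ^ (4 + κ) * r ^ (-(1 / 2) + κ)) := by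
      have h5 : r ^ (4 + κ) * x ^ (-2 : ℝ) * (1 + x ^ 3 / r) =
          r ^ (4 + κ) * (x ^ (-2 : ℝ) + x ^ (-2 : ℝ) * (x ^ 3 / r)) := by ring
      rw [h5] at h6
      have h7 : r ^ (4 + κ) * (x ^ (-2 : ℝ) + x ^ (-2 : ℝ) * (x ^ 3 / r)) ≤
          r ^ (4 + κ) * (r ^ (-(1 / 2) + κ) + r ^ (-(1 / 2) + κ)) :=
        mul_le_mul_of_nonneg_left (by linarith) (Real.rpow_nonneg hr0.le _)
      linarith
    have h5 : 2 * (r ^ (4 + κ) * r ^ (-(1 / 2) + κ)) ≤ (2 * r ^ (7 / 12 + κ)) ^ 6 := by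
      rw [← Real.rpow_add hr0, mul_pow, ← Real.rpow_natCast (r ^ (7 / 12 + κ)), ← Real.rpow_mul hr0.le]
      have h8 : r ^ (4 + κ + (-(1 / 2) + κ)) ≤ r ^ ((7 / 12 + κ) * ((6 : ℕ) : ℝ)) := by
        apply Real.rpow_le_rpow_of_exponent_le hr
        push_cast
        linarith
      have h9 : 0 ≤ r ^ ((7 / 12 + κ) * ((6 : ℕ) : ℝ)) := Real.rpow_nonneg hr0.le _
      linarith
    exact le_of_pow_le_pow_left₀ (by norm_num) (by positivity) (h4.trans h5)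

private lemma int_h93 {r κ x : ℝ} (hr : 1 ≤ r) (hκ : 0 < κ) (hx : 0 < x) {g : ℝ → ℝ}
    (hc : Continuous g) (hg : ∀ R, 0 ≤ g R)
    (hs : ∀ R ∈ Icc r (2 * r), g R ≤ 2 * r ^ (7 / 12 + κ))
    (hs2 : ∀ R ∈ Icc r (2 * r), g R ^ 2 ≤ r ^ (1 + 2 * κ) * x)
    (h6 : ∫ R in Icc r (2 * r), g R ^ 6 ≤ r ^ (4 + κ) * x ^ (-3 : ℝ) * (1 + x ^ 3 / r))
    (h12 : x ^ 4 ≤ r → ∫ R in Icc r (2 * r), g R ^ 12 ≤ r ^ (7 + κ) * x ^ (-1 : ℝ)) :
    ∫ R in Icc r (2 * r), g R ^ 14 ≤ 2 ^ 9 * r ^ (8 + 9 * κ) := by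
  have hr0 : 0 < r := by linarith
  have hint : ∀ m : ℕ, IntegrableOn (fun R => g R ^ m) (Icc r (2 * r)) := fun m =>
    (hc.pow m).continuousOn.integrableOn_compact isCompact_Icc
  rcases le_or_gt (x ^ 4) r with h | h
  · have h1 : ∫ R in Icc r (2 * r), g R ^ 14 ≤ ∫ R in Icc r (2 * r), (r ^ (1 + 2 * κ) * x) * g R ^ 12 := by
      refine setIntegral_mono_on (hint 14) ((hint 12).const_mul _) measurableSet_Icc fun R hR => ?_
      have h2 := hs2 R hR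
      have h3 : 0 ≤ g R ^ 12 := by have := hg R; positivity
      calc g R ^ 14 = g R ^ 2 * g R ^ 12 := by ring
        _ ≤ (r ^ (1 + 2 * κ) * x) * g R ^ 12 := mul_le_mul_of_nonneg_right h2 h3
    rw [integral_const_mul] at h1
    have h2 : (r ^ (1 + 2 * κ) * x) * ∫ R in Icc r (2 * r), g R ^ 12 ≤
        (r ^ (1 + 2 * κ) * x) * (r ^ (7 + κ) * x ^ (-1 : ℝ)) :=
      mul_le_mul_of_nonneg_left (h12 h) (by positivity)
    have h3 : (r ^ (1 + 2 * κ) * x) * (r ^ (7 + κ) * x ^ (-1 : ℝ)) = r ^ (8 + 3 * κ) := by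
      rw [Real.rpow_neg_one]
      have : r ^ (8 + 3 * κ) = r ^ (1 + 2 * κ) * r ^ (7 + κ) := by
        rw [← Real.rpow_add hr0]
        congr 1
        ring
      rw [this]
      field_simp
    have h4 : r ^ (8 + 3 * κ) ≤ r ^ (8 + 9 * κ) := Real.rpow_le_rpow_of_exponent_le hr (by linarith)
    have h5 : 0 ≤ r ^ (8 + 9 * κ) := Real.rpow_nonneg hr0.le _
    linarith
  · have h1 : ∫ R in Icc r (2 * r), g R ^ 14 ≤ ∫ R in Icc r (2 * r), (2 * r ^ (7 / 12 + κ)) ^ 8 * g R ^ 6 := by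
      refine setIntegral_mono_on (hint 14) ((hint 6).const_mul _) measurableSet_Icc fun R hR => ?_
      have h2 : g R ^ 8 ≤ (2 * r ^ (7 / 12 + κ)) ^ 8 := pow_le_pow_left₀ (hg R) (hs R hR) 8
      have h3 : 0 ≤ g R ^ 6 := by have := hg R; positivity
      calc g R ^ 14 = g R ^ 8 * g R ^ 6 := by ring
        _ ≤ (2 * r ^ (7 / 12 + κ)) ^ 8 * g R ^ 6 := mul_le_mul_of_nonneg_right h2 h3
    rw [integral_const_mul] at h1
    have h2 : x ^ (-3 : ℝ) ≤ r ^ (-(3 / 4) : ℝ) := by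
      have e1 : x ^ (-3 : ℝ) = (x ^ 4) ^ (-(3 / 4) : ℝ) := by
        rw [← Real.rpow_natCast, ← Real.rpow_mul hx.le]
        norm_num
      rw [e1]
      exact Real.rpow_le_rpow_of_nonpos hr0 h.le (by norm_num)
    have h3 : x ^ (-3 : ℝ) * (x ^ 3 / r) ≤ r ^ (-(3 / 4) : ℝ) := by
      have e1 : x ^ (-3 : ℝ) * (x ^ 3 / r) = r ^ (-1 : ℝ) := by
        have : x ^ (-3 : ℝ) = (x ^ 3)⁻¹ := by
          rw [Real.rpow_neg hx.le]
          norm_num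
        rw [this, Real.rpow_neg_one]
        field_simp
      rw [e1]
      exact Real.rpow_le_rpow_of_exponent_le hr (by norm_num)
    have h4 : r ^ (4 + κ) * x ^ (-3 : ℝ) * (1 + x ^ 3 / r) ≤ 2 * r ^ (13 / 4 + κ) := by
      have e1 : r ^ (4 + κ) * x ^ (-3 : ℝ) * (1 + x ^ 3 / r) =
          r ^ (4 + κ) * (x ^ (-3 : ℝ) + x ^ (-3 : ℝ) * (x ^ 3 / r)) := by ring
      have e2 : r ^ (13 / 4 + κ) = r ^ (4 + κ) * r ^ (-(3 / 4) : ℝ) := by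
        rw [← Real.rpow_add hr0]
        congr 1
        ring
      rw [e1, e2]
      have h7 : r ^ (4 + κ) * (x ^ (-3 : ℝ) + x ^ (-3 : ℝ) * (x ^ 3 / r)) ≤
          r ^ (4 + κ) * (r ^ (-(3 / 4) : ℝ) + r ^ (-(3 / 4) : ℝ)) :=
        mul_le_mul_of_nonneg_left (by linarith) (Real.rpow_nonneg hr0.le _)
      linarith
    have h5 : (2 * r ^ (7 / 12 + κ)) ^ 8 * ∫ R in Icc r (2 * r), g R ^ 6 ≤
        (2 * r ^ (7 / 12 + κ)) ^ 8 * (2 * r ^ (13 / 4 + κ)) :=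
      mul_le_mul_of_nonneg_left (h6.trans h4) (by positivity)
    have h8 : (2 * r ^ (7 / 12 + κ)) ^ 8 * (2 * r ^ (13 / 4 + κ)) ≤ 2 ^ 9 * r ^ (8 + 9 * κ) := by
      rw [mul_pow, ← Real.rpow_natCast (r ^ (7 / 12 + κ)), ← Real.rpow_mul hr0.le]
      have e3 : 2 ^ 8 * r ^ ((7 / 12 + κ) * ((8 : ℕ) : ℝ)) * (2 * r ^ (13 / 4 + κ)) =
          2 ^ 9 * (r ^ ((7 / 12 + κ) * ((8 : ℕ) : ℝ)) * r ^ (13 / 4 + κ)) := by ring
      rw [e3, ← Real.rpow_add hr0]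
      have h9 : r ^ ((7 / 12 + κ) * ((8 : ℕ) : ℝ) + (13 / 4 + κ)) ≤ r ^ (8 + 9 * κ) := by
        apply Real.rpow_le_rpow_of_exponent_le hr
        push_cast
        linarith
      linarith
    linarith

private lemma grow_h93 {ε K : ℝ} (hε : 0 < ε) : ∃ N₁ : ℕ, ∀ N : ℕ, N₁ ≤ N →
    K * (2 * (N : ℝ) + 1) ^ 14 ≤ ((2 : ℝ) ^ N) ^ (ε / 2) := by
  have hb : (1 : ℝ) < (2 : ℝ) ^ (ε / 2) := Real.one_lt_rpow (by norm_num) (by linarith)
  have h1 := (tendsto_pow_const_div_const_pow_of_one_lt 14 hb).const_mul (|K| * 3 ^ 14)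
  rw [mul_zero] at h1
  have h2 := (h1.eventually (gt_mem_nhds (zero_lt_one))).and (eventually_ge_atTop 1)
  obtain ⟨N₁, hN₁⟩ := eventually_atTop.1 h2
  refine ⟨N₁, fun N hN => ?_⟩
  obtain ⟨h3, h4⟩ := hN₁ N hN
  have hN1 : (1 : ℝ) ≤ N := by exact_mod_cast h4
  have hbN : 0 < ((2 : ℝ) ^ (ε / 2)) ^ N := by positivity
  have e1 : ((2 : ℝ) ^ N) ^ (ε / 2) = ((2 : ℝ) ^ (ε / 2)) ^ N := by
    rw [← Real.rpow_natCast, ← Real.rpow_natCast, ← Real.rpow_mul (by norm_num), ← Real.rpow_mul (by norm_num),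
      mul_comm]
  rw [e1]
  have h5 : |K| * 3 ^ 14 * (N : ℝ) ^ 14 ≤ ((2 : ℝ) ^ (ε / 2)) ^ N := by
    have h6 : |K| * 3 ^ 14 * (N : ℝ) ^ 14 / ((2 : ℝ) ^ (ε / 2)) ^ N < 1 := by
      rw [mul_div_assoc]
      exact h3
    rw [div_lt_one hbN] at h6
    exact h6.le
  have h7 : (2 * (N : ℝ) + 1) ^ 14 ≤ (3 * N) ^ 14 := pow_le_pow_left₀ (by linarith) (by linarith) 14
  have h8 : K * (2 * (N : ℝ) + 1) ^ 14 ≤ |K| * (3 * N) ^ 14 :=
    mul_le_mul (le_abs_self _) h7 (by positivity) (abs_nonneg _)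
  have h9 : |K| * (3 * (N : ℝ)) ^ 14 = |K| * 3 ^ 14 * (N : ℝ) ^ 14 := by
    rw [mul_pow]
    ring
  linarith

theorem ae_range {H : ℝ → ℝ} (hH : IsSupp H) (h5 : ContDiff ℝ 5 H) {ε : ℝ} (hε : 0 < ε) :
    ∀ᵐ c ∂(volume.restrict (Icc (0 : ℝ) 1 ×ˢ Icc (0 : ℝ) 1)), ∃ N₀ : ℕ, ∀ N : ℕ, N₀ ≤ N →
      (∀ R ∈ Icc ((2 : ℝ) ^ N) (2 * 2 ^ N), |erc H c R| ≤ ((2 : ℝ) ^ N) ^ (7 / 12 + ε)) ∧
        ∫ R in Icc ((2 : ℝ) ^ N) (2 * 2 ^ N), |erc H c R| ^ (14 : ℝ) ≤ ((2 : ℝ) ^ N) ^ (8 + ε) := by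
  classical
  obtain ⟨φ, hφ⟩ := exists_bump
  obtain ⟨κ, hκd⟩ : ∃ κ : ℝ, κ = min ε 1 / 64 := ⟨_, rfl⟩
  have hκ : 0 < κ := by rw [hκd]; positivity
  have hκε : κ ≤ ε / 64 := by
    rw [hκd]
    have := min_le_left ε 1
    linarith
  have hκ1 : κ ≤ 1 / 64 := by
    rw [hκd]
    have := min_le_right ε 1
    linarith
  obtain ⟨C, R₁, hR₁, HD⟩ := errc_le_blocks hH hφ (τ := 1 / 2) (e2 := κ) (by norm_num) (by norm_num) hκ
  obtain ⟨K, hK⟩ : ∃ K : ℝ, K = 1 + |C| + 2 ^ 13 * |C| ^ 14 + 2 ^ 36 := ⟨_, rfl⟩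
  obtain ⟨N₁, hN₁⟩ := grow_h93 (K := K) hε
  obtain ⟨N₂, hN₂⟩ : ∃ N₂ : ℕ, R₁ ≤ 2 ^ N₂ := by
    obtain ⟨n, hn⟩ := pow_unbounded_of_one_lt R₁ (one_lt_two : (1 : ℝ) < 2)
    exact ⟨n, hn.le⟩
  filter_upwards [ae_blocks hH h5 hφ hκ] with c hc
  obtain ⟨N₀, hN₀⟩ := hc
  refine ⟨max N₀ (max N₁ N₂), fun N hN => ?_⟩
  have hNN : N₀ ≤ N := (le_max_left _ _).trans hN
  have hNN1 : N₁ ≤ N := ((le_max_left _ _).trans (le_max_right _ _)).trans hN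
  have hNN2 : N₂ ≤ N := ((le_max_right _ _).trans (le_max_right _ _)).trans hN
  have HP : ∀ n : ℕ, n ≤ N → _ := fun n hn => hN₀ N hNN n hn 1 (Or.inl rfl) (2 ^ N) rfl
  have HM : ∀ n : ℕ, n ≤ N → _ := fun n hn => hN₀ N hNN n hn (-1) (Or.inr rfl) (2 ^ N) rfl
  have hgrow := hN₁ N hNN1
  have hr : (1 : ℝ) ≤ 2 ^ N := one_le_pow₀ (by norm_num)
  have hRr : R₁ ≤ (2 : ℝ) ^ N := hN₂.trans (pow_le_pow_right₀ (by norm_num) hNN2)
  obtain ⟨r, hrd⟩ : ∃ r : ℝ, r = 2 ^ N := ⟨_, rfl⟩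
  rw [← hrd] at hgrow hr hRr HP HM ⊢
  have hr0 : 0 < r := by linarith
  choose! gp hp1 hp2 hp3 hp4 hp5 using HP
  choose! gm hm1 hm2 hm3 hm4 hm5 using HM
  have hex : ∃ n1 : ℕ, r ^ (1 / 2 + κ) ≤ 2 ^ n1 := by
    obtain ⟨n, hn⟩ := pow_unbounded_of_one_lt (r ^ (1 / 2 + κ)) (one_lt_two : (1 : ℝ) < 2)
    exact ⟨n, hn.le⟩
  obtain ⟨n1, hn1d⟩ : ∃ n1, n1 = Nat.find hex := ⟨_, rfl⟩
  have hn1 : r ^ (1 / 2 + κ) ≤ 2 ^ n1 := by rw [hn1d]; exact Nat.find_spec hex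
  have hn1N : n1 ≤ N := by
    rw [hn1d]
    apply Nat.find_min'
    rw [← hrd]
    calc r ^ (1 / 2 + κ) ≤ r ^ (1 : ℝ) := Real.rpow_le_rpow_of_exponent_le hr (by linarith)
      _ = r := Real.rpow_one _
  have hlt : ∀ n ∈ Finset.range n1, n ≤ N ∧ (2 : ℝ) ^ n ≤ r ^ (1 / 2 + κ) := by
    intro n hn
    have h1 := Finset.mem_range.1 hn
    refine ⟨by omega, ?_⟩
    have h2 : ¬ r ^ (1 / 2 + κ) ≤ 2 ^ n := by
      apply Nat.find_min hex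
      rw [← hn1d]
      exact h1
    exact (not_le.1 h2).le
  have e8 : ∀ n : ℕ, (8 : ℝ) ^ n = (2 ^ n) ^ 3 := fun n => by
    rw [← pow_mul, mul_comm, pow_mul]
    norm_num
  have e16 : ∀ n : ℕ, (16 : ℝ) ^ n = (2 ^ n) ^ 4 := fun n => by
    rw [← pow_mul, mul_comm, pow_mul]
    norm_num
  have esq : ∀ n : ℕ, (r ^ (1 / 2 + κ) * (2 : ℝ) ^ ((n : ℝ) / 2)) ^ 2 = r ^ (1 + 2 * κ) * 2 ^ n := fun n => by
    rw [mul_pow, ← Real.rpow_natCast (r ^ (1 / 2 + κ)), ← Real.rpow_mul hr0.le,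
      ← Real.rpow_natCast ((2 : ℝ) ^ ((n : ℝ) / 2)), ← Real.rpow_mul (by norm_num), ← Real.rpow_natCast (2 : ℝ) n]
    congr 2
    · push_cast
      ring
    · push_cast
      ring
  -- the suprema of the single functions
  have hsp : ∀ n ∈ Finset.range n1, ∀ R ∈ Icc r (2 * r), gp n R ≤ 2 * r ^ (7 / 12 + κ) := by
    intro n hn R hR
    obtain ⟨h1, h2⟩ := hlt n hn
    obtain ⟨-, -, h6, h12⟩ := hp3 n h1 R hR
    rw [e8] at h6
    rw [e16] at h12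
    exact sup_h93 hr hκ (by positivity) h2 h6 h12
  have hsm : ∀ n ∈ Finset.range n1, ∀ R ∈ Icc r (2 * r), gm n R ≤ 2 * r ^ (7 / 12 + κ) := by
    intro n hn R hR
    obtain ⟨h1, h2⟩ := hlt n hn
    obtain ⟨-, -, h6, h12⟩ := hm3 n h1 R hR
    rw [e8] at h6
    rw [e16] at h12
    exact sup_h93 hr hκ (by positivity) h2 h6 h12
  -- the integrals of the single functions
  have hip : ∀ n ∈ Finset.range n1, ∫ R in Icc r (2 * r), gp n R ^ 14 ≤ 2 ^ 9 * r ^ (8 + 9 * κ) := by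
    intro n hn
    obtain ⟨h1, h2⟩ := hlt n hn
    have h6 := hp4 n h1
    have h12 := hp5 n h1
    rw [e8] at h6
    rw [e16] at h12
    refine int_h93 hr hκ (x := 2 ^ n) (by positivity) (hp1 n h1) (hp2 n h1) (hsp n hn) ?_ h6 h12
    intro R hR
    rw [← esq]
    exact pow_le_pow_left₀ (hp2 n h1 R) (hp3 n h1 R hR).2.1 2
  have him : ∀ n ∈ Finset.range n1, ∫ R in Icc r (2 * r), gm n R ^ 14 ≤ 2 ^ 9 * r ^ (8 + 9 * κ) := by
    intro n hn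
    obtain ⟨h1, h2⟩ := hlt n hn
    have h6 := hm4 n h1
    have h12 := hm5 n h1
    rw [e8] at h6
    rw [e16] at h12
    refine int_h93 hr hκ (x := 2 ^ n) (by positivity) (hm1 n h1) (hm2 n h1) (hsm n hn) ?_ h6 h12
    intro R hR
    rw [← esq]
    exact pow_le_pow_left₀ (hm2 n h1 R) (hm3 n h1 R hR).2.1 2
  -- the majorant
  have hmaj : ∀ R ∈ Icc r (2 * r), |erc H c R| ≤ |C| * r ^ (1 / 2 : ℝ) + ∑ n ∈ Finset.range n1, (gp n R + gm n R) := by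
    intro R hR
    obtain ⟨σ, hσ, hsupp, hle⟩ := HD r hRr R hR c n1 hn1
    have h1 : C * r ^ (1 - 1 / 2 : ℝ) ≤ |C| * r ^ (1 / 2 : ℝ) := by
      have e : (1 - 1 / 2 : ℝ) = 1 / 2 := by norm_num
      rw [e]
      exact mul_le_mul_of_nonneg_right (le_abs_self _) (by positivity)
    have h2 : ∑ n ∈ Finset.range n1, ‖VKc φ (fun θ => R * H θ + σ * r ^ (-(1 / 2) : ℝ)) (r ^ (-(1 / 2) : ℝ)) n c‖ ≤
        ∑ n ∈ Finset.range n1, (gp n R + gm n R) := by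
      refine Finset.sum_le_sum fun n hn => ?_
      obtain ⟨h3, -⟩ := hlt n hn
      rcases hσ with rfl | rfl
      · have h4 := (hp3 n h3 R hR).1 hsupp
        have h5 := hm2 n h3 R
        linarith
      · have h4 := (hm3 n h3 R hR).1 hsupp
        have h5 := hp2 n h3 R
        linarith
    have h3 : |erc H c R| ≤ C * r ^ (1 - 1 / 2 : ℝ) +
        ∑ n ∈ Finset.range n1, ‖VKc φ (fun θ => R * H θ + σ * r ^ (-(1 / 2) : ℝ)) (r ^ (-(1 / 2) : ℝ)) n c‖ := hle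
    linarith
  have hnN : (n1 : ℝ) ≤ N := by exact_mod_cast hn1N
  have hN0 : (0 : ℝ) ≤ N := Nat.cast_nonneg _
  have hpow1 : (1 : ℝ) ≤ (2 * (N : ℝ) + 1) ^ 14 := one_le_pow₀ (by linarith)
  have hpowN : (2 * (N : ℝ) + 1) ≤ (2 * (N : ℝ) + 1) ^ 14 := le_self_pow₀ (by linarith) (by norm_num)
  have hKpos : 0 < K := by
    have := abs_nonneg C
    rw [hK]
    positivity
  constructor
  · intro R hR
    have h1 := hmaj R hR
    have h2 : ∑ n ∈ Finset.range n1, (gp n R + gm n R) ≤ ∑ n ∈ Finset.range n1, 4 * r ^ (7 / 12 + κ) :=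
      Finset.sum_le_sum fun n hn => by
        have h3 := hsp n hn R hR
        have h4 := hsm n hn R hR
        linarith
    rw [Finset.sum_const, Finset.card_range, nsmul_eq_mul] at h2
    have h3 : r ^ (1 / 2 : ℝ) ≤ r ^ (7 / 12 + κ) := Real.rpow_le_rpow_of_exponent_le hr (by linarith)
    have h4 : 0 < r ^ (7 / 12 + κ) := Real.rpow_pos_of_pos hr0 _
    have h6 : |erc H c R| ≤ (|C| + 4 * N) * r ^ (7 / 12 + κ) := by
      have h7 : |C| * r ^ (1 / 2 : ℝ) ≤ |C| * r ^ (7 / 12 + κ) := mul_le_mul_of_nonneg_left h3 (abs_nonneg _)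
      have h8 : (n1 : ℝ) * (4 * r ^ (7 / 12 + κ)) ≤ N * (4 * r ^ (7 / 12 + κ)) :=
        mul_le_mul_of_nonneg_right hnN (by positivity)
      nlinarith
    have h7 : |C| + 4 * N ≤ K * (2 * (N : ℝ) + 1) ^ 14 := by
      have h8 : |C| + 4 * N ≤ K * (2 * N + 1) := by
        have h9 : (2 : ℝ) ^ 36 ≤ K := by
          rw [hK]
          have := abs_nonneg C
          have : 0 ≤ 2 ^ 13 * |C| ^ 14 := by positivity
          linarith
        have h10 : |C| ≤ K := by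
          rw [hK]
          have : 0 ≤ 2 ^ 13 * |C| ^ 14 := by positivity
          linarith
        nlinarith
      exact h8.trans (mul_le_mul_of_nonneg_left hpowN hKpos.le)
    calc |erc H c R| ≤ (|C| + 4 * N) * r ^ (7 / 12 + κ) := h6
      _ ≤ r ^ (ε / 2) * r ^ (7 / 12 + κ) := mul_le_mul_of_nonneg_right (h7.trans hgrow) h4.le
      _ = r ^ (ε / 2 + (7 / 12 + κ)) := by rw [← Real.rpow_add hr0]
      _ ≤ r ^ (7 / 12 + ε) := Real.rpow_le_rpow_of_exponent_le hr (by linarith)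
  · have e14 : ∀ x : ℝ, x ^ (14 : ℝ) = x ^ (14 : ℕ) := fun x => by
      rw [← Real.rpow_natCast]
      norm_num
    have hintp : ∀ n ∈ Finset.range n1, IntegrableOn (fun R => gp n R ^ 14) (Icc r (2 * r)) := fun n hn =>
      ((hp1 n (hlt n hn).1).pow 14).continuousOn.integrableOn_compact isCompact_Icc
    have hintm : ∀ n ∈ Finset.range n1, IntegrableOn (fun R => gm n R ^ 14) (Icc r (2 * r)) := fun n hn =>
      ((hm1 n (hlt n hn).1).pow 14).continuousOn.integrableOn_compact isCompact_Icc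
    have hpt : ∀ R ∈ Icc r (2 * r), |erc H c R| ^ (14 : ℝ) ≤ 2 ^ 13 * (|C| * r ^ (1 / 2 : ℝ)) ^ 14 +
        2 ^ 26 * (N : ℝ) ^ 13 * ∑ n ∈ Finset.range n1, (gp n R ^ 14 + gm n R ^ 14) := by
      intro R hR
      have hy : ∀ n ∈ Finset.range n1, 0 ≤ gp n R + gm n R := fun n hn =>
        add_nonneg (hp2 n (hlt n hn).1 R) (hm2 n (hlt n hn).1 R)
      rw [e14]
      have h1 : |erc H c R| ^ 14 ≤ (|C| * r ^ (1 / 2 : ℝ) + ∑ n ∈ Finset.range n1, (gp n R + gm n R)) ^ 14 :=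
        pow_le_pow_left₀ (abs_nonneg _) (hmaj R hR) 14
      have h2 := add_pow_le (a := |C| * r ^ (1 / 2 : ℝ)) (b := ∑ n ∈ Finset.range n1, (gp n R + gm n R))
        (by positivity) (Finset.sum_nonneg hy) 14
      have h3 : (∑ n ∈ Finset.range n1, (gp n R + gm n R)) ^ 14 ≤
          (N : ℝ) ^ 13 * ∑ n ∈ Finset.range n1, (gp n R + gm n R) ^ 14 := by
        have hsn : 0 ≤ ∑ n ∈ Finset.range n1, (gp n R + gm n R) ^ 14 :=
          Finset.sum_nonneg fun n hn => pow_nonneg (hy n hn) 14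
        rcases Nat.eq_zero_or_pos n1 with h0 | h0
        · subst h0
          simp
        · have h4 := pow_sum_div_card_le_sum_pow (s := Finset.range n1) (f := fun n => gp n R + gm n R) hy 13
          rw [Finset.card_range, div_le_iff₀ (by positivity)] at h4
          have h5 : (n1 : ℝ) ^ 13 ≤ (N : ℝ) ^ 13 := pow_le_pow_left₀ (by positivity) hnN 13
          have h6 := mul_le_mul_of_nonneg_left h5 hsn
          norm_num at h4 h6 ⊢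
          linarith
      have h4 : ∑ n ∈ Finset.range n1, (gp n R + gm n R) ^ 14 ≤
          2 ^ 13 * ∑ n ∈ Finset.range n1, (gp n R ^ 14 + gm n R ^ 14) := by
        rw [Finset.mul_sum]
        refine Finset.sum_le_sum fun n hn => ?_
        have h5 := add_pow_le (hp2 n (hlt n hn).1 R) (hm2 n (hlt n hn).1 R) 14
        norm_num at h5 ⊢
        linarith
      have h5 : (N : ℝ) ^ 13 * ∑ n ∈ Finset.range n1, (gp n R + gm n R) ^ 14 ≤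
          (N : ℝ) ^ 13 * (2 ^ 13 * ∑ n ∈ Finset.range n1, (gp n R ^ 14 + gm n R ^ 14)) :=
        mul_le_mul_of_nonneg_left h4 (by positivity)
      have h6 := h3.trans h5
      have e1 : (14 - 1 : ℕ) = 13 := rfl
      rw [e1] at h2
      have h7 : 2 ^ 13 * ((|C| * r ^ (1 / 2 : ℝ)) ^ 14 + (∑ n ∈ Finset.range n1, (gp n R + gm n R)) ^ 14) ≤
          2 ^ 13 * ((|C| * r ^ (1 / 2 : ℝ)) ^ 14 +
            (N : ℝ) ^ 13 * (2 ^ 13 * ∑ n ∈ Finset.range n1, (gp n R ^ 14 + gm n R ^ 14))) :=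
        mul_le_mul_of_nonneg_left (by linarith) (by norm_num)
      refine (h1.trans (h2.trans h7)).trans (le_of_eq ?_)
      ring
    have hsumint : IntegrableOn (fun R => ∑ n ∈ Finset.range n1, (gp n R ^ 14 + gm n R ^ 14)) (Icc r (2 * r)) :=
      integrable_finsetSum _ fun n hn => (hintp n hn).add (hintm n hn)
    have hcint : IntegrableOn (fun _ : ℝ => 2 ^ 13 * (|C| * r ^ (1 / 2 : ℝ)) ^ 14) (Icc r (2 * r)) :=
      continuous_const.continuousOn.integrableOn_compact isCompact_Icc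
    have h1 : ∫ R in Icc r (2 * r), |erc H c R| ^ (14 : ℝ) ≤ ∫ R in Icc r (2 * r),
        (2 ^ 13 * (|C| * r ^ (1 / 2 : ℝ)) ^ 14 +
          2 ^ 26 * (N : ℝ) ^ 13 * ∑ n ∈ Finset.range n1, (gp n R ^ 14 + gm n R ^ 14)) :=
      setIntegral_mono_on (Pool.Agent.Helper22.SC.erc_meas hH c (by norm_num) hr)
        (hcint.add (hsumint.const_mul _)) measurableSet_Icc hpt
    have hvol : volume.real (Icc r (2 * r)) = r := by
      rw [Real.volume_real_Icc_of_le (by linarith)]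
      ring
    have hI1 : ∫ _ in Icc r (2 * r), 2 ^ 13 * (|C| * r ^ (1 / 2 : ℝ)) ^ 14 =
        r * (2 ^ 13 * (|C| * r ^ (1 / 2 : ℝ)) ^ 14) := by
      rw [setIntegral_const, hvol, smul_eq_mul]
    have hI2 : ∫ R in Icc r (2 * r), 2 ^ 26 * (N : ℝ) ^ 13 * ∑ n ∈ Finset.range n1, (gp n R ^ 14 + gm n R ^ 14) =
        2 ^ 26 * (N : ℝ) ^ 13 * ∑ n ∈ Finset.range n1, ∫ R in Icc r (2 * r), (gp n R ^ 14 + gm n R ^ 14) := by
      rw [integral_const_mul]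
      congr 1
      exact integral_finsetSum _ (fun n hn => (hintp n hn).add (hintm n hn))
    rw [integral_add hcint (hsumint.const_mul _), hI1, hI2] at h1
    have h2 : ∑ n ∈ Finset.range n1, ∫ R in Icc r (2 * r), (gp n R ^ 14 + gm n R ^ 14) ≤
        ∑ n ∈ Finset.range n1, 2 ^ 10 * r ^ (8 + 9 * κ) := by
      refine Finset.sum_le_sum fun n hn => ?_
      rw [integral_add (hintp n hn) (hintm n hn)]
      have h3 := hip n hn
      have h4 := him n hn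
      norm_num at h3 h4 ⊢
      linarith
    rw [Finset.sum_const, Finset.card_range, nsmul_eq_mul] at h2
    have hq : 0 < r ^ (8 + 9 * κ) := Real.rpow_pos_of_pos hr0 _
    have h3 : 2 ^ 26 * (N : ℝ) ^ 13 * ∑ n ∈ Finset.range n1, ∫ R in Icc r (2 * r), (gp n R ^ 14 + gm n R ^ 14) ≤
        2 ^ 36 * (N : ℝ) ^ 14 * r ^ (8 + 9 * κ) := by
      have h4 : (n1 : ℝ) * (2 ^ 10 * r ^ (8 + 9 * κ)) ≤ N * (2 ^ 10 * r ^ (8 + 9 * κ)) :=
        mul_le_mul_of_nonneg_right hnN (by positivity)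
      calc 2 ^ 26 * (N : ℝ) ^ 13 * ∑ n ∈ Finset.range n1, ∫ R in Icc r (2 * r), (gp n R ^ 14 + gm n R ^ 14)
          ≤ 2 ^ 26 * (N : ℝ) ^ 13 * (N * (2 ^ 10 * r ^ (8 + 9 * κ))) :=
            mul_le_mul_of_nonneg_left (h2.trans h4) (by positivity)
        _ = 2 ^ 36 * (N : ℝ) ^ 14 * r ^ (8 + 9 * κ) := by ring
    have h4 : r * (2 ^ 13 * (|C| * r ^ (1 / 2 : ℝ)) ^ 14) ≤ 2 ^ 13 * |C| ^ 14 * r ^ (8 + 9 * κ) := by
      have e1 : (r ^ (1 / 2 : ℝ)) ^ 14 = r ^ (7 : ℝ) := by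
        rw [← Real.rpow_natCast (r ^ (1 / 2 : ℝ)), ← Real.rpow_mul hr0.le]
        congr 1
        norm_num
      have e2 : r * r ^ (7 : ℝ) = r ^ (8 : ℝ) := by
        nth_rw 1 [← Real.rpow_one r]
        rw [← Real.rpow_add hr0]
        norm_num
      calc r * (2 ^ 13 * (|C| * r ^ (1 / 2 : ℝ)) ^ 14) = 2 ^ 13 * |C| ^ 14 * (r * (r ^ (1 / 2 : ℝ)) ^ 14) := by
            rw [mul_pow]
            ring
        _ = 2 ^ 13 * |C| ^ 14 * r ^ (8 : ℝ) := by rw [e1, e2]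
        _ ≤ 2 ^ 13 * |C| ^ 14 * r ^ (8 + 9 * κ) := by
            apply mul_le_mul_of_nonneg_left _ (by positivity)
            exact Real.rpow_le_rpow_of_exponent_le hr (by linarith)
    have h6 : 2 ^ 13 * |C| ^ 14 + 2 ^ 36 * (N : ℝ) ^ 14 ≤ K * (2 * (N : ℝ) + 1) ^ 14 := by
      have h7 : (N : ℝ) ^ 14 ≤ (2 * (N : ℝ) + 1) ^ 14 := pow_le_pow_left₀ hN0 (by linarith) 14
      have h8 : 0 ≤ 2 ^ 13 * |C| ^ 14 := by positivity
      have h9 : K * (2 * (N : ℝ) + 1) ^ 14 = (1 + |C|) * (2 * (N : ℝ) + 1) ^ 14 +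
          2 ^ 13 * |C| ^ 14 * (2 * (N : ℝ) + 1) ^ 14 + 2 ^ 36 * (2 * (N : ℝ) + 1) ^ 14 := by
        rw [hK]
        ring
      have h10 : 0 ≤ (1 + |C|) * (2 * (N : ℝ) + 1) ^ 14 := by
        have := abs_nonneg C
        positivity
      have h11 : 2 ^ 13 * |C| ^ 14 ≤ 2 ^ 13 * |C| ^ 14 * (2 * (N : ℝ) + 1) ^ 14 := le_mul_of_one_le_right h8 hpow1
      have h12 : 2 ^ 36 * (N : ℝ) ^ 14 ≤ 2 ^ 36 * (2 * (N : ℝ) + 1) ^ 14 :=
        mul_le_mul_of_nonneg_left h7 (by positivity)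
      linarith
    calc ∫ R in Icc r (2 * r), |erc H c R| ^ (14 : ℝ)
        ≤ (2 ^ 13 * |C| ^ 14 + 2 ^ 36 * (N : ℝ) ^ 14) * r ^ (8 + 9 * κ) := by
          rw [add_mul]
          linarith
      _ ≤ r ^ (ε / 2) * r ^ (8 + 9 * κ) := mul_le_mul_of_nonneg_right (h6.trans hgrow) hq.le
      _ = r ^ (ε / 2 + (8 + 9 * κ)) := by rw [← Real.rpow_add hr0]
      _ ≤ r ^ (8 + ε) := Real.rpow_le_rpow_of_exponent_le hr (by linarith)

end Pool.Agent.Helper60.SV
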